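import Pool.Agent.Lib.MP_751085_ag.ZC.Z.Cen2

/-! Block Z: principal centres. -/

namespace Pool.Agent.ZCy

open scoped Classical WithZero Polynomial

set_option linter.unusedSectionVars false

section

variable {A K E : Type} [CommRing A] [Field K] [Field E] [Algebra K E]

/-- the centre of a valuation as an ideal -/
def cen_idl (φ : A →+* E) (w : Vl E) (h : ∀ a, w (φ a) ≤ 1) : Ideal A where
  carrier := {a | w (φ a) < 1}
  zero_mem' := by simp
  add_mem' := fun {a b} ha hb => by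
    show w (φ (a + b)) < 1
    rw [map_add]
    exact w.map_add_lt ha hb
  smul_mem' := fun c a ha => by
    show w (φ (c * a)) < 1
    rw [map_mul, map_mul]
    exact (mul_le_of_le_one_left' (h c)).trans_lt ha

theorem cen_idl_prime (φ : A →+* E) (w : Vl E) (h : ∀ a, w (φ a) ≤ 1) :
    (cen_idl φ w h).IsPrime := by
  refine ⟨fun e => ?_, fun {a b} hab => ?_⟩
  · have h1 : w (φ 1) < 1 := (Ideal.eq_top_iff_one _).1 e
    rw [map_one, map_one] at h1
    exact lt_irrefl _ h1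
  · by_contra hn
    rw [not_or] at hn
    have ha : w (φ a) = 1 := le_antisymm (h a) (not_lt.1 hn.1)
    have hb : w (φ b) = 1 := le_antisymm (h b) (not_lt.1 hn.2)
    have h1 : w (φ (a * b)) < 1 := hab
    rw [map_mul, map_mul, ha, hb, mul_one] at h1
    exact lt_irrefl _ h1

theorem zcen_factor [IsDomain A] [UniqueFactorizationMonoid A] (φ : A →+* E) (w : Vl E)
    (h : ∀ a, w (φ a) ≤ 1) {b : A} (h0 : b ≠ 0) (hb : w (φ b) < 1) :
    ∃ Q, Prime Q ∧ Q ∣ b ∧ w (φ Q) < 1 := by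
  obtain ⟨f, hf, hfb⟩ := UniqueFactorizationMonoid.exists_prime_factors b h0
  have h1 : f.prod ∈ cen_idl φ w h := Ideal.mem_of_dvd _ hfb.symm.dvd hb
  obtain ⟨Q, hQ, h2⟩ := ((cen_idl_prime φ w h).multiset_prod_mem_iff_exists_mem f).1 h1
  exact ⟨Q, hf Q hQ, (Multiset.dvd_prod hQ).trans hfb.dvd, h2⟩

/-- the centre on an integral extension of factorial rings is again principal -/
theorem cen_up {B : Type} [CommRing B] [IsDomain B] [UniqueFactorizationMonoid B] (ψ : A →+* B)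
    (hψ : Function.Injective ψ) (hi : ψ.IsIntegral) {φ : B →+* E} (hφ : Function.Injective φ)
    {w : Vl E} {P : A} (hP : Prime P) (hc : Cen (φ.comp ψ) w P) :
    ∃ Q : B, Prime Q ∧ Cen φ w Q := by
  have h1 : ∀ b, w (φ b) ≤ 1 := fun b => by
    obtain ⟨p, hp, hb⟩ := hi b
    exact le_one_of_integral hc.1 ⟨p, hp, by rw [← Polynomial.hom_eval₂, hb, map_zero]⟩
  obtain ⟨Q, hQ, hQP, hw⟩ := zcen_factor φ w h1 ((map_ne_zero_iff ψ hψ).2 hP.ne_zero)
    ((hc.2 P).2 dvd_rfl)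
  have hle : Ideal.span {Q} ≤ cen_idl φ w h1 := (Ideal.span_singleton_le_iff_mem _).2 hw
  refine ⟨Q, hQ, h1, fun b => ⟨fun hb => ?_, fun hb => hle (Ideal.mem_span_singleton.2 hb)⟩⟩
  by_contra hn
  let : Algebra A B := ψ.toAlgebra
  have : (Ideal.span {Q}).IsPrime := (Ideal.span_singleton_prime hQ.ne_zero).2 hQ
  have hlt := Ideal.comap_lt_comap_of_integral_mem_sdiff (R := A) hle (x := b)
    ⟨hb, fun h => hn (Ideal.mem_span_singleton.1 h)⟩ (hi b)
  refine hlt.not_ge fun a ha => ?_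
  exact Ideal.mem_span_singleton.2 (hQP.trans (map_dvd ψ ((hc.2 a).1 ha)))

/-- the centre on a ring with the same localisation is again principal -/
theorem cen_loc {B : Type} [CommRing B] [IsDomain A] [UniqueFactorizationMonoid A] {φ : A →+* E}
    {ψ : B →+* E} (hφ : Function.Injective φ) (hψ : Function.Injective ψ) {w : Vl E} {Q : B}
    (hQ : Prime Q) (hc : Cen ψ w Q) (h1 : ∀ a, w (φ a) ≤ 1)
    (h2 : ∀ b, ∃ a s, w (φ s) = 1 ∧ ψ b * φ s = φ a)
    (h3 : ∀ a, ∃ b s, w (ψ s) = 1 ∧ φ a * ψ s = ψ b) : ∃ P : A, Prime P ∧ Cen φ w P := by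
  obtain ⟨a, s, hs, e⟩ := h2 Q
  have hs0 : φ s ≠ 0 := fun h => by
    rw [h, map_zero] at hs
    exact zero_ne_one hs
  have ha0 : a ≠ 0 := fun h => by
    rw [h, map_zero] at e
    exact mul_ne_zero ((map_ne_zero_iff ψ hψ).2 hQ.ne_zero) hs0 e
  have ha : w (φ a) < 1 := by
    rw [← e, map_mul, hs, mul_one]
    exact (hc.2 Q).2 dvd_rfl
  obtain ⟨P, hP, ⟨a1, rfl⟩, hw⟩ := zcen_factor φ w h1 ha0 ha
  have hd : ∀ x, P ∣ x → w (φ x) < 1 := fun x hx => Ideal.mem_of_dvd (cen_idl φ w h1) hx hw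
  refine ⟨P, hP, h1, fun H => ⟨fun hH => ?_, hd H⟩⟩
  obtain ⟨b2, s2, hs2, e2⟩ := h3 H
  have hb2 : w (ψ b2) < 1 := by
    rw [← e2, map_mul, hs2, mul_one]
    exact hH
  obtain ⟨b3, rfl⟩ := (hc.2 b2).1 hb2
  obtain ⟨a3, s3, hs3, e3⟩ := h2 b3
  obtain ⟨a4, s4, hs4, e4⟩ := h2 s2
  have ha4 : w (φ a4) = 1 := by rw [← e4, map_mul, hs2, hs4, mul_one]
  have e5 : H * (a4 * s * s3) = P * (a1 * a3 * s4) := hφ (by
    rw [map_mul] at e e2
    simp only [map_mul]
    rw [← e4, ← e3]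
    linear_combination φ s4 * φ s * φ s3 * e2 + ψ b3 * φ s3 * φ s4 * e)
  refine (hP.dvd_or_dvd ⟨_, e5⟩).resolve_right fun h => ?_
  have h6 := hd _ h
  simp only [map_mul, ha4, hs, hs3, mul_one] at h6
  exact lt_irrefl _ h6

/-- an inert prime with dense base field leaves no room for a subextension -/
theorem scp_of_inert {KK : Type} [Field KK] [Algebra A K] (γ : K →+* KK) (v : Vl KK) {P δ : A}
    (hc : Cen (γ.comp (algebraMap A K)) v P)
    (hd : ∀ (x : KK) (n : ℕ), ∃ a, v (x - γ a) ≤ v (γ (algebraMap A K P)) ^ n)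
    (hI : ∀ (L : Type) [Field L] [Algebra K L] [FiniteDimensional K L] [IsGalois K L],
      UnrOff K (toF A K L) δ → Inert K (toF A K L) P) : SCP γ δ := by
  intro L _ _ _ _ hU M ⟨j, hj⟩
  obtain ⟨w, hw⟩ := zv_exists (K := M) (E := L) (v.comap j)
  have e1 : j.comp (toF A K M) = γ.comp (algebraMap A K) := RingHom.ext fun a => hj _
  have c1 : Cen (toF A K M) (v.comap j) P := by
    rw [← e1] at hc
    exact hc
  have c2 : Cen (toF A K L) w P := over_cen (K := M) (φ := toF A K M) c1 hw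
  have hD := hI L hU w c2
  refine eq_bot_iff.2 fun z hz => ?_
  by_cases h0 : algebraMap A K P = 0
  · obtain ⟨a, ha⟩ := hd (j ⟨z, hz⟩) 1
    rw [h0, map_zero, map_zero, pow_one, le_zero_iff, map_eq_zero, sub_eq_zero, ← hj] at ha
    exact IntermediateField.mem_bot.2 ⟨a, (congrArg Subtype.val (j.injective ha)).symm⟩
  refine (IsGalois.mem_bot_iff_fixed z).2 fun g => ?_
  have hg : ∀ x, w (g x) = w x := by
    have : g ∈ Dec K w := hD ▸ Subgroup.mem_top g
    exact this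
  have hlt : w (algebraMap K L (algebraMap A K P)) < 1 := (c2.2 P).2 dvd_rfl
  have hw0 : 0 < w (algebraMap K L (algebraMap A K P)) :=
    zero_lt_iff.2 ((Valuation.ne_zero_iff w).2 ((map_ne_zero _).2 h0))
  have hv0 : 0 < v (γ (algebraMap A K P)) :=
    zero_lt_iff.2 ((Valuation.ne_zero_iff v).2 ((map_ne_zero _).2 h0))
  have key : ∀ n : ℕ, w (g z - z) ≤ w (algebraMap K L (algebraMap A K P)) ^ n := fun n => by
    obtain ⟨a, ha⟩ := hd (j ⟨z, hz⟩) n
    have h1 : v.comap j ((⟨z, hz⟩ - algebraMap K M a) / algebraMap K M (algebraMap A K P) ^ n)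
        ≤ 1 := by
      rw [Valuation.comap_apply, map_div₀, map_sub, map_pow, hj, hj, map_div₀, map_pow,
        div_le_one₀ (pow_pos hv0 n)]
      exact ha
    have h2 := (hw _).2 h1
    rw [map_div₀, map_sub, map_pow, map_div₀, map_pow, ← IsScalarTower.algebraMap_apply,
      ← IsScalarTower.algebraMap_apply, div_le_one₀ (pow_pos hw0 n)] at h2
    have h3 : w (z - algebraMap K L a) ≤ w (algebraMap K L (algebraMap A K P)) ^ n := h2
    have e2 : g z - z = g (z - algebraMap K L a) - (z - algebraMap K L a) := by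
      rw [map_sub, g.commutes]
      ring
    rw [e2]
    exact w.map_sub_le ((hg _).trans_le h3) h3
  by_contra hn
  have h4 : w (g z - z) ≠ 0 := (Valuation.ne_zero_iff w).2 (sub_ne_zero.2 hn)
  obtain ⟨n, h5⟩ := exists_pow_lt₀ hlt (Units.mk0 _ h4)
  exact h5.not_ge (key n)

end

end Pool.Agent.ZCy
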