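import Pool.Agent.Lib.MP_751085_ag.ZC.Iface
import Pool.Agent.Lib.MP_751085_ag.ZC.CMap
import Pool.Agent.Lib.MP_751085_ag.ZC.Z.Cen

/-! Block Z: the coordinates of the pencil of lines through the origin. -/

namespace Pool.Agent.ZCy

open scoped Classical WithZero Polynomial

set_option linter.unusedSectionVars false

open MvPolynomial

section

variable {R ι E : Type} [CommRing R] [Fintype ι] [Field E]

theorem flp_deg_le {Θ : MP (Option ι) R} {m : Option ι →₀ ℕ} (h : m ∈ Θ.support) :
    m.degree ≤ Θ.totalDegree := le_totalDegree h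

theorem flp_upd_none (m : Option ι →₀ ℕ) (k : ℕ) : m.update none k none = k := by simp

theorem flp_upd_some (m : Option ι →₀ ℕ) (k : ℕ) (j : ι) :
    m.update none k (some j) = m (some j) := by simp

theorem flpHom_none (φ : MP (Option ι) R →+* E) : flpHom φ (X none) = (φ (X none))⁻¹ := by
  simp [flpHom]

theorem flpHom_some (φ : MP (Option ι) R →+* E) (j : ι) :
    flpHom φ (X (some j)) = φ (X (some j)) / φ (X none) := by
  simp [flpHom]

theorem flpHom_C (φ : MP (Option ι) R →+* E) (a : R) : flpHom φ (C a) = φ (C a) := by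
  simp [flpHom]

theorem flp_hom_mon (φ : MP (Option ι) R →+* E) (m : Option ι →₀ ℕ) (c : R) :
    φ (monomial m c) = φ (C c) * (φ (X none) ^ m none * ∏ j, φ (X (some j)) ^ m (some j)) := by
  rw [monomial_eq, Finsupp.prod_fintype _ _ fun _ => pow_zero _, Fintype.prod_option]
  simp only [map_mul, map_pow, map_prod]

theorem flp_mon (φ : MP (Option ι) R →+* E) (h : φ (X none) ≠ 0) (m : Option ι →₀ ℕ) (c : R)
    (k : ℕ) : flpHom φ (monomial (m.update none k) c) * φ (X none) ^ (k + m.degree) =
      φ (monomial m c) := by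
  rw [flp_hom_mon, flp_hom_mon φ, flp_upd_none, flpHom_C, flpHom_none, Finsupp.degree_eq_sum,
    Fintype.sum_option]
  simp only [flp_upd_some, flpHom_some, div_pow]
  rw [Finset.prod_div_distrib, Finset.prod_pow_eq_pow_sum, pow_add, pow_add, inv_pow]
  field_simp

theorem ztp_flp (Θ : MP (Option ι) R) : tp (flp Θ) = ∑ m ∈ Θ.support,
    Polynomial.monomial (Θ.totalDegree + 1 - m.degree) (monomial m.some (coeff m Θ)) := by
  rw [flp, tp, map_sum]
  refine Finset.sum_congr rfl fun m _ => ?_
  rw [optionEquivLeft_monomial, flp_upd_none, Finsupp.some_update_none]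

theorem tp_flp_coeff (Θ : MP (Option ι) R) {j : ℕ} (hj : j ≤ Θ.totalDegree + 1) :
    (tp (flp Θ)).coeff j = ∑ m ∈ Θ.support with m.degree = Θ.totalDegree + 1 - j,
      monomial m.some (coeff m Θ) := by
  rw [ztp_flp, Polynomial.finsetSum_coeff, Finset.sum_filter]
  refine Finset.sum_congr rfl fun m hm => ?_
  have := flp_deg_le hm
  rw [Polynomial.coeff_monomial]
  exact if_congr (by omega) rfl rfl

theorem flp_top {Θ : MP (Option ι) R} (h : constantCoeff Θ = 1) :
    (tp (flp Θ)).coeff (Θ.totalDegree + 1) = 1 := by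
  have h1 : coeff 0 Θ = 1 := h
  rw [tp_flp_coeff Θ le_rfl, Nat.sub_self, Finset.sum_eq_single 0]
  · rw [h1, Finsupp.some_zero]
    rfl
  · intro m hm hne
    exact absurd ((Finsupp.degree_eq_zero_iff m).1 (Finset.mem_filter.1 hm).2) hne
  · intro h0
    have h2 : coeff 0 Θ = 0 := by
      by_contra h2
      exact h0 (Finset.mem_filter.2 ⟨mem_support_iff.2 h2, map_zero _⟩)
    rw [h2, map_zero]

theorem flp_le (Θ : MP (Option ι) R) : (tp (flp Θ)).natDegree ≤ Θ.totalDegree + 1 := by
  rw [ztp_flp]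
  exact Polynomial.natDegree_sum_le_of_forall_le _ _ fun m _ =>
    (Polynomial.natDegree_monomial_le _).trans (Nat.sub_le _ _)

theorem flp_eval (φ : MP (Option ι) R →+* E) (h : φ (X none) ≠ 0) (Θ : MP (Option ι) R) :
    flpHom φ (flp Θ) * φ (X none) ^ (Θ.totalDegree + 1) = φ Θ := by
  conv_rhs => rw [Θ.as_sum, map_sum]
  rw [flp, map_sum, Finset.sum_mul]
  refine Finset.sum_congr rfl fun m hm => ?_
  have := flp_deg_le hm
  rw [← flp_mon φ h m _ (Θ.totalDegree + 1 - m.degree)]
  congr 2
  omega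

theorem flp_monic {Θ : MP (Option ι) R} (h : constantCoeff Θ = 1) : (tp (flp Θ)).Monic :=
  Polynomial.monic_of_natDegree_le_of_coeff_eq_one _ (flp_le Θ) (flp_top h)

theorem flp_natDegree_le (Θ : MP (Option ι) R) : (tp (flp Θ)).natDegree ≤ Θ.totalDegree + 1 :=
  flp_le Θ

theorem flp_natDegree [Nontrivial R] {Θ : MP (Option ι) R} (h : constantCoeff Θ = 1) :
    (tp (flp Θ)).natDegree = Θ.totalDegree + 1 :=
  Polynomial.natDegree_eq_of_le_of_coeff_ne_zero (flp_le Θ) (by rw [flp_top h]; exact one_ne_zero)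

theorem X_dvd_flp (Θ : MP (Option ι) R) : X none ∣ flp Θ := by
  refine Finset.dvd_sum fun m hm => X_dvd_monomial.2 (Or.inr ?_)
  have := flp_deg_le hm
  rw [flp_upd_none]
  omega

theorem flp_ne_zero {Θ : MP (Option ι) R} (h : Θ ≠ 0) : flp Θ ≠ 0 := by
  obtain ⟨m, hm⟩ := support_nonempty.2 h
  intro h0
  have h1 := congrArg (coeff (m.update none (Θ.totalDegree + 1 - m.degree))) h0
  rw [flp, coeff_sum, Finset.sum_eq_single m, coeff_monomial, if_pos rfl, coeff_zero] at h1
  · exact mem_support_iff.1 hm h1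
  · intro m' hm' hne
    rw [coeff_monomial, if_neg]
    intro e
    apply hne
    have e1 := DFunLike.congr_fun e none
    have e2 : ∀ j, m' (some j) = m (some j) := fun j => by
      have := DFunLike.congr_fun e (some j)
      rwa [flp_upd_some, flp_upd_some] at this
    have d1 := flp_deg_le hm
    have d2 := flp_deg_le hm'
    rw [flp_upd_none, flp_upd_none] at e1
    have e3 : m'.degree = m.degree := by omega
    rw [Finsupp.degree_eq_sum, Finsupp.degree_eq_sum, Fintype.sum_option, Fintype.sum_option,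
      Finset.sum_congr rfl fun j _ => e2 j] at e3
    ext i
    cases i with
    | none => omega
    | some j => exact e2 j
  · exact fun e => absurd hm e

theorem map_flp {S : Type} [CommRing S] {f : R →+* S} (hf : Function.Injective f)
    (Θ : MP (Option ι) R) : map f (flp Θ) = flp (map f Θ) := by
  have h1 := support_map_of_injective Θ hf
  have h2 : (map f Θ).totalDegree = Θ.totalDegree := by rw [totalDegree, totalDegree, h1]
  rw [flp, flp, map_sum, h1, h2]
  refine Finset.sum_congr rfl fun m _ => ?_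
  rw [map_monomial, coeff_map]

/-- the coefficients of `flp Θ` are the homogeneous components of `Θ` -/
theorem flp_coeff (φ : MP (Option ι) R →+* E) (h : φ (X none) ≠ 0) (Θ : MP (Option ι) R) (j : ℕ)
    (hj : j ≤ Θ.totalDegree + 1) : flpHom φ (up ((tp (flp Θ)).coeff j)) *
      φ (X none) ^ (Θ.totalDegree + 1 - j) =
        φ (homogeneousComponent (Θ.totalDegree + 1 - j) Θ) := by
  rw [tp_flp_coeff Θ hj, homogeneousComponent_apply, up, map_sum, map_sum, map_sum, Finset.sum_mul]
  refine Finset.sum_congr rfl fun m hm => ?_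
  rw [← flp_mon φ h m _ 0, zero_add, (Finset.mem_filter.1 hm).2, rename_monomial]
  congr 4
  ext i
  cases i with
  | none => rw [flp_upd_none, Finsupp.mapDomain_of_notMem_range _ _ (by simp)]
  | some j =>
    rw [flp_upd_some, Finsupp.mapDomain_apply (Option.some_injective _), Finsupp.some_apply]

theorem flpHom_flpHom (φ : MP (Option ι) R →+* E) (h : φ (X none) ≠ 0) :
    flpHom (flpHom φ) = φ := by
  refine ringHom_ext (fun a => by rw [flpHom_C, flpHom_C]) fun i => ?_
  cases i with
  | none => rw [flpHom_none, flpHom_none, inv_inv]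
  | some j => rw [flpHom_some, flpHom_some, flpHom_none, div_inv_eq_mul, div_mul_cancel₀ _ h]

theorem flpHom_comp {E' : Type} [Field E'] (f : E →+* E') (φ : MP (Option ι) R →+* E) :
    flpHom (f.comp φ) = f.comp (flpHom φ) := by
  refine ringHom_ext (fun a => by simp only [flpHom_C, RingHom.comp_apply]) fun i => ?_
  cases i with
  | none => simp only [flpHom_none, RingHom.comp_apply, map_inv₀]
  | some j => simp only [flpHom_some, RingHom.comp_apply, map_div₀]

theorem flpHom_hyp (φ : MP (Option ι) R →+* E) : flpHom (φ.comp hyp) = (flpHom φ).comp hyp := by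
  refine ringHom_ext (fun a => by simp [flpHom_C, hyp]) fun i => ?_
  rcases i with _ | _ | i <;> simp [flpHom_none, flpHom_some, hyp]

theorem flp_tau [Nontrivial R] {φ : MP (Option ι) R →+* E} (hφ : Function.Injective φ) :
    φ (X none) ≠ 0 := (map_ne_zero_iff φ hφ).2 (X_ne_zero _)

theorem flp_eval' (φ : MP (Option ι) R →+* E) (h : φ (X none) ≠ 0) (Θ : MP (Option ι) R) :
    flpHom φ Θ * φ (X none) ^ (Θ.totalDegree + 1) = φ (flp Θ) := by
  have h1 := flp_eval (flpHom φ) (by rw [flpHom_none]; exact inv_ne_zero h) Θ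
  rw [flpHom_flpHom φ h, flpHom_none] at h1
  rw [← h1, mul_assoc, ← mul_pow, inv_mul_cancel₀ h, one_pow, mul_one]

theorem flpHom_injective [Nontrivial R] {φ : MP (Option ι) R →+* E} (hφ : Function.Injective φ) :
    Function.Injective (flpHom φ) := by
  rw [injective_iff_map_eq_zero]
  intro Θ h0
  by_contra hne
  have h1 := flp_eval' φ (flp_tau hφ) Θ
  rw [h0, zero_mul] at h1
  exact flp_ne_zero hne ((map_eq_zero_iff φ hφ).1 h1.symm)

theorem flpHom_frac [Nontrivial R] {φ : MP (Option ι) R →+* E} (hφ : Function.Injective φ)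
    (h : ∀ z : E, ∃ a b, z = φ a / φ b) (z : E) : ∃ a b, z = flpHom φ a / flpHom φ b := by
  obtain ⟨a, b, rfl⟩ := h z
  have h0 := flp_tau hφ
  refine ⟨flp a * X none ^ (b.totalDegree + 1), flp b * X none ^ (a.totalDegree + 1), ?_⟩
  rw [map_mul, map_mul, map_pow, map_pow, flpHom_none, ← flp_eval φ h0 a, ← flp_eval φ h0 b,
    mul_div_mul_comm, mul_div_mul_comm, inv_pow, inv_pow, inv_div_inv]

theorem flp_hyp0 {p : MP (Option ι) R} : hyp0 p = 0 ↔ X none ∣ p := by
  have h1 : (hyp0 : MP (Option ι) R →+* MP ι R) = (Polynomial.evalRingHom 0).comp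
      (optionEquivLeft R ι : MP (Option ι) R →+* (MP ι R)[X]) := by
    refine ringHom_ext (fun a => by simp [hyp0]) fun i => ?_
    cases i <;> simp [hyp0]
  rw [← map_dvd_iff (optionEquivLeft R ι), optionEquivLeft_X_none, Polynomial.X_dvd_iff,
    Polynomial.coeff_zero_eq_eval_zero, h1]
  rfl

theorem hyp_eq_zero {p : MP (Option (Option ι)) R} : hyp p = 0 ↔ X (some none) ∣ p := by
  rw [← map_dvd_iff (optionEquivLeft R (Option ι)), optionEquivLeft_X_some,
    Polynomial.C_dvd_iff_dvd_coeff, ← map_eq_zero_iff _ (optionEquivLeft R ι).injective]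
  change tp (hyp p) = 0 ↔ ∀ i, X none ∣ (tp p).coeff i
  rw [tp_hyp, Polynomial.ext_iff]
  refine forall_congr' fun i => ?_
  rw [Polynomial.coeff_map, Polynomial.coeff_zero, flp_hyp0]

theorem hyp0_eq_zero {p : MP (Option ι) R} : hyp0 p = 0 ↔ X none ∣ p := flp_hyp0

theorem hyp_surjective : Function.Surjective (hyp : MP (Option (Option ι)) R → _) := by
  intro p
  have h1 : (hyp : MP (Option (Option ι)) R →+* _).comp
      (rename skip : MP (Option ι) R →ₐ[R] _).toRingHom = RingHom.id _ := by
    refine ringHom_ext (fun a => by simp [hyp]) fun i => ?_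
    cases i <;> simp [hyp, skip]
  exact ⟨rename skip p, DFunLike.congr_fun h1 p⟩

end

theorem unrOff_flp {k ι L E : Type} [Field k] [Fintype ι] [Field L] [Field E] [Algebra L E]
    {φ : MP (Option ι) k →+* E} (hφ : Function.Injective φ) {Θ : MP (Option ι) k}
    (hu : UnrOff L φ Θ) : UnrOff L (flpHom φ) (flp Θ) := by
  intro P w hP hn hc
  have h0 := flp_tau hφ
  have ht : w (flpHom φ (X none)) = 1 := le_antisymm (hc.1 _) (not_lt.1 fun h =>
    hn (((hc.2 _).1 h).trans (X_dvd_flp Θ)))
  have hτ : w (φ (X none)) = 1 := by rwa [flpHom_none, map_inv₀, inv_eq_one] at ht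
  have hv : ∀ a, w (φ a) = w (flpHom φ (flp a)) := fun a => by
    rw [← flp_eval φ h0 a, map_mul, map_pow, hτ, one_pow, mul_one]
  obtain ⟨Q, hQ, hc'⟩ := cen_loc hφ (flpHom_injective hφ) hP hc (fun a => hv a ▸ hc.1 _)
    (fun b => ⟨flp b, X none ^ (b.totalDegree + 1), by rw [map_pow, map_pow, hτ, one_pow],
      by rw [map_pow, flp_eval' φ h0]⟩)
    fun a => ⟨flp a, X none ^ (a.totalDegree + 1), by rw [map_pow, map_pow, ht, one_pow], by
      rw [map_pow, flpHom_none, ← flp_eval φ h0 a, mul_assoc, ← mul_pow, mul_inv_cancel₀ h0,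
        one_pow, mul_one]⟩
  refine hu Q w hQ (fun h => hn ((hc.2 _).1 ?_)) hc'
  rw [← hv]
  exact (hc'.2 _).2 h

end Pool.Agent.ZCy
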