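import Pool.Agent.Lib.MP_751085_ag.ZC.Z.Pole

/-! Block Z: fields of definition of Laurent series. -/

namespace Pool.Agent.ZCy

open scoped Classical WithZero Polynomial

set_option linter.unusedSectionVars false

theorem sec1_root {K E E' : Type} [Field K] [Field E] [Field E'] [Algebra K E] [Algebra K E']
    (e : E →ₐ[K] E') (f : Ls E) (μ : (Ls K)[X]) :
    lm (e : E →+* E') (μ.eval₂ (lm (algebraMap K E)) f) =
      μ.eval₂ (lm (algebraMap K E')) (lm (e : E →+* E') f) := by
  have : (lm (e : E →+* E')).comp (lm (algebraMap K E)) = lm (algebraMap K E') :=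
    RingHom.ext fun x => HahnSeries.ext (funext fun j => e.commutes _)
  rw [Polynomial.hom_eval₂, this]

theorem sec1_gal {K Ω : Type} [Field K] [Field Ω] [Algebra K Ω] [IsGalois K Ω] (f : Ls Ω)
    (μ : (Ls K)[X]) (h0 : μ ≠ 0) (h : μ.eval₂ (lm (algebraMap K Ω)) f = 0) :
    ∃ s : Finset ℤ, ∀ j, f.coeff j ∈ IntermediateField.adjoin K (f.coeff '' s) := by
  have : ∀ t : Ls Ω, ∃ j, t.coeff j = f.coeff j → t = f := fun t => by
    by_contra hc
    push Not at hc
    exact (hc 0).2 (HahnSeries.ext (funext fun j => (hc j).1))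
  choose J hJ using this
  refine ⟨(μ.map (lm (algebraMap K Ω))).roots.toFinset.image J, fun j => ?_⟩
  rw [← InfiniteGalois.fixedField_fixingSubgroup (IntermediateField.adjoin K _),
    IntermediateField.mem_fixedField_iff]
  intro g hg
  have hr : lm ((g : Ω →ₐ[K] Ω) : Ω →+* Ω) f ∈ (μ.map (lm (algebraMap K Ω))).roots.toFinset := by
    rw [Multiset.mem_toFinset, Polynomial.mem_roots (Polynomial.map_ne_zero h0),
      Polynomial.IsRoot, Polynomial.eval_map, ← sec1_root, h, map_zero]
  have := hJ (lm ((g : Ω →ₐ[K] Ω) : Ω →+* Ω) f)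
    ((IntermediateField.mem_fixingSubgroup_iff _ _).1 hg _ (IntermediateField.subset_adjoin _ _
      ⟨_, Finset.mem_coe.2 (Finset.mem_image_of_mem J hr), rfl⟩))
  exact congrArg (fun t : Ls Ω => t.coeff j) this

theorem sec1_adj {K E E' : Type} [Field K] [Field E] [Field E'] [Algebra K E] [Algebra K E']
    (e : E →ₐ[K] E') (f : Ls E) (s : Set ℤ) (j : ℤ) :
    (lm (e : E →+* E') f).coeff j ∈
      IntermediateField.adjoin K ((lm (e : E →+* E') f).coeff '' s) ↔
    f.coeff j ∈ IntermediateField.adjoin K (f.coeff '' s) := by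
  have : (lm (e : E →+* E') f).coeff '' s = e '' (f.coeff '' s) := by
    rw [Set.image_image]
    rfl
  rw [this, ← IntermediateField.adjoin_map]
  exact ⟨fun ⟨x, hx, he⟩ => e.injective he ▸ hx, fun hx => ⟨_, hx, rfl⟩⟩

/-- an algebraic series with algebraic coefficients is defined over a finite extension -/
theorem fin_coeff {K KK : Type} [Field K] [CharZero K] [Field KK] [Algebra K KK] (f : Ls KK)
    (hf : ∀ j, IsAlgebraic K (f.coeff j)) (μ : (Ls K)[X]) (h0 : μ ≠ 0)
    (h : μ.eval₂ (lm (algebraMap K KK)) f = 0) :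
    ∃ L : IntermediateField K KK, FiniteDimensional K L ∧ ∀ j, f.coeff j ∈ L := by
  obtain ⟨f₀, rfl⟩ := (mem_lm_range
    (f := ((algebraicClosure K KK).val : algebraicClosure K KK →+* KK))
    (algebraicClosure K KK).val.injective f).2 fun j =>
      ⟨⟨_, mem_algebraicClosure_iff.2 (hf j)⟩, rfl⟩
  let e : algebraicClosure K KK →ₐ[K] AlgebraicClosure K := IsAlgClosed.lift
  rw [← sec1_root, map_eq_zero] at h
  obtain ⟨s, hs⟩ := sec1_gal (lm (e : algebraicClosure K KK →+* AlgebraicClosure K) f₀) μ h0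
    (by rw [← sec1_root, h, map_zero])
  exact ⟨_, IntermediateField.finiteDimensional_adjoin (by
    rintro _ ⟨i, -, rfl⟩
    exact (hf i).isIntegral), fun j => (sec1_adj _ f₀ s j).2 ((sec1_adj e f₀ s j).1 (hs j))⟩

theorem sec1_mono {R : Type} [CommRing R] (M i : ℕ) (c : R) :
    tM M R (Polynomial.monomial i c) = HahnSeries.single (i • (-(M : ℤ))) c := by
  rw [tM, Polynomial.coe_eval₂RingHom, Polynomial.eval₂_monomial, HahnSeries.single_pow,
    HahnSeries.C_apply, HahnSeries.single_mul_single, zero_add, one_pow, mul_one]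

theorem sec1_lin {K KK : Type} [Field K] [Field KK] [Algebra K KK] (l : KK →ₗ[K] K) (M : ℕ)
    (p : KK[X]) : ∃ p' : K[X], (∀ i, p'.coeff i = l (p.coeff i)) ∧ ∀ (g : Ls K) (j : ℤ),
      (g * tM M K p').coeff j = l ((lm (algebraMap K KK) g * tM M KK p).coeff j) := by
  induction p using Polynomial.induction_on' with
  | add p q hp hq =>
    obtain ⟨p', h1, h2⟩ := hp
    obtain ⟨q', h3, h4⟩ := hq
    exact ⟨p' + q', fun i => by simp only [Polynomial.coeff_add, h1, h3, map_add], fun g j => by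
      simp only [map_add, mul_add, HahnSeries.coeff_add, h2, h4]⟩
  | monomial i c =>
    refine ⟨Polynomial.monomial i (l c), fun n => ?_, fun g j => ?_⟩
    · simp only [Polynomial.coeff_monomial]
      split_ifs
      · rfl
      · rw [map_zero]
    · rw [sec1_mono, sec1_mono, HahnSeries.coeff_mul_single, HahnSeries.coeff_mul_single,
        lm_coeff, ← Algebra.smul_def, map_smul, smul_eq_mul]

/-- a rational function whose expansion has coefficients in a subfield is defined over it -/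
theorem frac_of_coeff {K KK : Type} [Field K] [Field KK] (φ : K →+* KK) {M : ℕ} (hM : 0 < M)
    (f : Ls K) (a b : KK[X]) (hb : b ≠ 0) (h : lm φ f * tM M KK b = tM M KK a) :
    ∃ a' b' : K[X], b' ≠ 0 ∧ f * tM M K b' = tM M K a' := by
  have _ := hM
  let := φ.toAlgebra
  obtain ⟨l, hl⟩ := Module.Projective.exists_dual_eq_one K (Polynomial.leadingCoeff_ne_zero.2 hb)
  obtain ⟨a', -, ha⟩ := sec1_lin l M a
  obtain ⟨b', h1, h2⟩ := sec1_lin l M b
  refine ⟨a', b', fun h0 => ?_, HahnSeries.ext (funext fun j => ?_)⟩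
  · have := h1 b.natDegree
    rw [h0, Polynomial.coeff_zero, Polynomial.coeff_natDegree, hl] at this
    exact zero_ne_one this
  · have := ha 1 j
    rw [one_mul, map_one, one_mul] at this
    rw [h2, this, ← h]
    rfl

theorem sec1_den {L : Type} [Field L] (A : Vl L) (p : L[X]) :
    ∃ d : L, d ≠ 0 ∧ A d ≤ 1 ∧ ∀ i, A (d * p.coeff i) ≤ 1 := by
  induction p using Polynomial.induction_on' with
  | add p q hp hq =>
    obtain ⟨d, h1, h2, h3⟩ := hp
    obtain ⟨d', h4, h5, h6⟩ := hq
    refine ⟨d * d', mul_ne_zero h1 h4, by rw [map_mul]; exact mul_le_one' h2 h5, fun i => ?_⟩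
    rw [Polynomial.coeff_add, mul_add]
    refine A.map_add_le ?_ ?_
    · rw [mul_right_comm, map_mul]
      exact mul_le_one' (h3 i) h5
    · rw [mul_assoc, map_mul]
      exact mul_le_one' h2 (h6 i)
  | monomial n c =>
    rcases le_or_gt (A c) 1 with hc | hc
    · refine ⟨1, one_ne_zero, A.map_one.le, fun i => ?_⟩
      rw [one_mul, Polynomial.coeff_monomial]
      split_ifs
      · exact hc
      · simp
    · have h0 : c ≠ 0 := by
        rintro rfl
        simp at hc
      refine ⟨c⁻¹, inv_ne_zero h0, by rw [map_inv₀]; exact inv_le_one_of_one_le₀ hc.le, fun i => ?_⟩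
      rw [Polynomial.coeff_monomial]
      split_ifs
      · rw [inv_mul_cancel₀ h0, map_one]
      · simp

/-- the Gauss valuation on polynomials -/
theorem gauss_of_int {L N : Type} [Field L] [Field N] {M : ℕ} (hM : 0 < M) (φ : L[X] →+* N)
    (ι : N →+* Ls L) (hι : ∀ p, ι (φ p) = tM M L p) (A : Vl L) (W : Vl N)
    (h : ∀ z, (φ.comp (Polynomial.mapRingHom A.integer.subtype)).IsIntegralElem z →
      (∀ j, A ((ι z).coeff j) ≤ W z) ∧ ∃ j, A ((ι z).coeff j) = W z) (p : L[X]) :
    (∀ i, A (p.coeff i) ≤ W (φ p)) ∧ ∃ i, A (p.coeff i) = W (φ p) := by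
  have H : ∀ q : L[X], (∀ i, A (q.coeff i) ≤ 1) →
      (∀ i, A (q.coeff i) ≤ W (φ q)) ∧ ∃ i, A (q.coeff i) = W (φ q) := fun q hq => by
    obtain ⟨q₀, rfl⟩ := (Polynomial.lifts_iff_coeff_lifts (f := A.integer.subtype) q).2
      fun i => ⟨⟨_, hq i⟩, rfl⟩
    obtain ⟨h1, j, h2⟩ := h _ (RingHom.isIntegralElem_map _ (x := q₀))
    rw [RingHom.comp_apply, hι] at h1 h2
    refine ⟨fun i => (congrArg A (tM_coeff hM _ i)).symm.trans_le (h1 _), ?_⟩
    rcases tM_coeff_cases hM (Polynomial.mapRingHom A.integer.subtype q₀) j with h3 | ⟨i, h3⟩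
    · exact ⟨_, (congrArg A ((Polynomial.coeff_natDegree_succ_eq_zero).trans h3.symm)).trans h2⟩
    · exact ⟨i, h3 ▸ h2⟩
  obtain ⟨d, h0, h1, h2⟩ := sec1_den A p
  have hd : W (φ (Polynomial.C d)) = A d := by
    obtain ⟨h3, i, h4⟩ := H (Polynomial.C d) fun i => by
      rw [Polynomial.coeff_C]
      split_ifs
      · exact h1
      · simp
    have h5 := h3 0
    rw [Polynomial.coeff_C_zero] at h5
    refine le_antisymm ?_ h5
    rw [← h4, Polynomial.coeff_C]
    split_ifs
    · rfl
    · simp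
  have hp : 0 < A d := A.pos_iff.2 h0
  obtain ⟨h3, i, h4⟩ := H (Polynomial.C d * p) fun i => by
    rw [Polynomial.coeff_C_mul]
    exact h2 i
  simp only [Polynomial.coeff_C_mul, map_mul, hd] at h3 h4
  exact ⟨fun i => le_of_mul_le_mul_left (h3 i) hp, i, mul_left_cancel₀ hp.ne' h4⟩

end Pool.Agent.ZCy
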