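import Pool.Agent.Lib.MP_751085_ag.ZC.Z.ZDefs

/-! Block Z: a lemma on split extensions of groups. -/

namespace Pool.Agent.ZCy

open scoped Classical WithZero Polynomial

set_option linter.unusedSectionVars false

theorem grp_comm {G Γ : Type} [Group G] [Group Γ] (π : G →* Γ) (σ : Γ →* G)
    (Γ₀ : Subgroup Γ) (U₀ : Subgroup G) (h1 : ∀ γ ∈ Γ₀, σ γ ∈ U₀)
    (h3 : ∀ g ∈ Γ₀.comap π, ∀ u ∈ U₀, g * u * g⁻¹ ∈ U₀) (C : Subgroup Γ)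
    (hC : ∀ γ ∈ C, ∀ g ∈ π.ker, σ γ * g = g * σ γ) (h : Γ₀ ⊔ C = ⊤) (γ : Γ) :
    ∀ n ∈ π.ker, σ γ * n * (σ γ)⁻¹ * n⁻¹ ∈ U₀ := by
  let H : Subgroup Γ :=
    { carrier := {γ | ∀ n ∈ π.ker, σ γ * n * (σ γ)⁻¹ * n⁻¹ ∈ U₀}
      one_mem' := fun n _ => by simp
      mul_mem' := fun {a b} ha hb n hn => by
        have e : σ (a * b) * n * (σ (a * b))⁻¹ * n⁻¹ =
            (σ a * (σ b * n * (σ b)⁻¹) * (σ a)⁻¹ * (σ b * n * (σ b)⁻¹)⁻¹) *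
              (σ b * n * (σ b)⁻¹ * n⁻¹) := by
          rw [map_mul]; group
        rw [e]
        exact mul_mem (ha _ (π.normal_ker.conj_mem n hn _)) (hb n hn)
      inv_mem' := fun {a} ha n hn => by
        have e : σ a⁻¹ * n * (σ a⁻¹)⁻¹ * n⁻¹ =
            (σ a * (σ a⁻¹ * n * (σ a⁻¹)⁻¹) * (σ a)⁻¹ * (σ a⁻¹ * n * (σ a⁻¹)⁻¹)⁻¹)⁻¹ := by
          rw [map_inv]; group
        rw [e]
        exact inv_mem (ha _ (π.normal_ker.conj_mem n hn _)) }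
  have hH : Γ₀ ⊔ C ≤ H := by
    refine sup_le (fun a ha n hn => ?_) (fun a ha n hn => ?_)
    · have e : σ a * n * (σ a)⁻¹ * n⁻¹ = σ a * (n * (σ a)⁻¹ * n⁻¹) := by group
      rw [e]
      refine mul_mem (h1 a ha) (h3 n ?_ _ (inv_mem (h1 a ha)))
      rw [Subgroup.mem_comap, π.mem_ker.1 hn]
      exact one_mem _
    · rw [hC a ha n hn]
      simp
  exact hH (h ▸ Subgroup.mem_top γ)

theorem grp_desc {G Γ : Type} [Group G] [Group Γ] [Finite G] (π : G →* Γ) (σ : Γ →* G)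
    (hs : ∀ γ, π (σ γ) = γ) (Γ₀ : Subgroup Γ) (U₀ : Subgroup G) (h1 : ∀ γ ∈ Γ₀, σ γ ∈ U₀)
    (h2 : U₀ ≤ Γ₀.comap π) (h3 : ∀ g ∈ Γ₀.comap π, ∀ u ∈ U₀, g * u * g⁻¹ ∈ U₀) (C : Subgroup Γ)
    (hC : ∀ γ ∈ C, ∀ g ∈ π.ker, σ γ * g = g * σ γ) (h : Γ₀ ⊔ C = ⊤) :
    ∃ U : Subgroup G, U.Normal ∧ U₀ ≤ U ∧ (∀ γ, σ γ ∈ U) ∧ U ⊓ Γ₀.comap π ≤ U₀ := by
  have hc := grp_comm π σ Γ₀ U₀ h1 h3 C hC h
  have hk : ∀ g, g * (σ (π g))⁻¹ ∈ π.ker := fun g => by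
    rw [π.mem_ker, map_mul, map_inv, hs, mul_inv_cancel]
  let U : Subgroup G :=
    { carrier := {g | g * (σ (π g))⁻¹ ∈ U₀}
      one_mem' := by simp
      mul_mem' := fun {a b} ha hb => by
        have e : a * b * (σ (π (a * b)))⁻¹ = (a * (σ (π a))⁻¹) *
            (σ (π a) * (b * (σ (π b))⁻¹) * (σ (π a))⁻¹ * (b * (σ (π b))⁻¹)⁻¹) *
              (b * (σ (π b))⁻¹) := by
          rw [map_mul, map_mul]; group
        change a * b * (σ (π (a * b)))⁻¹ ∈ U₀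
        rw [e]
        exact mul_mem (mul_mem ha (hc _ _ (hk b))) hb
      inv_mem' := fun {a} ha => by
        have e : a⁻¹ * (σ (π a⁻¹))⁻¹ =
            (σ (π a)⁻¹ * (a * (σ (π a))⁻¹)⁻¹ * (σ (π a)⁻¹)⁻¹ * (a * (σ (π a))⁻¹)⁻¹⁻¹) *
              (a * (σ (π a))⁻¹)⁻¹ := by
          rw [map_inv, map_inv]; group
        change a⁻¹ * (σ (π a⁻¹))⁻¹ ∈ U₀
        rw [e]
        exact mul_mem (hc _ _ (inv_mem (hk a))) (inv_mem ha) }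
  have hσ : ∀ γ, σ γ ∈ U := fun γ => by
    change σ γ * (σ (π (σ γ)))⁻¹ ∈ U₀
    rw [hs, mul_inv_cancel]
    exact one_mem _
  have hn : ∀ n ∈ π.ker, ∀ g ∈ U, n * g * n⁻¹ ∈ U := fun n hn g hg => by
    have e : n * g * n⁻¹ * (σ (π (n * g * n⁻¹)))⁻¹ = (n * (g * (σ (π g))⁻¹) * n⁻¹) *
        (σ (π g) * n * (σ (π g))⁻¹ * n⁻¹)⁻¹ := by
      rw [π.map_mul, π.map_mul, π.map_inv, π.mem_ker.1 hn, one_mul, inv_one, mul_one]; group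
    change n * g * n⁻¹ * (σ (π (n * g * n⁻¹)))⁻¹ ∈ U₀
    rw [e]
    refine mul_mem (h3 n ?_ _ hg) (inv_mem (hc _ _ hn))
    rw [Subgroup.mem_comap, π.mem_ker.1 hn]
    exact one_mem _
  refine ⟨U, ⟨fun g hg x => ?_⟩, fun u hu => mul_mem hu (inv_mem (h1 _ (h2 hu))), hσ,
    fun g hg => ?_⟩
  · have e : x * g * x⁻¹ = (x * (σ (π x))⁻¹) * (σ (π x) * g * (σ (π x))⁻¹) *
        (x * (σ (π x))⁻¹)⁻¹ := by group
    rw [e]
    exact hn _ (hk x) _ (mul_mem (mul_mem (hσ _) hg) (inv_mem (hσ _)))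
  · have := mul_mem (show g * (σ (π g))⁻¹ ∈ U₀ from hg.1) (h1 _ hg.2)
    rwa [inv_mul_cancel_right] at this

/-- the elements whose section centralises the kernel -/
theorem grp_cent {G Γ : Type} [Group G] [Group Γ] (π : G →* Γ) (σ : Γ →* G) :
    ∃ C : Subgroup Γ, C.Normal ∧ ∀ γ, γ ∈ C ↔ ∀ g ∈ π.ker, σ γ * g = g * σ γ := by
  refine ⟨(Subgroup.centralizer (π.ker : Set G)).comap σ, inferInstance, fun γ => ?_⟩
  rw [Subgroup.mem_comap, Subgroup.mem_centralizer_iff]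
  exact ⟨fun h g hg => (h g hg).symm, fun h g hg => (h g hg).symm⟩

theorem comm_of_ine {K E : Type} [Field K] [Field E] [Algebra K E] (W : Vl E)
    (H : Subgroup (E ≃ₐ[K] E)) [H.Normal] (h1 : H ≤ Dec K W) (h2 : Ine K W ⊓ H = ⊥)
    {s g : E ≃ₐ[K] E} (hs : s ∈ Ine K W) (hg : g ∈ H) : s * g = g * s := by
  have hd := h1 hg
  have h3 : g * s⁻¹ * g⁻¹ ∈ Ine K W := by
    refine ⟨mul_mem (mul_mem hd (inv_mem hs).1) (inv_mem hd), fun x hx => ?_⟩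
    have e : (g * s⁻¹ * g⁻¹) x - x = g (s⁻¹ (g⁻¹ x) - g⁻¹ x) := by
      rw [map_sub, ← AlgEquiv.mul_apply g g⁻¹, mul_inv_cancel, AlgEquiv.one_apply]
      rfl
    rw [e, hd]
    exact (inv_mem hs).2 _ ((inv_mem hd x).trans_le hx)
  have h4 : s * (g * s⁻¹ * g⁻¹) ∈ Ine K W ⊓ H := by
    refine ⟨mul_mem hs h3, ?_⟩
    have e : s * (g * s⁻¹ * g⁻¹) = s * g * s⁻¹ * g⁻¹ := by group
    rw [e]
    exact H.mul_mem (Subgroup.Normal.conj_mem inferInstance g hg s) (H.inv_mem hg)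
  rw [h2, Subgroup.mem_bot] at h4
  have e : s * g = s * (g * s⁻¹ * g⁻¹) * (g * s) := by group
  rw [e, h4, one_mul]

end Pool.Agent.ZCy
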