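import Pool.Agent.Lib.MP_751085_ag.ZC.Z.ZDefs

/-! Block Z: fraction fields of rings with a group action, the valuation of power series. -/

namespace Pool.Agent.ZCy

open scoped Classical WithZero Polynomial

set_option linter.unusedSectionVars false

/-- the fraction field of a domain with a faithful finite group action -/
theorem gal_fr {A O F G : Type} [CommRing A] [CommRing O] [IsDomain O] [Field F] [Group G]
    [Finite G] [MulSemiringAction G O] [FaithfulSMul G O] (φ : A →+* F)
    (hφ : Function.Injective φ) (hF : ∀ x : F, ∃ a b, φ b ≠ 0 ∧ x * φ b = φ a) (β : A →+* O)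
    (hβ : Function.Injective β) (hi : ∀ z : O, (∀ g : G, g • z = z) ↔ z ∈ β.range) :
    ∃ (_ : Algebra F (Fr O)) (_ : FiniteDimensional F (Fr O)) (_ : IsGalois F (Fr O))
      (r : G ≃* (Fr O ≃ₐ[F] Fr O)), (∀ a, algebraMap F (Fr O) (φ a) = algebraMap O (Fr O) (β a)) ∧
      ∀ g z, r g (algebraMap O (Fr O) z) = algebraMap O (Fr O) (g • z) := by
  let := φ.toAlgebra
  let := β.toAlgebra
  have : FaithfulSMul A F := (faithfulSMul_iff_algebraMap_injective A F).2 hφ
  have : IsFractionRing A F := IsFractionRing.of_field A F fun x => by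
    obtain ⟨a, b, hb, h⟩ := hF x
    exact ⟨a, b, (eq_div_iff hb).2 h⟩
  have hinj : Function.Injective (algebraMap A (Fr O)) := by
    rw [IsScalarTower.algebraMap_eq A O (Fr O)]
    exact (IsFractionRing.injective O (Fr O)).comp hβ
  let alg : Algebra F (Fr O) := (IsFractionRing.lift hinj : F →+* Fr O).toAlgebra
  have h1 : ∀ a, algebraMap F (Fr O) (algebraMap A F a) = algebraMap A (Fr O) a := fun a =>
    IsFractionRing.lift_algebraMap hinj a
  have : IsScalarTower A F (Fr O) := .of_algebraMap_eq fun a => (h1 a).symm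
  have : IsGaloisGroup G A O :=
    { faithful := inferInstance
      commutes := ⟨fun g a z => by
        rw [Algebra.smul_def, Algebra.smul_def, smul_mul']
        exact congrArg (· * g • z) ((hi _).2 ⟨a, rfl⟩ g)⟩
      isInvariant := ⟨fun z hz => (hi z).1 hz⟩ }
  let := IsFractionRing.mulSemiringAction G O (Fr O)
  have := IsGaloisGroup.to_isFractionRing G A O F (Fr O)
  refine ⟨alg, IsGaloisGroup.finiteDimensional G F (Fr O), IsGaloisGroup.isGalois G F (Fr O),
    IsGaloisGroup.mulEquivAlgEquiv G F (Fr O), fun a => ?_, fun g z => ?_⟩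
  · exact (h1 a).trans (IsScalarTower.algebraMap_apply A O (Fr O) a)
  · exact (algebraMap.smul' g z (Fr O)).symm

/-- the `y`-adic valuation and its residue map -/
theorem exists_ord (Ω KK : Type) [Field Ω] [Field KK] [Algebra (Ps Ω) KK]
    [IsFractionRing (Ps Ω) KK] : ∃ (v : Vl KK) (ρ : v.integer →+* Ω), IsRed v ρ ∧
      v (algebraMap (Ps Ω) KK PowerSeries.X) = WithZero.exp (-1) ∧
      (∀ f : Ps Ω, ∃ h, ρ ⟨algebraMap (Ps Ω) KK f, h⟩ = PowerSeries.constantCoeff f) ∧
      (∀ f g : Ps Ω, f.order = g.order → v (algebraMap _ KK f) = v (algebraMap _ KK g)) ∧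
      ∀ x, v x ≤ 1 → ∃ f : Ps Ω, algebraMap _ KK f = x := by
  let v : Vl KK := (PowerSeries.idealX Ω).valuation KK
  have h1 : ∀ f : Ps Ω, v (algebraMap _ KK f) ≤ 1 := (PowerSeries.idealX Ω).valuation_le_one
  have h2 : ∀ f : Ps Ω, v (algebraMap _ KK f) < 1 ↔ PowerSeries.constantCoeff f = 0 := fun f =>
    ((PowerSeries.idealX Ω).valuation_lt_one_iff_mem f).trans
      (Ideal.mem_span_singleton.trans PowerSeries.X_dvd_iff)
  have h3 : ∀ x, v x ≤ 1 → ∃ f : Ps Ω, algebraMap _ KK f = x := fun x hx => by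
    rcases ValuationRing.isInteger_or_isInteger (Ps Ω) x with h | ⟨f, hf⟩
    · exact h
    rcases eq_or_ne x 0 with rfl | h0
    · exact ⟨0, map_zero _⟩
    have h4 : PowerSeries.constantCoeff f ≠ 0 := fun h => by
      have h5 := (h2 f).2 h
      rw [hf, map_inv₀, inv_lt_one₀ ((Valuation.pos_iff v).2 h0)] at h5
      exact h5.not_ge hx
    obtain ⟨u, rfl⟩ : IsUnit f := PowerSeries.isUnit_iff_constantCoeff.2 h4.isUnit
    exact ⟨↑u⁻¹, by rw [map_units_inv, hf, inv_inv]⟩
  let e : Ps Ω ≃+* v.integer := RingEquiv.ofBijective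
    ((algebraMap (Ps Ω) KK).codRestrict v.integer h1)
    ⟨fun a b h => IsFractionRing.injective (Ps Ω) KK (congrArg Subtype.val h), fun x => by
      obtain ⟨f, hf⟩ := h3 x x.2
      exact ⟨f, Subtype.ext hf⟩⟩
  have h6 : ∀ f : Ps Ω, f ≠ 0 → v (algebraMap _ KK f) =
      v (algebraMap (Ps Ω) KK PowerSeries.X) ^ f.order.toNat := fun f hf => by
    have h7 : v (algebraMap _ KK f.divXPowOrder) = 1 := (h1 _).eq_of_not_lt fun h =>
      hf (PowerSeries.constantCoeff_divXPowOrder_eq_zero_iff.1 ((h2 _).1 h))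
    conv_lhs => rw [← PowerSeries.X_pow_order_mul_divXPowOrder (f := f)]
    rw [map_mul, map_mul, h7, mul_one, map_pow, map_pow]
  refine ⟨v, PowerSeries.constantCoeff.comp e.symm.toRingHom, fun x => ?_,
    ((PowerSeries.idealX Ω).valuation_of_algebraMap _).trans PowerSeries.intValuation_X,
    fun f => ⟨h1 f, congrArg PowerSeries.constantCoeff (e.symm_apply_apply f)⟩,
    fun f g h => ?_, h3⟩
  · obtain ⟨f, rfl⟩ := e.surjective x
    exact (Eq.congr_left (congrArg PowerSeries.constantCoeff (e.symm_apply_apply f))).trans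
      (h2 f).symm
  · rcases eq_or_ne f 0 with rfl | hf
    · rw [PowerSeries.order_zero, eq_comm, PowerSeries.order_eq_top] at h
      rw [h]
    · have hg : g ≠ 0 := fun hg => hf (by rw [← PowerSeries.order_eq_top, h, hg,
        PowerSeries.order_zero])
      rw [h6 f hf, h6 g hg, h]

/-- polynomials over the fraction field are fractions -/
theorem frac_poly {R KK F : Type} [CommRing R] [IsDomain R] [Field KK] [Field F] [Algebra R KK]
    [IsFractionRing R KK] [Algebra KK[X] F] [IsFractionRing KK[X] F] (x : F) :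
    ∃ a b : R[X], algebraMap KK[X] F (b.map (algebraMap R KK)) ≠ 0 ∧
      x * algebraMap KK[X] F (b.map (algebraMap R KK)) =
        algebraMap KK[X] F (a.map (algebraMap R KK)) := by
  obtain ⟨p, q, hq, rfl⟩ := IsFractionRing.div_surjective KK[X] x
  obtain ⟨s, hs, hp⟩ := IsLocalization.integerNormalization_spec (nonZeroDivisors R) p
  obtain ⟨t, ht, hq'⟩ := IsLocalization.integerNormalization_spec (nonZeroDivisors R) q
  have h0 : ∀ y : KK[X], y ≠ 0 → algebraMap KK[X] F y ≠ 0 := fun y hy =>
    (map_ne_zero_iff _ (IsFractionRing.injective KK[X] F)).2 hy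
  have h1 : ∀ r ∈ nonZeroDivisors R, Polynomial.C (algebraMap R KK r) ≠ 0 := fun r hr =>
    Polynomial.C_ne_zero.2 (IsFractionRing.to_map_ne_zero_of_mem_nonZeroDivisors hr)
  have h2 := h0 q (nonZeroDivisors.ne_zero hq)
  rw [Algebra.smul_def, Polynomial.algebraMap_apply] at hp hq'
  refine ⟨Polynomial.C t * IsLocalization.integerNormalization (nonZeroDivisors R) p,
    Polynomial.C s * IsLocalization.integerNormalization (nonZeroDivisors R) q, ?_, ?_⟩
  · rw [Polynomial.map_mul, Polynomial.map_C, hq', map_mul, map_mul]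
    exact mul_ne_zero (h0 _ (h1 s hs)) (mul_ne_zero (h0 _ (h1 t ht)) h2)
  · rw [Polynomial.map_mul, Polynomial.map_C, hq', Polynomial.map_mul, Polynomial.map_C, hp]
    simp only [map_mul]
    field_simp

end Pool.Agent.ZCy
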