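import Pool.Agent.Lib.MP_751085_ag.ZC.Z.ZDefs

/-! Block Z: pole orders. -/

namespace Pool.Agent.ZCy

open scoped Classical WithZero Polynomial

set_option linter.unusedSectionVars false

section

variable {R : Type} [CommRing R]

theorem pole_tM_sum (M : ℕ) (p : R[X]) (j : ℤ) : (tM M R p).coeff j =
    ∑ i ∈ p.support, if j = -((M * i : ℕ) : ℤ) then p.coeff i else 0 := by
  simp only [tM, Polynomial.coe_eval₂RingHom, Polynomial.eval₂_eq_sum, Polynomial.sum_def,
    HahnSeries.coeff_sum]
  refine Finset.sum_congr rfl fun i _ => ?_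
  rw [HahnSeries.single_pow, HahnSeries.C_apply, HahnSeries.single_mul_single, one_pow, mul_one,
    zero_add, show i • -(M : ℤ) = -((M * i : ℕ) : ℤ) by rw [nsmul_eq_mul]; push_cast; ring]
  split_ifs with h
  · rw [h, HahnSeries.coeff_single_same]
  · exact HahnSeries.coeff_single_of_ne h

theorem pole_tM_coeff {M : ℕ} (hM : 0 < M) (p : R[X]) (i : ℕ) :
    (tM M R p).coeff (-((M * i : ℕ) : ℤ)) = p.coeff i := by
  rw [pole_tM_sum, Finset.sum_eq_single i]
  · rw [if_pos rfl]
  · intro k _ hk
    refine if_neg fun e => hk ?_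
    have e' : M * i = M * k := by exact_mod_cast neg_injective e
    exact (Nat.eq_of_mul_eq_mul_left hM e').symm
  · intro hi
    rw [if_pos rfl]
    exact Polynomial.notMem_support_iff.1 hi

theorem Pole.mono {m m' : ℕ} {f : Ls R} (h : Pole m f) (hm : m ≤ m') : Pole m' f := fun j hj =>
  h j (by omega)

theorem exists_pole (f : Ls R) : ∃ m, Pole m f := by
  refine ⟨(-f.order).toNat, fun j hj => HahnSeries.coeff_eq_zero_of_lt_order ?_⟩
  omega

theorem Pole.add {m : ℕ} {f g : Ls R} (hf : Pole m f) (hg : Pole m g) : Pole m (f + g) := fun j hj => by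
  simp [hf j hj, hg j hj]

theorem Pole.neg {m : ℕ} {f : Ls R} (hf : Pole m f) : Pole m (-f) := fun j hj => by
  simp [hf j hj]

theorem Pole.mul {m m' : ℕ} {f g : Ls R} (hf : Pole m f) (hg : Pole m' g) :
    Pole (m + m') (f * g) := by
  intro j hj
  rw [HahnSeries.coeff_mul]
  refine Finset.sum_eq_zero fun ij hij => ?_
  have h := (Finset.mem_antidiagonal.1 hij).2.2
  by_cases h1 : ij.1 < -(m : ℤ)
  · rw [hf _ h1, zero_mul]
  · rw [hg ij.2 (by push_cast at hj; omega), mul_zero]

theorem pole_iff (m : ℕ) (f : Ls R) : Pole m f ↔ ∃ a : PowerSeries R,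
    f = HahnSeries.single (-(m : ℤ)) 1 * HahnSeries.ofPowerSeries ℤ R a := by
  have key : ∀ (a : PowerSeries R) (j : ℤ),
      ((HahnSeries.single (-(m : ℤ)) (1 : R) : Ls R) * HahnSeries.ofPowerSeries ℤ R a).coeff j =
        (HahnSeries.ofPowerSeries ℤ R a).coeff (j + m) := by
    intro a j
    have := HahnSeries.coeff_single_mul_add (r := (1 : R)) (x := HahnSeries.ofPowerSeries ℤ R a)
      (a := j + m) (b := -(m : ℤ))
    rw [one_mul, show j + (m : ℤ) + -(m : ℤ) = j by ring] at this
    exact this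
  constructor
  · intro h
    refine ⟨PowerSeries.mk fun n => f.coeff ((n : ℤ) - m), ?_⟩
    ext j
    rw [key, PowerSeries.coeff_coe]
    split_ifs with hj
    · exact h j (by omega)
    · rw [PowerSeries.coeff_mk, show (((j + (m : ℤ)).natAbs : ℕ) : ℤ) - m = j by omega]
  · rintro ⟨a, rfl⟩ j hj
    rw [key, PowerSeries.coeff_coe, if_pos (by omega)]

theorem tL_coeff (p : R[X]) (i : ℕ) : (tL R p).coeff (-(i : ℤ)) = p.coeff i := by
  have := pole_tM_coeff (M := 1) one_pos p i
  rwa [one_mul] at this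

theorem tL_coeff_pos (p : R[X]) (j : ℤ) (hj : 0 < j) : (tL R p).coeff j = 0 := by
  rw [pole_tM_sum]
  refine Finset.sum_eq_zero fun i _ => if_neg ?_
  omega

theorem tL_injective : Function.Injective (tL R) := fun p q h => by
  ext i
  rw [← tL_coeff p i, h, tL_coeff]

theorem pole_tL (p : R[X]) (m : ℕ) : Pole m (tL R p) ↔ p.natDegree ≤ m := by
  rw [Polynomial.natDegree_le_iff_coeff_eq_zero]
  constructor
  · intro h i hi
    rw [← tL_coeff p i]
    exact h _ (by omega)
  · intro h j hj
    have := tL_coeff p (-j).toNat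
    rw [show -(((-j).toNat : ℕ) : ℤ) = j by omega] at this
    rw [this]
    exact h _ (by omega)

theorem lm_tM {S : Type} [CommRing S] (f : R →+* S) (M : ℕ) (p : R[X]) :
    lm f (tM M R p) = tM M S (p.map f) := by
  have h : (lm f).comp (tM M R) = (tM M S).comp (Polynomial.mapRingHom f) := by
    refine Polynomial.ringHom_ext (fun a => ?_) ?_
    · ext j
      simp only [tM, RingHom.comp_apply, Polynomial.coe_eval₂RingHom, Polynomial.eval₂_C,
        Polynomial.coe_mapRingHom, Polynomial.map_C, lm_coeff, HahnSeries.C_apply,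
        HahnSeries.coeff_single]
      split_ifs <;> simp
    · ext j
      simp only [tM, RingHom.comp_apply, Polynomial.coe_eval₂RingHom, Polynomial.eval₂_X,
        Polynomial.coe_mapRingHom, Polynomial.map_X, lm_coeff, HahnSeries.coeff_single]
      split_ifs <;> simp
  exact RingHom.congr_fun h p

theorem lm_injective {S : Type} [CommRing S] {f : R →+* S} (hf : Function.Injective f) :
    Function.Injective (lm f) := fun x y h => by
  ext j
  apply hf
  rw [← lm_coeff, h, lm_coeff]

theorem mem_lm_range {S : Type} [CommRing S] {f : R →+* S} (hf : Function.Injective f)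
    (x : Ls S) : x ∈ (lm f).range ↔ ∀ j, x.coeff j ∈ f.range := by
  constructor
  · rintro ⟨y, rfl⟩ j
    exact ⟨y.coeff j, rfl⟩
  · intro h
    choose c hc using h
    refine ⟨⟨c, x.isPWO_support.mono fun j hj => ?_⟩, ?_⟩
    · intro h0
      apply hj
      apply hf
      rw [hc j, map_zero]
      exact h0
    · ext j
      exact hc j

theorem tM_coeff {M : ℕ} (hM : 0 < M) (p : R[X]) (i : ℕ) :
    (tM M R p).coeff (-((M * i : ℕ) : ℤ)) = p.coeff i := pole_tM_coeff hM p i

theorem tM_coeff_cases {M : ℕ} (hM : 0 < M) (p : R[X]) (j : ℤ) :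
    (tM M R p).coeff j = 0 ∨ ∃ i, (tM M R p).coeff j = p.coeff i := by
  by_cases h : ∃ i : ℕ, j = -((M * i : ℕ) : ℤ)
  · obtain ⟨i, rfl⟩ := h
    exact Or.inr ⟨i, tM_coeff hM p i⟩
  · left
    rw [pole_tM_sum]
    exact Finset.sum_eq_zero fun i _ => if_neg fun e => h ⟨i, e⟩

theorem tM_injective {M : ℕ} (hM : 0 < M) : Function.Injective (tM M R) := fun p q h => by
  ext i
  rw [← tM_coeff hM p i, h, tM_coeff hM]

end

end Pool.Agent.ZCy
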