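import Pool.Agent.Lib.MP_751085_ag.ZC.Z.Pol1
import Pool.Agent.Lib.MP_751085_ag.ZC.Z.GalFr

/-! Block Z: the certificates, expansions at the origin. -/

namespace Pool.Agent.ZCy

open scoped Classical WithZero Polynomial

set_option linter.unusedSectionVars false

open MvPolynomial

theorem cst1_eta_up {k σ : Type} [Field k] (a : MP σ k) :
    eta σ k (up a) = PowerSeries.C (algebraMap (MP σ k) (RF σ k) a) := by
  change ((((tp (up a)).map (algebraMap (MP σ k) (RF σ k)) : (RF σ k)[X])) : Ps (RF σ k)) = _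
  rw [tp_up, Polynomial.map_C, Polynomial.coe_C]

theorem cst1_poly_mem {k σ KK : Type} [Field k] [Field KK] (β : Ps (RF σ k) →+* KK)
    (γ : RF (Option σ) k →+* KK) (hγ : ∀ p, γ (algebraMap _ _ p) = β (eta σ k p))
    (q : (RF σ k)[X]) : β (q : Ps (RF σ k)) ∈ γ.fieldRange := by
  have hX : β PowerSeries.X ∈ γ.fieldRange := ⟨_, (hγ (X none)).trans (by rw [eta_X])⟩
  have hA : ∀ a : MP σ k, β (PowerSeries.C (algebraMap (MP σ k) (RF σ k) a)) ∈ γ.fieldRange :=
    fun a => ⟨_, (hγ (up a)).trans (by rw [cst1_eta_up])⟩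
  have hC : ∀ c : RF σ k, β (PowerSeries.C c) ∈ γ.fieldRange := fun c => by
    obtain ⟨a, b, -, rfl⟩ := IsFractionRing.div_surjective (A := MP σ k) c
    have := map_div₀ (β.comp PowerSeries.C) (algebraMap (MP σ k) (RF σ k) a)
      (algebraMap (MP σ k) (RF σ k) b)
    simp only [RingHom.comp_apply] at this
    rw [this]
    exact div_mem (hA a) (hA b)
  induction q using Polynomial.induction_on' with
  | add p q hp hq => rw [Polynomial.coe_add, map_add]; exact add_mem hp hq
  | monomial n c =>
    rw [← Polynomial.C_mul_X_pow_eq_monomial, Polynomial.coe_mul, Polynomial.coe_pow,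
      Polynomial.coe_C, Polynomial.coe_X, map_mul, map_pow]
    exact mul_mem (hC c) (pow_mem hX n)

theorem scp_eta (hZ : Z1H) {k σ : Type} [Field k] [CharZero k] [Fintype σ] (Λ : LefData k σ)
    (γ : RF (Option σ) k →+* Fr (Ps (RF σ k)))
    (hγ : ∀ p, γ (algebraMap _ _ p) = algebraMap (Ps (RF σ k)) _ (eta σ k p)) : SCP γ Λ.Δ := by
  obtain ⟨v, ρ, hρ, hX, hc, -, hint⟩ := exists_ord (RF σ k) (Fr (Ps (RF σ k)))
  refine scp_of_inert (A := MP (Option σ) k) γ v (P := X none) ⟨fun a => ?_, fun a => ?_⟩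
    (fun x n => ?_) fun L _ _ _ _ hu =>
      hZ k (Option σ) none Λ.Δ Λ.a' Λ.b' Λ.ha' Λ.hb' Λ.nb' Λ.c3 L hu
  · rw [RingHom.comp_apply, hγ]
    exact (hc _).1
  · obtain ⟨h, e⟩ := hc (eta σ k a)
    rw [RingHom.comp_apply, hγ, ← hyp0_eq_zero,
      ← map_eq_zero_iff _ (IsFractionRing.injective (MP σ k) (RF σ k)), ← eta_constantCoeff, ← e]
    exact (hρ ⟨_, h⟩).symm
  · set β := algebraMap (Ps (RF σ k)) (Fr (Ps (RF σ k))) with hβ
    have hX0 : β PowerSeries.X ≠ 0 := fun h => by
      rw [h, map_zero] at hX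
      exact WithZero.exp_ne_zero hX.symm
    obtain ⟨m, hm⟩ : ∃ m : ℕ, v (x * β PowerSeries.X ^ m) ≤ 1 := by
      by_cases hx : v x = 0
      · exact ⟨0, by simp [hx]⟩
      · refine ⟨(WithZero.log (v x)).toNat, ?_⟩
        rw [map_mul, map_pow, hX, ← WithZero.exp_log hx, ← WithZero.exp_nsmul, ← WithZero.exp_add,
          WithZero.log_exp, ← WithZero.exp_zero, WithZero.exp_le_exp]
        have := Int.self_le_toNat (WithZero.log (v x))
        simp only [nsmul_eq_mul]
        omega
    obtain ⟨f, hf⟩ := hint _ hm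
    obtain ⟨g, hg⟩ : PowerSeries.X ^ (m + n) ∣ f - (PowerSeries.trunc (m + n) f : Ps (RF σ k)) := by
      rw [PowerSeries.X_pow_dvd_iff]
      intro j hj
      rw [map_sub, Polynomial.coeff_coe, PowerSeries.coeff_trunc, if_pos hj, sub_self]
    have hXm : β PowerSeries.X ∈ γ.fieldRange := ⟨_, (hγ (X none)).trans (by rw [eta_X])⟩
    obtain ⟨a, ha⟩ := div_mem (cst1_poly_mem β γ hγ (PowerSeries.trunc (m + n) f)) (pow_mem hXm m)
    refine ⟨a, ?_⟩
    have e : x - γ a = β PowerSeries.X ^ n * β g := by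
      have h2 := congrArg β hg
      rw [map_sub, hf, map_mul, map_pow] at h2
      rw [ha]
      field_simp
      rw [h2]
      ring
    rw [e, hγ, eta_X, map_mul, map_pow]
    exact mul_le_of_le_one_right' (hc g).1

theorem cst1_goodLine_map {k k₁ ι : Type} [Field k] [Field k₁] {Θ : MP ι k} {a b : ι → k}
    (h : GoodLine Θ a b) (f : k →+* k₁) :
    GoodLine (map f Θ) (fun i => f (a i)) fun i => f (b i) := by
  have e : line (RingHom.id k₁) (fun i => f (a i)) (fun i => f (b i)) (map f Θ) =
      (line (RingHom.id k) a b Θ).map f := by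
    have : (line (RingHom.id k₁) (fun i => f (a i)) (fun i => f (b i))).comp (map f) =
        (Polynomial.mapRingHom f).comp (line (RingHom.id k) a b) := by
      ext : 1
      · ext : 1; simp [line]
      · simp [line]
    exact DFunLike.congr_fun this Θ
  have hd : (map f Θ).totalDegree = Θ.totalDegree := by
    simp only [totalDegree, support_map_of_injective _ f.injective]
  refine ⟨?_, ?_, ?_⟩
  · have := h.1.map f
    rwa [eval_map, ← eval₂_id, eval₂_comp_left, RingHom.comp_id] at *
  · rw [e]; exact h.2.1.map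
  · rw [e, hd, Polynomial.coeff_map]; exact h.2.2.map f

theorem LefData.exists_map {k k₁ σ : Type} [Field k] [Field k₁] [Fintype σ] (Λ : LefData k σ)
    (f : k →+* k₁) : ∃ Λ₁ : LefData k₁ σ, Λ₁.Θ = map f Λ.Θ := by
  refine ⟨⟨map f Λ.Θ, map f Λ.Δ, fun i => f (Λ.b i), fun i => f (Λ.a' i), fun i => f (Λ.b' i), ?_,
    by simp [Λ.hb], by simp [Λ.hbn], ?_, ?_, by simp [Λ.ha'], by simp [Λ.hb'], fun h => ?_,
    cst1_goodLine_map Λ.c3 f⟩, rfl⟩
  · rw [constantCoeff_map, Λ.one, map_one]
  · have := cst1_goodLine_map Λ.c2 f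
    simp only [Pi.zero_apply, map_zero] at this
    exact this
  · obtain ⟨r, α, β, h⟩ := Λ.bez
    refine ⟨r, α.map (map f), β.map (map f), ?_⟩
    rw [← map_flp f.injective, tp_map, Polynomial.derivative_map, ← Polynomial.map_mul,
      ← Polynomial.map_mul, ← Polynomial.map_add, ← h, Polynomial.map_C, map_pow (map f)]
  · exact Λ.nb' (funext fun i => (map_eq_zero f).1 (congrFun h i))

theorem LefData.hyp0_ne {k σ : Type} [Field k] [Fintype σ] (Λ : LefData k σ) : hyp0 Λ.Δ ≠ 0 := by
  intro h
  have e := eval₂_hyp0 (RingHom.id k) (fun i => Λ.a' (some i)) Λ.Δ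
  have e2 : (fun i : Option σ => i.elim 0 fun i => Λ.a' (some i)) = Λ.a' := by
    funext i
    cases i
    · exact Λ.ha'.symm
    · rfl
  rw [h, eval₂_zero, e2, eval₂_id] at e
  exact Λ.c3.1.ne_zero e.symm

/-- the images of the variables -/
noncomputable def cst1_a (k σ : Type) [Field k] : Option σ → MvPowerSeries Unit (MP σ k) :=
  fun i => PowerSeries.C (i.elim 1 X : MP σ k) * PowerSeries.X

theorem cst1_has (k σ : Type) [Field k] [Fintype σ] : MvPowerSeries.HasSubst (cst1_a k σ) :=
  MvPowerSeries.hasSubst_of_constantCoeff_zero fun i => by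
    change PowerSeries.constantCoeff (PowerSeries.C _ * PowerSeries.X) = 0
    simp

theorem cst1_prod (k σ : Type) [Field k] [Fintype σ] (d : Option σ →₀ ℕ) :
    (d.prod fun s e => cst1_a k σ s ^ e) =
      (PowerSeries.C (monomial d.some (1 : k)) * PowerSeries.X ^ d.degree : Ps (MP σ k)) := by
  have h : ∀ (s : Option σ) (e : ℕ), cst1_a k σ s ^ e =
      (PowerSeries.C ((s.elim 1 X : MP σ k) ^ e) * PowerSeries.X ^ e : Ps (MP σ k)) := fun s e => by
    rw [map_pow, ← mul_pow]; rfl
  simp only [h]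
  rw [Finsupp.prod_fintype _ _ (by simp), Finset.prod_mul_distrib, Finset.prod_pow_eq_pow_sum,
    ← map_prod, Finsupp.degree_eq_sum, Fintype.prod_option, monomial_eq,
    Finsupp.prod_fintype _ _ (by simp)]
  simp

theorem cst1_coeff (k σ : Type) [Field k] [Fintype σ] (f : MvPowerSeries (Option σ) k)
    (d : Option σ →₀ ℕ) : coeff d.some (MvPowerSeries.coeff (Finsupp.single () d.degree)
      (MvPowerSeries.subst (cst1_a k σ) f)) = MvPowerSeries.coeff d f := by
  rw [MvPowerSeries.coeff_subst (cst1_has k σ)]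
  have h := (coeffAddMonoidHom (R := k) d.some).map_finsum
    (MvPowerSeries.coeff_subst_finite (cst1_has k σ) f (Finsupp.single () d.degree))
  simp only [coeffAddMonoidHom_apply] at h
  rw [h]
  have h2 : ∀ d' : Option σ →₀ ℕ, MvPowerSeries.coeff (Finsupp.single () d.degree)
      (d'.prod fun s e => cst1_a k σ s ^ e) =
        if d.degree = d'.degree then monomial d'.some (1 : k) else 0 := fun d' => by
    rw [cst1_prod]
    change PowerSeries.coeff d.degree _ = _
    rw [PowerSeries.coeff_C_mul, PowerSeries.coeff_X_pow]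
    simp
  simp only [h2]
  rw [finsum_eq_single _ d]
  · simp
  · intro d' hd'
    split_ifs with h3
    · rw [coeff_smul, coeff_monomial, if_neg, smul_zero]
      intro h4
      apply hd'
      have h5 : ∀ j, d' (some j) = d (some j) := fun j => by
        simpa using DFunLike.congr_fun h4 j
      ext i
      cases i with
      | some j => exact h5 j
      | none =>
        rw [Finsupp.degree_eq_sum, Finsupp.degree_eq_sum, Fintype.sum_option,
          Fintype.sum_option] at h3
        simp only [h5] at h3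
        omega
    · simp

/-- the expansion along the generic line through the origin -/
theorem exists_dir (k σ : Type) [Field k] [Fintype σ] :
    ∃ ω : MvPowerSeries (Option σ) k →+* Ls (RF σ k), Function.Injective ω ∧
      (∀ a, ω (MvPowerSeries.C a) = HahnSeries.C (algebraMap (MP σ k) (RF σ k) (C a))) ∧
      ω (MvPowerSeries.X none) = HahnSeries.single 1 1 ∧
      ∀ j, ω (MvPowerSeries.X (some j)) =
        HahnSeries.single 1 (algebraMap (MP σ k) (RF σ k) (X j)) := by
  let s : MvPowerSeries (Option σ) k →+* Ps (MP σ k) :=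
    (MvPowerSeries.substAlgHom (R := k) (cst1_has k σ)).toRingHom
  have hs : ∀ f, s f = MvPowerSeries.subst (cst1_a k σ) f := fun f =>
    MvPowerSeries.substAlgHom_apply (cst1_has k σ) f
  have hsX : ∀ i, s (MvPowerSeries.X i) = PowerSeries.C (i.elim 1 X : MP σ k) * PowerSeries.X :=
    fun i => MvPowerSeries.substAlgHom_X (cst1_has k σ) i
  refine ⟨(HahnSeries.ofPowerSeries ℤ (RF σ k)).comp
    ((PowerSeries.map (algebraMap (MP σ k) (RF σ k))).comp s), ?_, fun a => ?_, ?_, fun j => ?_⟩
  · refine HahnSeries.ofPowerSeries_injective.comp ((PowerSeries.map_injective _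
      (IsFractionRing.injective (MP σ k) (RF σ k))).comp fun f g (h : s f = s g) => ?_)
    ext d
    rw [← cst1_coeff, ← cst1_coeff, ← hs, ← hs, h]
  · have : s (MvPowerSeries.C a) = PowerSeries.C (C a) := by
      have h := (MvPowerSeries.substAlgHom (R := k) (cst1_has k σ)).commutes a
      rw [MvPowerSeries.algebraMap_apply, MvPowerSeries.algebraMap_apply] at h
      exact h
    simp [this]
  · simp [hsX]
  · simp [hsX, HahnSeries.C_apply, HahnSeries.single_mul_single]

end Pool.Agent.ZCy
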