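import Pool.Agent.Lib.MP_751085_ag.ZC.Z.Cen

/-! Block Z: change of the field of constants. -/

namespace Pool.Agent.ZCy

open scoped Classical WithZero Polynomial

set_option linter.unusedSectionVars false

open MvPolynomial

/-- the compositum inside a given field -/
theorem exists_comp {F₀ F₁ E₀ Ω : Type} [Field F₀] [Field F₁] [Field E₀] [Field Ω] [Algebra F₀ E₀]
    [FiniteDimensional F₀ E₀] [IsGalois F₀ E₀] (f : F₀ →+* F₁) (l : F₁ →+* Ω) (J : E₀ →+* Ω)
    (h : ∀ a, J (algebraMap F₀ E₀ a) = l (f a)) :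
    ∃ (E₁ : Type) (_ : Field E₁) (_ : Algebra F₁ E₁) (_ : FiniteDimensional F₁ E₁)
      (_ : IsGalois F₁ E₁) (j : E₀ →+* E₁) (J₁ : E₁ →+* Ω),
      (∀ a, j (algebraMap F₀ E₀ a) = algebraMap F₁ E₁ (f a)) ∧
      (∀ a, J₁ (algebraMap F₁ E₁ a) = l a) ∧
      ∀ g : E₁ ≃ₐ[F₁] E₁, (∀ z, g (j z) = j z) → g = 1 := by
  let : Algebra F₀ F₁ := f.toAlgebra
  let : Algebra F₁ Ω := l.toAlgebra
  let : Algebra F₀ Ω := (l.comp f).toAlgebra
  have : IsScalarTower F₀ F₁ Ω := .of_algebraMap_eq fun _ => rfl
  let J' : E₀ →ₐ[F₀] Ω := ⟨J, h⟩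
  obtain ⟨p, hp, hs⟩ := IsGalois.is_separable_splitting_field F₀ E₀
  have h1 : (p.map (algebraMap F₀ F₁)).rootSet Ω = J '' p.rootSet E₀ := by
    rw [Polynomial.rootSet, Polynomial.aroots_map]
    exact (hs.splits'.image_rootSet J').symm
  have h2 : ((p.map (algebraMap F₀ F₁)).map (algebraMap F₁ Ω)).Splits := by
    have := hs.splits'.map J
    rw [Polynomial.map_map] at this ⊢
    rwa [show J.comp (algebraMap F₀ E₀) = (algebraMap F₁ Ω).comp (algebraMap F₀ F₁) from
      RingHom.ext h] at this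
  let E₁ := IntermediateField.adjoin F₁ ((p.map (algebraMap F₀ F₁)).rootSet Ω)
  have := IntermediateField.adjoin_rootSet_isSplittingField h2
  have h3 : ∀ z, J z ∈ E₁ := fun z => by
    have hz : z ∈ Algebra.adjoin F₀ (p.rootSet E₀) := hs.adjoin_rootSet' ▸ Algebra.mem_top
    induction hz using Algebra.adjoin_induction with
    | mem x hx => exact IntermediateField.subset_adjoin _ _ (h1 ▸ ⟨x, hx, rfl⟩)
    | algebraMap r => exact h r ▸ E₁.algebraMap_mem (f r)
    | add x y _ _ hx hy => exact map_add J x y ▸ add_mem hx hy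
    | mul x y _ _ hx hy => exact map_mul J x y ▸ mul_mem hx hy
  refine ⟨E₁, inferInstance, inferInstance,
    Polynomial.IsSplittingField.finiteDimensional _ (p.map (algebraMap F₀ F₁)),
    IsGalois.of_separable_splitting_field (p := p.map (algebraMap F₀ F₁)) hp.map,
    J.codRestrict E₁ h3, E₁.val.toRingHom, fun a => Subtype.ext (h a), fun a => rfl,
    fun g hg => ?_⟩
  have e : (g : E₁ →ₐ[F₁] E₁) = AlgHom.id _ _ :=
    IntermediateField.algHom_ext_of_eq_adjoin F₁ rfl fun x hx => by
      obtain ⟨z, -, rfl⟩ := h1 ▸ hx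
      exact hg z
  exact AlgEquiv.ext fun x => DFunLike.congr_fun e x

/-- the Galois closure over a smaller field -/
theorem exists_closure (F E : Type) [Field F] [CharZero F] [Field E] [Algebra F E]
    [FiniteDimensional F E] : ∃ (N : Type) (_ : Field N) (_ : Algebra F N)
      (_ : FiniteDimensional F N) (_ : IsGalois F N) (j : E →ₐ[F] N),
      ∀ g : N ≃ₐ[F] N, (∀ (h : N ≃ₐ[F] N) (z : E), g (h (j z)) = h (j z)) → g = 1 := by
  let pb := Field.powerBasisOfFiniteOfSeparable F E
  let p := minpoly F pb.gen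
  have hp : p.Separable := Algebra.IsSeparable.isSeparable F pb.gen
  have : IsGalois F p.SplittingField := IsGalois.of_separable_splitting_field hp
  obtain ⟨y, hy⟩ := (Polynomial.SplittingField.splits p).exists_eval_eq_zero
    (by rw [Polynomial.degree_map]; exact (minpoly.degree_pos pb.isIntegral_gen).ne')
  rw [Polynomial.eval_map_algebraMap] at hy
  refine ⟨p.SplittingField, inferInstance, inferInstance, inferInstance, inferInstance,
    pb.lift y hy, fun g hg => ?_⟩
  have e : (g : p.SplittingField →ₐ[F] p.SplittingField) = AlgHom.id _ _ :=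
    AlgHom.ext_of_adjoin_eq_top (Polynomial.SplittingField.adjoin_rootSet p) fun x hx => by
      obtain ⟨σ, rfl⟩ := minpoly.exists_algEquiv_of_root' (K := F) (x := x)
        (Algebra.IsAlgebraic.isAlgebraic (pb.lift y hy pb.gen))
        (by rw [minpoly.algHom_eq _ (pb.lift y hy).injective]
            exact Polynomial.aeval_eq_zero_of_mem_rootSet hx)
      exact hg σ _
  exact AlgEquiv.ext fun x => DFunLike.congr_fun e x

/-- the map of rational function fields -/
theorem exists_rfMap {k k₁ : Type} (ι : Type) [Field k] [Field k₁] (f : k →+* k₁) :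
    ∃ g : RF ι k →+* RF ι k₁, ∀ p, g (algebraMap _ _ p) = algebraMap (MP ι k₁) _ (map f p) :=
  ⟨IsFractionRing.lift (g := (algebraMap (MP ι k₁) (RF ι k₁)).comp (map f))
    ((IsFractionRing.injective _ _).comp (map_injective f f.injective)),
    fun p => IsFractionRing.lift_algebraMap _ p⟩

theorem rf_finite {k k₁ ι : Type} [Field k] [Field k₁] [Algebra k k₁] [FiniteDimensional k k₁]
    [Algebra (RF ι k) (RF ι k₁)] (h : ∀ p, algebraMap (RF ι k) (RF ι k₁) (algebraMap _ _ p) =
      algebraMap (MP ι k₁) _ (map (algebraMap k k₁) p)) :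
    FiniteDimensional (RF ι k) (RF ι k₁) := by
  let φ : k₁ →+* RF ι k₁ := (algebraMap (MP ι k₁) _).comp C
  let ψ : k →+* RF ι k := (algebraMap (MP ι k) _).comp C
  have e : (algebraMap (RF ι k) (RF ι k₁)).comp ψ = φ.comp (algebraMap k k₁) :=
    RingHom.ext fun a => by simp [φ, ψ, h]
  let b := Module.finBasis k k₁
  let M := IntermediateField.adjoin (RF ι k) (Set.range fun i => φ (b i))
  have : FiniteDimensional (RF ι k) M := IntermediateField.finiteDimensional_adjoin (by
    rintro _ ⟨i, rfl⟩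
    exact (Algebra.IsIntegral.isIntegral (b i)).map_of_comp_eq ψ φ e)
  have h1 : ∀ p : MP ι k₁, algebraMap _ (RF ι k₁) p ∈ M := fun p => by
    induction p using MvPolynomial.induction_on with
    | C a =>
      show φ a ∈ M
      rw [← b.sum_repr a, map_sum]
      refine sum_mem fun i _ => ?_
      rw [Algebra.smul_def, map_mul]
      exact mul_mem (RingHom.congr_fun e _ ▸ M.algebraMap_mem (ψ _))
        (IntermediateField.subset_adjoin _ _ ⟨i, rfl⟩)
    | add p q hp hq => exact map_add (algebraMap _ (RF ι k₁)) p q ▸ add_mem hp hq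
    | mul_X p i hp =>
      rw [map_mul, ← map_X (algebraMap k k₁), ← h]
      exact mul_mem hp (M.algebraMap_mem _)
  refine Module.Finite.of_surjective M.val.toLinearMap fun z => ?_
  obtain ⟨p, q, -, rfl⟩ := IsFractionRing.div_surjective (A := MP ι k₁) z
  exact ⟨⟨_, div_mem (h1 p) (h1 q)⟩, rfl⟩

theorem cst_integral {k k₁ ι : Type} [Field k] [Field k₁] [Algebra k k₁] [FiniteDimensional k k₁] :
    (map (algebraMap k k₁) : MP ι k →+* MP ι k₁).IsIntegral := fun p => by
  induction p using MvPolynomial.induction_on with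
  | C a =>
    have := RingHom.IsIntegralElem.map (Algebra.IsIntegral.isIntegral (R := k) a)
      (C : k₁ →+* MP ι k₁)
    rw [show (C : k₁ →+* MP ι k₁).comp (algebraMap k k₁) = (map (algebraMap k k₁)).comp C from
      RingHom.ext fun a => by simp] at this
    exact this.of_comp
  | add p q hp hq => exact hp.add _ hq
  | mul_X p i hp => exact hp.mul _ (map_X (algebraMap k k₁) i ▸ RingHom.isIntegralElem_map _)

theorem unr_closure {k k₁ ι E N : Type} [Field k] [Field k₁] [Fintype ι] [Algebra k k₁]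
    [FiniteDimensional k k₁] [Field E] [Field N] [Algebra (RF ι k₁) E]
    [FiniteDimensional (RF ι k₁) E] [IsGalois (RF ι k₁) E] [Algebra (RF ι k) N] (j : E →+* N)
    (hj : ∀ p, j (toE (MP ι k₁) E (map (algebraMap k k₁) p)) = toE (MP ι k) N p)
    (hg : ∀ g : N ≃ₐ[RF ι k] N, (∀ (h : N ≃ₐ[RF ι k] N) (z : E), g (h (j z)) = h (j z)) → g = 1)
    {Θ : MP ι k} (hu : UnrOff (RF ι k₁) (toE (MP ι k₁) E) (map (algebraMap k k₁) Θ)) :
    UnrOff (RF ι k) (toE (MP ι k) N) Θ := by
  intro P w hP hΘ hc
  refine (Subgroup.eq_bot_iff_forall _).2 fun g hg' => hg g fun h z => ?_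
  let J : E →+* N := (h : N →+* N).comp j
  let φ : MP ι k₁ →+* N := J.comp (toE (MP ι k₁) E)
  have e : φ.comp (map (algebraMap k k₁)) = toE (MP ι k) N := RingHom.ext fun p => by
    show h (j (toE (MP ι k₁) E (map (algebraMap k k₁) p))) = _
    rw [hj]
    exact h.commutes _
  have hφ : Function.Injective φ :=
    J.injective.comp ((algebraMap (RF ι k₁) E).injective.comp
      (IsFractionRing.injective (MP ι k₁) (RF ι k₁)))
  obtain ⟨Q, hQ, hcQ⟩ := cen_up (map (algebraMap k k₁))
    (map_injective _ (algebraMap k k₁).injective) cst_integral hφ hP (e ▸ hc)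
  have h0 : Ine (RF ι k₁) (w.comap J) = ⊥ := hu Q (w.comap J) hQ
    (fun hd => hΘ ((hc.2 Θ).1 (RingHom.congr_fun e Θ ▸ (hcQ.2 _).2 hd))) hcQ
  have h1 : ∀ p, g (φ p) = φ p := fun p => by
    induction p using MvPolynomial.induction_on with
    | C a =>
      have ha : (algebraMap k k₁).IsIntegralElem a := Algebra.IsIntegral.isIntegral (R := k) a
      have e1 : (φ.comp C).comp (algebraMap k k₁) = (toE (MP ι k) N).comp C :=
        RingHom.ext fun a => by rw [← e]; simp
      have e2 : (g : N →+* N).comp ((toE (MP ι k) N).comp C) = (toE (MP ι k) N).comp C :=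
        RingHom.ext fun a => g.commutes _
      have k1 := e1 ▸ ha.map (φ.comp C)
      have k2 := e2 ▸ k1.map (g : N →+* N)
      by_contra hne
      exact (hg'.2 _ (hcQ.1 (C a))).ne
        (triv_of_algebraic (fun a => hc.1 (C a)) (k2.sub _ k1) (sub_ne_zero.2 hne))
    | add p q hp hq => rw [map_add, map_add, hp, hq]
    | mul_X p i hp =>
      rw [map_mul, map_mul, hp, ← map_X (algebraMap k k₁), ← RingHom.comp_apply φ, e]
      exact congrArg _ (g.commutes _)
  refine fix_of_ine (K := RF ι k₁) J g.toRingEquiv (fun a => ?_) w hg'.1 hg'.2 h0 z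
  obtain ⟨p, q, -, rfl⟩ := IsFractionRing.div_surjective (A := MP ι k₁) a
  simp only [map_div₀]
  exact congrArg₂ _ (h1 p) (h1 q)

end Pool.Agent.ZCy
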