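import Pool.Agent.Lib.MP_751085_ag.ZC.CDefs

/-! Block Z: Laurent expansions at infinity, shared definitions. -/

namespace Pool.Agent.ZCy

open scoped Classical WithZero Polynomial

set_option linter.unusedSectionVars false

/-- Laurent series in `u` -/
abbrev Ls (R : Type) [CommRing R] : Type := LaurentSeries R

/-- power series in `y` -/
abbrev Ps (R : Type) [CommRing R] : Type := PowerSeries R

/-- a ring homomorphism acts on the coefficients of Laurent series -/
noncomputable def lm {R S : Type} [CommRing R] [CommRing S] (f : R →+* S) : Ls R →+* Ls S where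
  toFun x := HahnSeries.map x f
  map_one' := HahnSeries.map_one f.toMonoidWithZeroHom
  map_mul' _ _ := HahnSeries.map_mul f.toNonUnitalRingHom
  map_zero' := by ext; simp
  map_add' _ _ := by ext; simp

@[simp] theorem lm_coeff {R S : Type} [CommRing R] [CommRing S] (f : R →+* S) (x : Ls R) (j : ℤ) :
    (lm f x).coeff j = f (x.coeff j) := rfl

/-- the expansion at infinity, `t ↦ u ^ (-M)` -/
noncomputable def tM (M : ℕ) (R : Type) [CommRing R] : R[X] →+* Ls R :=
  Polynomial.eval₂RingHom HahnSeries.C (HahnSeries.single (-(M : ℤ)) 1)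

/-- the expansion at infinity, `t ↦ u⁻¹` -/
noncomputable abbrev tL (R : Type) [CommRing R] : R[X] →+* Ls R := tM 1 R

/-- the map of a ring `A` to an extension `E` of a field `F` over `A` -/
noncomputable abbrev toF (A F E : Type) [CommRing A] [Field F] [Field E] [Algebra A F]
    [Algebra F E] : A →+* E := (algebraMap F E).comp (algebraMap A F)

/-- the values of `w` are values of elements of `F` -/
def Ix1 (F : Type) {E : Type} [Field F] [Field E] [Algebra F E] (w : Vl E) : Prop :=
  ∀ x, ∃ a : F, w x = w (algebraMap F E a)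

/-- the pole order is at most `m` -/
def Pole {R : Type} [CommRing R] (m : ℕ) (f : Ls R) : Prop := ∀ j : ℤ, j < -(m : ℤ) → f.coeff j = 0

/-- an additive map with the Leibniz rule -/
def Leib {Ω : Type} [CommRing Ω] (d : Ω →+ Ω) : Prop := ∀ a b, d (a * b) = a * d b + b * d a

/-- Good reduction of an extension of `L(t)` that splits at infinity. `A` is a normalised valuation
of `L` in whose residue field the order of the group is invertible. -/
def GR0 : Prop :=
  ∀ (L F N : Type) [Field L] [CharZero L] [Field F] [Field N] [Algebra L[X] F]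
    [IsFractionRing L[X] F] [Algebra F N] [FiniteDimensional F N] [IsGalois F N] (M : ℕ)
    (ι : N →+* Ls L) (A : Vl L) (Ψ : (A.integer)[X]), 0 < M → Nrm A →
    A (Nat.card (N ≃ₐ[F] N) : L) = 1 → A (M : L) = 1 → (∀ p, ι (toF L[X] F N p) = tM M L p) →
    IsUnit Ψ.leadingCoeff → UnrOff F (toF L[X] F N) (Ψ.map A.integer.subtype) →
    ∃ W : Vl N, (∀ x, ∃ a : L, W x = A a) ∧
      (∀ z, ((toF L[X] F N).comp (Polynomial.mapRingHom A.integer.subtype)).IsIntegralElem z →
        (∀ j, A ((ι z).coeff j) ≤ W z) ∧ ∃ j, A ((ι z).coeff j) = W z) ∧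
      (IsCoprime Ψ (Polynomial.derivative Ψ) → Dec F W = ⊤)

/-- Finite Galois extensions of `K` that are unramified off `δ` have no subextension inside
`KK`. -/
def SCP {A K KK : Type} [CommRing A] [Field K] [Field KK] [Algebra A K] (γ : K →+* KK) (δ : A) :
    Prop :=
  ∀ (L : Type) [Field L] [Algebra K L] [FiniteDimensional K L] [IsGalois K L],
    UnrOff K (toF A K L) δ → ∀ M : IntermediateField K L, Emb M γ → M = ⊥

/-- `S` is a finite stable set on which the group is faithful, with expansions defined over `K` -/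
def Dfd {K KK : Type} (F : Type) {E : Type} [Field K] [Field KK] [Field F] [Field E] [Algebra F E]
    (γ : K →+* KK) (ι : E →+* Ls KK) : Prop :=
  ∃ S : Finset E, (∀ (g : E ≃ₐ[F] E), ∀ z ∈ S, g z ∈ S) ∧
    (∀ g : E ≃ₐ[F] E, (∀ z ∈ S, g z = z) → g = 1) ∧ ∀ z ∈ S, ι z ∈ (lm γ).range

end Pool.Agent.ZCy
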