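import Pool.Agent.Lib.MP_751085_ag.ZC.Z.Sec
import Pool.Agent.Lib.MP_751085_ag.ZC.Z.Sec1
import Pool.Agent.Lib.MP_751085_ag.ZC.Z.GalFr

/-! Block Z: inertia acts through the coefficients. -/

namespace Pool.Agent.ZCy

open scoped Classical WithZero Polynomial

set_option linter.unusedSectionVars false

section aux

variable {R L N : Type} [CommRing R] [Field L] [Field N] {A : Vl L} {W : Vl N} {ψ : R →+* N}
  {ι : N →+* Ls L} {g : N →+* N} {γ : L →+* L} {c : L →+* N}

theorem seci_dec (h : ∀ z, ψ.IsIntegralElem z →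
      (∀ j, A ((ι z).coeff j) ≤ W z) ∧ ∃ j, A ((ι z).coeff j) = W z)
    (hf : ∀ x, ∃ b, ψ b ≠ 0 ∧ ψ.IsIntegralElem (ψ b * x)) (hι : ∀ z, ι (g z) = lm γ (ι z))
    (hγ : ∀ a, A (γ a) = A a) (hg : ∀ z, ψ.IsIntegralElem z → ψ.IsIntegralElem (g z)) (x : N) :
    W (g x) = W x := by
  have h1 : ∀ z, ψ.IsIntegralElem z → W (g z) = W z := fun z hz => by
    obtain ⟨a1, j, a2⟩ := h z hz
    obtain ⟨b1, i, b2⟩ := h _ (hg z hz)
    simp only [hι, lm_coeff, hγ] at b1 b2
    exact le_antisymm (b2 ▸ a1 i) (a2 ▸ b1 j)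
  obtain ⟨b, hb, hx⟩ := hf x
  have h2 := h1 _ hx
  rw [map_mul, map_mul, map_mul, h1 _ ψ.isIntegralElem_map] at h2
  exact mul_left_cancel₀ ((map_ne_zero W).2 hb) h2

theorem seci_ine (h : ∀ z, ψ.IsIntegralElem z →
      (∀ j, A ((ι z).coeff j) ≤ W z) ∧ ∃ j, A ((ι z).coeff j) = W z)
    (hι : ∀ z, ι (g z) = lm γ (ι z)) (hγ : ∀ a, A (γ a) = A a)
    (hg : ∀ z, ψ.IsIntegralElem z → ψ.IsIntegralElem (g z)) (hc : ∀ a, ι (c a) = HahnSeries.C a)
    (hgc : ∀ a, g (c a) = c (γ a)) (hW : ∀ a, W (c a) = A a)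
    (hci : ∀ a, A a ≤ 1 → ψ.IsIntegralElem (c a)) (hI : ∀ a, A a ≤ 1 → A (γ a - a) < 1) {z : N}
    (hz : ψ.IsIntegralElem z) {a : L} (h0 : a ≠ 0) (h1 : A a ≤ 1) (h2 : W z ≤ A a) :
    W (g (z / c a) - z / c a) < 1 := by
  have g0 : γ a ≠ 0 := (map_ne_zero γ).2 h0
  have A0 : 0 < A a := zero_lt_iff.2 ((map_ne_zero A).2 h0)
  obtain ⟨-, j, e⟩ := h _ (((hci a h1).mul _ (hg z hz)).sub _
    ((hci (γ a) ((hγ a).trans_le h1)).mul _ hz))
  have e1 : (ι (c a * g z - c (γ a) * z)).coeff j =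
      a * γ a * (γ ((ι z).coeff j / a) - (ι z).coeff j / a) := by
    rw [map_sub, map_mul, map_mul, hc, hc, hι, HahnSeries.C_mul_eq_smul, HahnSeries.C_mul_eq_smul,
      HahnSeries.coeff_sub, HahnSeries.coeff_smul, HahnSeries.coeff_smul, lm_coeff, map_div₀,
      smul_eq_mul, smul_eq_mul]
    field_simp
  have e2 : c a * g z - c (γ a) * z = c a * c (γ a) * (g (z / c a) - z / c a) := by
    have := (map_ne_zero c).2 h0
    have := (map_ne_zero c).2 g0
    rw [map_div₀, hgc]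
    field_simp
  rw [e1, e2, map_mul, map_mul, map_mul, map_mul, hW, hW] at e
  rw [← mul_left_cancel₀ (mul_ne_zero A0.ne' ((map_ne_zero A).2 g0)) e]
  refine hI _ ?_
  rw [map_div₀, div_le_one₀ A0]
  exact ((h z hz).1 j).trans h2

theorem seci_quot {z b : N} (hd : ∀ x, W (g x) = W x) (hz : W z ≤ 1) (hb : W b = 1)
    (h1 : W (g z - z) < 1) (h2 : W (g b - b) < 1) : W (g (z / b) - z / b) < 1 := by
  have b0 : b ≠ 0 := fun e => by simp [e] at hb
  have g0 : g b ≠ 0 := (map_ne_zero g).2 b0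
  have e : g (z / b) - z / b = ((g z - z) * b - z * (g b - b)) / (b * g b) := by
    rw [map_div₀]
    field_simp
    ring
  rw [e, map_div₀, map_mul, hd, hb, mul_one, div_one]
  refine W.map_sub_lt ?_ ?_
  · rwa [map_mul, hb, mul_one]
  · rw [map_mul]
    exact (mul_le_of_le_one_left' hz).trans_lt h2

end aux

section

variable {M : ℕ} {K L F N : Type} [Field K] [Field L] [Field F] [Field N] [Algebra K L]
  [Algebra K[X] F] [Algebra F N] (d : SecD M K L F N) [IsFractionRing K[X] F]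
  [FiniteDimensional K L] [IsGalois K L] [FiniteDimensional F N] [IsGalois F N]

/-- good reduction: the geometric group is inert and unramified, inertia acts on coefficients -/
theorem SecD.ine (hGR : GR0) [CharZero K] (hM : 0 < M) {π σ} (hs : d.Spl π σ) (A : Vl L)
    (hA : Nrm A) (hG : A (Nat.card π.ker : L) = 1) (hM' : A (M : L) = 1) (Ψ : (A.integer)[X])
    (hl : IsUnit Ψ.leadingCoeff) (hc : IsCoprime Ψ (Polynomial.derivative Ψ))
    (hu : ∀ (P : L[X]) (w : Vl N), Prime P → ¬P ∣ Ψ.map A.integer.subtype → Cen d.φ w P →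
      Ine F w ⊓ π.ker = ⊥) :
    ∃ W : Vl N, π.ker ≤ Dec F W ∧ Ine F W ⊓ π.ker = ⊥ ∧ (∀ γ ∈ Dec K A, σ γ ∈ Dec F W) ∧
      (∀ γ ∈ Ine K A, σ γ ∈ Ine F W) ∧ (∀ x, ∃ a : L, W x = A a) ∧
      (∀ p : L[X], (∀ i, A (p.coeff i) ≤ W (d.φ p)) ∧ ∃ i, A (p.coeff i) = W (d.φ p)) ∧
      ∀ ϖ : A.integer, A ϖ = WithZero.exp (-1) →
        Cen (d.φ.comp (Polynomial.mapRingHom A.integer.subtype)) W (Polynomial.C ϖ) := by
  have : CharZero L := charZero_of_injective_algebraMap (algebraMap K L).injective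
  have hφ : Function.Injective d.φ := fun p q e =>
    tM_injective hM (by rw [← d.ι_φ, ← d.ι_φ, e])
  have hφC : ∀ a, d.φ (Polynomial.C a) = d.c a := fun a => Polynomial.eval₂_C _ _
  have hm : Function.Injective
      ((algebraMap L[X] (Fr L[X])).comp (Polynomial.mapRingHom (algebraMap K L))) :=
    (IsFractionRing.injective L[X] (Fr L[X])).comp
      (Polynomial.map_injective _ (algebraMap K L).injective)
  let _ : Algebra (Fr L[X]) N := (IsFractionRing.lift hφ : Fr L[X] →+* N).toAlgebra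
  let _ : Algebra F (Fr L[X]) := (IsFractionRing.lift hm : F →+* Fr L[X]).toAlgebra
  have hto : toF L[X] (Fr L[X]) N = d.φ := RingHom.ext fun p => IsFractionRing.lift_algebraMap hφ p
  have : IsScalarTower F (Fr L[X]) N := IsScalarTower.of_algebraMap_eq' <|
    IsFractionRing.ringHom_ext (A := K[X]) fun p => by
      refine (d.φ_map p).symm.trans ?_
      rw [← hto]
      exact congrArg (algebraMap (Fr L[X]) N) (IsFractionRing.lift_algebraMap hm p).symm
  have : FiniteDimensional (Fr L[X]) N := Module.Finite.of_restrictScalars_finite F _ N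
  have : IsGalois (Fr L[X]) N := IsGalois.tower_top_of_isGalois F _ N
  have hgφ : ∀ (g : N ≃ₐ[F] N) p, g (d.φ p) = d.φ (p.map (π g : L →+* L)) := fun g p => by
    have e : (g : N →+* N).comp d.φ = d.φ.comp (Polynomial.mapRingHom (π g : L →+* L)) := by
      refine Polynomial.ringHom_ext (fun a => ?_) ?_
      · simpa [hφC] using hs.hπ g a
      · simp [SecD.φ]
    exact DFunLike.congr_fun e p
  have hr : ∀ g : N ≃ₐ[Fr L[X]] N, g.restrictScalars F ∈ π.ker := fun g => by
    refine AlgEquiv.ext fun a => d.c.injective ?_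
    rw [← hs.hπ, AlgEquiv.one_apply, ← hφC, ← hto]
    exact g.commutes _
  have hr' : ∀ g ∈ π.ker, ∃ g₁ : N ≃ₐ[Fr L[X]] N, g₁.restrictScalars F = g := fun g hg => by
    have e : (g : N →+* N).comp (algebraMap (Fr L[X]) N) = algebraMap (Fr L[X]) N :=
      IsFractionRing.ringHom_ext (A := L[X]) fun p => by
        show g (toF L[X] (Fr L[X]) N p) = toF L[X] (Fr L[X]) N p
        rw [hto, hgφ, MonoidHom.mem_ker.1 hg]
        exact congrArg d.φ Polynomial.map_id
    exact ⟨{ g.toRingEquiv with commutes' := DFunLike.congr_fun e }, rfl⟩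
  have hcard : Nat.card (N ≃ₐ[Fr L[X]] N) = Nat.card π.ker :=
    Nat.card_eq_of_bijective (fun g => (⟨_, hr g⟩ : π.ker))
      ⟨fun g g' e => AlgEquiv.restrictScalars_injective F (congrArg Subtype.val e),
        fun g => (hr' g.1 g.2).imp fun _ e => Subtype.ext e⟩
  obtain ⟨W, h1, h2, h3⟩ := hGR L (Fr L[X]) N M d.ι A Ψ hM hA (hcard ▸ hG) hM'
    (by rw [hto]; exact d.ι_φ) hl (by
      rw [hto]
      intro P w hP hd hw
      refine (Subgroup.eq_bot_iff_forall _).2 fun g hg => ?_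
      have h0 := (Subgroup.eq_bot_iff_forall _).1 (hu P w hP hd hw) (g.restrictScalars F)
        ⟨hg, hr g⟩
      exact AlgEquiv.restrictScalars_injective F h0)
  rw [hto] at h2
  have hga := gauss_of_int hM d.φ d.ι d.ι_φ A W h2
  have hW : ∀ a, W (d.c a) = A a := fun a => by
    obtain ⟨b1, i, b2⟩ := hga (Polynomial.C a)
    have b0 := b1 0
    rw [hφC, Polynomial.coeff_C_zero] at b0
    rw [hφC, Polynomial.coeff_C] at b2
    split_ifs at b2
    · exact b2.symm
    · rw [map_zero] at b2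
      exact le_antisymm (b2 ▸ zero_le) b0
  set ψ := d.φ.comp (Polynomial.mapRingHom A.integer.subtype) with hψ
  have hψi : Function.Injective ψ := hφ.comp (Polynomial.map_injective _ Subtype.val_injective)
  have hf : ∀ x, ∃ b, ψ b ≠ 0 ∧ ψ.IsIntegralElem (ψ b * x) := fun x => by
    have := (Valuation.integer.integers A).isFractionRing
    let _ : Algebra (A.integer)[X] (Fr L[X]) :=
      ((algebraMap L[X] (Fr L[X])).comp (Polynomial.mapRingHom A.integer.subtype)).toAlgebra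
    let _ : Algebra (A.integer)[X] N := ψ.toAlgebra
    have : IsScalarTower (A.integer)[X] (Fr L[X]) N := IsScalarTower.of_algebraMap_eq fun p =>
      (DFunLike.congr_fun hto (p.map A.integer.subtype)).symm
    have : FaithfulSMul (A.integer)[X] (Fr L[X]) := (faithfulSMul_iff_algebraMap_injective _ _).2
      ((IsFractionRing.injective L[X] (Fr L[X])).comp
        (Polynomial.map_injective _ Subtype.val_injective))
    have : IsFractionRing (A.integer)[X] (Fr L[X]) := IsFractionRing.of_field _ _ fun z => by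
      obtain ⟨a, b, hb, e⟩ := frac_poly (R := A.integer) (KK := L) z
      exact ⟨a, b, eq_div_of_mul_eq hb e⟩
    obtain ⟨y, hy, hi⟩ := ((IsFractionRing.isAlgebraic_iff (A.integer)[X] (Fr L[X]) N).2
      (Algebra.IsAlgebraic.isAlgebraic x)).exists_integral_multiple
    exact ⟨y, fun e => hy (hψi (e.trans (map_zero ψ).symm)), by rwa [Algebra.smul_def] at hi⟩
  have hint : ∀ γ ∈ Dec K A, ∀ z, ψ.IsIntegralElem z → ψ.IsIntegralElem (σ γ z) :=
    fun γ hγ z hz => by
      let γO : A.integer →+* A.integer := ((γ : L →+* L).comp A.integer.subtype).codRestrict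
        A.integer fun a => (hγ a).trans_le a.2
      have e : (σ γ : N →+* N).comp ψ = ψ.comp (Polynomial.mapRingHom γO) := RingHom.ext fun p => by
        refine (hgφ (σ γ) _).trans (congrArg d.φ ?_)
        rw [hs.sec, Polynomial.coe_mapRingHom, Polynomial.coe_mapRingHom, Polynomial.map_map,
          Polynomial.map_map]
        rfl
      have h4 := hz.map (σ γ : N →+* N)
      rw [e] at h4
      exact h4.of_comp
  have hdec : ∀ γ ∈ Dec K A, σ γ ∈ Dec F W := fun γ hγ =>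
    seci_dec (g := (σ γ : N →+* N)) (γ := (γ : L →+* L)) h2 hf (hs.hσ γ) hγ (hint γ hγ)
  have hle : ∀ b, ∃ a : A.integer, A a = W (ψ b) := fun b => by
    obtain ⟨i, e⟩ := (hga (b.map A.integer.subtype)).2
    exact ⟨b.coeff i, by rwa [Polynomial.coeff_map] at e⟩
  refine ⟨W, fun g hg => ?_, (Subgroup.eq_bot_iff_forall _).2 fun g hg => ?_, hdec,
    fun γ hγ => ⟨hdec γ hγ.1, fun x hx => ?_⟩, h1, hga, fun ϖ hϖ => ⟨fun b => ?_, fun b => ?_⟩⟩
  · obtain ⟨g₁, rfl⟩ := hr' g hg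
    have : g₁ ∈ Dec (Fr L[X]) W := h3 hc ▸ Subgroup.mem_top g₁
    exact this
  · obtain ⟨g₁, rfl⟩ := hr' g hg.2
    have h5 : Ine (Fr L[X]) W = ⊥ := zv_unr (by rw [hcard, ← map_natCast d.c, hW, hG]) fun x => by
      obtain ⟨a, e⟩ := h1 x
      refine ⟨algebraMap L[X] _ (Polynomial.C a), e.trans ?_⟩
      rw [← hW, ← hφC, ← hto]
      rfl
    rw [(Subgroup.eq_bot_iff_forall _).1 h5 g₁ hg.1]
    rfl
  · obtain ⟨b, hb, hz⟩ := hf x
    obtain ⟨a, ha⟩ := hle b
    have A0 : A a ≠ 0 := ha ▸ (map_ne_zero W).2 hb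
    have a0 : (a : L) ≠ 0 := (map_ne_zero A).1 A0
    have hzle : W (ψ b * x) ≤ A a := by
      rw [map_mul, ← ha]
      exact mul_le_of_le_one_right' hx
    have key := fun {z : N} (hz : ψ.IsIntegralElem z) => seci_ine (g := (σ γ : N →+* N))
      (γ := (γ : L →+* L)) h2 (hs.hσ γ) hγ.1 (hint γ hγ.1) d.hc
      (fun a => (hs.hπ _ a).trans (by rw [hs.sec]; rfl)) hW (fun a h => by
        have := ψ.isIntegralElem_map (x := Polynomial.C ⟨a, h⟩)
        rwa [hψ, RingHom.comp_apply, Polynomial.coe_mapRingHom, Polynomial.map_C, hφC] at this)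
      hγ.2 hz a0 a.2
    have h6 := seci_quot (g := (σ γ : N →+* N)) (hdec γ hγ.1)
      (by rw [map_div₀, hW, div_le_one₀ (zero_lt_iff.2 A0)]; exact hzle)
      (by rw [map_div₀, hW, ← ha, div_self A0]) (key hz hzle) (key ψ.isIntegralElem_map ha.ge)
    rwa [div_div_div_cancel_right₀ ((map_ne_zero d.c).2 a0), mul_div_cancel_left₀ _ hb] at h6
  · obtain ⟨a, ha⟩ := hle b
    exact ha ▸ a.2
  · have h7 : ∀ y : A.integer, ϖ ∣ y ↔ A y < 1 := fun y => by
      rw [(Valuation.integer.integers A).dvd_iff_le]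
      show A y ≤ A ϖ ↔ _
      rw [hϖ, ← WithZero.lt_mul_exp_iff_le WithZero.exp_ne_zero, ← WithZero.exp_add,
        neg_add_cancel, WithZero.exp_zero]
    obtain ⟨b1, i, b2⟩ := hga (b.map A.integer.subtype)
    simp only [Polynomial.coeff_map] at b1 b2
    rw [Polynomial.C_dvd_iff_dvd_coeff]
    exact ⟨fun h i => (h7 _).2 ((b1 i).trans_lt h), fun h => b2.symm.trans_lt ((h7 _).1 (h i))⟩

end

end Pool.Agent.ZCy
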