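import Pool.Agent.Lib.MP_751085_ag.ZC.Z.Cen

/-! Block Z: bases of the integral closure. -/

namespace Pool.Agent.ZCy

open scoped Classical WithZero Polynomial

set_option linter.unusedSectionVars false

/-- a vanishing determinant forces two of the homomorphisms to agree -/
theorem bas_dep {G S R A : Type} [Fintype G] [CommRing S] [Field R] (ψ : G → S →+* R) (φ : A → S)
    (hφ : ∀ g g' a, ψ g (φ a) = ψ g' (φ a)) (e : G → S)
    (hs : ∀ z, ∃ c : G → A, z = ∑ i, φ (c i) * e i)
    (hd : (Matrix.of fun g i => ψ g (e i)).det = 0) : ∃ g g', g ≠ g' ∧ ψ g = ψ g' := by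
  by_contra hc
  have hinj : Function.Injective fun g => (ψ g : S →* R) := fun g g' h => by_contra fun hne =>
    hc ⟨g, g', hne, RingHom.ext fun x => DFunLike.congr_fun h x⟩
  obtain ⟨v, hv, h0⟩ := Matrix.exists_vecMul_eq_zero_iff.2 hd
  have li := (linearIndependent_monoidHom S R).comp _ hinj
  refine hv (funext fun g₀ => Fintype.linearIndependent_iff.1 li v (funext fun z => ?_) g₀)
  obtain ⟨c, rfl⟩ := hs z
  have e1 : ∀ i, ∑ g, v g * ψ g (e i) = 0 := fun i => congrFun h0 i
  simp only [Finset.sum_apply, Pi.smul_apply, Function.comp_apply, smul_eq_mul, Pi.zero_apply,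
    MonoidHom.coe_coe, map_sum, map_mul, Finset.mul_sum]
  rw [Finset.sum_comm]
  refine Finset.sum_eq_zero fun i _ => ?_
  rw [Finset.sum_congr rfl (g := fun g => ψ g₀ (φ (c i)) * (v g * ψ g (e i)))
    fun g _ => by rw [hφ g g₀]; ring, ← Finset.mul_sum, e1, mul_zero]

theorem bas_pow {A : Type} [CommRing A] [IsDomain A] [UniqueFactorizationMonoid A] {Θ d : A}
    (hd : d ≠ 0) (h : ∀ P, Prime P → P ∣ d → P ∣ Θ) : ∃ N, d ∣ Θ ^ N := by
  induction d using UniqueFactorizationMonoid.induction_on_prime with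
  | h₁ => exact absurd rfl hd
  | h₂ x hx => exact ⟨0, hx.dvd⟩
  | h₃ a p ha hp ih =>
    obtain ⟨N, hN⟩ := ih ha fun P hP hd => h P hP (hd.mul_left p)
    exact ⟨N + 1, pow_succ' Θ N ▸ mul_dvd_mul (h p hp (dvd_mul_right p a)) hN⟩

section

variable {κ F E : Type} [Field κ] [Field F] [Field E] [Algebra κ[X] F] [IsFractionRing κ[X] F]
  [Algebra F E] [FiniteDimensional F E] [IsGalois F E]

theorem bas_int {z : E} (hz : (toF κ[X] F E).IsIntegralElem z) (g : E ≃ₐ[F] E) :
    (toF κ[X] F E).IsIntegralElem (g z) := by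
  have h := hz.map (g : E →+* E)
  have e : (g : E →+* E).comp (toF κ[X] F E) = toF κ[X] F E :=
    RingHom.ext fun a => g.commutes _
  rwa [e] at h

variable (κ F E) in
/-- the ring of integral elements -/
def basS : Subring E where
  carrier := {z | (toF κ[X] F E).IsIntegralElem z}
  mul_mem' := fun ha hb => ha.mul _ hb
  one_mem' := RingHom.isIntegralElem_one _
  add_mem' := fun ha hb => RingHom.IsIntegralElem.add _ ha hb
  zero_mem' := RingHom.isIntegralElem_zero _
  neg_mem' := fun ha => ha.neg _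

theorem bas_inj : Function.Injective (toF κ[X] F E) :=
  (algebraMap F E).injective.comp (IsFractionRing.injective κ[X] F)

theorem bas_span {e : (E ≃ₐ[F] E) → E} (hi : ∀ i, (toF κ[X] F E).IsIntegralElem (e i))
    (hs : ∀ z, (toF κ[X] F E).IsIntegralElem z → ∃ c : (E ≃ₐ[F] E) → κ[X],
      z = ∑ i, toF κ[X] F E (c i) * e i) (z : basS κ F E) : ∃ c : (E ≃ₐ[F] E) → κ[X],
      z = ∑ i, (⟨toF κ[X] F E (c i), RingHom.isIntegralElem_map _⟩ : basS κ F E) * ⟨e i, hi i⟩ := by
  obtain ⟨c, hc⟩ := hs z z.2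
  refine ⟨c, Subtype.ext (hc.trans ?_)⟩
  rw [AddSubmonoidClass.coe_finsetSum]
  rfl

/-- a basis of the integral closure, indexed by the group -/
theorem exists_int_basis : ∃ e : (E ≃ₐ[F] E) → E, (∀ i, (toF κ[X] F E).IsIntegralElem (e i)) ∧
    (∀ z, (toF κ[X] F E).IsIntegralElem z → ∃ c : (E ≃ₐ[F] E) → κ[X],
      z = ∑ i, toF κ[X] F E (c i) * e i) ∧
    (Matrix.of fun g i : E ≃ₐ[F] E => g (e i)).det ≠ 0 := by
  let := (toF κ[X] F E).toAlgebra
  have : IsScalarTower κ[X] F E := .of_algebraMap_eq fun _ => rfl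
  have : FaithfulSMul κ[X] E := (faithfulSMul_iff_algebraMap_injective _ _).2 bas_inj
  have := IsIntegralClosure.module_free κ[X] F E (integralClosure κ[X] E)
  have := IsIntegralClosure.finite κ[X] F E (integralClosure κ[X] E)
  let b := (Module.finBasisOfFinrankEq κ[X] (integralClosure κ[X] E)
    (n := Fintype.card (E ≃ₐ[F] E)) (by
      rw [IsIntegralClosure.rank κ[X] F E, ← IsGalois.card_aut_eq_finrank,
        Nat.card_eq_fintype_card])).reindex (Fintype.equivFin (E ≃ₐ[F] E)).symm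
  have hi : ∀ i, (toF κ[X] F E).IsIntegralElem (b i : E) := fun i => (b i).2
  have hs : ∀ z, (toF κ[X] F E).IsIntegralElem z → ∃ c : (E ≃ₐ[F] E) → κ[X],
      z = ∑ i, toF κ[X] F E (c i) * (b i : E) := fun z hz => by
    refine ⟨b.repr ⟨z, hz⟩, ?_⟩
    have h := congrArg Subtype.val (b.sum_repr ⟨z, hz⟩)
    rw [AddSubmonoidClass.coe_finsetSum] at h
    exact h.symm
  refine ⟨fun i => b i, hi, hs, fun hd => ?_⟩
  obtain ⟨g, g', hne, h⟩ := bas_dep
    (fun g : E ≃ₐ[F] E => (g : E →+* E).comp (basS κ F E).subtype)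
    (fun a => ⟨toF κ[X] F E a, RingHom.isIntegralElem_map _⟩)
    (fun g g' a => (g.commutes _).trans (g'.commutes _).symm) (fun i => ⟨b i, hi i⟩)
    (bas_span hi hs) hd
  refine hne (AlgEquiv.ext fun x => ?_)
  obtain ⟨y, hy, hx⟩ := exists_integral_multiples κ[X] F {x}
  have h1 : g (toF κ[X] F E y * x) = g' (toF κ[X] F E y * x) :=
    DFunLike.congr_fun h ⟨_, hx x (Finset.mem_singleton_self x)⟩
  rw [map_mul, map_mul, RingHom.comp_apply, g.commutes, g'.commutes] at h1
  exact mul_left_cancel₀ ((map_ne_zero_iff _ bas_inj).2 hy) h1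

theorem invariant_int (z : E) (hz : (toF κ[X] F E).IsIntegralElem z)
    (h : ∀ g : E ≃ₐ[F] E, g z = z) : ∃ p, toF κ[X] F E p = z := by
  obtain ⟨y, rfl⟩ := IntermediateField.mem_bot.1 ((IsGalois.mem_bot_iff_fixed z).2 h)
  obtain ⟨p, rfl⟩ := IsIntegrallyClosed.isIntegral_iff.1
    (show IsIntegral κ[X] y from hz.of_map (algebraMap F E).injective)
  exact ⟨p, rfl⟩

/-- an automorphism that is the identity on the residues of integral elements is in the inertia
group -/
theorem bas_ine {w : Vl E} {P : κ[X]} (hP : Prime P) (hc : Cen (toF κ[X] F E) w P)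
    {h : E ≃ₐ[F] E} (hh : ∀ y, (toF κ[X] F E).IsIntegralElem y → w (h y - y) < 1) :
    h ∈ Ine F w := by
  have key : ∀ h : E ≃ₐ[F] E, (∀ y, (toF κ[X] F E).IsIntegralElem y → w (h y - y) < 1) →
      ∀ x, w x ≤ 1 → w (h x - x) < 1 := fun h hh x hx => by
    obtain ⟨b, s, hb, hs, h1, e⟩ := zv_loc hP hc x hx
    have h2 : w (h s) = 1 := by
      rw [← h1]
      exact w.map_eq_of_sub_lt (h1 ▸ hh s hs)
    have e' : (h x - x) * h s = (h b - b) - x * (h s - s) := by
      rw [← e, map_mul]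
      ring
    have h3 : w ((h x - x) * h s) < 1 := by
      rw [e']
      refine w.map_sub_lt (hh b hb) ?_
      rw [map_mul]
      exact mul_lt_one_of_nonneg_of_lt_one_right hx zero_le (hh s hs)
    rwa [map_mul, h2, mul_one] at h3
  have key' : ∀ h : E ≃ₐ[F] E, (∀ y, (toF κ[X] F E).IsIntegralElem y → w (h y - y) < 1) →
      ∀ x, w x ≤ 1 → w (h x) ≤ 1 := fun h hh x hx => by
    have := w.map_add_le (key h hh x hx).le hx
    rwa [sub_add_cancel] at this
  refine ⟨zv_dec fun x => ⟨fun hx => ?_, key' h hh x⟩, key h hh⟩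
  have := key' h⁻¹ (fun y hy => by
    have h1 := hh _ (bas_int hy h⁻¹)
    rw [← AlgEquiv.mul_apply, mul_inv_cancel, AlgEquiv.one_apply] at h1
    rwa [Valuation.map_sub_swap]) _ hx
  rwa [← AlgEquiv.mul_apply, inv_mul_cancel, AlgEquiv.one_apply] at this

/-- the discriminant of the integral closure divides a power of the branch polynomial -/
theorem disc_dvd {Θ : κ[X]} (hu : UnrOff F (toF κ[X] F E) Θ) (e : (E ≃ₐ[F] E) → E)
    (hi : ∀ i, (toF κ[X] F E).IsIntegralElem (e i))
    (hs : ∀ z, (toF κ[X] F E).IsIntegralElem z → ∃ c : (E ≃ₐ[F] E) → κ[X],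
      z = ∑ i, toF κ[X] F E (c i) * e i)
    (hd : (Matrix.of fun g i : E ≃ₐ[F] E => g (e i)).det ≠ 0) :
    ∃ (d : κ[X]) (N : ℕ), toF κ[X] F E d = (Matrix.of fun g i : E ≃ₐ[F] E => g (e i)).det ^ 2 ∧
      d ∣ Θ ^ N := by
  have hint : (Matrix.of fun g i : E ≃ₐ[F] E => g (e i)).det ∈ basS κ F E := by
    rw [Matrix.det_apply']
    exact sum_mem fun σ _ => mul_mem (intCast_mem _ _) (prod_mem fun i _ => bas_int (hi i) _)
  obtain ⟨d, hd'⟩ := invariant_int _ (pow_mem hint 2) fun g => by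
    have e1 : g (Matrix.of fun g i : E ≃ₐ[F] E => g (e i)).det =
        ((Matrix.of fun g i : E ≃ₐ[F] E => g (e i)).submatrix (Equiv.mulLeft g) id).det :=
      RingHom.map_det (g : E →+* E) _
    rw [map_pow, e1, Matrix.det_permute, mul_pow, ← Int.cast_pow, ← Units.val_pow_eq_pow_val,
      Int.units_sq, Units.val_one, Int.cast_one, one_mul]
  have hd0 : d ≠ 0 := fun h0 => pow_ne_zero 2 hd (by rw [← hd', h0, map_zero])
  obtain ⟨N, hN⟩ := bas_pow (Θ := Θ) hd0 fun P hP hPd => by_contra fun hΘ => by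
    obtain ⟨w, hw⟩ := exists_cen (A := κ[X]) (K := F) (E := E) hP
    have hbot := hu P w hP hΘ hw
    let ρ : (E ≃ₐ[F] E) → basS κ F E →+* w.valuationSubring := fun g =>
      ((g : E →+* E).comp (basS κ F E).subtype).codRestrict w.valuationSubring fun z =>
        le_one_of_integral hw.1 (bas_int z.2 g)
    have hres : ∀ x : w.valuationSubring, IsLocalRing.residue _ x = 0 ↔ w x < 1 := fun x => by
      rw [IsLocalRing.residue_eq_zero_iff, Valuation.mem_maximalIdeal_iff]
    obtain ⟨g, g', hne, h⟩ := bas_dep (fun g => (IsLocalRing.residue _).comp (ρ g))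
      (fun a => ⟨toF κ[X] F E a, RingHom.isIntegralElem_map _⟩)
      (fun g g' a => congrArg (IsLocalRing.residue _)
        (Subtype.ext ((g.commutes _).trans (g'.commutes _).symm))) (fun i => ⟨e i, hi i⟩)
      (bas_span hi hs) (by
        have e1 := RingHom.map_det (IsLocalRing.residue w.valuationSubring)
          (Matrix.of fun g i => ρ g ⟨e i, hi i⟩)
        have e2 := RingHom.map_det w.valuationSubring.subtype
          (Matrix.of fun g i => ρ g ⟨e i, hi i⟩)
        refine e1.symm.trans ((hres _).2 ?_)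
        have h1 := (hw.2 d).2 hPd
        rw [hd', map_pow] at h1
        exact (congrArg w e2).trans_lt (lt_of_pow_lt_pow_left₀ 2 zero_le (by rwa [one_pow])))
    have hm : g' * g⁻¹ ∈ Ine F w := bas_ine hP hw fun y hy => by
      have h1 := (hres (ρ g' ⟨_, bas_int hy g⁻¹⟩ - ρ g ⟨_, bas_int hy g⁻¹⟩)).1 (by
        rw [map_sub, sub_eq_zero]
        exact (DFunLike.congr_fun h _).symm)
      change w (g' (g⁻¹ y) - g (g⁻¹ y)) < 1 at h1
      rwa [← AlgEquiv.mul_apply g, mul_inv_cancel, AlgEquiv.one_apply] at h1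
    rw [hbot, Subgroup.mem_bot, mul_inv_eq_one] at hm
    exact hne hm.symm
  exact ⟨d, N, hd', hN⟩

end

end Pool.Agent.ZCy
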