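import Pool.Agent.Lib.MP_751085_ag.ZC.Z.NV

/-! Block Z: centres of valuations. -/

namespace Pool.Agent.ZCy

open scoped Classical WithZero Polynomial

set_option linter.unusedSectionVars false

section

variable {A K E : Type} [CommRing A] [Field K] [Field E] [Algebra K E]

theorem cen1_ine_le {w w' : Vl E} (h : w.IsEquiv w') : Ine K w ≤ Ine K w' := fun _ hg =>
  ⟨fun x => h.eq_iff.1 (hg.1 x), fun x hx =>
    h.lt_one_iff_lt_one.1 (hg.2 x (h.le_one_iff_le_one.2 hx))⟩

theorem ine_equiv {w w' : Vl E} (h : w.IsEquiv w') : Ine K w = Ine K w' :=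
  le_antisymm (cen1_ine_le h) (cen1_ine_le h.symm)

theorem le_one_of_integral {φ : A →+* E} {w : Vl E} (h : ∀ a, w (φ a) ≤ 1) {z : E}
    (hz : φ.IsIntegralElem z) : w z ≤ 1 := by
  obtain ⟨p, hp, h0⟩ := hz
  let ψ : A →+* w.integer := φ.codRestrict _ h
  refine (Valuation.integer.integers w).isIntegral_iff_v_le_one.1 ⟨p.map ψ, hp.map ψ, ?_⟩
  rw [Polynomial.eval₂_map]
  exact h0

theorem cen1_one {φ : A →+* E} {w : Vl E} {P : A} (hc : Cen φ w P) {b : A} (hb : ¬P ∣ b) :
    w (φ b) = 1 :=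
  le_antisymm (hc.1 b) (not_lt.1 fun h => hb ((hc.2 b).1 h))

theorem cen1_pow {φ : A →+* E} {w : Vl E} {P : A} (hc : Cen φ w P) {b : A} (hb : ¬P ∣ b) (n : ℕ) :
    w (φ (P ^ n * b)) = w (φ P) ^ n := by
  rw [map_mul, map_mul, cen1_one hc hb, mul_one, map_pow, map_pow]

/-- the values on `A` are powers of the value of the centre -/
theorem zcen_val [IsDomain A] [UniqueFactorizationMonoid A] {φ : A →+* E} {w : Vl E} {P : A}
    (hP : Prime P) (hc : Cen φ w P) {a : A} (ha : a ≠ 0) : ∃ n : ℕ, w (φ a) = w (φ P) ^ n := by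
  obtain ⟨n, b, hb, rfl⟩ := WfDvdMonoid.max_power_factor' ha hP.not_isUnit
  exact ⟨n, cen1_pow hc hb n⟩

theorem cen1_div {φ : A →+* E} {w : Vl E} {P : A} (hc : Cen φ w P) (h0 : φ P ≠ 0) {a b : A}
    (ha : ¬P ∣ a) (hb : ¬P ∣ b) (n m : ℕ) :
    w (φ (P ^ n * a) / φ (P ^ m * b)) ≤ 1 ↔ m ≤ n := by
  have h1 : 0 < w (φ P) := zero_lt_iff.2 ((Valuation.ne_zero_iff w).2 h0)
  rw [map_div₀, cen1_pow hc ha, cen1_pow hc hb, div_le_one₀ (pow_pos h1 m),
    pow_le_pow_iff_right_of_lt_one₀ h1 ((hc.2 P).2 dvd_rfl)]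

theorem cen_over [IsDomain A] [UniqueFactorizationMonoid A] [Algebra A K] [IsFractionRing A K]
    {v : Vl K} {w : Vl E} {P : A} (hP : Prime P) (hv : Cen (algebraMap A K) v P)
    (hw : Cen (toF A K E) w P) : Over (algebraMap K E) v w := by
  intro x
  obtain ⟨a, b, hb, rfl⟩ := IsFractionRing.div_surjective (A := A) x
  have hb0 : b ≠ 0 := nonZeroDivisors.ne_zero hb
  by_cases ha : a = 0
  · simp [ha]
  obtain ⟨n, a', ha', rfl⟩ := WfDvdMonoid.max_power_factor' ha hP.not_isUnit
  obtain ⟨m, b', hb', rfl⟩ := WfDvdMonoid.max_power_factor' hb0 hP.not_isUnit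
  have h0 : algebraMap A K P ≠ 0 :=
    (map_ne_zero_iff _ (IsFractionRing.injective A K)).2 hP.ne_zero
  rw [cen1_div hv h0 ha' hb', map_div₀]
  exact cen1_div hw ((map_ne_zero (algebraMap K E)).2 h0) ha' hb' n m

theorem over_cen {φ : A →+* K} {v : Vl K} {w : Vl E} {P : A} (hv : Cen φ v P)
    (h : Over (algebraMap K E) v w) : Cen ((algebraMap K E).comp φ) w P := by
  have e : (w.comap (algebraMap K E)).IsEquiv v := Valuation.isEquiv_iff_val_le_one.2 fun {x} => h x
  exact ⟨fun a => (h _).2 (hv.1 a), fun a => (e.lt_one_iff_lt_one (x := φ a)).trans (hv.2 a)⟩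

theorem exists_cen [IsDomain A] [UniqueFactorizationMonoid A] [Algebra A K] [IsFractionRing A K]
    [FiniteDimensional K E] {P : A} (hP : Prime P) : ∃ w : Vl E, Cen (toF A K E) w P := by
  obtain ⟨v, hv⟩ := zv_prime (K := K) hP
  obtain ⟨w, hw⟩ := zv_exists (E := E) v
  exact ⟨w, over_cen hv hw⟩

/-- one unramified prolongation is enough -/
theorem unr_of_one [IsDomain A] [UniqueFactorizationMonoid A] [Algebra A K] [IsFractionRing A K]
    [FiniteDimensional K E] [IsGalois K E] {w w' : Vl E} {P : A} (hP : Prime P)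
    (hw : Cen (toF A K E) w P) (hw' : Cen (toF A K E) w' P) (h : Ine K w' = ⊥) : Ine K w = ⊥ := by
  obtain ⟨v, hv⟩ := zv_prime (K := K) hP
  obtain ⟨g, hg⟩ := zv_conj (cen_over hP hv hw) (cen_over hP hv hw')
  have e : w'.IsEquiv (w.comap (g : E →+* E)) := Valuation.isEquiv_iff_val_le_one.2 fun {x} => hg x
  rw [ine_equiv e] at h
  refine (Subgroup.eq_bot_iff_forall _).2 fun s hs => ?_
  have h1 : g⁻¹ * s * g ∈ Ine K (w.comap (g : E →+* E)) := by
    refine ⟨fun x => ?_, fun x hx => ?_⟩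
    · simpa using hs.1 (g x)
    · simpa using hs.2 (g x) hx
  rw [h, Subgroup.mem_bot] at h1
  have : s = g * (g⁻¹ * s * g) * g⁻¹ := by group
  rw [this, h1, mul_one, mul_inv_cancel]

/-- a valuation that is trivial on a subfield is trivial on elements algebraic over it -/
theorem triv_of_algebraic {k : Type} [Field k] {φ : k →+* E} {w : Vl E} (h : ∀ a, w (φ a) ≤ 1)
    {z : E} (hz : φ.IsIntegralElem z) (h0 : z ≠ 0) : w z = 1 := by
  let := φ.toAlgebra
  have hi : IsIntegral k z⁻¹ := IsIntegral.inv hz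
  have h1 : w z⁻¹ ≤ 1 := le_one_of_integral h hi
  rw [map_inv₀, inv_le_one₀ (zero_lt_iff.2 ((Valuation.ne_zero_iff w).2 h0))] at h1
  exact le_antisymm (le_one_of_integral h hz) h1

/-- over a principal ideal domain the centre is automatically principal -/
theorem unr_of_le [IsDomain A] [IsPrincipalIdealRing A] [Algebra A K] [IsFractionRing A K]
    [FiniteDimensional K E] {Θ : A} (hu : UnrOff K (toF A K E) Θ) {w : Vl E}
    (h : ∀ a, w (toF A K E a) ≤ 1) (hΘ : w (toF A K E Θ) = 1) : Ine K w = ⊥ := by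
  let I : Ideal A :=
    { carrier := {a | w (toF A K E a) < 1}
      add_mem' := fun {a b} ha hb => by
        change w _ < 1
        rw [map_add]
        exact w.map_add_lt ha hb
      zero_mem' := by
        change w _ < 1
        simp
      smul_mem' := fun c a ha => by
        change w _ < 1
        rw [smul_eq_mul, map_mul, map_mul]
        exact mul_lt_one_of_nonneg_of_lt_one_right (h c) zero_le ha }
  obtain ⟨P, hP⟩ := (IsPrincipalIdealRing.principal I).principal
  have hc : Cen (toF A K E) w P := ⟨h, fun a => by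
    rw [← Ideal.mem_span_singleton]
    exact (SetLike.ext_iff.1 hP a)⟩
  by_cases h0 : P = 0
  · have h1 : ∀ x : K, w (algebraMap K E x) ≤ 1 := fun x => by
      obtain ⟨a, b, hb, rfl⟩ := IsFractionRing.div_surjective (A := A) x
      have h2 := cen1_one hc (b := b) (by
        rw [h0, zero_dvd_iff]
        exact nonZeroDivisors.ne_zero hb)
      rw [map_div₀, map_div₀]
      change w (toF A K E a) / w (toF A K E b) ≤ 1
      rw [h2, div_one]
      exact h a
    refine (Subgroup.eq_bot_iff_forall _).2 fun s hs => AlgEquiv.ext fun x => ?_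
    by_contra hne
    replace hne : s x ≠ x := hne
    have h2 := hs.2 x (le_one_of_integral h1 (Algebra.IsIntegral.isIntegral (R := K) x))
    rw [triv_of_algebraic h1 (Algebra.IsIntegral.isIntegral (R := K) _) (sub_ne_zero.2 hne)] at h2
    exact lt_irrefl _ h2
  · refine hu P w ⟨h0, fun hu => ?_, fun a b hab => ?_⟩ (fun hd => ?_) hc
    · have := (hc.2 1).2 hu.dvd
      simp at this
    · by_contra hn
      have := (hc.2 _).2 hab
      rw [map_mul, map_mul, cen1_one hc (not_or.1 hn).1, cen1_one hc (not_or.1 hn).2,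
        mul_one] at this
      exact lt_irrefl _ this
    · exact ((hc.2 Θ).2 hd).ne hΘ

end

end Pool.Agent.ZCy
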