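import Pool.Agent.Lib.MP_751085_ag.ZC.Z.Cen1

/-! Block Z: base change of inertia groups, residue fields. -/

namespace Pool.Agent.ZCy

open scoped Classical WithZero Polynomial

set_option linter.unusedSectionVars false

section

variable {A K E : Type} [CommRing A] [Field K] [Field E] [Algebra K E]

/-- restriction of an automorphism to a normal subextension -/
theorem exists_restrict {N : Type} [Field N] [FiniteDimensional K E] [IsGalois K E] (J : E →+* N)
    (g : N →+* N) (hg : ∀ a, g (J (algebraMap K E a)) = J (algebraMap K E a)) :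
    ∃ g₀ : E ≃ₐ[K] E, ∀ z, J (g₀ z) = g (J z) := by
  let _ : Algebra K N := (J.comp (algebraMap K E)).toAlgebra
  let _ : Algebra E N := J.toAlgebra
  have : IsScalarTower K E N := .of_algebraMap_eq fun _ => rfl
  let φ : N →ₐ[K] N := { g with commutes' := hg }
  exact ⟨φ.restrictNormal' E, fun z => φ.restrictNormal_commutes E z⟩

/-- base change of inertia -/
theorem fix_of_ine {N : Type} [Field N] [FiniteDimensional K E] [IsGalois K E] (J : E →+* N)
    (g : N ≃+* N) (hg : ∀ a, g (J (algebraMap K E a)) = J (algebraMap K E a)) (w : Vl N)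
    (hd : ∀ x, w (g x) = w x) (hi : ∀ x, w x ≤ 1 → w (g x - x) < 1)
    (h : Ine K (w.comap J) = ⊥) (z : E) : g (J z) = J z := by
  obtain ⟨g₀, h₀⟩ := exists_restrict (K := K) J (g : N →+* N) hg
  have hm : g₀ ∈ Ine K (w.comap J) := by
    refine ⟨fun x => ?_, fun x hx => ?_⟩
    · rw [Valuation.comap_apply, Valuation.comap_apply, h₀]
      exact hd _
    · rw [Valuation.comap_apply, map_sub, h₀]
      exact hi _ hx
  rw [h, Subgroup.mem_bot] at hm
  have := h₀ z
  rw [hm] at this
  exact this.symm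

/-- a family with unit determinant forces trivial inertia -/
theorem ine_of_det [FiniteDimensional K E] (w : Vl E) (z : (E ≃ₐ[K] E) → E)
    (h1 : ∀ g i : E ≃ₐ[K] E, w (g (z i)) ≤ 1)
    (hd : w (Matrix.of fun g i : E ≃ₐ[K] E => g (z i)).det = 1) : Ine K w = ⊥ := by
  rw [eq_bot_iff]
  intro s hs
  rw [Subgroup.mem_bot]
  by_contra hne
  refine hd.not_lt ?_
  rw [← Matrix.det_updateRow_add_smul_self _ hne (-1), Matrix.det_apply']
  refine w.map_sum_lt one_ne_zero fun σ _ => ?_
  have hε : w (((Equiv.Perm.sign σ : ℤˣ) : ℤ) : E) = 1 := by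
    rcases Int.units_eq_one_or (Equiv.Perm.sign σ) with h | h <;> simp [h]
  rw [map_mul, map_prod, hε, one_mul, ← Finset.mul_prod_erase _ _ (Finset.mem_univ (σ.symm s))]
  refine lt_of_le_of_lt (mul_le_of_le_one_right' (Finset.prod_le_one' fun i hi => ?_)) ?_
  · have : σ i ≠ s := fun e => Finset.ne_of_mem_erase hi (by rw [← e, Equiv.symm_apply_apply])
    rw [Matrix.updateRow_ne this]
    exact h1 _ _
  · rw [Equiv.apply_symm_apply, Matrix.updateRow_self]
    have := hs.2 (z (σ.symm s)) (h1 1 _)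
    simpa [sub_eq_add_neg] using this

/-- the residue field is as large as possible -/
theorem red_surjective {K₀ E₀ : Type} [Field K₀] [Field E₀] [Algebra K₀ E₀]
    [FiniteDimensional K₀ E₀] [FiniteDimensional K E] [IsGalois K E] {w : Vl E}
    (hd : Dec K w = ⊤) (hi : Ine K w = ⊥) (ρ : w.integer →+* E₀) (hρ : IsRed w ρ)
    (h0 : ∀ a : K₀, ∃ (b : K) (h : _), ρ ⟨algebraMap K E b, h⟩ = algebraMap K₀ E₀ a)
    (hn : Module.finrank K₀ E₀ ≤ Module.finrank K E) : Function.Surjective ρ := by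
  let F : Subalgebra K₀ E₀ :=
    { ρ.range with
      algebraMap_mem' := fun a => by
        obtain ⟨b, h, e⟩ := h0 a
        exact ⟨_, e⟩ }
  let ρ' : w.integer →+* F := ρ.codRestrict F fun x => ⟨x, rfl⟩
  have hs : Function.Surjective ρ' := fun ⟨_, x, hx⟩ => ⟨x, Subtype.ext hx⟩
  have hw : ∀ (g : E ≃ₐ[K] E) x, w (g x) = w x := fun g =>
    (show g ∈ Dec K w by rw [hd]; trivial)
  let gi : (E ≃ₐ[K] E) → w.integer →+* w.integer := fun g =>
    ((g : E →+* E).comp w.integer.subtype).codRestrict w.integer fun x =>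
      (hw g x).trans_le x.2
  have hk : ∀ g, RingHom.ker ρ' ≤ RingHom.ker (ρ.comp (gi g)) := fun g x hx => by
    have h1 : ρ x = 0 := congrArg Subtype.val hx
    exact (hρ _).2 ((hw g x).trans_lt ((hρ x).1 h1))
  have hl : ∀ g x, ρ'.liftOfSurjective hs ⟨ρ.comp (gi g), hk g⟩ (ρ' x) = ρ (gi g x) := fun g x =>
    ρ'.liftOfSurjective_comp_apply hs ⟨ρ.comp (gi g), hk g⟩ x
  let ψ : (E ≃ₐ[K] E) → F →ₐ[K₀] E₀ := fun g =>
    { ρ'.liftOfSurjective hs ⟨ρ.comp (gi g), hk g⟩ with
      commutes' := fun a => by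
        obtain ⟨b, h, e⟩ := h0 a
        have e' : algebraMap K₀ F a = ρ' ⟨algebraMap K E b, h⟩ := Subtype.ext e.symm
        refine (congrArg _ e').trans ((hl g _).trans ?_)
        rw [← e]
        exact congrArg ρ (Subtype.ext (g.commutes b)) }
  have hψ : Function.Injective ψ := fun g g' e => by
    have hm : g'⁻¹ * g ∈ Ine K w := by
      refine ⟨hw _, fun x hx => ?_⟩
      have h1 : ρ (gi g ⟨x, hx⟩) = ρ (gi g' ⟨x, hx⟩) :=
        (hl g _).symm.trans ((DFunLike.congr_fun e (ρ' ⟨x, hx⟩)).trans (hl g' _))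
      rw [← sub_eq_zero, ← map_sub] at h1
      have h2 : w (g x - g' x) < 1 := (hρ _).1 h1
      rw [← hw g', map_sub, ← AlgEquiv.mul_apply, mul_inv_cancel_left]
      exact h2
    rw [hi, Subgroup.mem_bot, inv_mul_eq_one] at hm
    exact hm.symm
  have hc : Module.finrank K E ≤ Module.finrank K₀ F := by
    rw [← IsGalois.card_aut_eq_finrank]
    exact (Nat.card_le_card_of_injective ψ hψ).trans (card_algHom_le_finrank K₀ F E₀)
  have ht : F = ⊤ := Subalgebra.eq_of_le_of_finrank_le le_top (by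
    rw [(Subalgebra.topEquiv (R := K₀) (A := E₀)).toLinearEquiv.finrank_eq]
    exact hn.trans hc)
  intro y
  exact (show y ∈ F by rw [ht]; trivial)

end

end Pool.Agent.ZCy
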