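import Pool.Agent.Lib.MP_751085_ag.ZC.Z.Sec
import Pool.Agent.Lib.MP_751085_ag.ZC.Z.Sec1

/-! Block Z: the Galois closure over the small field inside Laurent series. -/

namespace Pool.Agent.ZCy

open scoped Classical WithZero Polynomial

set_option linter.unusedSectionVars false

theorem clo_lm_lm {R S T : Type} [CommRing R] [CommRing S] [CommRing T] (f : S →+* T)
    (g : R →+* S) (x : Ls R) : lm f (lm g x) = lm (f.comp g) x := by
  ext j
  simp

theorem clo_tL_C {R : Type} [CommRing R] (a : R) : tL R (Polynomial.C a) = HahnSeries.C a := by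
  simp [tM]

/-- a splitting criterion inside an intermediate field -/
theorem clo_splits {F Ω ι : Type} [Field F] [Field Ω] [Algebra F Ω] [Fintype ι]
    (N : IntermediateField F Ω) (x : Ω) (P : ι → N[X]) (hm : ∀ i, (P i).Monic)
    (hs : ∀ i, (P i).Splits) (hl : (∏ i, P i).map N.val.toRingHom ∈
      Polynomial.lifts (algebraMap F Ω))
    (hx : ((∏ i, P i).map N.val.toRingHom).eval x = 0) :
    IsIntegral F x ∧ ((minpoly F x).map (algebraMap F N)).Splits := by
  have hM : (∏ i, P i).Monic := Polynomial.monic_prod_of_monic _ _ fun i _ => hm i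
  obtain ⟨Q, hQ, -, hQm⟩ := Polynomial.lifts_and_natDegree_eq_and_monic hl (hM.map _)
  have h0 : Polynomial.aeval x Q = 0 := by
    rw [Polynomial.aeval_def, Polynomial.eval₂_eq_eval_map, hQ, hx]
  refine ⟨⟨Q, hQm, h0⟩, ?_⟩
  have h1 : Q.map (algebraMap F N) = ∏ i, P i := by
    apply Polynomial.map_injective N.val.toRingHom N.val.toRingHom.injective
    rw [← hQ, Polynomial.map_map]
    rfl
  refine (Polynomial.Splits.prod fun i _ => hs i).of_dvd hM.ne_zero ?_
  rw [← h1]
  exact Polynomial.map_dvd _ (minpoly.dvd F x h0)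

section

variable {K L F : Type} [Field K] [Field L] [Field F] [Algebra K L] [FiniteDimensional K L]
  [IsGalois K L] [Algebra K[X] F] [IsFractionRing K[X] F] [Algebra F (Ls L)]
  (hβ : ∀ p, algebraMap F (Ls L) (algebraMap K[X] F p) = tL L (p.map (algebraMap K L)))

include hβ

theorem clo_fixed (f : Ls L) (a b : L[X]) (hb : b ≠ 0) (h : f * tL L b = tL L a)
    (hf : ∀ γ : L ≃ₐ[K] L, lm (γ : L →+* L) f = f) : f ∈ Set.range (algebraMap F (Ls L)) := by
  obtain ⟨f', rfl⟩ : f ∈ (lm (algebraMap K L)).range :=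
    (mem_lm_range (algebraMap K L).injective f).2 fun j =>
      (IsGalois.mem_range_algebraMap_iff_fixed _).2 fun γ => by
        have := congrArg (fun x : Ls L => x.coeff j) (hf γ)
        simpa using this
  obtain ⟨a', b', hb', h'⟩ := frac_of_coeff (algebraMap K L) one_pos f' a b hb h
  refine ⟨algebraMap K[X] F a' / algebraMap K[X] F b', ?_⟩
  have h1 := congrArg (lm (algebraMap K L)) h'
  rw [map_mul, lm_tM, lm_tM] at h1
  have h2 : tL L (b'.map (algebraMap K L)) ≠ 0 := by
    rw [← map_zero (tL L)]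
    exact tL_injective.ne (Polynomial.map_ne_zero hb')
  rw [map_div₀, hβ, hβ, div_eq_iff h2]
  exact h1.symm

theorem clo_C_mem (N : IntermediateField F (Ls L))
    (h : ∀ i, HahnSeries.C (Module.finBasis K L i) ∈ N) (a : L) : HahnSeries.C a ∈ N := by
  rw [← (Module.finBasis K L).sum_repr a, map_sum]
  refine sum_mem fun i _ => ?_
  rw [Algebra.smul_def, map_mul]
  refine mul_mem ?_ (h i)
  rw [← clo_tL_C, ← Polynomial.map_C, ← hβ]
  exact N.algebraMap_mem _

theorem clo_tL_mem (N : IntermediateField F (Ls L)) (h : ∀ a : L, HahnSeries.C a ∈ N)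
    (p : L[X]) : tL L p ∈ N := by
  induction p using Polynomial.induction_on' with
  | add p q hp hq => rw [map_add]; exact add_mem hp hq
  | monomial n a =>
    rw [← Polynomial.C_mul_X_pow_eq_monomial, map_mul, map_pow, clo_tL_C]
    refine mul_mem (h a) (pow_mem ?_ n)
    rw [← Polynomial.map_X (algebraMap K L), ← hβ]
    exact N.algebraMap_mem _

variable {L₀ F₀ E₀ : Type} [Field L₀] [Field F₀] [Field E₀] [Algebra L₀[X] F₀]
  [IsFractionRing L₀[X] F₀] [Algebra F₀ E₀] [FiniteDimensional F₀ E₀] [IsGalois F₀ E₀]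
  (ι₀ : E₀ →+* Ls L₀) (hι : ∀ p, ι₀ (toF L₀[X] F₀ E₀ p) = tL L₀ p)

include hι

omit hβ in
theorem clo_frac (e : L₀ →+* L) (c : F₀) : ∃ a b : L[X], b ≠ 0 ∧
    lm e (ι₀ (algebraMap F₀ E₀ c)) = tL L a / tL L b := by
  obtain ⟨a, b, hb, rfl⟩ := IsFractionRing.div_surjective (A := L₀[X]) c
  refine ⟨a.map e, b.map e, Polynomial.map_ne_zero (nonZeroDivisors.ne_zero hb), ?_⟩
  have ha := hι a
  have hb := hι b
  simp only [RingHom.comp_apply] at ha hb
  rw [map_div₀, map_div₀, map_div₀, ha, hb, lm_tM, lm_tM]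

theorem clo_mem (N : IntermediateField F (Ls L)) (h : ∀ a : L, HahnSeries.C a ∈ N)
    (e : L₀ →+* L) (he : ∀ i, lm e (ι₀ (Module.finBasis F₀ E₀ i)) ∈ N) (z : E₀) :
    lm e (ι₀ z) ∈ N := by
  rw [← (Module.finBasis F₀ E₀).sum_repr z, map_sum, map_sum]
  refine sum_mem fun i _ => ?_
  rw [Algebra.smul_def, map_mul, map_mul]
  refine mul_mem ?_ (he i)
  obtain ⟨a, b, -, hab⟩ := clo_frac ι₀ hι e ((Module.finBasis F₀ E₀).repr z i)
  rw [hab]
  exact div_mem (clo_tL_mem hβ N h a) (clo_tL_mem hβ N h b)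

theorem clo_lifts (e : L₀ →+* L) (P₀ : F₀[X]) :
    (∏ γ : L ≃ₐ[K] L, P₀.map (((lm ((γ : L →+* L).comp e)).comp ι₀).comp (algebraMap F₀ E₀))) ∈
      Polynomial.lifts (algebraMap F (Ls L)) := by
  set ψ : FractionRing L[X] →+* Ls L := IsFractionRing.lift (g := tL L) tL_injective with hψ
  have h1 : (∏ γ : L ≃ₐ[K] L,
      P₀.map (((lm ((γ : L →+* L).comp e)).comp ι₀).comp (algebraMap F₀ E₀))) ∈
        Polynomial.lifts ψ := by
    refine prod_mem fun γ _ => (Polynomial.lifts_iff_coeff_lifts _).2 fun n => ?_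
    obtain ⟨a, b, -, hab⟩ := clo_frac ι₀ hι ((γ : L →+* L).comp e) (P₀.coeff n)
    refine ⟨algebraMap _ _ a / algebraMap _ _ b, ?_⟩
    rw [map_div₀, hψ, IsFractionRing.lift_algebraMap, IsFractionRing.lift_algebraMap, ← hab,
      Polynomial.coeff_map]
    rfl
  refine (Polynomial.lifts_iff_coeff_lifts _).2 fun n => ?_
  obtain ⟨c, hc⟩ := (Polynomial.lifts_iff_coeff_lifts _).1 h1 n
  obtain ⟨a, b, hb, rfl⟩ := IsFractionRing.div_surjective (A := L[X]) c
  have hb0 := nonZeroDivisors.ne_zero hb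
  have h2 : tL L b ≠ 0 := by
    rw [← map_zero (tL L)]
    exact tL_injective.ne hb0
  rw [map_div₀, hψ, IsFractionRing.lift_algebraMap, IsFractionRing.lift_algebraMap] at hc
  refine clo_fixed hβ _ a b hb0 (by rw [← hc, div_mul_cancel₀ _ h2]) fun γ => ?_
  rw [← Polynomial.coeff_map, Polynomial.map_prod]
  congr 1
  refine Fintype.prod_equiv (Equiv.mulLeft γ) _ _ fun δ => ?_
  rw [Polynomial.map_map]
  rfl

theorem clo_main [CharZero K] (e : L₀ →+* L) :
    ∃ (N : Type) (_ : Field N) (_ : Algebra F N) (_ : FiniteDimensional F N) (_ : IsGalois F N)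
      (d : SecD 1 K L F N) (κ : E₀ →+* N), (∀ z, d.ι (κ z) = lm e (ι₀ z)) ∧
      ∀ g : N ≃ₐ[F] N, (∀ a, g (d.c a) = d.c a) →
        (∀ (h : N ≃ₐ[F] N) (z : E₀), g (h (κ z)) = h (κ z)) → g = 1 := by
  set S : Set (Ls L) := (Set.range fun i => HahnSeries.C (Module.finBasis K L i)) ∪
    Set.range fun q : (L ≃ₐ[K] L) × Fin (Module.finrank F₀ E₀) =>
      lm ((q.1 : L →+* L).comp e) (ι₀ (Module.finBasis F₀ E₀ q.2)) with hS
  set N := IntermediateField.adjoin F S with hN
  have hC : ∀ a : L, HahnSeries.C a ∈ N := clo_C_mem hβ N fun i =>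
    IntermediateField.subset_adjoin _ _ (Or.inl ⟨i, rfl⟩)
  have hκ : ∀ (γ : L ≃ₐ[K] L) (z : E₀), lm ((γ : L →+* L).comp e) (ι₀ z) ∈ N := fun γ =>
    clo_mem hβ ι₀ hι N hC _ fun i => IntermediateField.subset_adjoin _ _ (Or.inr ⟨(γ, i), rfl⟩)
  let c : L →+* N := (HahnSeries.C : L →+* Ls L).codRestrict N hC
  let κ : (L ≃ₐ[K] L) → E₀ →+* N := fun γ =>
    ((lm ((γ : L →+* L).comp e)).comp ι₀).codRestrict N (hκ γ)
  have hsp : ∀ x ∈ S, IsIntegral F x ∧ ((minpoly F x).map (algebraMap F N)).Splits := by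
    rintro x (⟨i, rfl⟩ | ⟨⟨γ, i⟩, rfl⟩)
    · set a := Module.finBasis K L i
      have ha : IsIntegral K a := .of_finite K a
      refine clo_splits (ι := Unit) N _ (fun _ => ((minpoly K a).map (algebraMap K L)).map c)
        (fun _ => ((minpoly.monic ha).map _).map _)
        (fun _ => (Normal.splits inferInstance a).map _) ?_ ?_
      · refine (Polynomial.mem_lifts _).2
          ⟨(minpoly K a).map ((algebraMap K[X] F).comp Polynomial.C), ?_⟩
        rw [Fintype.prod_unique, Polynomial.map_map, Polynomial.map_map, Polynomial.map_map]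
        congr 1
        refine RingHom.ext fun k => ?_
        simp only [RingHom.comp_apply]
        rw [hβ, Polynomial.map_C, clo_tL_C]
        rfl
      · rw [Fintype.prod_unique, Polynomial.map_map]
        have : (N.val.toRingHom.comp c) = (HahnSeries.C : L →+* Ls L) := RingHom.ext fun _ => rfl
        rw [this, Polynomial.eval_map, Polynomial.eval₂_at_apply, Polynomial.eval_map,
          ← Polynomial.aeval_def, minpoly.aeval, map_zero]
    · set z := Module.finBasis F₀ E₀ i
      have hz : IsIntegral F₀ z := .of_finite F₀ z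
      have h1 : (∏ δ : L ≃ₐ[K] L, ((minpoly F₀ z).map (algebraMap F₀ E₀)).map (κ δ)).map
          N.val.toRingHom = ∏ δ : L ≃ₐ[K] L, (minpoly F₀ z).map
            (((lm ((δ : L →+* L).comp e)).comp ι₀).comp (algebraMap F₀ E₀)) := by
        rw [Polynomial.map_prod]
        refine Finset.prod_congr rfl fun δ _ => ?_
        rw [Polynomial.map_map, Polynomial.map_map]
        rfl
      refine clo_splits N _ (fun δ => ((minpoly F₀ z).map (algebraMap F₀ E₀)).map (κ δ))
        (fun _ => ((minpoly.monic hz).map _).map _)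
        (fun _ => (Normal.splits inferInstance z).map _) ?_ ?_
      · rw [h1]
        exact clo_lifts hβ ι₀ hι e _
      · rw [h1, Polynomial.eval_prod]
        refine Finset.prod_eq_zero (Finset.mem_univ γ) ?_
        rw [← Polynomial.map_map, Polynomial.eval_map]
        refine (Polynomial.eval₂_at_apply ((lm ((γ : L →+* L).comp e)).comp ι₀) z).trans ?_
        rw [Polynomial.eval_map, ← Polynomial.aeval_def, minpoly.aeval, map_zero]
  have : Finite S := ((Set.finite_range _).union (Set.finite_range _)).to_subtype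
  have hfd : FiniteDimensional F N :=
    IntermediateField.finiteDimensional_adjoin fun x hx => (hsp x hx).1
  have : Normal F N := normal_iff.2 fun x => ⟨.of_finite F x, by
    rw [IntermediateField.minpoly_eq]
    exact IntermediateField.splits_of_mem_adjoin F _ hsp x.2⟩
  have : CharZero F := (RingHom.charZero_iff
    ((algebraMap K[X] F).comp Polynomial.C).injective).1 inferInstance
  have hG : IsGalois F N := {}
  let d : SecD 1 K L F N := ⟨c, N.val.toRingHom, fun _ => rfl, fun p => hβ p⟩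
  have hd : ∀ z, d.ι (κ 1 z) = lm e (ι₀ z) := fun z => rfl
  refine ⟨N, inferInstance, inferInstance, hfd, hG, d, κ 1, hd, fun g hc hk => ?_⟩
  obtain ⟨π, σ, hs⟩ := d.exists_spl
  have key : (g : N →ₐ[F] N) = AlgHom.id F N := by
    refine IntermediateField.adjoin_algHom_ext F ?_
    rintro x (⟨i, rfl⟩ | ⟨⟨γ, i⟩, rfl⟩)
    · exact hc _
    · have h1 : σ γ (κ 1 (Module.finBasis F₀ E₀ i)) = κ γ (Module.finBasis F₀ E₀ i) := by
        apply d.ι.injective
        rw [hs.hσ, hd, clo_lm_lm]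
        rfl
      have h2 := hk (σ γ) (Module.finBasis F₀ E₀ i)
      rw [h1] at h2
      exact h2
  exact AlgEquiv.ext fun x => DFunLike.congr_fun key x

end

theorem exists_clo {K L₀ F₀ E₀ : Type} (F : Type) [Field K] [CharZero K] [Field L₀] [Field F₀]
    [Field E₀] [Field F] [Algebra K L₀] [FiniteDimensional K L₀] [Algebra K[X] F]
    [IsFractionRing K[X] F] [Algebra L₀[X] F₀] [IsFractionRing L₀[X] F₀] [Algebra F₀ E₀]
    [FiniteDimensional F₀ E₀] [IsGalois F₀ E₀] (ι₀ : E₀ →+* Ls L₀)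
    (hι : ∀ p, ι₀ (toF L₀[X] F₀ E₀ p) = tL L₀ p) :
    ∃ (L : Type) (_ : Field L) (_ : Algebra K L) (_ : FiniteDimensional K L) (_ : IsGalois K L)
      (N : Type) (_ : Field N) (_ : Algebra F N) (_ : FiniteDimensional F N) (_ : IsGalois F N)
      (d : SecD 1 K L F N) (e : L₀ →ₐ[K] L) (κ : E₀ →+* N),
      (∀ z, d.ι (κ z) = lm (e : L₀ →+* L) (ι₀ z)) ∧
      ∀ g : N ≃ₐ[F] N, (∀ a, g (d.c a) = d.c a) →
        (∀ (h : N ≃ₐ[F] N) (z : E₀), g (h (κ z)) = h (κ z)) → g = 1 := by
  let e₀ : L₀ →ₐ[K] AlgebraicClosure K := IsAlgClosed.lift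
  set L := IntermediateField.normalClosure K L₀ (AlgebraicClosure K)
  let e : L₀ →ₐ[K] L := e₀.codRestrict L.toSubalgebra
    fun x => e₀.fieldRange_le_normalClosure ⟨x, rfl⟩
  have hG : IsGalois K L := {}
  have hinj : Function.Injective
      ((tL L).comp (Polynomial.mapRingHom (algebraMap K L))) :=
    tL_injective.comp (Polynomial.map_injective _ (algebraMap K L).injective)
  letI : Algebra F (Ls L) := (IsFractionRing.lift (K := F) hinj).toAlgebra
  have hβ : ∀ p, algebraMap F (Ls L) (algebraMap K[X] F p) = tL L (p.map (algebraMap K L)) :=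
    fun p => IsFractionRing.lift_algebraMap hinj p
  obtain ⟨N, i1, i2, i3, i4, d, κ, h1, h2⟩ := clo_main hβ ι₀ hι (e : L₀ →+* L)
  exact ⟨L, inferInstance, inferInstance, inferInstance, hG, N, i1, i2, i3, i4, d, e, κ, h1, h2⟩

end Pool.Agent.ZCy
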