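import Pool.Agent.Lib.MP_751085_ag.ZC.Z.Desc1
import Pool.Agent.Lib.MP_751085_ag.ZC.Z.Clo
import Pool.Agent.Lib.MP_751085_ag.ZC.Z.SecI

/-! Block Z: descent of the field of definition. -/

namespace Pool.Agent.ZCy

open scoped Classical WithZero Polynomial

set_option linter.unusedSectionVars false

theorem desc_nat {A E : Type} [CommRing A] [Algebra ℚ A] [Field E] {φ : A →+* E} {w : Vl E}
    (h : ∀ a, w (φ a) ≤ 1) {n : ℕ} (hn : n ≠ 0) : w (n : E) = 1 := by
  have h1 : (n : A) * algebraMap ℚ A (n : ℚ)⁻¹ = 1 := by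
    rw [← map_natCast (algebraMap ℚ A), ← map_mul, mul_inv_cancel₀ (Nat.cast_ne_zero.2 hn), map_one]
  have h2 := congrArg (fun a => w (φ a)) h1
  simp only [map_mul, map_one, map_natCast] at h2
  exact eq_one_of_one_le_mul_left (map_natCast φ n ▸ h n) (h _) h2.ge

theorem desc_unr {A K L : Type} [CommRing A] [Algebra ℚ A] [Field K] [Field L] [Algebra A K]
    [Algebra K L] [FiniteDimensional K L] [IsGalois K L]
    (hA : Function.Injective (algebraMap A K)) {Δ : A} (C : Subgroup (L ≃ₐ[K] L)) [C.Normal]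
    (h : ∀ (P : A) (w : Vl L), Prime P → ¬P ∣ Δ → Nrm w → Cen (toF A K L) w P → Ine K w ≤ C) :
    UnrOff K (toF A K (IntermediateField.fixedField C)) Δ := by
  intro P w' hP hd hc
  obtain ⟨w, hw⟩ := zv_exists (E := L) w'
  have hc1 : Cen (toF A K L) w P := (over_cen hc hw :)
  obtain ⟨v, hv, he⟩ := zv_nrm w ⟨toF A K L P, fun h0 => hP.ne_zero
    (hA ((algebraMap K L).injective (h0.trans (by simp)))), ((hc1.2 P).2 dvd_rfl).ne⟩
  have hc2 : Cen (toF A K L) v P := ⟨fun a => he.le_one_iff_le_one.1 (hc1.1 a),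
    fun a => he.lt_one_iff_lt_one.symm.trans (hc1.2 a)⟩
  have he' : w'.IsEquiv (v.comap (algebraMap (IntermediateField.fixedField C) L)) :=
    (Valuation.isEquiv_iff_val_le_one).2 fun {x} => (hw x).symm.trans he.le_one_iff_le_one
  rw [ine_equiv he']
  refine zv_unr (desc_nat (φ := toF A K _) (fun a => hc2.1 a) Nat.card_pos.ne') fun x => ?_
  exact zv_inv (K := K) v x fun g hg => x.2 ⟨g, h P v hP hd hv hc2 hg⟩

/-- a normal subgroup that contains the inertia groups generates together with the group of a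
subfield of `KK` -/
theorem sup_eq_top {A K KK L₀ L : Type} [CommRing A] [Algebra ℚ A] [Field K] [Field KK] [Field L₀]
    [Field L] [Algebra A K] [Algebra K L₀] [Algebra K L] [FiniteDimensional K L] [IsGalois K L]
    (hA : Function.Injective (algebraMap A K)) {γ : K →+* KK} {Δ : A} (hS : SCP γ Δ)
    (he : Emb L₀ γ) (e : L₀ →ₐ[K] L) (C : Subgroup (L ≃ₐ[K] L)) [C.Normal]
    (h : ∀ (P : A) (w : Vl L), Prime P → ¬P ∣ Δ → Nrm w → Cen (toF A K L) w P → Ine K w ≤ C) :
    e.fieldRange.fixingSubgroup ⊔ C = ⊤ := by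
  obtain ⟨j, hj⟩ := he
  obtain ⟨H, hH⟩ : ∃ H, H = e.fieldRange.fixingSubgroup ⊔ C := ⟨_, rfl⟩
  have h1 : IntermediateField.fixedField H ≤ e.fieldRange := by
    rw [← IsGalois.fixedField_fixingSubgroup e.fieldRange, IntermediateField.le_iff_le,
      IntermediateField.fixingSubgroup_fixedField, hH]
    exact le_sup_left
  have h2 : IntermediateField.fixedField H ≤ IntermediateField.fixedField C := by
    rw [IntermediateField.le_iff_le, IntermediateField.fixingSubgroup_fixedField, hH]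
    exact le_sup_right
  let M := (IntermediateField.fixedField H).comap (IntermediateField.fixedField C).val
  let g : M →ₐ[K] L₀ := (AlgEquiv.ofInjectiveField e).symm.toAlgHom.comp
    (((IntermediateField.fixedField C).val.comp M.val).codRestrict e.range fun x => h1 x.2)
  have hM : M = ⊥ := hS _ (desc_unr hA C h) M ⟨j.comp g, fun a => by
    rw [RingHom.comp_apply, RingHom.coe_coe, g.commutes, hj]⟩
  have h3 : IntermediateField.fixedField H = ⊥ := le_bot_iff.1 fun x hx => by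
    have : (⟨x, h2 hx⟩ : IntermediateField.fixedField C) ∈ M := hx
    rw [hM, IntermediateField.mem_bot] at this
    obtain ⟨a, ha⟩ := this
    exact IntermediateField.mem_bot.2 ⟨a, congrArg Subtype.val ha⟩
  rw [← hH, ← IntermediateField.fixingSubgroup_fixedField H, h3,
    IntermediateField.fixingSubgroup_bot]

theorem desc (hGR : GR0) {A K KK L₀ F₀ E₀ : Type} [CommRing A] [Algebra ℚ A] [Field K]
    [CharZero K] [Field KK] [Field L₀] [Field F₀] [Field E₀] [Algebra A K] [Algebra K L₀]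
    [FiniteDimensional K L₀] [Algebra L₀[X] F₀] [IsFractionRing L₀[X] F₀] [Algebra F₀ E₀]
    [FiniteDimensional F₀ E₀] [IsGalois F₀ E₀] (hA : Function.Injective (algebraMap A K))
    {γ : K →+* KK} {Δ : A} (hS : SCP γ Δ) (he : Emb L₀ γ) (Th : A[X]) (hm : Th.Monic)
    (hb : ∃ (r : ℕ) (α β : A[X]), Polynomial.C (Δ ^ r) = α * Th + β * Polynomial.derivative Th)
    (ι₀ : E₀ →+* Ls L₀) (hι : ∀ p, ι₀ (toF L₀[X] F₀ E₀ p) = tL L₀ p)
    (hu : UnrOff F₀ (toF L₀[X] F₀ E₀) (Th.map (toF A K L₀))) : Dfd F₀ (algebraMap K L₀) ι₀ := by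
  obtain ⟨L, _, _, _, _, N, _, _, _, _, d, e, κ, hκ, hg⟩ := exists_clo (K := K) (Fr K[X]) ι₀ hι
  obtain ⟨π, σ, hs⟩ := d.exists_spl
  obtain ⟨C, hCn, hC⟩ := grp_cent π σ
  refine dfd_of_sup hι hκ hs C (fun a => (hC a).1)
    (sup_eq_top hA hS he e C fun P w hP hd hw hc => ?_)
  obtain ⟨r, α, β, hb⟩ := hb
  let ψ : A →+* w.integer := (toF A K L).codRestrict w.integer hc.1
  obtain ⟨u, hu'⟩ : IsUnit (ψ (Δ ^ r)) := by
    rw [map_pow]
    exact ((Valuation.integer.integers w).isUnit_iff_valuation_eq_one.2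
      ((hc.1 Δ).eq_of_not_lt fun h => hd ((hc.2 Δ).1 h))).pow r
  have hcop : IsCoprime (Th.map ψ) (Polynomial.derivative (Th.map ψ)) := by
    refine ⟨Polynomial.C u⁻¹.1 * α.map ψ, Polynomial.C u⁻¹.1 * β.map ψ, ?_⟩
    rw [Polynomial.derivative_map, mul_assoc, mul_assoc, ← mul_add, ← Polynomial.map_mul,
      ← Polynomial.map_mul, ← Polynomial.map_add, ← hb, Polynomial.map_C, ← hu', ← map_mul,
      Units.inv_mul, map_one]
  rw [← Polynomial.map_map] at hu
  obtain ⟨W, h1, h2, -, h3, -⟩ := d.ine hGR one_pos hs w hw (desc_nat hc.1 Nat.card_pos.ne')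
    (desc_nat hc.1 one_ne_zero) (Th.map ψ) (by rw [(hm.map ψ).leadingCoeff]; exact isUnit_one) hcop
    fun Q v hQ hd' hc' => clo_unr hι hκ hg hs hu Q v hQ (by
      rwa [Polynomial.map_map] at hd' ⊢) hc'
  exact fun a ha => (hC a).2 fun g hg' => comm_of_ine W π.ker h1 h2 (h3 a ha) hg'

end Pool.Agent.ZCy
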