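import Pool.Agent.Lib.MP_751085_ag.ZC.Z.LDefs
import Pool.Agent.Lib.MP_751085_ag.ZC.Z.GalFr
import Pool.Agent.Lib.MP_751085_ag.ZC.Z.Cen
import Pool.Agent.Lib.MP_751085_ag.ZC.Z.Pole

/-! Block Z: the lifted cover as a field extension. -/

namespace Pool.Agent.ZCy

open scoped Classical WithZero Polynomial

set_option linter.unusedSectionVars false

theorem lf_order {R S : Type} [CommRing R] [CommRing S] {σ : R →+* S} (h : Function.Injective σ)
    (f : Ps R) : (PowerSeries.map σ f).order = f.order := by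
  refine le_antisymm ?_ (PowerSeries.le_order_map σ)
  refine PowerSeries.le_order _ _ fun i hi => h ?_
  rw [map_zero, ← PowerSeries.coeff_map]
  exact PowerSeries.coeff_of_lt_order _ hi

theorem lf_int {A G O E : Type} [CommRing A] [Group G] [Finite G] [CommRing O] [Field E]
    [MulSemiringAction G O] (β : A →+* O) (hi : ∀ z, (∀ g : G, g • z = z) ↔ z ∈ β.range)
    (a : O →+* E) (z : O) : (a.comp β).IsIntegralElem (a z) := by
  let := β.toAlgebra
  have : Algebra.IsInvariant A O G := ⟨fun b hb => (hi b).1 hb⟩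
  obtain ⟨p, hp, h⟩ := (Algebra.IsInvariant.isIntegral A O G).isIntegral z
  refine ⟨p, hp, ?_⟩
  rw [← Polynomial.hom_eval₂]
  exact (congrArg a h).trans (map_zero a)

theorem lf_ine {A F G O E : Type} [CommRing A] [Field F] [Group G] [Fintype G] [CommRing O]
    [Field E] [Algebra F E] [FiniteDimensional F E] [MulSemiringAction G O] (β : A →+* O)
    (hi : ∀ z, (∀ g : G, g • z = z) ↔ z ∈ β.range) (a : O →+* E) (r : G ≃* (E ≃ₐ[F] E))
    (hr : ∀ g z, r g (a z) = a (g • z)) (w : Vl E) (hw : ∀ x, w (a (β x)) ≤ 1) (e : G → O) (Δ : A)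
    (hΔ : β Δ = (Matrix.of fun g i : G => g • e i).det ^ 2) (h1 : w (a (β Δ)) = 1) :
    Ine F w = ⊥ := by
  have hg : ∀ (g : E ≃ₐ[F] E) z, g (a z) = a (r.symm g • z) := fun g z => by
    rw [← hr, MulEquiv.apply_symm_apply]
  refine ine_of_det w (fun i => a (e (r.symm i))) (fun g i => ?_) ?_
  · rw [hg]
    exact le_one_of_integral (φ := a.comp β) hw (lf_int β hi a _)
  · have h2 : (Matrix.of fun g i : E ≃ₐ[F] E => g (a (e (r.symm i)))) =
        ((Matrix.of fun g i : G => g • e i).map a).submatrix r.symm.toEquiv r.symm.toEquiv := by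
      ext g i
      exact hg g _
    rw [h2, Matrix.det_submatrix_equiv_self, ← RingHom.mapMatrix_apply, ← RingHom.map_det]
    rw [hΔ, map_pow, map_pow] at h1
    exact (pow_eq_one_iff_of_nonneg zero_le two_ne_zero).1 h1

theorem lift_field {κ KK F E₀ G O : Type} [Field κ] [Field KK] [Field F] [Field E₀] [Group G]
    [Fintype G] [CommRing O] [MulSemiringAction G E₀] [MulSemiringAction G O] [Algebra (Ps κ) KK]
    [IsFractionRing (Ps κ) KK] [Algebra KK[X] F] [IsFractionRing KK[X] F] {φ₀ : κ[X] →+* E₀}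
    {Th : (Ps κ)[X]} (d : LRing κ E₀ G O φ₀ Th) :
    ∃ (E : Type) (_ : Field E) (_ : Algebra F E) (_ : FiniteDimensional F E) (_ : IsGalois F E),
      Nonempty (LField κ KK F E₀ E φ₀ Th) ∧ Module.finrank F E = Fintype.card G := by
  have : IsDomain O := d.νinj.isDomain d.ν
  have hβ : Function.Injective d.β := fun a b h => tL_injective (by rw [← d.sβ, ← d.sβ, h])
  have : FaithfulSMul G O := ⟨fun {g g'} h => by
    by_contra hne
    obtain ⟨e, Δ, hΔ, hu⟩ := d.d2
    rw [Matrix.det_zero_of_row_eq hne (funext fun i => h (e i)), zero_pow two_ne_zero,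
      map_eq_zero_iff _ hβ] at hΔ
    rw [hΔ, Polynomial.leadingCoeff_zero] at hu
    exact not_isUnit_zero hu⟩
  have hk : Function.Injective (algebraMap (Ps κ) KK) := IsFractionRing.injective _ _
  obtain ⟨i1, i2, i3, r, hφ, hr⟩ := gal_fr (G := G)
    ((algebraMap KK[X] F).comp (Polynomial.mapRingHom (algebraMap (Ps κ) KK)))
    ((IsFractionRing.injective KK[X] F).comp (Polynomial.map_injective _ hk))
    (fun x => frac_poly (R := Ps κ) (KK := KK) x) d.β hβ d.inv
  have hφ' : ∀ p : (Ps κ)[X], toF KK[X] F (Fr O) (p.map (algebraMap (Ps κ) KK)) =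
      algebraMap O (Fr O) (d.β p) := hφ
  have hs : Function.Injective ((lm (algebraMap (Ps κ) KK)).comp d.s) :=
    (lm_injective hk).comp d.sinj
  have hν : Function.Injective ((algebraMap (Ps E₀) (Fr (Ps E₀))).comp d.ν) :=
    (IsFractionRing.injective _ _).comp d.νinj
  obtain ⟨v, ρ, hρ, hX, hres, hord, -⟩ := exists_ord E₀ (Fr (Ps E₀))
  let μ : Fr O →+* Fr (Ps E₀) := IsFractionRing.lift hν
  have hμ : ∀ z, μ (algebraMap O (Fr O) z) = algebraMap _ _ (d.ν z) := fun z =>
    IsFractionRing.lift_algebraMap hν z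
  let μ' : (v.comap μ).integer →+* v.integer :=
    (μ.comp (v.comap μ).integer.subtype).codRestrict v.integer fun x => x.2
  refine ⟨Fr O, inferInstance, i1, i2, i3, ⟨⟨IsFractionRing.lift hs, v.comap μ, ρ.comp μ', ?_, ?_,
    ?_, ?_, fun x => hρ (μ' x), fun p => ?_⟩⟩, ?_⟩
  · have h0 : ∀ p : (Ps κ)[X], IsFractionRing.lift hs (toF KK[X] F (Fr O)
        (p.map (algebraMap (Ps κ) KK))) = tL KK (p.map (algebraMap (Ps κ) KK)) := fun p => by
      rw [hφ', IsFractionRing.lift_algebraMap, RingHom.comp_apply, d.sβ, lm_tM]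
    have h1 : (IsFractionRing.lift hs : Fr O →+* Ls KK).comp (toF KK[X] F (Fr O)) = tL KK := by
      refine Polynomial.ringHom_ext' (IsFractionRing.ringHom_ext (A := Ps κ) fun a => ?_) ?_
      · have := h0 (Polynomial.C a)
        rwa [Polynomial.map_C] at this
      · have := h0 Polynomial.X
        rwa [Polynomial.map_X] at this
    exact fun p => DFunLike.congr_fun h1 p
  · intro P w hP hT hc
    have hw : ∀ x, w (algebraMap O (Fr O) (d.β x)) ≤ 1 := fun x => hφ' x ▸ hc.1 _
    obtain ⟨e, Δ, N, hΔ, hd⟩ := d.d1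
    obtain ⟨e', Δ', hΔ', hu⟩ := d.d2
    have key : ∀ x : (Ps κ)[X], ¬P ∣ x.map (algebraMap (Ps κ) KK) →
        w (algebraMap O (Fr O) (d.β x)) = 1 := fun x hx =>
      le_antisymm (hw x) (not_lt.1 fun h => hx ((hc.2 _).1 (by rwa [hφ'])))
    by_cases h1 : P ∣ Δ.map (algebraMap (Ps κ) KK)
    · exact lf_ine d.β d.inv _ r hr w hw e' Δ' hΔ'
        (key _ fun h2 => hT (dvd_of_disc hd hu hP h1 h2))
    · exact lf_ine d.β d.inv _ r hr w hw e Δ hΔ (key _ h1)
  · refine eq_top_iff.2 fun g _ x => ?_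
    obtain ⟨g, rfl⟩ := r.surjective g
    have h0 : ∀ z, v.comap μ (r g (algebraMap O (Fr O) z)) = v.comap μ (algebraMap O (Fr O) z) :=
      fun z => by
        rw [hr, Valuation.comap_apply, Valuation.comap_apply, hμ, hμ, d.νact]
        exact hord _ _ (lf_order (RingHom.injective _) _)
    obtain ⟨a, b, -, rfl⟩ := IsFractionRing.div_surjective (A := O) x
    rw [map_div₀, map_div₀, map_div₀, h0, h0]
  · rw [← Polynomial.map_C, hφ', Valuation.comap_apply, hμ, d.νX, hX]
  · obtain ⟨h, e⟩ := hres (d.ν (d.β p))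
    have h1 : μ (toF KK[X] F (Fr O) (p.map (algebraMap (Ps κ) KK))) =
        algebraMap _ _ (d.ν (d.β p)) := by rw [hφ', hμ]
    refine ⟨show v (μ _) ≤ 1 from h1 ▸ h, ?_⟩
    rw [← d.ν0, ← e]
    exact congrArg ρ (Subtype.ext h1)
  · rw [← IsGalois.card_aut_eq_finrank, ← Nat.card_congr r.toEquiv, Nat.card_eq_fintype_card]

end Pool.Agent.ZCy
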