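import Pool.Agent.Lib.MP_751085_ag.ZC.Z.Sec1
import Pool.Agent.Lib.MP_751085_ag.ZC.Z.Cen2

/-! Block Z: the model of a cover over a field of definition. -/

namespace Pool.Agent.ZCy

open scoped Classical WithZero Polynomial

set_option linter.unusedSectionVars false

/-- `E'` is a model over `K` of the cover `E` over `KK` -/
structure Mdl (K KK F' F E' E : Type) [Field K] [Field KK] [Field F'] [Field F] [Field E']
    [Field E] [Algebra K[X] F'] [Algebra KK[X] F] [Algebra F' E'] [Algebra F E] (γ : K →+* KK)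
    (ι : E →+* Ls KK) where
  j : E' →+* E
  ι' : E' →+* Ls K
  r : (E ≃ₐ[F] E) ≃* (E' ≃ₐ[F'] E')
  hj : ∀ p, j (toF K[X] F' E' p) = toF KK[X] F E (p.map γ)
  hι : ∀ z, ι (j z) = lm γ (ι' z)
  hι' : ∀ p, ι' (toF K[X] F' E' p) = tL K p
  hr : ∀ g z, j (r g z) = g (j z)

/-- a map whose values lie in the image of an injective map factors through it -/
theorem mdl_factor {A B C : Type} [Field A] [Field B] [Field C] (f : A →+* C) (l : B →+* C)
    (h : ∀ z, f z ∈ l.range) : ∃ f' : A →+* B, ∀ z, f z = l (f' z) := by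
  choose u hu using h
  have hl := l.injective
  refine ⟨{ toFun := u
            map_one' := hl (by rw [hu, map_one, map_one])
            map_mul' := fun a b => hl (by rw [map_mul, hu, hu, hu, map_mul])
            map_zero' := hl (by rw [hu, map_zero, map_zero])
            map_add' := fun a b => hl (by rw [map_add, hu, hu, hu, map_add]) }, fun z => ?_⟩
  exact (hu z).symm

theorem mdl_dvd {K KK : Type} [Field K] [Field KK] (γ : K →+* KK) {P₀ : K[X]} (h₀ : Prime P₀)
    {P : KK[X]} (hP : Prime P) (hd : P ∣ P₀.map γ) (a : K[X]) : P ∣ a.map γ ↔ P₀ ∣ a := by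
  refine ⟨fun h => ?_, fun h => hd.trans (Polynomial.map_dvd γ h)⟩
  by_contra hn
  have hc : IsCoprime P₀ a := (h₀.irreducible.coprime_iff_not_dvd).2 hn
  have hc' := hc.map (Polynomial.mapRingHom γ)
  exact hP.not_isUnit (hc'.isUnit_of_dvd' hd h)

theorem mdl_one {A E : Type} [CommRing A] [Field E] {φ : A →+* E} {w : Vl E} {P : A}
    (hc : Cen φ w P) {a : A} (ha : ¬P ∣ a) : w (φ a) = 1 :=
  le_antisymm (hc.1 a) (not_lt.1 fun h => ha ((hc.2 a).1 h))

section

variable {K KK F E : Type} (F' : Type) [Field K] [CharZero K] [Field KK] [Field F'] [Field F]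
  [Field E] [Algebra K[X] F'] [IsFractionRing K[X] F'] [Algebra KK[X] F] [IsFractionRing KK[X] F]
  [Algebra F E] [FiniteDimensional F E] [IsGalois F E] {γ : K →+* KK} {ι : E →+* Ls KK}

theorem exists_mdl (hι : ∀ p, ι (toF KK[X] F E p) = tL KK p) (h : Dfd F γ ι) :
    ∃ (E' : Type) (_ : Field E') (_ : Algebra F' E') (_ : FiniteDimensional F' E')
      (_ : IsGalois F' E'), Nonempty (Mdl K KK F' F E' E γ ι) := by
  obtain ⟨S, hS, hf, hd⟩ := h
  let φ : K[X] →+* E := (toF KK[X] F E).comp (Polynomial.mapRingHom γ)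
  have hφ : Function.Injective φ :=
    ((algebraMap F E).injective.comp (IsFractionRing.injective KK[X] F)).comp
      (Polynomial.map_injective γ γ.injective)
  let ψ : F' →+* E := IsFractionRing.lift hφ
  have hψ : ∀ p, ψ (algebraMap K[X] F' p) = toF KK[X] F E (p.map γ) := fun p =>
    IsFractionRing.lift_algebraMap hφ p
  have hψg : ∀ (g : E ≃ₐ[F] E) (a : F'), g (ψ a) = ψ a := by
    intro g a
    obtain ⟨p, q, -, rfl⟩ := IsFractionRing.div_surjective (A := K[X]) a
    rw [map_div₀, map_div₀, hψ, hψ]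
    exact congrArg₂ _ (g.commutes _) (g.commutes _)
  have hψι : ∀ a : F', ι (ψ a) ∈ (lm γ).fieldRange := by
    intro a
    obtain ⟨p, q, -, rfl⟩ := IsFractionRing.div_surjective (A := K[X]) a
    rw [map_div₀, map_div₀, hψ, hψ, hι, hι, ← lm_tM, ← lm_tM]
    exact div_mem ⟨_, rfl⟩ ⟨_, rfl⟩
  let T : Subfield E := Subfield.closure (Set.range ψ ∪ (S : Set E))
  have hTψ : ∀ a, ψ a ∈ T := fun a => Subfield.subset_closure (Or.inl ⟨a, rfl⟩)
  have hTS : ∀ z ∈ S, z ∈ T := fun z hz => Subfield.subset_closure (Or.inr hz)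
  have hTg : ∀ (g : E ≃ₐ[F] E), ∀ z ∈ T, g z ∈ T := by
    intro g
    have : T ≤ T.comap (g : E →+* E) := by
      refine Subfield.closure_le.2 ?_
      rintro z (⟨a, rfl⟩ | hz)
      · change g (ψ a) ∈ T
        rw [hψg]
        exact hTψ a
      · exact hTS _ (hS g z hz)
    exact fun z hz => this hz
  have hTι : ∀ z ∈ T, ι z ∈ (lm γ).range := by
    have : T ≤ ((lm γ).fieldRange).comap ι := by
      refine Subfield.closure_le.2 ?_
      rintro z (⟨a, rfl⟩ | hz)
      · exact hψι a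
      · exact hd z hz
    exact fun z hz => this hz
  obtain ⟨ι', hι'⟩ := mdl_factor (ι.comp T.subtype) (lm γ) fun z => hTι z z.2
  have hι'' : ∀ z : T, ι z = lm γ (ι' z) := hι'
  letI : Algebra F' T := (ψ.codRestrict T hTψ).toAlgebra
  have hal : ∀ a : F', ((algebraMap F' T a : T) : E) = ψ a := fun _ => rfl
  have hp : ∀ p, ι' (toF K[X] F' T p) = tL K p := by
    intro p
    apply lm_injective γ.injective
    rw [← hι'', lm_tM, ← hι, ← hψ]
    rfl
  letI : MulSemiringAction (E ≃ₐ[F] E) T :=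
    { smul := fun g z => ⟨g z, hTg g z z.2⟩
      one_smul := fun _ => rfl
      mul_smul := fun _ _ _ => rfl
      smul_zero := fun g => Subtype.ext (map_zero g)
      smul_add := fun g a b => Subtype.ext (map_add g a.1 b.1)
      smul_one := fun g => Subtype.ext (map_one g)
      smul_mul := fun g a b => Subtype.ext (map_mul g a.1 b.1) }
  have hsm : ∀ (g : E ≃ₐ[F] E) (z : T), ((g • z : T) : E) = g z := fun _ _ => rfl
  haveI : IsGaloisGroup (E ≃ₐ[F] E) F' T :=
    { faithful := ⟨fun {g g'} hg => by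
        have : g'⁻¹ * g = 1 := hf _ fun z hz => by
          have h1 : g z = g' z := congrArg Subtype.val (hg ⟨z, hTS z hz⟩)
          rw [AlgEquiv.mul_apply, h1, ← AlgEquiv.mul_apply, inv_mul_cancel, AlgEquiv.one_apply]
        exact (inv_mul_eq_one.1 this).symm⟩
      commutes := ⟨fun g a z => by
        apply Subtype.ext
        rw [Algebra.smul_def, Algebra.smul_def, hsm]
        change g (ψ a * z) = ψ a * g z
        rw [map_mul, hψg]⟩
      isInvariant := ⟨fun z hz => by
        have h1 : (z : E) ∈ (⊥ : IntermediateField F E) :=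
          (IsGalois.mem_bot_iff_fixed _).2 fun g => congrArg Subtype.val (hz g)
        obtain ⟨b, hb⟩ := IntermediateField.mem_bot.1 h1
        obtain ⟨p, q, hq, rfl⟩ := IsFractionRing.div_surjective (A := KK[X]) b
        have hq0 : q ≠ 0 := nonZeroDivisors.ne_zero hq
        have hq1 : toF KK[X] F E q ≠ 0 := fun h0 => hq0
          (((algebraMap F E).injective.comp (IsFractionRing.injective KK[X] F))
            (h0.trans (map_zero (toF KK[X] F E)).symm))
        have h2 : (z : E) * toF KK[X] F E q = toF KK[X] F E p := by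
          rw [← hb, map_div₀]
          exact div_mul_cancel₀ _ hq1
        have h3 : lm γ (ι' z) * tM 1 KK q = tM 1 KK p := by
          rw [← hι'', ← hι, ← hι, ← map_mul, h2]
        obtain ⟨p', q', hq', h4⟩ := frac_of_coeff γ one_pos (ι' z) p q hq0 h3
        have h5 : z * toF K[X] F' T q' = toF K[X] F' T p' := by
          apply ι'.injective
          rw [map_mul, hp, hp]
          exact h4
        have hq2 : toF K[X] F' T q' ≠ 0 := fun h0 => hq'
          (((algebraMap F' T).injective.comp (IsFractionRing.injective K[X] F'))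
            (h0.trans (map_zero (toF K[X] F' T)).symm))
        refine ⟨algebraMap K[X] F' p' / algebraMap K[X] F' q', ?_⟩
        rw [map_div₀]
        exact (eq_div_of_mul_eq hq2 h5).symm⟩ }
  refine ⟨T, inferInstance, inferInstance, IsGaloisGroup.finiteDimensional (E ≃ₐ[F] E) F' T,
    IsGaloisGroup.isGalois (E ≃ₐ[F] E) F' T, ⟨⟨T.subtype, ι',
      IsGaloisGroup.mulEquivAlgEquiv (E ≃ₐ[F] E) F' T, fun p => hψ p, hι'', hp, fun g z => ?_⟩⟩⟩
  rfl

variable {F'} {E' : Type} [Field E'] [Algebra F' E'] [FiniteDimensional F' E'] [IsGalois F' E']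

theorem Mdl.unr (m : Mdl K KK F' F E' E γ ι) {Θ : K[X]}
    (hu : UnrOff F (toF KK[X] F E) (Θ.map γ)) : UnrOff F' (toF K[X] F' E') Θ := by
  intro P₀ w h₀ hn hw
  have hm0 : P₀.map γ ≠ 0 := (Polynomial.map_ne_zero_iff γ.injective).2 h₀.ne_zero
  have hm1 : ¬IsUnit (P₀.map γ) := fun h => h₀.not_isUnit ((Polynomial.isUnit_map γ).1 h)
  obtain ⟨P, hPi, hd⟩ := WfDvdMonoid.exists_irreducible_factor hm1 hm0
  have hP : Prime P := hPi.prime
  obtain ⟨W, hW⟩ := exists_cen (A := KK[X]) (K := F) (E := E) hP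
  have hI : Ine F W = ⊥ := hu P W hP (fun h => hn ((mdl_dvd γ h₀ hP hd Θ).1 h)) hW
  have hc : Cen (toF K[X] F' E') (W.comap m.j) P₀ := by
    refine ⟨fun a => ?_, fun a => ?_⟩
    · rw [Valuation.comap_apply, m.hj]
      exact hW.1 _
    · rw [Valuation.comap_apply, m.hj, hW.2, mdl_dvd γ h₀ hP hd]
  have hPP : W (toF KK[X] F E P) = W (toF KK[X] F E (P₀.map γ)) := by
    obtain ⟨Q, hQ⟩ := hd
    have hsq : Squarefree (P₀.map γ) := (h₀.irreducible.separable.map (f := γ)).squarefree
    have hnd : ¬P ∣ Q := fun h => hP.not_isUnit (hsq P (hQ ▸ mul_dvd_mul_left P h))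
    rw [hQ, map_mul, map_mul, mdl_one hW hnd, mul_one]
  refine unr_of_one h₀ hw hc (zv_unr ?_ fun x => ?_)
  · have h1 : ((Nat.card (E' ≃ₐ[F'] E') : ℕ) : E') =
        toF K[X] F' E' (Polynomial.C (Nat.card (E' ≃ₐ[F'] E') : K)) := by simp
    rw [h1]
    refine mdl_one hc fun h => h₀.not_isUnit (isUnit_of_dvd_unit h ?_)
    exact Polynomial.isUnit_C.2 (Nat.cast_ne_zero.2 Nat.card_pos.ne').isUnit
  · obtain ⟨b, hb⟩ := zv_inv (K := F) W (m.j x) fun g hg => by
      rw [hI, Subgroup.mem_bot] at hg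
      rw [hg, AlgEquiv.one_apply]
    obtain ⟨p, q, hq, rfl⟩ := IsFractionRing.div_surjective (A := KK[X]) b
    by_cases hp : p = 0
    · refine ⟨0, ?_⟩
      rw [Valuation.comap_apply, hb, hp]
      simp
    obtain ⟨n, hn'⟩ := zcen_val hP hW hp
    obtain ⟨n', hn''⟩ := zcen_val hP hW (nonZeroDivisors.ne_zero hq)
    refine ⟨algebraMap K[X] F' (P₀ ^ n) / algebraMap K[X] F' (P₀ ^ n'), ?_⟩
    have e1 : ∀ k : ℕ, W (m.j (algebraMap F' E' (algebraMap K[X] F' (P₀ ^ k)))) =
        W (toF KK[X] F E P) ^ k := fun k => by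
      have := m.hj (P₀ ^ k)
      rw [RingHom.comp_apply] at this
      rw [this, Polynomial.map_pow, map_pow, map_pow, hPP]
    rw [Valuation.comap_apply, Valuation.comap_apply, hb, map_div₀, map_div₀, map_div₀, map_div₀,
      map_div₀, e1, e1, ← hn', ← hn'']
    rfl

theorem Mdl.dfd (m : Mdl K KK F' F E' E γ ι) {K₀ : Type} [Field K₀] (γ₀ : K₀ →+* K)
    (h : Dfd F' γ₀ m.ι') : Dfd F (γ.comp γ₀) ι := by
  obtain ⟨S, hS, hf, hd⟩ := h
  refine ⟨S.image m.j, fun g z hz => ?_, fun g hg => ?_, fun z hz => ?_⟩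
  · obtain ⟨y, hy, rfl⟩ := Finset.mem_image.1 hz
    exact Finset.mem_image.2 ⟨m.r g y, hS _ y hy, m.hr g y⟩
  · have : m.r g = 1 := hf _ fun y hy =>
      m.j.injective ((m.hr g y).trans (hg _ (Finset.mem_image_of_mem _ hy)))
    exact m.r.injective (this.trans (map_one m.r).symm)
  · obtain ⟨y, hy, rfl⟩ := Finset.mem_image.1 hz
    obtain ⟨f, hf⟩ := hd y hy
    refine ⟨f, ?_⟩
    rw [m.hι, ← hf]
    ext k
    rfl

end

end Pool.Agent.ZCy
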