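import Pool.Agent.Lib.MP_751085_ag.ZC.Z.ZDefs

/-! Block Z: derivations of fields. -/

namespace Pool.Agent.ZCy

open scoped Classical WithZero Polynomial

set_option linter.unusedSectionVars false

theorem der1_ext {K S KK : Type} [Field K] [CharZero K] [CommRing S] [IsDomain S] [Field KK]
    [Algebra K S] [Algebra K KK] [Algebra S KK] [IsScalarTower K S KK] [FaithfulSMul S KK]
    [Algebra.IsAlgebraic S KK] (d0 : Derivation K S KK) :
    ∃ D : Derivation K KK KK, ∀ s, D (algebraMap S KK s) = d0 s := by
  let : Algebra (FractionRing S) KK := FractionRing.liftAlgebra S KK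
  have : IsScalarTower S (FractionRing S) KK := FractionRing.isScalarTower_liftAlgebra S KK
  have : CharZero S := charZero_of_injective_algebraMap (algebraMap K S).injective
  have : CharZero (FractionRing S) := IsFractionRing.charZero_of_isFractionRing S
  have : Algebra.IsAlgebraic (FractionRing S) KK :=
    (IsFractionRing.comap_isAlgebraic_iff (A := S) (K := FractionRing S) (C := KK)).mp inferInstance
  have h1 : Algebra.FormallyEtale S (FractionRing S) :=
    Algebra.FormallyEtale.of_isLocalization (nonZeroDivisors S)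
  have h2 : Algebra.FormallyEtale (FractionRing S) KK :=
    Algebra.FormallyEtale.of_isSeparable _ _
  have h3 : Algebra.FormallyEtale S KK := Algebra.FormallyEtale.comp S (FractionRing S) KK
  refine ⟨((d0.liftKaehlerDifferential.liftBaseChange KK) ∘ₗ
    (KaehlerDifferential.tensorKaehlerEquivOfFormallyEtale K S KK).symm.toLinearMap).compDer
      (KaehlerDifferential.D K KK), fun s => ?_⟩
  change (d0.liftKaehlerDifferential.liftBaseChange KK)
    ((KaehlerDifferential.tensorKaehlerEquivOfFormallyEtale K S KK).symm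
      (KaehlerDifferential.D K KK (algebraMap S KK s))) = d0 s
  rw [KaehlerDifferential.tensorKaehlerEquivOfFormallyEtale_symm_D_algebraMap,
    LinearMap.liftBaseChange_tmul, one_smul, Derivation.liftKaehlerDifferential_comp_D]

theorem der1_pow {E Ω : Type} [CommRing E] [CommRing Ω] (φ : E →+* Ω) (δ : E →+ Ω)
    (hδ : ∀ a b, δ (a * b) = φ a * δ b + φ b * δ a) (z : E) (n : ℕ) :
    δ (z ^ (n + 1)) = φ (((n : E) + 1) * z ^ n) * δ z := by
  induction n with
  | zero => simp
  | succ n ih =>
    rw [pow_succ, hδ, ih]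
    simp only [map_mul, map_pow, map_add, map_natCast, map_one, Nat.cast_add, Nat.cast_one]
    ring

theorem der1_mem {F E Ω : Type} [Field F] [Field E] [Field Ω] [Algebra F E]
    [Algebra.IsSeparable F E] (φ : E →+* Ω) (δ : E →+ Ω)
    (hδ : ∀ a b, δ (a * b) = φ a * δ b + φ b * δ a) (S : AddSubgroup Ω)
    (hS : ∀ e x, x ∈ S → φ e * x ∈ S) (h : ∀ a : F, δ (algebraMap F E a) ∈ S) (z : E) :
    δ z ∈ S := by
  have key : ∀ p : F[X], δ (Polynomial.aeval z p) -
      φ (Polynomial.aeval z (Polynomial.derivative p)) * δ z ∈ S := by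
    intro p
    induction p using Polynomial.induction_on with
    | C a => simpa using h a
    | add p q hp hq =>
      have := S.add_mem hp hq
      simp only [map_add] at this ⊢
      have e : δ (Polynomial.aeval z p) + δ (Polynomial.aeval z q) -
          (φ (Polynomial.aeval z (Polynomial.derivative p)) +
            φ (Polynomial.aeval z (Polynomial.derivative q))) * δ z =
          δ (Polynomial.aeval z p) - φ (Polynomial.aeval z (Polynomial.derivative p)) * δ z +
          (δ (Polynomial.aeval z q) - φ (Polynomial.aeval z (Polynomial.derivative q)) * δ z) := by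
        ring
      rw [e]
      exact this
    | monomial n a _ =>
      have h1 := hS (z ^ (n + 1)) _ (h a)
      have e : δ (Polynomial.aeval z (Polynomial.C a * Polynomial.X ^ (n + 1))) -
          φ (Polynomial.aeval z (Polynomial.derivative (Polynomial.C a * Polynomial.X ^ (n + 1)))) *
            δ z = φ (z ^ (n + 1)) * δ (algebraMap F E a) := by
        rw [Polynomial.derivative_C_mul_X_pow]
        simp only [map_mul, Polynomial.aeval_C, map_pow, Polynomial.aeval_X]
        rw [hδ, der1_pow φ δ hδ]
        simp only [map_mul, map_pow, map_add, map_natCast, map_one, Nat.cast_add, Nat.cast_one,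
          Nat.add_sub_cancel]
        ring
      rw [e]
      exact h1
  have h1 := key (minpoly F z)
  have h2 : Polynomial.aeval z (Polynomial.derivative (minpoly F z)) ≠ 0 :=
    (Algebra.IsSeparable.isSeparable F z).aeval_derivative_ne_zero (minpoly.aeval F z)
  rw [minpoly.aeval, map_zero, zero_sub] at h1
  have h3 := hS (Polynomial.aeval z (Polynomial.derivative (minpoly F z)))⁻¹ _ (S.neg_mem h1)
  rw [neg_neg, ← mul_assoc, ← map_mul, inv_mul_cancel₀ h2, map_one, one_mul] at h3
  exact h3

theorem der1_frac {A F E Ω : Type} [CommRing A] [Field F] [Field E] [Field Ω]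
    [Algebra A F] [IsFractionRing A F] [Algebra F E] (ι : E →+* Ω)
    (d : Ω →+ Ω) (hd : Leib d) (h : ∀ a, ∃ b, d (ι (toF A F E a)) = ι (toF A F E b)) (c : F) :
    ∃ c' : F, d (ι (algebraMap F E c)) = ι (algebraMap F E c') := by
  obtain ⟨a, s, hs, rfl⟩ := IsFractionRing.div_surjective (A := A) c
  obtain ⟨a', ha⟩ := h a
  obtain ⟨s', hs'⟩ := h s
  have : Nontrivial A := (algebraMap A F).domain_nontrivial
  have hs0 : algebraMap A F s ≠ 0 := IsFractionRing.to_map_ne_zero_of_mem_nonZeroDivisors hs
  have hs1 : ι (algebraMap F E (algebraMap A F s)) ≠ 0 := by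
    rw [map_ne_zero, map_ne_zero]
    exact hs0
  have e : ι (toF A F E a) =
      ι (toF A F E s) * ι (algebraMap F E (algebraMap A F a / algebraMap A F s)) := by
    simp only [RingHom.comp_apply]
    rw [← map_mul, ← map_mul, mul_div_cancel₀ _ hs0]
  rw [e, hd, hs'] at ha
  generalize algebraMap A F a / algebraMap A F s = c at ha ⊢
  refine ⟨(algebraMap A F a' - c * algebraMap A F s') / algebraMap A F s, ?_⟩
  simp only [RingHom.comp_apply] at ha
  rw [map_div₀, map_div₀, eq_div_iff hs1, map_sub, map_sub, map_mul, map_mul, ← ha]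
  ring

/-- an element killed by all derivations is algebraic -/
theorem isAlgebraic_of_der {K KK : Type} [Field K] [CharZero K] [Field KK] [Algebra K KK] (a : KK)
    (h : ∀ D : Derivation K KK KK, D a = 0) : IsAlgebraic K a := by
  by_contra hne
  have ht : AlgebraicIndepOn K id ({a} : Set KK) :=
    algebraicIndependent_unique_type_iff.mpr hne
  obtain ⟨t, hat, ht⟩ := exists_isTranscendenceBasis_superset ht
  have ha : a ∈ t := hat rfl
  let : Algebra (MvPolynomial t K) KK :=
    (MvPolynomial.aeval (Subtype.val : t → KK) : MvPolynomial t K →ₐ[K] KK).toRingHom.toAlgebra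
  have hal : ∀ p : MvPolynomial t K,
      algebraMap (MvPolynomial t K) KK p = MvPolynomial.aeval (Subtype.val : t → KK) p :=
    fun _ => rfl
  have : IsScalarTower K (MvPolynomial t K) KK :=
    .of_algebraMap_eq fun c => by rw [hal, AlgHom.commutes]
  have : FaithfulSMul (MvPolynomial t K) KK :=
    (faithfulSMul_iff_algebraMap_injective _ _).mpr ht.1
  have := ht.isAlgebraic
  have : Algebra.IsAlgebraic (MvPolynomial t K) KK :=
    Algebra.IsAlgebraic.ringHom_of_comp_eq ht.1.aevalEquiv.symm (RingHom.id KK)
      ht.1.aevalEquiv.symm.injective Function.surjective_id (by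
        refine RingHom.ext fun x => ?_
        obtain ⟨p, rfl⟩ := ht.1.aevalEquiv.surjective x
        change algebraMap (MvPolynomial t K) KK (ht.1.aevalEquiv.symm (ht.1.aevalEquiv p)) = _
        rw [AlgEquiv.symm_apply_apply]
        rfl)
  obtain ⟨D, hD⟩ := der1_ext (MvPolynomial.mkDerivation K (fun _ : t => (1 : KK)))
  have h1 := hD (MvPolynomial.X ⟨a, ha⟩)
  rw [hal, MvPolynomial.aeval_X, MvPolynomial.mkDerivation_X, h] at h1
  exact zero_ne_one h1

/-- a derivation restricts to a separable extension of a stable subfield -/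
theorem exists_der_restrict {A F E Ω : Type} [CommRing A] [Field F] [Field E] [Field Ω]
    [Algebra A F] [IsFractionRing A F] [Algebra F E] [Algebra.IsSeparable F E] (ι : E →+* Ω)
    (d : Ω →+ Ω) (hd : Leib d) (h : ∀ a, ∃ b, d (ι (toF A F E a)) = ι (toF A F E b)) :
    ∃ d' : E →+ E, Leib d' ∧ (∀ z, ι (d' z) = d (ι z)) ∧
      ∀ (g : E ≃ₐ[F] E) (z : E), d' (g z) = g (d' z) := by
  have hr : ∀ z, ∃ y, ι y = d (ι z) := by
    intro z
    refine der1_mem (F := F) ι (d.comp ι.toAddMonoidHom) (fun a b => ?_)
      ι.toAddMonoidHom.range (fun e x hx => ?_) (fun c => ?_) z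
    · change d (ι (a * b)) = ι a * d (ι b) + ι b * d (ι a)
      rw [map_mul, hd]
    · obtain ⟨y, rfl⟩ := hx
      exact ⟨e * y, map_mul ι e y⟩
    · obtain ⟨c', hc⟩ := der1_frac ι d hd h c
      exact ⟨algebraMap F E c', hc.symm⟩
  choose f hf using hr
  let d' : E →+ E := AddMonoidHom.mk' f fun a b => ι.injective (by
    rw [map_add, hf, hf, hf, map_add, map_add])
  have hd' : ∀ z, ι (d' z) = d (ι z) := hf
  have hL : Leib d' := fun a b => ι.injective (by
    rw [hd', map_add ι, map_mul ι, map_mul ι, map_mul ι, hd', hd', hd])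
  refine ⟨d', hL, hd', fun g z => ?_⟩
  let φ : E →+* E := g
  have hφ : ∀ x, φ x = g x := fun _ => rfl
  let δ : E →+ E := d'.comp φ.toAddMonoidHom - φ.toAddMonoidHom.comp d'
  have hδ : ∀ x, δ x = d' (g x) - g (d' x) := fun _ => rfl
  have := der1_mem (F := F) φ δ (fun a b => by
      rw [hδ, hδ, hδ, hφ, hφ, map_mul, hL, hL, map_add, map_mul, map_mul]
      ring) ⊥ (fun e x hx => by
      rw [AddSubgroup.mem_bot] at hx ⊢
      rw [hx, mul_zero]) (fun c => by
      obtain ⟨c', hc⟩ := der1_frac ι d hd h c
      have e : d' (algebraMap F E c) = algebraMap F E c' := ι.injective (by rw [hd', hc])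
      rw [AddSubgroup.mem_bot, hδ, g.commutes, e, g.commutes, sub_self]) z
  rw [AddSubgroup.mem_bot, hδ, sub_eq_zero] at this
  exact this

end Pool.Agent.ZCy
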