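import Pool.Agent.Lib.MP_751085_ag.ZC.Z.Bas

/-! Block Z: a derivation that fixes the branch points preserves integrality. -/

namespace Pool.Agent.ZCy

open scoped Classical WithZero Polynomial

set_option linter.unusedSectionVars false

section

variable {KK E : Type} [Field KK] [Field E] {w : Vl E} {d : E →+ E}

theorem log_mul_le {x y : E} {g : ℤᵐ⁰} (hx : w x ≤ 1) (hy : w y ≤ g) : w (x * y) ≤ g := by
  rw [map_mul]
  exact (mul_le_mul' hx hy).trans_eq (one_mul g)

theorem log_lt {x : ℤᵐ⁰} {n : ℤ} (h : x < WithZero.exp n) : x ≤ WithZero.exp (n - 1) := by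
  rwa [← WithZero.lt_mul_exp_iff_le WithZero.exp_ne_zero, ← WithZero.exp_add, sub_add_cancel]

theorem log_pow (hd : Leib d) (x : E) (n : ℕ) : d (x ^ n) = n * x ^ (n - 1) * d x := by
  induction n with
  | zero =>
    have := hd 1 1
    rw [one_mul, one_mul, left_eq_add] at this
    rw [pow_zero, this, Nat.cast_zero, zero_mul, zero_mul]
  | succ n ih =>
    rw [pow_succ, hd, ih]
    cases n with
    | zero => simp
    | succ n =>
      simp only [Nat.add_sub_cancel, Nat.cast_add, Nat.cast_one]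
      ring

theorem log_ev (c : KK →+* E) (hc : ∀ a, w (c a) ≤ 1) {x : E} (hx : w x ≤ 1) (Q : KK[X]) :
    w (Q.eval₂ c x) ≤ 1 := by
  rw [Polynomial.eval₂_eq_sum_range]
  exact w.map_sum_le fun i _ => log_mul_le (hc _) (by rw [map_pow]; exact pow_le_one' hx _)

theorem log_chain (c : KK →+* E) (hd : Leib d) (hdc : ∀ a, w (d (c a)) ≤ 1) {x : E} (hx : w x ≤ 1)
    (Q : KK[X]) : w (d (Q.eval₂ c x) - Q.derivative.eval₂ c x * d x) ≤ 1 := by
  induction Q using Polynomial.induction_on' with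
  | add p q hp hq =>
    rw [map_add, Polynomial.eval₂_add, Polynomial.eval₂_add, map_add, add_mul, add_sub_add_comm]
    exact w.map_add_le hp hq
  | monomial n a =>
    rw [Polynomial.derivative_monomial, Polynomial.eval₂_monomial, Polynomial.eval₂_monomial, hd,
      log_pow hd, map_mul, map_natCast, show ∀ u v s t r : E,
        u * (v * s * t) + r - u * v * s * t = r from fun _ _ _ _ _ => by ring]
    exact log_mul_le (by rw [map_pow]; exact pow_le_one' hx _) (hdc a)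

theorem log_desc (c : KK →+* E) (hd : Leib d) (hc : ∀ a, w (c a) ≤ 1) (hdc : ∀ a, w (d (c a)) ≤ 1)
    (ha : ∀ x, w x ≤ 1 → ∃ Q : KK[X], Q.Separable ∧ w (Q.eval₂ c x) < 1)
    (hb : ∃ n : ℤ, ∀ x, w x ≤ 1 → w (d x) ≤ WithZero.exp n) {π : E}
    (hπ : w π = WithZero.exp (-1)) {m : ℤ} (hm : 0 ≤ m) (h : w (d π) ≤ WithZero.exp m) :
    ∀ x, w x ≤ 1 → w (d x) ≤ WithZero.exp m := by
  obtain ⟨n, hn⟩ := hb
  have h0 : π ≠ 0 := (map_ne_zero w).1 (hπ.trans_ne WithZero.exp_ne_zero)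
  have key : ∀ k : ℕ, (∀ x, w x ≤ 1 → w (d x) ≤ WithZero.exp (m + k)) →
      ∀ x, w x ≤ 1 → w (d x) ≤ WithZero.exp m := fun k => by
    induction k with
    | zero => simp
    | succ k ih =>
      refine fun H => ih fun x hx => ?_
      obtain ⟨Q, ⟨a, b, e⟩, hQ⟩ := ha x hx
      have e1 : w (Q.derivative.eval₂ c x) = 1 := by
        refine le_antisymm (log_ev c hc hx _) (not_lt.1 fun hl => ?_)
        have := congrArg (fun p => w (Polynomial.eval₂ c x p)) e
        simp only [Polynomial.eval₂_add, Polynomial.eval₂_mul, Polynomial.eval₂_one,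
          map_one] at this
        refine (w.map_add_lt ?_ ?_).ne this
        · exact (log_mul_le (log_ev c hc hx a) le_rfl).trans_lt hQ
        · exact (log_mul_le (log_ev c hc hx b) le_rfl).trans_lt hl
      have e2 : w (Q.eval₂ c x / π) ≤ 1 := by
        rw [map_div₀, hπ]
        exact div_le_one_of_le₀ (by simpa using log_lt (n := 0) hQ) zero_le
      have e3 : w (d (Q.eval₂ c x)) ≤ WithZero.exp (m + k) := by
        rw [← mul_div_cancel₀ (Q.eval₂ c x) h0, hd]
        refine w.map_add_le ?_ (log_mul_le e2 (h.trans (WithZero.exp_le_exp.2 (by omega))))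
        rw [map_mul, hπ]
        refine (mul_le_mul' le_rfl (H _ e2)).trans_eq ?_
        rw [← WithZero.exp_add]
        congr 1
        omega
      have e4 := w.map_sub_le e3 ((log_chain c hd hdc hx Q).trans
        (WithZero.exp_le_exp.2 (show (0 : ℤ) ≤ m + k by omega)))
      rwa [sub_sub_cancel, map_mul, e1, one_mul] at e4
  exact key (n - m).toNat fun x hx => (hn x hx).trans (WithZero.exp_le_exp.2 (by omega))

end

/-- the local statement -/
theorem der_le_one {KK E : Type} [Field KK] [CharZero KK] [Field E] (c : KK →+* E) (w : Vl E)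
    (hw : Nrm w) (d : E →+ E) (hd : Leib d) (hc : ∀ a, w (c a) ≤ 1) (hdc : ∀ a, w (d (c a)) ≤ 1)
    (ha : ∀ x, w x ≤ 1 → ∃ Q : KK[X], Q.Separable ∧ w (Q.eval₂ c x) < 1)
    (hb : ∃ n : ℤ, ∀ x, w x ≤ 1 → w (d x) ≤ WithZero.exp n) {π : E} (h0 : π ≠ 0) (hπ : w π < 1)
    (h : d π = 0 ∨ (w π = WithZero.exp (-1) ∧ w (d π) ≤ 1)) (x : E) (hx : w x ≤ 1) :
    w (d x) ≤ 1 := by
  rcases h with h | h
  swap
  · exact log_desc c hd hc hdc ha hb h.1 le_rfl h.2 x hx
  obtain ⟨ϖ, hϖ⟩ := hw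
  refine log_desc c hd hc hdc ha hb hϖ le_rfl (not_lt.1 fun hl => ?_) x hx
  have l0 : w (d ϖ) ≠ 0 := (WithZero.exp_pos.trans hl).ne'
  have H := log_desc c hd hc hdc ha hb hϖ (WithZero.lt_log_of_exp_lt hl).le WithZero.le_exp_log
  rw [WithZero.exp_log l0] at H
  have ϖ0 : ϖ ≠ 0 := (map_ne_zero w).1 (hϖ.trans_ne WithZero.exp_ne_zero)
  have w0 : w π ≠ 0 := (map_ne_zero w).2 h0
  obtain ⟨e, he⟩ : ∃ e : ℕ, WithZero.log (w π) = -(e + 1 : ℕ) :=
    ⟨(-WithZero.log (w π) - 1).toNat, by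
      have := (WithZero.log_lt_iff_lt_exp (a := 0) w0).2 hπ
      omega⟩
  obtain ⟨ε, rfl⟩ : ∃ ε, π = ϖ ^ (e + 1) * ε :=
    ⟨π / ϖ ^ (e + 1), (mul_div_cancel₀ _ (pow_ne_zero _ ϖ0)).symm⟩
  have hε : w ε = 1 := by
    have := congrArg WithZero.exp he
    rw [WithZero.exp_log w0, map_mul, map_pow, hϖ, ← WithZero.exp_nsmul, nsmul_eq_mul, mul_neg,
      mul_one] at this
    exact mul_left_cancel₀ WithZero.exp_ne_zero (this.trans (mul_one _).symm)
  have hn : w ((e + 1 : ℕ) : E) = 1 := by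
    rw [← map_natCast c]
    refine le_antisymm (hc _) ?_
    have := log_mul_le (hc ((e + 1 : ℕ) : KK)⁻¹) (le_refl (w (c (e + 1 : ℕ))))
    rwa [← map_mul, inv_mul_cancel₀ (Nat.cast_ne_zero.2 e.succ_ne_zero), map_one, map_one] at this
  rw [hd, log_pow hd, Nat.add_sub_cancel, pow_succ, show ∀ u v s t r y : E,
    u * v * s + t * (r * u * y) = u * (v * s + t * r * y) from fun _ _ _ _ _ _ => by ring,
    mul_eq_zero, or_iff_right (pow_ne_zero _ ϖ0), add_eq_zero_iff_eq_neg] at h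
  have := congrArg w h
  rw [w.map_neg, map_mul, map_mul, map_mul, hε, hn, one_mul, one_mul, hϖ] at this
  have h2 : w (d ϖ) ≤ WithZero.exp (-1) * w (d ϖ) := this.ge.trans (mul_le_mul' le_rfl (H ε hε.le))
  rw [le_mul_iff_one_le_left (zero_lt_iff.2 l0), ← WithZero.exp_zero, WithZero.exp_le_exp] at h2
  omega

/-- residue classes are algebraic over the constants -/
theorem log_res {KK E : Type} [Field KK] [CharZero KK] [Field E] {φ : KK[X] →+* E} {w : Vl E}
    {P : KK[X]} (hP : P ≠ 0) (hc : Cen φ w P) {x b s : E} (hx : w x ≤ 1)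
    (hb : φ.IsIntegralElem b) (hs : φ.IsIntegralElem s) (h1 : w s = 1) (e : x * s = b) :
    ∃ Q : KK[X], Q.Separable ∧ w (Q.eval₂ (φ.comp Polynomial.C) x) < 1 := by
  let O := w.valuationSubring
  let ρ := IsLocalRing.residue O
  have hρ : ∀ y : O, ρ y = 0 ↔ w y < 1 := fun y =>
    (IsLocalRing.residue_eq_zero_iff y).trans (Valuation.mem_maximalIdeal_iff _ w)
  let φ' : KK[X] →+* O := φ.codRestrict O hc.1
  let ψ := ρ.comp φ'
  let _ := (ψ.comp Polynomial.C).toAlgebra
  have ev : ∀ p, Polynomial.aeval (ψ Polynomial.X) p = ψ p := fun p => by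
    rw [Polynomial.aeval_def, RingHom.algebraMap_toAlgebra, ← Polynomial.hom_eval₂,
      Polynomial.eval₂_C_X]
  have iX : IsIntegral KK (ψ Polynomial.X) :=
    IsAlgebraic.isIntegral ⟨P, hP, (ev P).trans ((hρ _).2 ((hc.2 P).2 dvd_rfl))⟩
  have ip : ∀ p, ψ p ∈ integralClosure KK (IsLocalRing.ResidueField O) := fun p =>
    adjoin_le_integralClosure iX (ev p ▸ Polynomial.aeval_mem_adjoin_singleton KK _)
  have ii : ∀ y : O, φ.IsIntegralElem y → IsIntegral KK (ρ y) := fun y hy => by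
    have a1 : φ'.IsIntegralElem y := .of_map (g := O.subtype) O.subtype_injective hy
    exact isIntegral_trans (A := integralClosure KK (IsLocalRing.ResidueField O)) _
      (RingHom.IsIntegralElem.of_comp (f := ψ.codRestrict _ ip) (a1.map ρ))
  have s0 : ρ ⟨s, h1.le⟩ ≠ 0 := fun h => ((hρ _).1 h).ne h1
  have ix : IsIntegral KK (ρ ⟨x, hx⟩) := by
    rw [← mul_inv_cancel_right₀ s0 (ρ ⟨x, hx⟩), ← map_mul]
    exact (ii _ (by subst e; exact hb)).mul (ii _ hs).inv
  refine ⟨minpoly KK (ρ ⟨x, hx⟩), (minpoly.irreducible ix).separable, ?_⟩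
  have := minpoly.aeval KK (ρ ⟨x, hx⟩)
  rw [Polynomial.aeval_def, RingHom.algebraMap_toAlgebra, RingHom.comp_assoc,
    ← Polynomial.hom_eval₂, hρ] at this
  exact (congrArg w (Polynomial.hom_eval₂ _ _ O.subtype _)).symm.trans_lt this

theorem der_integral {KK F E : Type} [Field KK] [CharZero KK] [Field F] [Field E]
    [Algebra KK[X] F] [IsFractionRing KK[X] F] [Algebra F E] [FiniteDimensional F E] [IsGalois F E]
    (d : E →+ E) (hd : Leib d) (D : KK → KK)
    (h : ∀ p : KK[X], ∃ q : KK[X], d (toF KK[X] F E p) = toF KK[X] F E q ∧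
      ∀ i, q.coeff i = D (p.coeff i)) (h1 : D 1 = 0) (h0 : D 0 = 0) {Θ : KK[X]} (hs : Θ.Separable)
    (hΘ : ∀ i, D (Θ.coeff i) = 0) (hu : UnrOff F (toF KK[X] F E) Θ) (z : E)
    (hz : (toF KK[X] F E).IsIntegralElem z) : (toF KK[X] F E).IsIntegralElem (d z) := by
  have inj : Function.Injective (toF KK[X] F E) :=
    (algebraMap F E).injective.comp (IsFractionRing.injective KK[X] F)
  refine zv_int _ fun P₀ w₀ hP₀ hc₀ => ?_
  obtain ⟨w, hw, eqv⟩ := zv_nrm w₀
    ⟨_, (map_ne_zero_iff _ inj).2 hP₀.ne_zero, ((hc₀.2 P₀).2 dvd_rfl).ne⟩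
  obtain ⟨P, hP, hm, hc⟩ : ∃ P : KK[X], Prime P ∧ P.Monic ∧ Cen (toF KK[X] F E) w P :=
    ⟨normalize P₀, (associated_normalize P₀).prime hP₀, Polynomial.monic_normalize hP₀.ne_zero,
      fun a => eqv.le_one_iff_le_one.1 (hc₀.1 a), fun a =>
        eqv.lt_one_iff_lt_one.symm.trans ((hc₀.2 a).trans normalize_dvd_iff.symm)⟩
  have hd1 : ∀ p, w (d (toF KK[X] F E p)) ≤ 1 := fun p => by
    obtain ⟨q, hq, -⟩ := h p
    exact hq ▸ hc.1 q
  have P0 := (map_ne_zero_iff _ inj).2 hP.ne_zero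
  have P1 := (hc.2 P).2 dvd_rfl
  refine eqv.le_one_iff_le_one.2 (der_le_one ((toF KK[X] F E).comp Polynomial.C) w hw d hd
    (fun a => hc.1 _) (fun a => hd1 _) (fun x hx => ?_) ?_ P0 P1 ?_ z (le_one_of_integral hc.1 hz))
  · obtain ⟨b, s, hb, hs, h1, e⟩ := zv_loc hP hc x hx
    exact log_res hP.ne_zero hc hx hb hs h1 e
  · obtain ⟨e, e1, e2, -⟩ := exists_int_basis (κ := KK) (F := F) (E := E)
    obtain ⟨n, hn⟩ := Finite.bddAbove_range fun i => WithZero.log (w (d (e i)))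
    have key : ∀ b, (toF KK[X] F E).IsIntegralElem b → w (d b) ≤ WithZero.exp (max n 0) := by
      intro b hb
      obtain ⟨c, rfl⟩ := e2 b hb
      rw [map_sum]
      refine w.map_sum_le fun i _ => ?_
      rw [hd]
      exact w.map_add_le (log_mul_le (hc.1 _)
        (WithZero.le_exp_of_log_le ((hn ⟨i, rfl⟩).trans (le_max_left _ _))))
        (log_mul_le (le_one_of_integral hc.1 (e1 i))
          ((hd1 _).trans (WithZero.exp_le_exp.2 (le_max_right n 0))))
    refine ⟨max n 0, fun x hx => ?_⟩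
    obtain ⟨b, s, hb, hs, h1, rfl⟩ := zv_loc hP hc x hx
    have := w.map_sub_le (key _ hb) (log_mul_le hx (key s hs))
    rwa [hd, add_sub_cancel_left, map_mul, h1, one_mul] at this
  by_cases hv : P ∣ Θ
  · obtain ⟨R, rfl⟩ := hv
    obtain ⟨q, hq, cq⟩ := h (P * R)
    obtain ⟨a, ha, ca⟩ := h P
    obtain ⟨b, hb, -⟩ := h R
    have q0 : q = 0 := Polynomial.ext fun i => (cq i).trans (hΘ i)
    rw [map_mul, hd, ha, hb, ← map_mul, ← map_mul, ← map_add, q0] at hq
    have d1 : P ∣ R * a := ⟨-b, by linear_combination inj hq⟩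
    have d2 : P ∣ a := (hP.dvd_or_dvd d1).resolve_left fun hR =>
      hP.not_isUnit (hs.squarefree P (mul_dvd_mul_left P hR))
    refine Or.inl ?_
    rw [ha, Polynomial.eq_zero_of_dvd_of_degree_lt d2, map_zero]
    rw [Polynomial.degree_eq_natDegree hP.ne_zero, Polynomial.degree_lt_iff_coeff_zero]
    intro m hm'
    rw [ca]
    rcases hm'.eq_or_lt with rfl | hl
    · rw [hm.coeff_natDegree, h1]
    · rw [Polynomial.coeff_eq_zero_of_natDegree_lt hl, h0]
  · refine Or.inr ⟨?_, hd1 P⟩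
    obtain ⟨ϖ, hϖ⟩ := hw
    obtain ⟨a, ha⟩ := zv_inv (K := F) w ϖ fun g hg => by
      rw [hu P w hP hv hc, Subgroup.mem_bot] at hg
      rw [hg, AlgEquiv.one_apply]
    obtain ⟨r, s, hs0, rfl⟩ := IsFractionRing.div_surjective (A := KK[X]) a
    have r0 : r ≠ 0 := by
      rintro rfl
      rw [hϖ, map_zero, zero_div, map_zero, map_zero] at ha
      exact WithZero.exp_ne_zero ha
    obtain ⟨m, hr⟩ := zcen_val hP hc r0
    obtain ⟨n, hn⟩ := zcen_val hP hc (nonZeroDivisors.ne_zero hs0)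
    have w0 := (map_ne_zero w).2 P0
    have l1 := (WithZero.log_lt_iff_lt_exp (a := 0) w0).2 P1
    rw [hϖ, map_div₀, map_div₀] at ha
    have := ha.trans (congrArg₂ (· / ·) hr hn)
    rw [← WithZero.exp_log w0, ← WithZero.exp_nsmul, ← WithZero.exp_nsmul, ← WithZero.exp_sub,
      WithZero.exp_inj, nsmul_eq_mul, nsmul_eq_mul] at this
    have e := Int.eq_one_or_neg_one_of_mul_eq_one (u := WithZero.log (w (toF KK[X] F E P)))
      (v := n - m) (by linear_combination this)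
    rw [← e.resolve_left (by omega), WithZero.exp_log w0]

end Pool.Agent.ZCy
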