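import Pool.Agent.Lib.MP_751085_ag.ZC.Z.Bas
import Pool.Agent.Lib.MP_751085_ag.ZC.Z.Sec1

/-! Block Z: spaces of integral elements, fields of coefficients. -/

namespace Pool.Agent.ZCy

open scoped Classical WithZero Polynomial

set_option linter.unusedSectionVars false

theorem rig1_coeff_mem {R J : Type} [CommRing R] (S : Subring R) (s : Finset J) (a : J → R)
    (h : ∀ i, a i ∈ S) (n : ℕ) :
    (∏ i ∈ s, (Polynomial.X - Polynomial.C (a i))).coeff n ∈ S := by
  have e : ∏ i ∈ s, (Polynomial.X - Polynomial.C (a i)) =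
      (∏ i ∈ s, (Polynomial.X - Polynomial.C (⟨a i, h i⟩ : S))).map S.subtype := by
    rw [Polynomial.map_prod]
    refine Finset.prod_congr rfl fun i _ => ?_
    simp
  rw [e, Polynomial.coeff_map]
  exact SetLike.coe_mem _

theorem rig1_pole_sum {R J : Type} [CommRing R] {m : ℕ} (s : Finset J) (f : J → Ls R)
    (h : ∀ i, Pole m (f i)) : Pole m (∑ i ∈ s, f i) := by
  induction s using Finset.induction_on with
  | empty => intro j _; simp
  | insert i s hi ih => rw [Finset.sum_insert hi]; exact (h i).add ih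

theorem rig1_tL_C {R : Type} [CommRing R] (c : R) : tL R (Polynomial.C c) = HahnSeries.C c := by
  simp [tM]

theorem rig1_int_gal {A F E : Type} [CommRing A] [Field F] [Field E] [Algebra A F] [Algebra F E]
    {z : E} (hz : (toF A F E).IsIntegralElem z) (g : E ≃ₐ[F] E) :
    (toF A F E).IsIntegralElem (g z) := by
  obtain ⟨p, hp, h⟩ := hz
  refine ⟨p, hp, ?_⟩
  have e : (g : E →+* E).comp (toF A F E) = toF A F E := by
    ext a
    exact g.commutes _
  have := Polynomial.hom_eval₂ p (toF A F E) (g : E →+* E) z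
  rw [h, map_zero, e] at this
  exact this.symm

section

variable {K KK F E : Type} [Field K] [CharZero K] [Field KK] [Field F] [Field E] [Algebra K KK]
  [Algebra KK[X] F] [IsFractionRing KK[X] F] [Algebra F E] [FiniteDimensional F E] [IsGalois F E]

/-- integral elements with poles of bounded order -/
theorem exists_space (ι : E →+* Ls KK) (hι : ∀ p, ι (toF KK[X] F E p) = tL KK p) (m : ℕ) :
    ∃ V : Submodule KK (Ls KK), FiniteDimensional KK V ∧ ∀ x, x ∈ V ↔ ∃ z, ι z = x ∧
      (toF KK[X] F E).IsIntegralElem z ∧ ∀ g : E ≃ₐ[F] E, Pole m (ι (g z)) := by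
  have hC : ∀ (c : KK) (y : E), ι (toF KK[X] F E (Polynomial.C c) * y) = c • ι y := by
    intro c y
    rw [map_mul, hι, rig1_tL_C, HahnSeries.C_mul_eq_smul]
  have hg : ∀ (g : E ≃ₐ[F] E) (p : KK[X]) (y : E),
      g (toF KK[X] F E p * y) = toF KK[X] F E p * g y := by
    intro g p y
    rw [map_mul]
    congr 1
    exact g.commutes _
  let V : Submodule KK (Ls KK) :=
    { carrier := {x | ∃ z, ι z = x ∧ (toF KK[X] F E).IsIntegralElem z ∧
        ∀ g : E ≃ₐ[F] E, Pole m (ι (g z))}
      add_mem' := by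
        rintro _ _ ⟨z, rfl, h1, h2⟩ ⟨z', rfl, h1', h2'⟩
        refine ⟨z + z', map_add _ _ _, h1.add _ h1', fun g => ?_⟩
        rw [map_add, map_add]
        exact (h2 g).add (h2' g)
      zero_mem' := by
        refine ⟨0, map_zero _, RingHom.isIntegralElem_zero _, fun g j _ => ?_⟩
        simp
      smul_mem' := by
        rintro c _ ⟨z, rfl, h1, h2⟩
        refine ⟨toF KK[X] F E (Polynomial.C c) * z, hC c z,
          (RingHom.isIntegralElem_map _).mul _ h1, fun g j hj => ?_⟩
        rw [hg, hC, HahnSeries.coeff_smul, h2 g j hj, smul_zero] }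
  refine ⟨V, ?_, fun _ => Iff.rfl⟩
  obtain ⟨e, -, he, hd⟩ := exists_int_basis (κ := KK) (F := F) (E := E)
  set M : Matrix (E ≃ₐ[F] E) (E ≃ₐ[F] E) (Ls KK) :=
    ι.mapMatrix (Matrix.of fun g i : E ≃ₐ[F] E => g (e i)) with hM
  have hdet : IsUnit M.det := by
    rw [hM, ← RingHom.map_det]
    exact (IsUnit.mk0 _ hd).map ι
  choose n hn using fun x : (E ≃ₐ[F] E) × (E ≃ₐ[F] E) => exists_pole (M⁻¹ x.1 x.2)
  set m' := Finset.univ.sup n with hm'
  have hn' : ∀ i g, Pole m' (M⁻¹ i g) := fun i g =>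
    (hn (i, g)).mono (Finset.le_sup (f := n) (Finset.mem_univ (i, g)))
  let b : (E ≃ₐ[F] E) × Fin (m' + m + 1) → Ls KK := fun x =>
    tL KK (Polynomial.X ^ (x.2 : ℕ)) * ι (e x.1)
  have : FiniteDimensional KK (Submodule.span KK (Set.range b)) :=
    FiniteDimensional.span_of_finite KK (Set.finite_range b)
  refine Submodule.finiteDimensional_of_le (S₂ := Submodule.span KK (Set.range b)) ?_
  rintro _ ⟨z, rfl, h1, h2⟩
  obtain ⟨c, hc⟩ := he z h1
  have e1 : M.mulVec (fun i => tL KK (c i)) = fun g => ι (g z) := by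
    funext g
    rw [hc, map_sum, map_sum]
    refine Finset.sum_congr rfl fun i _ => ?_
    rw [hg, map_mul, hι, mul_comm]
    rfl
  have e2 : (fun i => tL KK (c i)) = M⁻¹.mulVec fun g => ι (g z) := by
    rw [← e1, Matrix.mulVec_mulVec, Matrix.nonsing_inv_mul _ hdet, Matrix.one_mulVec]
  have e3 : ∀ i, (c i).natDegree ≤ m' + m := by
    intro i
    rw [← pole_tL, congrFun e2 i]
    exact rig1_pole_sum _ _ fun g => (hn' i g).mul (h2 g)
  rw [hc, map_sum]
  refine Submodule.sum_mem _ fun i _ => ?_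
  rw [map_mul, hι, (c i).as_sum_range_C_mul_X_pow' (Nat.lt_succ_of_le (e3 i)), map_sum,
    Finset.sum_mul]
  refine Submodule.sum_mem _ fun k hk => ?_
  rw [map_mul, rig1_tL_C, mul_assoc, HahnSeries.C_mul_eq_smul]
  exact Submodule.smul_mem _ _
    (Submodule.subset_span ⟨(i, ⟨k, Finset.mem_range.1 hk⟩), rfl⟩)

theorem coeff_finite (ι : E →+* Ls KK) (hι : ∀ p, ι (toF KK[X] F E p) = tL KK p) (z : E)
    (hz : (toF KK[X] F E).IsIntegralElem z)
    (h : ∀ (g' : E ≃ₐ[F] E) (j : ℤ), IsAlgebraic K ((ι (g' z)).coeff j)) :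
    ∃ L : IntermediateField K KK, FiniteDimensional K L ∧ ∀ j, (ι z).coeff j ∈ L := by
  set P : E[X] := ∏ g : E ≃ₐ[F] E, (Polynomial.X - Polynomial.C (g z)) with hP
  have hinv : ∀ (g : E ≃ₐ[F] E) n, g (P.coeff n) = P.coeff n := by
    intro g n
    have e : P.map (g : E →+* E) = P := by
      rw [hP, Polynomial.map_prod]
      refine Fintype.prod_equiv (Equiv.mulLeft g) _ _ fun g' => ?_
      simp
    conv_rhs => rw [← e]
    rw [Polynomial.coeff_map]
    rfl
  have hint : ∀ n, (toF KK[X] F E).IsIntegralElem (P.coeff n) := by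
    intro n
    let _ := (toF KK[X] F E).toAlgebra
    exact rig1_coeff_mem (integralClosure KK[X] E).toSubring _ _
      (fun g => rig1_int_gal hz g) n
  choose p hp using fun n => invariant_int (P.coeff n) (hint n) fun g => hinv g n
  have hmap : P.map ι = ∏ g : E ≃ₐ[F] E, (Polynomial.X - Polynomial.C (ι (g z))) := by
    rw [hP, Polynomial.map_prod]
    refine Finset.prod_congr rfl fun g _ => ?_
    simp
  have hco : ∀ n, (P.map ι).coeff n = tL KK (p n) := fun n => by
    rw [Polynomial.coeff_map, ← hp, hι]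
  let φ : algebraicClosure K KK →+* KK := (algebraicClosure K KK).val.toRingHom
  have hφ : Function.Injective φ := φ.injective
  have halg : ∀ n k, IsAlgebraic K ((p n).coeff k) := by
    intro n k
    have h1 : (P.map ι).coeff n ∈ (lm φ).range := by
      rw [hmap]
      refine rig1_coeff_mem _ _ _ (fun g => (mem_lm_range hφ _).2 fun j => ?_) n
      exact ⟨⟨_, mem_algebraicClosure_iff.2 (h g j)⟩, rfl⟩
    rw [hco] at h1
    obtain ⟨y, hy⟩ := (mem_lm_range hφ _).1 h1 (-(k : ℤ))
    rw [tL_coeff] at hy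
    rw [← hy]
    exact mem_algebraicClosure_iff.1 y.2
  let _ := (lm (algebraMap K KK)).toAlgebra
  have hCi : ∀ a : KK, IsAlgebraic K a → IsIntegral (Ls K) (HahnSeries.C a : Ls KK) := by
    intro a ha
    obtain ⟨q, hq, hqa⟩ := ha.isIntegral
    refine ⟨q.map (HahnSeries.C : K →+* Ls K), hq.map _, ?_⟩
    have e : (algebraMap (Ls K) (Ls KK)).comp (HahnSeries.C : K →+* Ls K) =
        (HahnSeries.C : KK →+* Ls KK).comp (algebraMap K KK) := by
      refine RingHom.ext fun x => ?_
      have := lm_tM (algebraMap K KK) 1 (Polynomial.C x)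
      rw [Polynomial.map_C] at this
      rw [RingHom.comp_apply, RingHom.comp_apply, ← rig1_tL_C, ← rig1_tL_C]
      exact this
    rw [Polynomial.eval₂_map, e, ← Polynomial.hom_eval₂, hqa, map_zero]
  have hXi : IsIntegral (Ls K) (tL KK Polynomial.X) := by
    have := lm_tM (algebraMap K KK) 1 Polynomial.X
    rw [Polynomial.map_X] at this
    rw [show tL KK Polynomial.X = algebraMap (Ls K) (Ls KK) (tL K Polynomial.X) from this.symm]
    exact isIntegral_algebraMap
  have hz' : IsIntegral (Ls K) (ι z) := by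
    refine IsIntegral.of_aeval_monic_of_isIntegral_coeff (p := P.map ι) ?_ ?_ ?_ fun n => ?_
    · rw [hmap]
      exact Polynomial.monic_prod_of_monic _ _ fun g _ => Polynomial.monic_X_sub_C _
    · rw [hmap, Polynomial.natDegree_finsetProd_X_sub_C_eq_card]
      exact Finset.card_ne_zero.2 Finset.univ_nonempty
    · have e : (P.map ι).eval (ι z) = 0 := by
        rw [hmap, Polynomial.eval_prod]
        exact Finset.prod_eq_zero (Finset.mem_univ 1) (by simp)
      rw [e]
      exact isIntegral_zero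
    · rw [hco, (p n).as_sum_range_C_mul_X_pow, map_sum]
      refine IsIntegral.sum _ fun k _ => ?_
      rw [map_mul, map_pow, rig1_tL_C]
      exact (hCi _ (halg n k)).mul (hXi.pow k)
  obtain ⟨μ, hμ, hμz⟩ := hz'
  exact fin_coeff (ι z) (h 1) μ hμ.ne_zero hμz

end

end Pool.Agent.ZCy
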