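import Pool.Agent.Lib.MP_751085_ag.ZC.Z.Der
import Pool.Agent.Lib.MP_751085_ag.ZC.Z.Der1
import Pool.Agent.Lib.MP_751085_ag.ZC.Z.Log
import Pool.Agent.Lib.MP_751085_ag.ZC.Z.Rig1

/-! Block Z: rigidity. -/

namespace Pool.Agent.ZCy

open scoped Classical WithZero Polynomial

set_option linter.unusedSectionVars false

section

variable {K KK F E : Type} [Field K] [CharZero K] [Field KK] [Field F] [Field E] [Algebra K KK]
  [Algebra KK[X] F] [IsFractionRing KK[X] F] [Algebra F E] [FiniteDimensional F E] [IsGalois F E]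

theorem rigid_der (ι : E →+* Ls KK) (hι : ∀ p, ι (toF KK[X] F E p) = tL KK p) (Th : K[X])
    (hs : Th.Separable) (hu : UnrOff F (toF KK[X] F E) (Th.map (algebraMap K KK)))
    (D : Derivation K KK KK) : ∃ d : E →+ E, (∀ z, ι (d z) = cD D (ι z)) ∧
      (∀ (g : E ≃ₐ[F] E) (z : E), d (g z) = g (d z)) ∧
      ∀ z, (toF KK[X] F E).IsIntegralElem z → (toF KK[X] F E).IsIntegralElem (d z) := by
  have : CharZero KK := charZero_of_injective_algebraMap (algebraMap K KK).injective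
  obtain ⟨d, h1, h2, h3⟩ := exists_der_restrict (A := KK[X]) (F := F) ι (cD D) (cD_leib D)
    fun p => by
      obtain ⟨q, hq, -⟩ := cD_tL D p
      exact ⟨q, by rw [hι, hι, hq]⟩
  refine ⟨d, h2, h3, der_integral d h1 D (fun p => ?_) D.map_one_eq_zero (map_zero D) hs.map
    (fun i => ?_) hu⟩
  · obtain ⟨q, hq, hq'⟩ := cD_tL D p
    exact ⟨q, ι.injective (by rw [h2, hι, hι, hq]), hq'⟩
  · rw [Polynomial.coeff_map, Derivation.map_algebraMap]

theorem rigid_int (g : E ≃ₐ[F] E) {z : E} (hz : (toF KK[X] F E).IsIntegralElem z) :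
    (toF KK[X] F E).IsIntegralElem (g z) := by
  obtain ⟨P, hm, hP⟩ := hz
  refine ⟨P, hm, ?_⟩
  have h1 : (g : E →+* E).comp (toF KK[X] F E) = toF KK[X] F E :=
    RingHom.ext fun a => g.commutes _
  have h2 := Polynomial.hom_eval₂ P (toF KK[X] F E) (g : E →+* E) z
  rw [hP, map_zero, h1] at h2
  exact h2.symm

theorem rigid (ι : E →+* Ls KK) (hι : ∀ p, ι (toF KK[X] F E p) = tL KK p) (Th : K[X])
    (hs : Th.Separable) (hu : UnrOff F (toF KK[X] F E) (Th.map (algebraMap K KK)))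
    (g : E ≃ₐ[F] E) (hg : g ≠ 1) : ∃ z, g z ≠ z ∧ (toF KK[X] F E).IsIntegralElem z ∧
      ∀ (g' : E ≃ₐ[F] E) (j : ℤ), IsAlgebraic K ((ι (g' z)).coeff j) := by
  obtain ⟨e, he, -, hdet⟩ := exists_int_basis (κ := KK) (F := F) (E := E)
  obtain ⟨i, hi⟩ : ∃ i, g (e i) ≠ e i := by
    by_contra hcon
    push Not at hcon
    exact hdet (Matrix.det_zero_of_row_eq hg (funext fun i => hcon i))
  choose m hm using fun g' : E ≃ₐ[F] E => exists_pole (ι (g' (e i)))
  obtain ⟨V, hV, hmem⟩ := exists_space ι hι (Finset.univ.sup m)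
  choose d hd1 hd2 hd3 using rigid_der ι hι Th hs hu
  have hst : ∀ D : Derivation K KK KK, ∀ x ∈ V, cD D x ∈ V := fun D x hx => by
    obtain ⟨z, rfl, hz, hp⟩ := (hmem x).1 hx
    refine (hmem _).2 ⟨d D z, hd1 D z, hd3 D z hz, fun g' j hj => ?_⟩
    rw [← hd2, hd1, cD_coeff, hp g' j hj, map_zero]
  by_contra hcon
  push Not at hcon
  let W : Submodule KK (Ls KK) :=
    { carrier := {x | ∃ z, ι z = x ∧ g z = z}
      zero_mem' := ⟨0, map_zero _, map_zero _⟩
      add_mem' := by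
        rintro _ _ ⟨a, rfl, ha⟩ ⟨b, rfl, hb⟩
        exact ⟨a + b, map_add _ _ _, by rw [map_add, ha, hb]⟩
      smul_mem' := by
        rintro c _ ⟨a, rfl, ha⟩
        refine ⟨toF KK[X] F E (Polynomial.C c) * a, ?_, ?_⟩
        · rw [map_mul, hι, tL, tM, Polynomial.coe_eval₂RingHom, Polynomial.eval₂_C,
            HahnSeries.C_mul_eq_smul]
        · rw [map_mul, ha]
          exact congrArg (· * a) (g.commutes _) }
  have h1 : V ≤ W := (le_span_const V hst).trans (Submodule.span_le.2 fun x hx => by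
    obtain ⟨z, rfl, hz, -⟩ := (hmem x).1 hx.1
    refine ⟨z, rfl, by_contra fun hne => ?_⟩
    obtain ⟨g', j, h⟩ := hcon z hne hz
    refine h (isAlgebraic_of_der _ fun D => ?_)
    have h2 : d D z = 0 := ι.injective (by rw [hd1, hx.2 D, map_zero])
    rw [← cD_coeff, ← hd1, hd2, h2, map_zero, map_zero, HahnSeries.coeff_zero])
  obtain ⟨z, hz, hz'⟩ := h1 ((hmem _).2 ⟨e i, rfl, he i, fun g' =>
    (hm g').mono (Finset.le_sup (Finset.mem_univ g'))⟩)
  rw [ι.injective hz] at hz'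
  exact hi hz'

theorem exists_dfd (ι : E →+* Ls KK) (hι : ∀ p, ι (toF KK[X] F E p) = tL KK p) (Th : K[X])
    (hs : Th.Separable) (hu : UnrOff F (toF KK[X] F E) (Th.map (algebraMap K KK))) :
    ∃ L : IntermediateField K KK, FiniteDimensional K L ∧ Dfd F (algebraMap L KK) ι := by
  choose z h1 h2 h3 using fun g : {g : E ≃ₐ[F] E // g ≠ 1} => rigid ι hι Th hs hu g.1 g.2
  choose L hL1 hL2 using fun p : {g : E ≃ₐ[F] E // g ≠ 1} × (E ≃ₐ[F] E) =>
    coeff_finite (K := K) ι hι (p.2 (z p.1)) (rigid_int p.2 (h2 p.1)) fun g' j => h3 p.1 (g' * p.2) j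
  refine ⟨⨆ p, L p, IntermediateField.finiteDimensional_iSup_of_finite,
    Finset.univ.image fun p : {g : E ≃ₐ[F] E // g ≠ 1} × (E ≃ₐ[F] E) => p.2 (z p.1),
    fun g y hy => ?_, fun g hg => by_contra fun hne => ?_, fun y hy => ?_⟩
  · obtain ⟨p, -, rfl⟩ := Finset.mem_image.1 hy
    exact Finset.mem_image.2 ⟨(p.1, g * p.2), Finset.mem_univ _, rfl⟩
  · exact h1 ⟨g, hne⟩ (hg _ (Finset.mem_image.2 ⟨(⟨g, hne⟩, 1), Finset.mem_univ _, rfl⟩))
  · obtain ⟨p, -, rfl⟩ := Finset.mem_image.1 hy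
    exact (mem_lm_range (RingHom.injective _) _).2 fun j => ⟨⟨_, le_iSup L p (hL2 p j)⟩, rfl⟩

end

end Pool.Agent.ZCy
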