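import Pool.Agent.Lib.MP_751085_ag.ZC.Z.LiftR
import Pool.Agent.Lib.MP_751085_ag.ZC.Z.LiftF
import Pool.Agent.Lib.MP_751085_ag.ZC.Z.Rigid
import Pool.Agent.Lib.MP_751085_ag.ZC.Z.Mdl
import Pool.Agent.Lib.MP_751085_ag.ZC.Z.Desc

/-! Block Z: lifting, rigidity and descent combined. -/

namespace Pool.Agent.ZCy

open scoped Classical WithZero Polynomial

set_option linter.unusedSectionVars false

theorem zsep_of_bez {A L : Type} [CommRing A] [Field L] (f : A →+* L) {Δ : A} {Th : A[X]}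
    (hb : ∃ (r : ℕ) (α β : A[X]), Polynomial.C (Δ ^ r) = α * Th + β * Polynomial.derivative Th)
    (h : f Δ ≠ 0) : (Th.map f).Separable := by
  obtain ⟨r, α, β, e⟩ := hb
  have h1 := congrArg (Polynomial.map f) e
  rw [Polynomial.map_C, Polynomial.map_add, Polynomial.map_mul, Polynomial.map_mul, map_pow,
    ← Polynomial.derivative_map] at h1
  refine ⟨Polynomial.C (f Δ ^ r)⁻¹ * α.map f, Polynomial.C (f Δ ^ r)⁻¹ * β.map f, ?_⟩
  rw [mul_assoc, mul_assoc, ← mul_add, ← h1, ← map_mul, inv_mul_cancel₀ (pow_ne_zero _ h), map_one]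

theorem dfd_base (hGR : GR0) {A K KK F E : Type} [CommRing A] [Algebra ℚ A] [Field K] [CharZero K]
    [Field KK] [Field F] [Field E] [Algebra A K] [Algebra KK[X] F] [IsFractionRing KK[X] F]
    [Algebra F E] [FiniteDimensional F E] [IsGalois F E]
    (hA : Function.Injective (algebraMap A K)) {γ : K →+* KK} {Δ : A} (hS : SCP γ Δ) (h0 : Δ ≠ 0)
    (Th : A[X]) (hm : Th.Monic)
    (hb : ∃ (r : ℕ) (α β : A[X]), Polynomial.C (Δ ^ r) = α * Th + β * Polynomial.derivative Th)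
    (ι : E →+* Ls KK) (hι : ∀ p, ι (toF KK[X] F E p) = tL KK p)
    (hu : UnrOff F (toF KK[X] F E) ((Th.map (algebraMap A K)).map γ)) : Dfd F γ ι := by
  let _ : Algebra K KK := γ.toAlgebra
  obtain ⟨L, hL, hD⟩ := exists_dfd (K := K) ι hι (Th.map (algebraMap A K))
    (zsep_of_bez _ hb ((map_ne_zero_iff _ hA).2 h0)) hu
  have : CharZero L := algebraRat.charZero _
  obtain ⟨E₀, _, _, _, _, ⟨m⟩⟩ := exists_mdl (Fr L[X]) hι hD
  have hγ : (algebraMap L KK).comp (algebraMap K L) = γ := RingHom.ext fun _ => rfl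
  have h1 : UnrOff (Fr L[X]) (toF L[X] (Fr L[X]) E₀) (Th.map (toF A K L)) := m.unr (by
    rwa [← hγ, ← Polynomial.map_map, Polynomial.map_map (algebraMap A K)] at hu)
  have h2 := m.dfd _ (desc hGR hA hS ⟨algebraMap L KK, fun _ => rfl⟩ Th hm hb m.ι' m.hι' h1)
  rwa [hγ] at h2

theorem zcore (hGR : GR0) {A κ K KK F₀ E₀ : Type} (F' : Type) [CommRing A] [Algebra ℚ A] [Field κ]
    [CharZero κ] [Field K] [CharZero K] [Field KK] [Field F₀] [Field E₀] [Field F'] [Algebra A K]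
    [Algebra (Ps κ) KK] [IsFractionRing (Ps κ) KK] [Algebra κ[X] F₀] [IsFractionRing κ[X] F₀]
    [Algebra F₀ E₀] [FiniteDimensional F₀ E₀] [IsGalois F₀ E₀] [Algebra K[X] F']
    [IsFractionRing K[X] F'] (hA : Function.Injective (algebraMap A K)) (η : A →+* Ps κ)
    (γ : K →+* KK) (hγ : ∀ a, γ (algebraMap A K a) = algebraMap (Ps κ) KK (η a)) {Δ y : A}
    (hS : SCP γ Δ) (hΔ : PowerSeries.constantCoeff (η Δ) ≠ 0) (hy : η y = PowerSeries.X)
    (Th : A[X]) (hm : Th.Monic)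
    (hb : ∃ (r : ℕ) (α β : A[X]), Polynomial.C (Δ ^ r) = α * Th + β * Polynomial.derivative Th)
    (ι₀ : E₀ →+* Ls κ) (hι : ∀ p, ι₀ (toF κ[X] F₀ E₀ p) = tL κ p)
    (hu : UnrOff F₀ (toF κ[X] F₀ E₀) (Th.map (PowerSeries.constantCoeff.comp η))) :
    ∃ (E' : Type) (_ : Field E') (_ : Algebra F' E') (_ : FiniteDimensional F' E')
      (_ : IsGalois F' E') (ι' : E' →+* Ls K) (w : Vl E') (ρ : w.integer →+* E₀),
      (∀ p, ι' (toF K[X] F' E' p) = tL K p) ∧
      UnrOff F' (toF K[X] F' E') (Th.map (algebraMap A K)) ∧ Dec F' w = ⊤ ∧ Ine F' w = ⊥ ∧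
      IsRed w ρ ∧ (∀ p : A[X], ∃ h, ρ ⟨toF K[X] F' E' (p.map (algebraMap A K)), h⟩ =
        toF κ[X] F₀ E₀ (p.map (PowerSeries.constantCoeff.comp η))) ∧
      Module.finrank F₀ E₀ ≤ Module.finrank F' E' := by
  obtain ⟨O, _, _, ⟨d⟩⟩ := lift_ring (Th.map η) (hm.map η)
    (by rw [Polynomial.map_map]; exact zsep_of_bez _ hb hΔ) (by rwa [Polynomial.map_map]) ι₀ hι
  obtain ⟨E, _, _, _, _, ⟨l⟩, hn⟩ := lift_field (KK := KK) (F := Fr KK[X]) d
  have hmm : ∀ p : A[X], (p.map (algebraMap A K)).map γ =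
      (p.map η).map (algebraMap (Ps κ) KK) := fun p => by
    rw [Polynomial.map_map, Polynomial.map_map]
    congr 1
    exact RingHom.ext hγ
  have hu' := l.unr
  rw [← hmm] at hu'
  obtain ⟨E', _, _, _, _, ⟨m⟩⟩ := exists_mdl F' l.hι (dfd_base hGR hA hS
    (fun h => hΔ (by rw [h, map_zero, map_zero])) Th hm hb l.ι l.hι hu')
  let j : (l.W.comap m.j).integer →+* l.W.integer :=
    (m.j.comp (l.W.comap m.j).integer.subtype).codRestrict _ fun x => x.2
  have hres : ∀ p : A[X], ∃ h, l.ρ.comp j ⟨toF K[X] F' E' (p.map (algebraMap A K)), h⟩ =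
      toF κ[X] F₀ E₀ (p.map (PowerSeries.constantCoeff.comp η)) := by
    intro p
    obtain ⟨h, e⟩ := l.res (p.map η)
    have e1 : m.j (toF K[X] F' E' (p.map (algebraMap A K))) =
        toF KK[X] (Fr KK[X]) E ((p.map η).map (algebraMap (Ps κ) KK)) := by rw [m.hj, hmm]
    refine ⟨(congrArg l.W e1).trans_le h, ?_⟩
    rw [← Polynomial.map_map, ← e]
    exact congrArg l.ρ (Subtype.ext e1)
  refine ⟨E', inferInstance, inferInstance, inferInstance, inferInstance, m.ι', l.W.comap m.j,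
    l.ρ.comp j, m.hι', m.unr hu', ?_, zv_unr ?_ fun x => ?_, fun x => l.red (j x), hres, ?_⟩
  · refine eq_top_iff.2 fun g _ x => ?_
    obtain ⟨g, rfl⟩ := m.r.surjective g
    have : g ∈ Dec (Fr KK[X]) l.W := l.dec ▸ Subgroup.mem_top g
    exact (congrArg l.W (m.hr g x)).trans (this _)
  · let φ : ℚ →+* E' := (toF K[X] F' E').comp
      ((Polynomial.mapRingHom (algebraMap A K)).comp (Polynomial.C.comp (algebraMap ℚ A)))
    have h1 : ∀ a, (l.W.comap m.j) (φ a) ≤ 1 := fun a => (hres (Polynomial.C (algebraMap ℚ A a))).1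
    rw [← map_natCast φ]
    exact triv_of_algebraic h1 (RingHom.isIntegralElem_map _)
      ((map_ne_zero φ).2 (Nat.cast_ne_zero.2 Nat.card_pos.ne'))
  · have h1 : (l.W.comap m.j) (toF K[X] F' E' (Polynomial.C (algebraMap A K y))) =
        WithZero.exp (-1) := by
      rw [Valuation.comap_apply, m.hj, Polynomial.map_C, hγ, hy, l.uni]
    by_cases hx : (l.W.comap m.j) x = 0
    · exact ⟨0, by rw [hx, map_zero, map_zero]⟩
    · refine ⟨algebraMap K[X] F' (Polynomial.C (algebraMap A K y)) ^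
        (-WithZero.log ((l.W.comap m.j) x)), ?_⟩
      rw [map_zpow₀, map_zpow₀]
      change _ = (l.W.comap m.j) (toF K[X] F' E' _) ^ _
      rw [h1, ← WithZero.exp_zsmul, smul_neg, neg_smul, neg_neg, smul_eq_mul, mul_one,
        WithZero.exp_log hx]
  · rw [← IsGalois.card_aut_eq_finrank, ← IsGalois.card_aut_eq_finrank F' E',
      ← Nat.card_congr m.r.toEquiv, IsGalois.card_aut_eq_finrank (Fr KK[X]) E, hn,
      Nat.card_eq_fintype_card]

end Pool.Agent.ZCy
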