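import Pool.Agent.Lib.MP_751085_ag.ZC.Z.Pole

/-! Block Z: derivations of the constants act on Laurent series. -/

namespace Pool.Agent.ZCy

open scoped Classical WithZero Polynomial

set_option linter.unusedSectionVars false

/-- the action of a derivation on coefficients -/
noncomputable def cD {K KK : Type} [Field K] [Field KK] [Algebra K KK] (D : Derivation K KK KK) :
    Ls KK →+ Ls KK where
  toFun x := HahnSeries.map x D.toLinearMap
  map_zero' := by ext; simp
  map_add' _ _ := by ext; simp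

section

variable {K KK : Type} [Field K] [Field KK] [Algebra K KK] (D : Derivation K KK KK)

@[simp] theorem cD_coeff (x : Ls KK) (j : ℤ) : (cD D x).coeff j = D (x.coeff j) := rfl

theorem cD_leib : Leib (cD D) := by
  intro a b
  have hs : ∀ x : Ls KK, (cD D x).support ⊆ x.support := fun x j hj h => by
    apply hj
    rw [cD_coeff, h, map_zero]
  ext j
  rw [mul_comm b, HahnSeries.coeff_add, cD_coeff, HahnSeries.coeff_mul,
    HahnSeries.coeff_mul_right' b.isPWO_support (hs b),
    HahnSeries.coeff_mul_left' a.isPWO_support (hs a), map_sum, ← Finset.sum_add_distrib]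
  refine Finset.sum_congr rfl fun i _ => ?_
  rw [Derivation.leibniz, cD_coeff, cD_coeff, smul_eq_mul, smul_eq_mul, mul_comm (b.coeff _)]

theorem cD_tL (p : KK[X]) : ∃ q : KK[X], cD D (tL KK p) = tL KK q ∧ ∀ i, q.coeff i = D (p.coeff i) := by
  have h : ∀ i, (∑ k ∈ p.support, Polynomial.monomial k (D (p.coeff k))).coeff i =
      D (p.coeff i) := fun i => by
    simp only [Polynomial.finsetSum_coeff, Polynomial.coeff_monomial, Finset.sum_ite_eq']
    split_ifs with hi
    · rfl
    · rw [Polynomial.notMem_support_iff.1 hi, map_zero]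
  refine ⟨_, ?_, h⟩
  ext j
  rw [cD_coeff]
  rcases lt_or_ge 0 j with hj | hj
  · rw [tL_coeff_pos _ _ hj, tL_coeff_pos _ _ hj, map_zero]
  · obtain ⟨i, rfl⟩ : ∃ i : ℕ, j = -(i : ℤ) := ⟨(-j).toNat, by omega⟩
    rw [tL_coeff, tL_coeff, h]

theorem der_pivots (n : ℕ) : ∀ (V : Submodule KK (Ls KK)) [FiniteDimensional KK V],
    Module.finrank KK V = n → ∃ J : Finset ℤ,
      (∀ c : ℤ → KK, ∃ x ∈ V, ∀ j ∈ J, x.coeff j = c j) ∧
        ∀ x ∈ V, (∀ j ∈ J, x.coeff j = 0) → x = 0 := by
  induction n using Nat.strong_induction_on with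
  | _ n ih =>
    intro V _ hn
    by_cases hV : ∀ x ∈ V, x = 0
    · exact ⟨∅, fun c => ⟨0, V.zero_mem, fun j hj => absurd hj (Finset.notMem_empty j)⟩,
        fun x hx _ => hV x hx⟩
    push Not at hV
    obtain ⟨x₁, hx₁, h1⟩ := hV
    obtain ⟨j₀, hj₀⟩ : ∃ j₀, x₁.coeff j₀ ≠ 0 := by
      by_contra h
      push Not at h
      exact h1 (HahnSeries.ext (funext h))
    let V' : Submodule KK (Ls KK) :=
      { carrier := {x | x ∈ V ∧ x.coeff j₀ = 0}
        add_mem' := fun {a b} ha hb =>
          ⟨V.add_mem ha.1 hb.1, by rw [HahnSeries.coeff_add, ha.2, hb.2, add_zero]⟩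
        zero_mem' := ⟨V.zero_mem, rfl⟩
        smul_mem' := fun c a ha =>
          ⟨V.smul_mem c ha.1, by rw [HahnSeries.coeff_smul, ha.2, smul_zero]⟩ }
    have hle : V' ≤ V := fun x hx => hx.1
    have hlt : V' < V := lt_of_le_of_ne hle fun h => hj₀ (show x₁ ∈ V' from h ▸ hx₁).2
    have : FiniteDimensional KK V' := Submodule.finiteDimensional_of_le hle
    obtain ⟨J, h2, h3⟩ := ih _ (hn ▸ Submodule.finrank_lt_finrank_of_lt hlt) V' rfl
    refine ⟨insert j₀ J, fun c => ?_, fun x hx h => h3 x ⟨hx, h _ (Finset.mem_insert_self _ _)⟩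
      fun j hj => h j (Finset.mem_insert_of_mem hj)⟩
    obtain ⟨y, hy, h4⟩ := h2 fun j => c j - c j₀ / x₁.coeff j₀ * x₁.coeff j
    refine ⟨(c j₀ / x₁.coeff j₀) • x₁ + y, V.add_mem (V.smul_mem _ hx₁) hy.1, fun j hj => ?_⟩
    rw [HahnSeries.coeff_add, HahnSeries.coeff_smul, smul_eq_mul]
    rcases Finset.mem_insert.1 hj with rfl | hj
    · rw [hy.2, add_zero, div_mul_cancel₀ _ hj₀]
    · rw [h4 j hj, add_sub_cancel]

/-- a finite-dimensional space of series that is stable under all derivations is spanned by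
series with constant coefficients -/
theorem le_span_const (V : Submodule KK (Ls KK)) [FiniteDimensional KK V]
    (h : ∀ D : Derivation K KK KK, ∀ x ∈ V, cD D x ∈ V) :
    V ≤ Submodule.span KK {x | x ∈ V ∧ ∀ D : Derivation K KK KK, cD D x = 0} := by
  obtain ⟨J, h1, h2⟩ := der_pivots _ V rfl
  choose v hv hv' using fun k : ℤ => h1 fun j => if j = k then 1 else 0
  intro x hx
  have h3 : x - ∑ k ∈ J, x.coeff k • v k = 0 := by
    refine h2 _ (V.sub_mem hx (V.sum_mem fun k _ => V.smul_mem _ (hv k))) fun j hj => ?_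
    rw [HahnSeries.coeff_sub, HahnSeries.coeff_sum]
    simp only [HahnSeries.coeff_smul, hv' _ j hj, smul_eq_mul, mul_ite, mul_one, mul_zero,
      Finset.sum_ite_eq, hj, if_true, sub_self]
  rw [sub_eq_zero.1 h3]
  refine Submodule.sum_mem _ fun k _ => Submodule.smul_mem _ _ (Submodule.subset_span
    ⟨hv k, fun D => h2 _ (h D _ (hv k)) fun j hj => ?_⟩)
  rw [cD_coeff, hv' k j hj]
  split_ifs
  · exact D.map_one_eq_zero
  · exact map_zero _

end

end Pool.Agent.ZCy
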