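import Pool.Agent.Lib.MP_751085_ag.ZC.Z.Sec
import Pool.Agent.Lib.MP_751085_ag.ZC.Z.Grp

/-! Block Z: the closure and the descent of the cover. -/

namespace Pool.Agent.ZCy

open scoped Classical WithZero Polynomial

set_option linter.unusedSectionVars false

theorem desc1_lift {F E N : Type} [Field F] [Field E] [Field N] [Algebra F N] [Normal F N]
    (ψ : F →+* E) (κ : E →+* N) (hψ : ∀ x, κ (ψ x) = algebraMap F N x) (g₀ : E ≃+* E)
    (hg : ∀ x, g₀ (ψ x) = ψ x) : ∃ g : N ≃ₐ[F] N, ∀ z, g (κ z) = κ (g₀ z) := by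
  let _ : Algebra F E := ψ.toAlgebra
  let _ : Algebra E N := κ.toAlgebra
  have _ : IsScalarTower F E N := .of_algebraMap_eq fun x => (hψ x).symm
  let χ : E ≃ₐ[F] E := AlgEquiv.ofRingEquiv (f := g₀) hg
  exact ⟨χ.liftNormal N, fun z => χ.liftNormal_commutes N z⟩

section

variable {K L₀ F₀ E₀ L F N : Type} [Field K] [CharZero K] [Field L₀] [Field F₀] [Field E₀]
  [Field L] [Field F] [Field N] [Algebra K L₀] [FiniteDimensional K L₀] [Algebra K[X] F]
  [IsFractionRing K[X] F] [Algebra L₀[X] F₀] [IsFractionRing L₀[X] F₀] [Algebra F₀ E₀]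
  [FiniteDimensional F₀ E₀] [IsGalois F₀ E₀] [Algebra K L] [FiniteDimensional K L] [IsGalois K L]
  [Algebra F N] [FiniteDimensional F N] [IsGalois F N] {ι₀ : E₀ →+* Ls L₀} {d : SecD 1 K L F N}
  {e : L₀ →ₐ[K] L} {κ : E₀ →+* N} {π : (N ≃ₐ[F] N) →* (L ≃ₐ[K] L)}
  {σ : (L ≃ₐ[K] L) →* (N ≃ₐ[F] N)}

theorem desc1_κ (hι : ∀ p, ι₀ (toF L₀[X] F₀ E₀ p) = tL L₀ p)
    (hκ : ∀ z, d.ι (κ z) = lm (e : L₀ →+* L) (ι₀ z)) (p : L₀[X]) :
    κ (toF L₀[X] F₀ E₀ p) = d.φ (p.map (e : L₀ →+* L)) := by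
  apply d.ι.injective
  rw [hκ, hι, lm_tM, d.ι_φ]

theorem desc1_φ (hs : d.Spl π σ) (h : N ≃ₐ[F] N) (q : L[X]) :
    h (d.φ q) = d.φ (q.map (π h : L →+* L)) := by
  have : (h : N →+* N).comp d.φ = d.φ.comp (Polynomial.mapRingHom (π h : L →+* L)) := by
    apply Polynomial.ringHom_ext
    · intro a
      simp [SecD.φ, hs.hπ]
    · simp [SecD.φ]
  exact RingHom.congr_fun this q

theorem desc1_map (γ : L ≃ₐ[K] L) (p : K[X]) :
    ((p.map (algebraMap K L₀)).map (e : L₀ →+* L)).map (γ : L →+* L) =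
      p.map (algebraMap K L) := by
  rw [Polynomial.map_map, Polynomial.map_map]
  congr 1
  ext a
  simp

theorem desc1_frac {N' : Type} [Field N'] (J J' : E₀ →+* N')
    (h : ∀ p, J (toF L₀[X] F₀ E₀ p) = J' (toF L₀[X] F₀ E₀ p)) (a : F₀) :
    J (algebraMap F₀ E₀ a) = J' (algebraMap F₀ E₀ a) := by
  obtain ⟨x, y, -, rfl⟩ := IsFractionRing.div_surjective (A := L₀[X]) a
  have hx := h x
  have hy := h y
  simp only [RingHom.comp_apply] at hx hy
  simp only [map_div₀, hx, hy]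

/-- the closure is unramified off the branch points -/
theorem clo_unr (hι : ∀ p, ι₀ (toF L₀[X] F₀ E₀ p) = tL L₀ p)
    (hκ : ∀ z, d.ι (κ z) = lm (e : L₀ →+* L) (ι₀ z))
    (hg : ∀ g : N ≃ₐ[F] N, (∀ a, g (d.c a) = d.c a) →
      (∀ (h : N ≃ₐ[F] N) (z : E₀), g (h (κ z)) = h (κ z)) → g = 1) (hs : d.Spl π σ) {Th : K[X]}
    (hu : UnrOff F₀ (toF L₀[X] F₀ E₀) (Th.map (algebraMap K L₀))) (P : L[X]) (w : Vl N)
    (hP : Prime P) (hd : ¬P ∣ Th.map (algebraMap K L)) (hc : Cen d.φ w P) :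
    Ine F w ⊓ π.ker = ⊥ := by
  rw [eq_bot_iff]
  rintro g ⟨hgi, hgk⟩
  have hgk' : π g = 1 := hgk
  have hfix : ∀ q, g (d.φ q) = d.φ q := fun q => by
    rw [desc1_φ hs, hgk']
    congr 1
    ext i
    simp
  refine Subgroup.mem_bot.2 (hg g (fun a => by rw [hs.hπ, hgk']; rfl) fun h z => ?_)
  have hJ : ∀ p, ((h : N →+* N).comp κ) (toF L₀[X] F₀ E₀ p) =
      d.φ ((p.map (e : L₀ →+* L)).map (π h : L →+* L)) := fun p => by
    rw [RingHom.comp_apply, desc1_κ hι hκ, ← desc1_φ hs]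
    rfl
  refine fix_of_ine (K := F₀) ((h : N →+* N).comp κ) (g : N ≃+* N) (fun a => ?_) w hgi.1 hgi.2
    (unr_of_le hu (fun p => ?_) ?_) z
  · refine desc1_frac (L₀ := L₀) ((g : N →+* N).comp ((h : N →+* N).comp κ)) ((h : N →+* N).comp κ)
      (fun p => ?_) a
    rw [RingHom.comp_apply, hJ]
    exact hfix _
  · rw [Valuation.comap_apply, hJ]
    exact hc.1 _
  · rw [Valuation.comap_apply, hJ, desc1_map]
    exact le_antisymm (hc.1 _) (not_lt.1 fun hl => hd ((hc.2 _).1 hl))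

/-- the cover is defined over `K` when the centraliser and the group of `L₀` generate -/
theorem dfd_of_sup (hι : ∀ p, ι₀ (toF L₀[X] F₀ E₀ p) = tL L₀ p)
    (hκ : ∀ z, d.ι (κ z) = lm (e : L₀ →+* L) (ι₀ z)) (hs : d.Spl π σ) (C : Subgroup (L ≃ₐ[K] L))
    (hC : ∀ γ ∈ C, ∀ g ∈ π.ker, σ γ * g = g * σ γ) (h : e.fieldRange.fixingSubgroup ⊔ C = ⊤) :
    Dfd F₀ (algebraMap K L₀) ι₀ := by
  have hinj : Function.Injective
      ((toF L₀[X] F₀ E₀).comp (Polynomial.mapRingHom (algebraMap K L₀))) :=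
    ((algebraMap F₀ E₀).injective.comp (IsFractionRing.injective L₀[X] F₀)).comp
      (Polynomial.map_injective _ (algebraMap K L₀).injective)
  let ψ : F →+* E₀ := IsFractionRing.lift hinj
  have hψ0 : ∀ p, ψ (algebraMap K[X] F p) = toF L₀[X] F₀ E₀ (p.map (algebraMap K L₀)) :=
    fun p => IsFractionRing.lift_algebraMap hinj p
  have hψ : ∀ x, κ (ψ x) = algebraMap F N x := by
    have : κ.comp ψ = algebraMap F N := by
      apply IsFractionRing.ringHom_ext (A := K[X])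
      intro p
      have h1 := desc1_map (e := e) 1 p
      have h2 : ∀ q : L[X], q.map ((1 : L ≃ₐ[K] L) : L →+* L) = q := fun q => by
        ext i
        simp
      rw [RingHom.comp_apply, hψ0, desc1_κ hι hκ, ← h2 (Polynomial.map _ _), h1, d.φ_map]
      rfl
    exact RingHom.congr_fun this
  have hlift : ∀ g₀ : E₀ ≃ₐ[F₀] E₀, ∃ g : N ≃ₐ[F] N, ∀ z, g (κ z) = κ (g₀ z) := fun g₀ => by
    refine desc1_lift ψ κ hψ (g₀ : E₀ ≃+* E₀) ?_
    have : (g₀ : E₀ →+* E₀).comp ψ = ψ := by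
      apply IsFractionRing.ringHom_ext (A := K[X])
      intro p
      rw [RingHom.comp_apply, hψ0]
      exact g₀.commutes _
    exact RingHom.congr_fun this
  let R : IntermediateField F N := κ.fieldRange.toIntermediateField fun x => ⟨ψ x, hψ x⟩
  have hR : ∀ g : N ≃ₐ[F] N, g ∈ R.fixingSubgroup ↔ ∀ z, g (κ z) = κ z := fun g => by
    rw [IntermediateField.mem_fixingSubgroup_iff]
    exact ⟨fun hh z => hh _ ⟨z, rfl⟩, by rintro hh _ ⟨z, rfl⟩; exact hh z⟩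
  have hΓ : ∀ γ : L ≃ₐ[K] L, γ ∈ e.fieldRange.fixingSubgroup ↔ ∀ a, γ (e a) = e a := fun γ => by
    rw [IntermediateField.mem_fixingSubgroup_iff]
    exact ⟨fun hh z => hh _ ⟨z, rfl⟩, by rintro hh _ ⟨z, rfl⟩; exact hh z⟩
  have hcm : ∀ g : N ≃ₐ[F] N, (∀ a, g (κ (algebraMap F₀ E₀ a)) = κ (algebraMap F₀ E₀ a)) →
      g ∈ e.fieldRange.fixingSubgroup.comap π := fun g hg => by
    refine (hΓ _).2 fun a => d.c.injective ?_
    have h1 : κ (toF L₀[X] F₀ E₀ (Polynomial.C a)) = d.c (e a) := by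
      rw [desc1_κ hι hκ]
      simp [SecD.φ]
    rw [← hs.hπ, ← h1]
    exact hg _
  obtain ⟨U, hUn, hU0, hUσ, hUi⟩ := grp_desc π σ hs.sec e.fieldRange.fixingSubgroup
    R.fixingSubgroup (fun γ hγ => (hR _).2 fun z => by
      apply d.ι.injective
      rw [hs.hσ, hκ]
      ext j
      exact (hΓ γ).1 hγ _) (fun g hg => hcm g fun a => (hR g).1 hg _) (fun g hg u hu => by
      have hg' := (hΓ _).1 (inv_mem hg : g⁻¹ ∈ e.fieldRange.fixingSubgroup.comap π)
      obtain ⟨g₀, hg₀⟩ := exists_restrict (K := F₀) κ ((g⁻¹ : N ≃ₐ[F] N) : N →+* N) fun a => by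
        refine desc1_frac (L₀ := L₀) (((g⁻¹ : N ≃ₐ[F] N) : N →+* N).comp κ) κ (fun p => ?_) a
        rw [RingHom.comp_apply, desc1_κ hι hκ]
        refine (desc1_φ hs g⁻¹ _).trans ?_
        congr 1
        ext i
        simpa using hg' _
      refine (hR _).2 fun z => ?_
      have h1 : (g⁻¹ : N ≃ₐ[F] N) (κ z) = κ (g₀ z) := (hg₀ z).symm
      rw [AlgEquiv.mul_apply, AlgEquiv.mul_apply, h1, (hR u).1 hu, ← h1, ← AlgEquiv.mul_apply,
        mul_inv_cancel, AlgEquiv.one_apply]) C hC h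
  have hex : ∀ g : N ≃ₐ[F] N, ∃ z : E₀, (∀ u ∈ U, u (κ z) = κ z) ∧ (g (κ z) = κ z → g ∈ U) := by
    intro g
    by_cases hg : g ∈ U
    · exact ⟨0, fun u _ => by simp, fun _ => hg⟩
    · rw [← IntermediateField.fixingSubgroup_fixedField U,
        IntermediateField.mem_fixingSubgroup_iff] at hg
      push Not at hg
      obtain ⟨x, hx, hgx⟩ := hg
      have hx' := (IntermediateField.mem_fixedField_iff U x).1 hx
      have hxR : x ∈ R := by
        rw [← IsGalois.fixedField_fixingSubgroup R, IntermediateField.mem_fixedField_iff]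
        exact fun u hu => hx' u (hU0 hu)
      obtain ⟨z, rfl⟩ := hxR
      exact ⟨z, hx', fun hh => absurd hh hgx⟩
  choose z hz1 hz2 using hex
  refine ⟨Finset.univ.image fun p : (E₀ ≃ₐ[F₀] E₀) × (N ≃ₐ[F] N) => p.1 (z p.2), ?_, ?_, ?_⟩
  · intro g s hs'
    obtain ⟨p, -, rfl⟩ := Finset.mem_image.1 hs'
    exact Finset.mem_image.2 ⟨(g * p.1, p.2), Finset.mem_univ _, rfl⟩
  · intro g₀ hg₀
    obtain ⟨g, hg⟩ := hlift g₀
    have h1 : g ∈ U := hz2 g (by
      rw [hg, hg₀ (z g) (Finset.mem_image.2 ⟨(1, g), Finset.mem_univ _, rfl⟩)])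
    have h2 := (hR g).1 (hUi ⟨h1, hcm g fun a => by rw [hg, g₀.commutes]⟩)
    ext x
    apply κ.injective
    rw [← hg, h2]
    rfl
  · intro s hs'
    obtain ⟨p, -, rfl⟩ := Finset.mem_image.1 hs'
    obtain ⟨g, hg⟩ := hlift p.1
    refine (mem_lm_range (algebraMap K L₀).injective _).2 fun j => ?_
    have h1 : ∀ γ, σ γ (κ (p.1 (z p.2))) = κ (p.1 (z p.2)) := fun γ => by
      have := hz1 p.2 _ (hUn.conj_mem' _ (hUσ γ) g)
      rw [AlgEquiv.mul_apply, AlgEquiv.mul_apply] at this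
      rw [← hg]
      apply (g⁻¹ : N ≃ₐ[F] N).injective
      rw [this, ← AlgEquiv.mul_apply, inv_mul_cancel, AlgEquiv.one_apply]
    have h2 : e ((ι₀ (p.1 (z p.2))).coeff j) ∈ (⊥ : IntermediateField K L) := by
      rw [IsGalois.mem_bot_iff_fixed]
      intro γ
      have := congrArg (fun x => (d.ι x).coeff j) (h1 γ)
      simp only [hs.hσ, hκ, lm_coeff] at this
      exact this
    obtain ⟨k, hk⟩ := IntermediateField.mem_bot.1 h2
    exact ⟨k, (e : L₀ →+* L).injective ((e.commutes k).trans hk)⟩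

end

end Pool.Agent.ZCy
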