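import Pool.Agent.Lib.MP_751085_ag.ZC.Z.ZDefs

/-! Block Z: homomorphisms of power series rings that fix the variable. -/

namespace Pool.Agent.ZCy

open scoped Classical WithZero Polynomial

set_option linter.unusedSectionVars false

section

open PowerSeries

variable {B S : Type} [CommRing B] [CommRing S]

theorem hat_congr (φ : B →+* Ps S) {p q : B[X]} {n N : ℕ} (hn : n < N)
    (h : ∀ i < N, p.coeff i = q.coeff i) :
    coeff n (Polynomial.eval₂RingHom φ X p) = coeff n (Polynomial.eval₂RingHom φ X q) := by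
  obtain ⟨r, hr⟩ : (Polynomial.X : B[X]) ^ N ∣ p - q :=
    Polynomial.X_pow_dvd_iff.mpr fun i hi => by rw [Polynomial.coeff_sub, h i hi, sub_self]
  rw [← sub_eq_zero, ← map_sub, ← map_sub, hr, map_mul, map_pow, Polynomial.coe_eval₂RingHom,
    Polynomial.eval₂_X]
  exact X_pow_dvd_iff.mp (dvd_mul_right _ _) n hn

/-- the underlying map of the extension of `φ` -/
noncomputable def hat_fun (φ : B →+* Ps S) (f : Ps B) : Ps S :=
  mk fun n => coeff n (Polynomial.eval₂RingHom φ X (trunc (n + 1) f))

theorem hat_coeff (φ : B →+* Ps S) (f : Ps B) {p : B[X]} {n N : ℕ} (hn : n < N)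
    (h : ∀ i < N, coeff i f = p.coeff i) :
    coeff n (hat_fun φ f) = coeff n (Polynomial.eval₂RingHom φ X p) := by
  rw [hat_fun, coeff_mk]
  refine hat_congr φ (Nat.lt_succ_self n) fun i hi => ?_
  rw [coeff_trunc, if_pos hi, h i (by omega)]

theorem hat_coe (φ : B →+* Ps S) (p : B[X]) :
    hat_fun φ (p : Ps B) = Polynomial.eval₂RingHom φ X p := by
  ext n
  exact hat_coeff φ _ (Nat.lt_succ_self n) fun i _ => Polynomial.coeff_coe _ _

theorem hat_trunc (φ : B →+* Ps S) (f : Ps B) {n N : ℕ} (hn : n < N) :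
    coeff n (hat_fun φ f) = coeff n (Polynomial.eval₂RingHom φ X (trunc N f)) :=
  hat_coeff φ f hn fun i hi => by rw [coeff_trunc, if_pos hi]

theorem hat_mul (φ : B →+* Ps S) (f g : Ps B) :
    hat_fun φ (f * g) = hat_fun φ f * hat_fun φ g := by
  ext n
  rw [hat_coeff φ (f * g) (p := trunc (n + 1) f * trunc (n + 1) g) (Nat.lt_succ_self n)
    fun i hi => by
      rw [coeff_mul_eq_coeff_trunc_mul_trunc f g hi, ← Polynomial.coe_mul, Polynomial.coeff_coe],
    map_mul, coeff_mul, coeff_mul]
  refine Finset.sum_congr rfl fun x hx => ?_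
  have hx' := Finset.HasAntidiagonal.mem_antidiagonal.mp hx
  rw [hat_trunc φ f (N := n + 1) (by omega), hat_trunc φ g (N := n + 1) (by omega)]

theorem hat_add (φ : B →+* Ps S) (f g : Ps B) :
    hat_fun φ (f + g) = hat_fun φ f + hat_fun φ g := by
  ext n
  simp only [hat_fun, coeff_mk, map_add]

theorem hat_split (H : Ps B →+* Ps S) (hX : H X = X) (f : Ps B) (N : ℕ) :
    ∃ g, H f = X ^ N * g + ∑ i ∈ Finset.range N, H (C (coeff i f)) * X ^ i := by
  refine ⟨H (mk fun i => coeff (i + N) f), ?_⟩
  conv_lhs => rw [eq_X_pow_mul_shift_add_trunc N f]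
  rw [map_add, map_mul, map_pow, hX, ← Polynomial.eval₂_C_X_eq_coe, eval₂_trunc_eq_sum_range,
    map_sum]
  simp only [map_mul, map_pow, hX]

theorem exists_hat (φ : B →+* Ps S) : ∃ H : Ps B →+* Ps S, H X = X ∧ ∀ b, H (C b) = φ b := by
  refine ⟨{ toFun := hat_fun φ, map_one' := ?_, map_mul' := hat_mul φ, map_zero' := ?_,
            map_add' := hat_add φ }, ?_, fun b => ?_⟩
  · rw [← Polynomial.coe_one, hat_coe, map_one]
  · rw [← Polynomial.coe_zero, hat_coe, map_zero]
  · change hat_fun φ X = X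
    rw [← Polynomial.coe_X, hat_coe, Polynomial.coe_eval₂RingHom, Polynomial.eval₂_X]
  · change hat_fun φ (C b) = φ b
    rw [← Polynomial.coe_C, hat_coe, Polynomial.coe_eval₂RingHom, Polynomial.eval₂_C]

theorem ps_coeff (H : Ps B →+* Ps S) (hX : H X = X) (f : Ps B) (n : ℕ) :
    coeff n (H f) = ∑ p ∈ Finset.HasAntidiagonal.antidiagonal n, coeff p.2 (H (C (coeff p.1 f))) := by
  obtain ⟨g, hg⟩ := hat_split H hX f (n + 1)
  rw [hg, map_add, X_pow_dvd_iff.mp (dvd_mul_right _ _) n (Nat.lt_succ_self n), zero_add, map_sum,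
    Finset.Nat.sum_antidiagonal_eq_sum_range_succ (fun i j => coeff j (H (C (coeff i f)))) n]
  refine Finset.sum_congr rfl fun i hi => ?_
  rw [coeff_mul_X_pow', if_pos (Nat.lt_succ_iff.mp (Finset.mem_range.mp hi))]

theorem ps_ext {H H' : Ps B →+* Ps S} (hX : H X = X) (hX' : H' X = X)
    (h : ∀ b, H (C b) = H' (C b)) : H = H' := by
  refine RingHom.ext fun f => PowerSeries.ext fun n => ?_
  rw [ps_coeff H hX, ps_coeff H' hX']
  simp only [h]

theorem ps_constantCoeff (H : Ps B →+* Ps S) (hX : H X = X) (f : Ps B) :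
    constantCoeff (H f) = constantCoeff (H (C (constantCoeff f))) := by
  have h := ps_coeff H hX f 0
  simpa using h

theorem ps_injective (H : Ps B →+* Ps S) (hX : H X = X)
    (h : Function.Injective fun b => constantCoeff (H (C b))) : Function.Injective H := by
  rw [injective_iff_map_eq_zero]
  intro f hf
  ext n
  induction n using Nat.strong_induction_on with
  | _ n ih =>
    have h1 := ps_coeff H hX f n
    rw [hf, map_zero, Finset.sum_eq_single (n, 0)] at h1
    · rw [map_zero]
      apply h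
      simpa using h1.symm
    · intro p hp hne
      have hp' := Finset.HasAntidiagonal.mem_antidiagonal.mp hp
      have hlt : p.1 < n := by
        by_contra hc
        exact hne (Prod.ext (by simp only; omega) (by simp only; omega))
      rw [ih p.1 hlt]
      simp
    · intro hn
      exact absurd (Finset.HasAntidiagonal.mem_antidiagonal.mpr (add_zero n)) hn

theorem ps_surjective (H : Ps B →+* Ps S) (hX : H X = X)
    (h : Function.Surjective fun b => constantCoeff (H (C b))) : Function.Surjective H := by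
  have step : ∀ g : Ps S, ∃ (b : B) (g' : Ps S), g = X * g' + H (C b) := by
    intro g
    obtain ⟨b, hb⟩ := h (constantCoeff g)
    obtain ⟨g', hg'⟩ : (X : Ps S) ∣ g - H (C b) := by
      rw [X_dvd_iff, map_sub, ← hb, sub_self]
    exact ⟨b, g', by rw [← hg', sub_add_cancel]⟩
  choose b nx hb using step
  intro g
  refine ⟨mk fun i => b (nx^[i] g), ?_⟩
  have key : ∀ N : ℕ, g = X ^ N * nx^[N] g + ∑ i ∈ Finset.range N, H (C (b (nx^[i] g))) * X ^ i := by
    intro N
    induction N with
    | zero => simp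
    | succ N ih =>
      rw [Finset.sum_range_succ, Function.iterate_succ_apply']
      have h1 := hb (nx^[N] g)
      linear_combination ih + X ^ N * h1
  ext n
  obtain ⟨r, hr⟩ := hat_split H hX (mk fun i => b (nx^[i] g)) (n + 1)
  simp only [coeff_mk] at hr
  rw [hr]
  conv_rhs => rw [key (n + 1)]
  rw [map_add, map_add, X_pow_dvd_iff.mp (dvd_mul_right _ _) n (Nat.lt_succ_self n),
    X_pow_dvd_iff.mp (dvd_mul_right _ _) n (Nat.lt_succ_self n)]

end

end Pool.Agent.ZCy
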