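import Pool.Agent.Lib.MP_751085_ag.ZC.Z.Str1

/-! Block Z: the lifted cover. -/

namespace Pool.Agent.ZCy

open scoped Classical WithZero Polynomial

set_option linter.unusedSectionVars false

/-- The lifted cover, as a ring `O` with an action of `G`. -/
structure LRing (κ E₀ G O : Type) [Field κ] [Field E₀] [Group G] [Fintype G] [CommRing O]
    [MulSemiringAction G E₀] [MulSemiringAction G O] (φ₀ : κ[X] →+* E₀) (Th : (Ps κ)[X]) where
  β : (Ps κ)[X] →+* O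
  ν : O →+* Ps E₀
  s : O →+* Ls (Ps κ)
  νinj : Function.Injective ν
  sinj : Function.Injective s
  νact : ∀ (g : G) z, ν (g • z) = PowerSeries.map (MulSemiringAction.toRingHom G E₀ g) (ν z)
  sβ : ∀ p, s (β p) = tL _ p
  νX : ν (β (Polynomial.C PowerSeries.X)) = PowerSeries.X
  ν0 : ∀ p, PowerSeries.constantCoeff (ν (β p)) = φ₀ (p.map PowerSeries.constantCoeff)
  inv : ∀ z, (∀ g : G, g • z = z) ↔ z ∈ β.range
  d1 : ∃ (e : G → O) (Δ : (Ps κ)[X]) (N : ℕ), β Δ = (Matrix.of fun g i : G => g • e i).det ^ 2 ∧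
    al κ Δ ∣ al κ Th ^ N
  d2 : ∃ (e : G → O) (Δ : (Ps κ)[X]), β Δ = (Matrix.of fun g i : G => g • e i).det ^ 2 ∧
    IsUnit Δ.leadingCoeff

/-- The lifted cover. -/
structure LField (κ KK F E₀ E : Type) [Field κ] [Field KK] [Field F] [Field E₀] [Field E]
    [Algebra (Ps κ) KK] [Algebra KK[X] F] [Algebra F E] (φ₀ : κ[X] →+* E₀) (Th : (Ps κ)[X]) where
  ι : E →+* Ls KK
  W : Vl E
  ρ : W.integer →+* E₀
  hι : ∀ p, ι (toF KK[X] F E p) = tL KK p
  unr : UnrOff F (toF KK[X] F E) (Th.map (algebraMap (Ps κ) KK))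
  dec : Dec F W = ⊤
  uni : W (toF KK[X] F E (Polynomial.C (algebraMap (Ps κ) KK PowerSeries.X))) = WithZero.exp (-1)
  red : IsRed W ρ
  res : ∀ p : (Ps κ)[X], ∃ h, ρ ⟨toF KK[X] F E (p.map (algebraMap (Ps κ) KK)), h⟩ =
    φ₀ (p.map PowerSeries.constantCoeff)

end Pool.Agent.ZCy
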