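import Pool.Agent.Lib.MP_751085_ag.ZC.Z.ZDefs

/-! Block Z: lifting an embedding into a power series ring. -/

namespace Pool.Agent.ZCy

open scoped Classical WithZero Polynomial

set_option linter.unusedSectionVars false

/-- lifting an embedding of a separable extension into a power series ring -/
theorem lift_inf {A F E Ω : Type} [CommRing A] [Field F] [Field E] [Field Ω] [Algebra A F]
    [IsFractionRing A F] [Algebra F E] [Algebra.IsSeparable F E] (ψ : A →+* Ps Ω) (ι₀ : E →+* Ω)
    (h : ∀ a, PowerSeries.constantCoeff (ψ a) = ι₀ (toF A F E a)) :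
    ∃ ι₁ : E →+* Ps Ω, (∀ z, PowerSeries.constantCoeff (ι₁ z) = ι₀ z) ∧
      ∀ a, ι₁ (toF A F E a) = ψ a := by
  have hu : ∀ y : nonZeroDivisors A, IsUnit (ψ y) := fun y => by
    rw [PowerSeries.isUnit_iff_constantCoeff, h]
    exact ((IsLocalization.map_units F y).map (algebraMap F E)).map ι₀
  obtain ⟨χ, hχ⟩ : ∃ χ : F →+* Ps Ω, ∀ a, χ (algebraMap A F a) = ψ a :=
    ⟨IsLocalization.lift hu, IsLocalization.lift_eq hu⟩
  have h0 : ∀ x, PowerSeries.constantCoeff (χ x) = ι₀ (algebraMap F E x) := fun x =>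
    DFunLike.congr_fun (IsLocalization.ringHom_ext (nonZeroDivisors A)
      (j := PowerSeries.constantCoeff.comp χ) (k := ι₀.comp (algebraMap F E))
      (RingHom.ext fun a => by simpa [hχ] using h a)) x
  have hI : ∀ f g : Ps Ω, Ideal.Quotient.mk (Ideal.span {PowerSeries.X}) f =
      Ideal.Quotient.mk (Ideal.span {PowerSeries.X}) g ↔
        PowerSeries.constantCoeff f = PowerSeries.constantCoeff g := fun f g => by
    rw [Ideal.Quotient.eq, Ideal.mem_span_singleton, PowerSeries.X_dvd_iff, map_sub, sub_eq_zero]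
  let _ : Algebra F (Ps Ω) := χ.toAlgebra
  have := Algebra.FormallyEtale.of_isSeparable F E
  obtain ⟨g, hg⟩ := Algebra.FormallySmooth.exists_mkₐ_comp_eq_of_isAdicComplete (R := F) (A := E)
    (I := Ideal.span {(PowerSeries.X : Ps Ω)})
    { (Ideal.Quotient.mk _).comp (PowerSeries.C.comp ι₀) with
      commutes' := fun x => (hI _ (χ x)).2 (by simp [h0]) }
  refine ⟨g.toRingHom, fun z => ?_, fun a => (g.commutes _).trans (hχ a)⟩
  simpa using (hI (g z) (PowerSeries.C (ι₀ z))).1 (DFunLike.congr_fun hg z)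

end Pool.Agent.ZCy
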