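import Pool.Agent.Lib.MP_751085_ag.ZC.Z.Hat
import Pool.Agent.Lib.MP_751085_ag.ZC.Z.Pole
import Pool.Agent.Lib.MP_751085_ag.ZC.Z.Bas

/-! Block Z: patching at infinity. -/

namespace Pool.Agent.ZCy

open scoped Classical WithZero Polynomial

set_option linter.unusedSectionVars false

theorem patch_polar {R : Type} [CommRing R] (f : Ls R) : ∃ p : R[X], Pole 0 (f - tL R p) := by
  obtain ⟨m, hm⟩ := exists_pole f
  refine ⟨∑ i ∈ Finset.range (m + 1), Polynomial.monomial i (f.coeff (-(i : ℤ))), fun j hj => ?_⟩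
  obtain ⟨i, rfl⟩ : ∃ i : ℕ, j = -(i : ℤ) := ⟨j.natAbs, by omega⟩
  rw [HahnSeries.coeff_sub, tL_coeff, Polynomial.finsetSum_coeff]
  simp only [Polynomial.coeff_monomial, Finset.sum_ite_eq', Finset.mem_range]
  split_ifs with h
  · exact sub_self _
  · rw [sub_zero]
    exact hm _ (by omega)

theorem patch_pole_sum {R ι : Type} [CommRing R] {m : ℕ} (s : Finset ι) (f : ι → Ls R)
    (h : ∀ i ∈ s, Pole m (f i)) : Pole m (∑ i ∈ s, f i) := by
  induction s using Finset.induction_on with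
  | empty => intro j _; simp
  | insert a s ha ih =>
    rw [Finset.sum_insert ha]
    exact (h a (Finset.mem_insert_self _ _)).add
      (ih fun i hi => h i (Finset.mem_insert_of_mem hi))

theorem patch_int_sum {A B ι : Type} [CommRing A] [CommRing B] (φ : A →+* B) (s : Finset ι)
    (f : ι → B) (h : ∀ i ∈ s, φ.IsIntegralElem (f i)) : φ.IsIntegralElem (∑ i ∈ s, f i) := by
  induction s using Finset.induction_on with
  | empty => simpa using φ.isIntegralElem_zero
  | insert a s ha ih =>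
    rw [Finset.sum_insert ha]
    exact (h a (Finset.mem_insert_self _ _)).add _
      (ih fun i hi => h i (Finset.mem_insert_of_mem hi))

theorem patch_rec {α : Type} (d : α) (T : ℕ → (ℕ → α) → α) :
    ∃ z : ℕ → α, ∀ n, z n = T n fun i => if i < n then z i else d := by
  refine ⟨WellFounded.fix wellFounded_lt
    fun n ih => T n fun i => if h : i < n then ih i h else d, fun n => ?_⟩
  rw [WellFounded.fix_eq]
  rfl

section

variable {κ F E : Type} [Field κ] [Field F] [Field E] [Algebra κ[X] F] [IsFractionRing κ[X] F]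
  [Algebra F E] [FiniteDimensional F E] [IsGalois F E]

theorem split_inf (ι₀ : E →+* Ls κ) (hι : ∀ p, ι₀ (toF κ[X] F E p) = tL κ p) :
    ∃ m₀ : ℕ, ∀ v : (E ≃ₐ[F] E) → Ls κ, ∃ z, (toF κ[X] F E).IsIntegralElem z ∧
      ∀ g : E ≃ₐ[F] E, Pole m₀ (v g - ι₀ (g z)) := by
  obtain ⟨e, hi, -, hd⟩ := exists_int_basis (κ := κ) (F := F) (E := E)
  set M : Matrix (E ≃ₐ[F] E) (E ≃ₐ[F] E) (Ls κ) :=
    ι₀.mapMatrix (Matrix.of fun g i : E ≃ₐ[F] E => g (e i)) with hM
  have hdet : IsUnit M.det := by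
    rw [hM, ← RingHom.map_det]
    exact (Ne.isUnit hd).map ι₀
  choose μ hμ using fun q : (E ≃ₐ[F] E) × (E ≃ₐ[F] E) => exists_pole (M q.1 q.2)
  refine ⟨Finset.univ.sup μ, fun v => ?_⟩
  choose p hp using fun i => patch_polar (M⁻¹.mulVec v i)
  refine ⟨∑ i, toF κ[X] F E (p i) * e i, patch_int_sum _ _ _ fun i _ =>
    (RingHom.isIntegralElem_map _).mul _ (hi i), fun g => ?_⟩
  have hv : v g = ∑ i, M g i * M⁻¹.mulVec v i := by
    have : M.mulVec (M⁻¹.mulVec v) = v := by
      rw [Matrix.mulVec_mulVec, Matrix.mul_nonsing_inv _ hdet, Matrix.one_mulVec]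
    exact (congrFun this g).symm
  have hz : ι₀ (g (∑ i, toF κ[X] F E (p i) * e i)) = ∑ i, M g i * tL κ (p i) := by
    rw [map_sum, map_sum]
    refine Finset.sum_congr rfl fun i _ => ?_
    have h1 : g (toF κ[X] F E (p i)) = toF κ[X] F E (p i) := g.commutes _
    rw [map_mul, map_mul, h1, hι, mul_comm]
    rfl
  rw [hv, hz, ← Finset.sum_sub_distrib]
  refine patch_pole_sum _ _ fun i _ => ?_
  rw [← mul_sub]
  exact ((hμ (g, i)).mul (hp i)).mono (Finset.le_sup (f := μ) (Finset.mem_univ (g, i)))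

/-- integral elements lift to series with poles of bounded order -/
theorem lift_int (ι₀ : E →+* Ls κ) (H : Ps E →+* Ps (Ls κ)) (hX : H PowerSeries.X = PowerSeries.X)
    (h0 : ∀ z, PowerSeries.constantCoeff (H (PowerSeries.C z)) = ι₀ z) (m : ℕ)
    (hm : ∀ v : (E ≃ₐ[F] E) → Ls κ, ∃ z, (toF κ[X] F E).IsIntegralElem z ∧
      ∀ g : E ≃ₐ[F] E, Pole m (v g - ι₀ (g z))) (z₀ : E) (hz : (toF κ[X] F E).IsIntegralElem z₀)
    (hp : ∀ g : E ≃ₐ[F] E, Pole m (ι₀ (g z₀))) :
    ∃ z : Ps E, PowerSeries.constantCoeff z = z₀ ∧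
      (∀ n, (toF κ[X] F E).IsIntegralElem (PowerSeries.coeff n z)) ∧
      ∀ (g : E ≃ₐ[F] E) (n : ℕ),
        Pole m (PowerSeries.coeff n (H (PowerSeries.map (g : E →+* E) z))) := by
  choose c hc1 hc2 using hm
  obtain ⟨z, hzn⟩ := patch_rec (0 : E) fun n a => if n = 0 then z₀ else
    c fun g => -∑ i ∈ Finset.range n, PowerSeries.coeff (n - i) (H (PowerSeries.C (g (a i))))
  have hz0 : z 0 = z₀ := by rw [hzn]; simp
  have hzs : ∀ n, n ≠ 0 → z n = c fun g => -∑ i ∈ Finset.range n,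
      PowerSeries.coeff (n - i) (H (PowerSeries.C (g (z i)))) := fun n hn => by
    rw [hzn, if_neg hn]
    congr 1
    funext g
    congr 1
    refine Finset.sum_congr rfl fun i hi => ?_
    simp only [if_pos (Finset.mem_range.1 hi)]
  refine ⟨PowerSeries.mk z, by simpa using hz0, fun n => ?_, fun g n => ?_⟩
  · rw [PowerSeries.coeff_mk]
    by_cases hn : n = 0
    · rw [hn, hz0]; exact hz
    · rw [hzs n hn]; exact hc1 _
  · have h1 : PowerSeries.coeff n (H (PowerSeries.map (g : E →+* E) (PowerSeries.mk z))) =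
        ∑ i ∈ Finset.range n, PowerSeries.coeff (n - i) (H (PowerSeries.C (g (z i)))) +
          ι₀ (g (z n)) := by
      rw [ps_coeff H hX, Finset.Nat.sum_antidiagonal_eq_sum_range_succ
        (fun a b => PowerSeries.coeff b (H (PowerSeries.C (PowerSeries.coeff a
          (PowerSeries.map (g : E →+* E) (PowerSeries.mk z)))))), Finset.sum_range_succ]
      simp only [PowerSeries.coeff_map, PowerSeries.coeff_mk, Nat.sub_self,
        PowerSeries.coeff_zero_eq_constantCoeff, h0, RingHom.coe_coe]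
    rw [h1]
    by_cases hn : n = 0
    · subst hn
      simpa [hz0] using hp g
    · have h2 := (hc2 (fun g => -∑ i ∈ Finset.range n,
        PowerSeries.coeff (n - i) (H (PowerSeries.C (g (z i))))) g).neg
      rw [← hzs n hn] at h2
      convert h2 using 1
      ring

end

end Pool.Agent.ZCy
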