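import Pool.Agent.Lib.MP_751085_ag.ZC.Z.Pole

/-! Block Z: exchange of variables. -/

namespace Pool.Agent.ZCy

open scoped Classical WithZero Polynomial

set_option linter.unusedSectionVars false

section

variable {R : Type} [CommRing R]

theorem swp_zero (m : ℕ) : Pole m (0 : Ls R) := fun _ _ => rfl

theorem swp_one : Pole 0 (1 : Ls R) := by
  intro j hj
  have hj' : j ≠ 0 := by omega
  rw [HahnSeries.coeff_one, if_neg hj']

theorem swp_sum {ι : Type} (s : Finset ι) (m : ℕ) (f : ι → Ls R) (h : ∀ i ∈ s, Pole m (f i)) :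
    Pole m (∑ i ∈ s, f i) := by
  induction s using Finset.induction_on with
  | empty => simpa using swp_zero m
  | insert a s ha ih =>
    rw [Finset.sum_insert ha]
    exact (h a (Finset.mem_insert_self _ _)).add
      (ih fun i hi => h i (Finset.mem_insert_of_mem hi))

theorem swp_coeff_mul {m m' : ℕ} {f g : Ls R} (hf : Pole m f) (hg : Pole m' g) (j : ℤ) :
    (f * g).coeff j = ∑ i ∈ Finset.Icc (-(m : ℤ)) (j + m'), f.coeff i * g.coeff (j - i) := by
  rw [HahnSeries.coeff_mul]
  symm
  apply Finset.sum_bij_ne_zero (fun i _ _ => (i, j - i))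
  · intro i _ hne
    rw [Finset.mem_addAntidiagonal]
    refine ⟨?_, ?_, by simp⟩
    · exact fun h => hne (by rw [h, zero_mul])
    · exact fun h => hne (by rw [h, mul_zero])
  · intro a _ _ b _ _ hab
    exact (Prod.mk.inj hab).1
  · rintro ⟨a, b⟩ hab hne
    rw [Finset.mem_addAntidiagonal] at hab
    obtain ⟨ha, hb, hj⟩ := hab
    have hb' : j - a = b := by
      have : a + b = j := hj
      omega
    have h1 : -(m : ℤ) ≤ a := by
      by_contra hlt
      exact ha (hf a (by omega))
    have h2 : -(m' : ℤ) ≤ b := by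
      by_contra hlt
      exact hb (hg b (by omega))
    refine ⟨a, Finset.mem_Icc.mpr ⟨h1, by omega⟩, ?_, by rw [hb']⟩
    rw [hb']
    exact hne
  · intro a _ _
    rfl

/-- series in `y` whose coefficients have poles of bounded order -/
def BdS (R : Type) [CommRing R] : Subring (Ps (Ls R)) where
  carrier := {f | ∃ m, ∀ n, Pole m (PowerSeries.coeff n f)}
  mul_mem' := by
    rintro f g ⟨m, hf⟩ ⟨m', hg⟩
    refine ⟨m + m', fun n => ?_⟩
    rw [PowerSeries.coeff_mul]
    exact swp_sum _ _ _ fun p _ => (hf p.1).mul (hg p.2)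
  one_mem' := by
    refine ⟨0, fun n => ?_⟩
    rw [PowerSeries.coeff_one]
    split_ifs
    · exact swp_one
    · exact swp_zero 0
  add_mem' := by
    rintro f g ⟨m, hf⟩ ⟨m', hg⟩
    refine ⟨max m m', fun n => ?_⟩
    rw [map_add]
    exact ((hf n).mono (le_max_left _ _)).add ((hg n).mono (le_max_right _ _))
  zero_mem' := ⟨0, fun n => by rw [map_zero]; exact swp_zero 0⟩
  neg_mem' := by
    rintro f ⟨m, hf⟩
    refine ⟨m, fun n => ?_⟩
    rw [map_neg]
    exact (hf n).neg

theorem mem_BdS (f : Ps (Ls R)) : f ∈ BdS R ↔ ∃ m, ∀ n, Pole m (PowerSeries.coeff n f) := Iff.rfl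

theorem swp_bdd (f : BdS R) : BddBelow (Function.support fun j : ℤ =>
    (PowerSeries.mk fun n => (PowerSeries.coeff n f.1).coeff j : Ps R)) := by
  obtain ⟨m, hm⟩ := (mem_BdS f.1).mp f.2
  refine ⟨-(m : ℤ), fun j hj => ?_⟩
  by_contra hlt
  apply hj
  ext n
  rw [PowerSeries.coeff_mk, map_zero]
  exact hm n j (by omega)

/-- the underlying map of the exchange -/
noncomputable def swpFun (f : BdS R) : Ls (Ps R) :=
  HahnSeries.ofSuppBddBelow _ (swp_bdd f)

theorem swpFun_coeff (f : BdS R) (j : ℤ) (n : ℕ) :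
    PowerSeries.coeff n ((swpFun f).coeff j) = (PowerSeries.coeff n f.1).coeff j := by
  rw [swpFun, HahnSeries.coeff_ofSuppBddBelow, PowerSeries.coeff_mk]

theorem swpFun_pole (f : BdS R) {m : ℕ} (hm : ∀ n, Pole m (PowerSeries.coeff n f.1)) :
    Pole m (swpFun f) := by
  intro j hj
  ext n
  rw [swpFun_coeff, map_zero]
  exact hm n j hj

theorem swpFun_mul (f g : BdS R) : swpFun (f * g) = swpFun f * swpFun g := by
  obtain ⟨m, hf⟩ := (mem_BdS f.1).mp f.2
  obtain ⟨m', hg⟩ := (mem_BdS g.1).mp g.2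
  ext j n
  rw [swpFun_coeff, swp_coeff_mul (swpFun_pole f hf) (swpFun_pole g hg), map_sum,
    Subring.coe_mul, PowerSeries.coeff_mul, HahnSeries.coeff_sum]
  simp only [PowerSeries.coeff_mul, swpFun_coeff]
  rw [Finset.sum_comm]
  exact Finset.sum_congr rfl fun p _ => swp_coeff_mul (hf p.1) (hg p.2) j

theorem swpFun_one : swpFun (1 : BdS R) = 1 := by
  ext j n
  rw [swpFun_coeff, Subring.coe_one, PowerSeries.coeff_one, HahnSeries.coeff_one]
  by_cases hn : n = 0 <;> by_cases hj : j = 0 <;>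
    simp [hn, hj, PowerSeries.coeff_one, HahnSeries.coeff_one]

theorem swpFun_add (f g : BdS R) : swpFun (f + g) = swpFun f + swpFun g := by
  ext j n
  rw [swpFun_coeff, Subring.coe_add, map_add, HahnSeries.coeff_add, HahnSeries.coeff_add, map_add,
    swpFun_coeff, swpFun_coeff]

theorem swpFun_zero : swpFun (0 : BdS R) = 0 := by
  ext j n
  rw [swpFun_coeff, Subring.coe_zero, map_zero, HahnSeries.coeff_zero, HahnSeries.coeff_zero,
    map_zero]

/-- exchange of the two variables -/
theorem exists_swap (R : Type) [CommRing R] : ∃ s : BdS R →+* Ls (Ps R),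
    ∀ f j n, PowerSeries.coeff n ((s f).coeff j) = (PowerSeries.coeff n f.1).coeff j :=
  ⟨{ toFun := swpFun
     map_one' := swpFun_one
     map_mul' := swpFun_mul
     map_zero' := swpFun_zero
     map_add' := swpFun_add }, swpFun_coeff⟩

end

end Pool.Agent.ZCy
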