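import Pool.Agent.Lib.MP_751085_ag.ZC.Z.Str
import Pool.Agent.Lib.MP_751085_ag.ZC.Z.Patch
import Pool.Agent.Lib.MP_751085_ag.ZC.Z.Swap
import Pool.Agent.Lib.MP_751085_ag.ZC.Z.LiftI
import Pool.Agent.Lib.MP_751085_ag.ZC.Z.LDefs

/-! Block Z: lifting a cover of the line to the ring of power series. -/

namespace Pool.Agent.ZCy

open scoped Classical WithZero Polynomial

set_option linter.unusedSectionVars false

section

open PowerSeries

variable {κ F₀ E₀ : Type} [Field κ] [CharZero κ] [Field F₀] [Field E₀] [Algebra κ[X] F₀]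
  [IsFractionRing κ[X] F₀] [Algebra F₀ E₀] [FiniteDimensional F₀ E₀] [IsGalois F₀ E₀]

theorem lr_int_map (g : E₀ ≃ₐ[F₀] E₀) {z : E₀} (hz : (toF κ[X] F₀ E₀).IsIntegralElem z) :
    (toF κ[X] F₀ E₀).IsIntegralElem (g z) := by
  obtain ⟨p, hp, h⟩ := hz
  refine ⟨p, hp, ?_⟩
  have h2 : (g : E₀ →+* E₀).comp (toF κ[X] F₀ E₀) = toF κ[X] F₀ E₀ :=
    RingHom.ext fun a => by simp
  have := Polynomial.hom_eval₂ p (toF κ[X] F₀ E₀) (g : E₀ →+* E₀) z
  rw [h, map_zero, h2] at this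
  exact this.symm

theorem lr_map_map (g g' : E₀ ≃ₐ[F₀] E₀) (z : Ps E₀) :
    map (g : E₀ →+* E₀) (map (g' : E₀ →+* E₀) z) = map ((g * g' : E₀ ≃ₐ[F₀] E₀) : E₀ →+* E₀) z := by
  ext n
  simp

theorem lr_map_one (z : Ps E₀) : map ((1 : E₀ ≃ₐ[F₀] E₀) : E₀ →+* E₀) z = z := by
  ext n
  simp

theorem lr_map_fix (g : E₀ ≃ₐ[F₀] E₀) (a : Ps κ[X]) :
    map (g : E₀ →+* E₀) (map (toF κ[X] F₀ E₀) a) = map (toF κ[X] F₀ E₀) a := by
  ext n
  simp

variable (F₀)

/-- series with integral coefficients and poles of bounded order -/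
def lrO (H : Ps E₀ →+* Ps (Ls κ)) : Subring (Ps E₀) where
  carrier := {z | (∀ n, (toF κ[X] F₀ E₀).IsIntegralElem (coeff n z)) ∧
    ∀ g : E₀ ≃ₐ[F₀] E₀, H (map (g : E₀ →+* E₀) z) ∈ BdS κ}
  mul_mem' := by
    rintro a b ⟨ha, ha'⟩ ⟨hb, hb'⟩
    refine ⟨fun n => ?_, fun g => ?_⟩
    · rw [coeff_mul]
      refine Finset.sum_induction _ _ (fun _ _ => RingHom.IsIntegralElem.add _)
        (RingHom.isIntegralElem_zero _) fun p _ => (ha _).mul _ (hb _)
    · rw [map_mul, map_mul]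
      exact mul_mem (ha' g) (hb' g)
  one_mem' := by
    refine ⟨fun n => ?_, fun g => ?_⟩
    · rw [coeff_one]
      split_ifs
      · exact RingHom.isIntegralElem_one _
      · exact RingHom.isIntegralElem_zero _
    · rw [map_one, map_one]
      exact one_mem _
  add_mem' := by
    rintro a b ⟨ha, ha'⟩ ⟨hb, hb'⟩
    refine ⟨fun n => ?_, fun g => ?_⟩
    · rw [map_add]
      exact (ha n).add _ (hb n)
    · rw [map_add, map_add]
      exact add_mem (ha' g) (hb' g)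
  zero_mem' := by
    refine ⟨fun n => ?_, fun g => ?_⟩
    · rw [map_zero]
      exact RingHom.isIntegralElem_zero _
    · rw [map_zero, map_zero]
      exact zero_mem _
  neg_mem' := by
    rintro a ⟨ha, ha'⟩
    refine ⟨fun n => ?_, fun g => ?_⟩
    · rw [map_neg]
      exact (ha n).neg _
    · rw [map_neg, map_neg]
      exact neg_mem (ha' g)

/-- the action on coefficients -/
@[reducible] noncomputable def lrAct (H : Ps E₀ →+* Ps (Ls κ)) :
    MulSemiringAction (E₀ ≃ₐ[F₀] E₀) (lrO F₀ H) where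
  smul g z := ⟨map (g : E₀ →+* E₀) z.1, fun n => by
    rw [coeff_map]
    exact lr_int_map g (z.2.1 n), fun g' => by
    rw [lr_map_map]
    exact z.2.2 _⟩
  one_smul z := Subtype.ext (lr_map_one z.1)
  mul_smul g g' z := Subtype.ext (lr_map_map g g' z.1).symm
  smul_zero g := Subtype.ext (map_zero (map (g : E₀ →+* E₀)))
  smul_add g a b := Subtype.ext (map_add (map (g : E₀ →+* E₀)) a.1 b.1)
  smul_one g := Subtype.ext (map_one (map (g : E₀ →+* E₀)))
  smul_mul g a b := Subtype.ext (map_mul (map (g : E₀ →+* E₀)) a.1 b.1)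

variable {F₀}

theorem lr_lift {ι₀ : E₀ →+* Ls κ} {H : Ps E₀ →+* Ps (Ls κ)} (hX : H X = X)
    (h0 : ∀ z, constantCoeff (H (C z)) = ι₀ z) (hι : ∀ p, ι₀ (toF κ[X] F₀ E₀ p) = tL κ p)
    (z₀ : E₀) (hz : (toF κ[X] F₀ E₀).IsIntegralElem z₀) :
    ∃ z : lrO F₀ H, constantCoeff z.1 = z₀ := by
  obtain ⟨m₀, hm₀⟩ := split_inf (F := F₀) ι₀ hι
  choose m hm using fun g : E₀ ≃ₐ[F₀] E₀ => exists_pole (ι₀ (g z₀))
  obtain ⟨z, h1, h2, h3⟩ := lift_int (F := F₀) ι₀ H hX h0 (m₀ + Finset.univ.sup m)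
    (fun v => by
      obtain ⟨z, hz, hp⟩ := hm₀ v
      exact ⟨z, hz, fun g => (hp g).mono (Nat.le_add_right _ _)⟩) z₀ hz
    fun g => (hm g).mono ((Finset.le_sup (f := m) (Finset.mem_univ g)).trans (Nat.le_add_left _ _))
  exact ⟨⟨z, h2, fun g => ⟨_, h3 g⟩⟩, h1⟩

/-- the discriminant of a lifted basis -/
theorem lr_disc (e : (E₀ ≃ₐ[F₀] E₀) → E₀)
    (hs : ∀ z, (toF κ[X] F₀ E₀).IsIntegralElem z → ∃ c : (E₀ ≃ₐ[F₀] E₀) → κ[X],
      z = ∑ i, toF κ[X] F₀ E₀ (c i) * e i) (z : (E₀ ≃ₐ[F₀] E₀) → Ps E₀)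
    (hz : ∀ i n, (toF κ[X] F₀ E₀).IsIntegralElem (coeff n (z i)))
    (h0 : ∀ i, constantCoeff (z i) = e i) :
    ∃ u : Ps κ[X], IsUnit u ∧ (Matrix.of fun g i : E₀ ≃ₐ[F₀] E₀ => map (g : E₀ →+* E₀) (z i)).det =
      C (Matrix.of fun g i : E₀ ≃ₐ[F₀] E₀ => g (e i)).det * map (toF κ[X] F₀ E₀) u := by
  choose c hc using fun i n => hs _ (hz i n)
  let M : Matrix (E₀ ≃ₐ[F₀] E₀) (E₀ ≃ₐ[F₀] E₀) (Ps κ[X]) := Matrix.of fun j i =>
    mk fun n => if n = 0 then (if j = i then 1 else 0) else c i n j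
  refine ⟨M.det, ?_, ?_⟩
  · rw [isUnit_iff_constantCoeff, RingHom.map_det]
    have : (constantCoeff : Ps κ[X] →+* κ[X]).mapMatrix M = 1 := by
      ext1 j i
      simp [M, Matrix.one_apply, ← coeff_zero_eq_constantCoeff_apply]
    rw [this, Matrix.det_one]
    exact isUnit_one
  · rw [RingHom.map_det, RingHom.map_det, ← Matrix.det_mul]
    congr 1
    ext g i n
    simp only [Matrix.of_apply, coeff_map, Matrix.mul_apply, RingHom.mapMatrix_apply,
      Matrix.map_apply, map_sum, coeff_C_mul, M, coeff_mk]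
    by_cases hn : n = 0
    · subst hn
      simp only [if_true, coeff_zero_eq_constantCoeff_apply, h0]
      rw [Finset.sum_eq_single i]
      · simp
      · intro j _ hj
        simp [hj]
      · simp
    · simp only [hn, if_false]
      rw [hc i n, map_sum]
      refine Finset.sum_congr rfl fun j _ => ?_
      simp [mul_comm]

theorem lr_det_sq {G O : Type} [Group G] [Fintype G] [CommRing O] [MulSemiringAction G O]
    (z : G → O) (g : G) : g • (Matrix.of fun h i : G => h • z i).det ^ 2 =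
      (Matrix.of fun h i : G => h • z i).det ^ 2 := by
  have h1 : g • (Matrix.of fun h i : G => h • z i).det =
      ((Matrix.of fun h i : G => h • z i).submatrix (Equiv.mulLeft g) id).det := by
    refine ((MulSemiringAction.toRingHom G O g).map_det _).trans ?_
    congr 1
    ext h i
    simp [mul_smul]
  rw [smul_pow', h1, Matrix.det_permute, mul_pow]
  rcases Int.units_eq_one_or (Equiv.Perm.sign (Equiv.mulLeft g)) with h | h <;> simp [h]

theorem lr_lead {R G : Type} [CommRing R] [Nontrivial R] [Fintype G] (m : ℕ) (x : G → G → Ls (Ps R))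
    (hp : ∀ g i, Pole m (x g i))
    (h0 : ∀ g i, constantCoeff ((x g i).coeff (-(m : ℤ))) = if g = i then 1 else 0)
    (Δ : (Ps R)[X]) (hΔ : tL _ Δ = (Matrix.of x).det ^ 2) : IsUnit Δ.leadingCoeff := by
  choose a ha using fun g i => (pole_iff m _).1 (hp g i)
  have hc : ∀ (k : ℕ) (b : PowerSeries (Ps R)), (HahnSeries.single (-(k : ℤ)) (1 : Ps R) *
      HahnSeries.ofPowerSeries ℤ (Ps R) b).coeff (-(k : ℤ)) = constantCoeff b := by
    intro k b
    have := HahnSeries.coeff_single_mul_add (r := (1 : Ps R))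
      (x := HahnSeries.ofPowerSeries ℤ (Ps R) b) (a := 0) (b := -(k : ℤ))
    rw [zero_add, one_mul] at this
    rw [this]
    exact (HahnSeries.ofPowerSeries_apply_coeff b 0).trans (coeff_zero_eq_constantCoeff_apply b)
  have h1 : Matrix.of x = HahnSeries.single (-(m : ℤ)) (1 : Ps R) •
      (HahnSeries.ofPowerSeries ℤ (Ps R)).mapMatrix (Matrix.of a) := by
    ext1 g i
    simp [ha g i]
  have h2 : tL _ Δ = HahnSeries.single (-((m * Fintype.card G * 2 : ℕ) : ℤ)) (1 : Ps R) *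
      HahnSeries.ofPowerSeries ℤ (Ps R) ((Matrix.of a).det ^ 2) := by
    rw [hΔ, h1, Matrix.det_smul, ← RingHom.map_det, mul_pow, ← pow_mul, map_pow,
      HahnSeries.single_pow]
    congr 2
    · simp only [nsmul_eq_mul]
      push_cast
      ring_nf
    · simp
  have h3 : IsUnit (Δ.coeff (m * Fintype.card G * 2)) := by
    rw [← tL_coeff, h2, hc, map_pow, isUnit_iff_constantCoeff, map_pow, RingHom.map_det,
      RingHom.map_det]
    have : (constantCoeff : Ps R →+* R).mapMatrix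
        ((constantCoeff : Ps (Ps R) →+* Ps R).mapMatrix (Matrix.of a)) = 1 := by
      ext1 g i
      have := h0 g i
      rw [ha g i, hc] at this
      simp [this, Matrix.one_apply]
    rw [this]
    simp
  have h4 : Δ.natDegree ≤ m * Fintype.card G * 2 := (pole_tL _ _).1 ((pole_iff _ _).2 ⟨_, h2⟩)
  have h5 : Δ.natDegree = m * Fintype.card G * 2 :=
    le_antisymm h4 (Polynomial.le_natDegree_of_ne_zero h3.ne_zero)
  rwa [Polynomial.leadingCoeff, h5]

theorem lift_ring (Th : (Ps κ)[X]) (hm : Th.Monic)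
    (hs : (Th.map PowerSeries.constantCoeff).Separable)
    (hu : UnrOff F₀ (toF κ[X] F₀ E₀) (Th.map PowerSeries.constantCoeff)) (ι₀ : E₀ →+* Ls κ)
    (hι : ∀ p, ι₀ (toF κ[X] F₀ E₀ p) = tL κ p) :
    ∃ (O : Type) (_ : CommRing O) (_ : MulSemiringAction (E₀ ≃ₐ[F₀] E₀) O),
      Nonempty (LRing κ E₀ (E₀ ≃ₐ[F₀] E₀) O (toF κ[X] F₀ E₀) Th) := by
  obtain ⟨Φ, ε, hΦX, hΦ0, hε, hΦT⟩ := straighten Th hm hs
  have hφ : Function.Injective (toF κ[X] F₀ E₀) :=
    (algebraMap F₀ E₀).injective.comp (IsFractionRing.injective κ[X] F₀)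
  have hc : ∀ f, constantCoeff (Φ f) = constantCoeff f := fun f =>
    (ps_constantCoeff (Φ : Ps κ[X] →+* Ps κ[X]) hΦX f).trans (hΦ0 _)
  obtain ⟨ι₁, h10, h1⟩ := lift_inf (F := F₀)
    ((map (tL κ)).comp ((Φ.symm : Ps κ[X] →+* Ps κ[X]).comp C)) ι₀ fun a => by
      have := hc (Φ.symm (C a))
      rw [Φ.apply_symm_apply, constantCoeff_C] at this
      rw [hι]
      simp only [RingHom.comp_apply, RingHom.coe_coe]
      rw [← coeff_zero_eq_constantCoeff_apply, coeff_map, coeff_zero_eq_constantCoeff_apply, ← this]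
  obtain ⟨H, hX, hC⟩ := exists_hat ι₁
  have h0 : ∀ z, constantCoeff (H (C z)) = ι₀ z := fun z => by rw [hC, h10]
  have hK : ∀ a, H (map (toF κ[X] F₀ E₀) (Φ a)) = map (tL κ) a := by
    have : H.comp (map (toF κ[X] F₀ E₀)) = (map (tL κ)).comp (Φ.symm : Ps κ[X] →+* Ps κ[X]) := by
      refine ps_ext ?_ ?_ fun b => ?_
      · rw [RingHom.comp_apply, map_X, hX]
      · have : Φ.symm X = X := Φ.symm_apply_eq.2 hΦX.symm
        rw [RingHom.comp_apply, RingHom.coe_coe, this, map_X]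
      · rw [RingHom.comp_apply, map_C, hC, h1]
        rfl
    intro a
    have h2 := RingHom.congr_fun this (Φ a)
    simpa using h2
  have hH : Function.Injective H := ps_injective H hX fun a b h => ι₀.injective (by
    simpa only [h0] using h)
  have hβ : ∀ p, map (toF κ[X] F₀ E₀) (Φ (al κ p)) ∈ lrO F₀ H := fun p =>
    ⟨fun n => by
      rw [coeff_map]
      exact RingHom.isIntegralElem_map _, fun g => by
      rw [lr_map_fix, hK]
      refine ⟨p.natDegree, fun n => ?_⟩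
      rw [coeff_map, pole_tL, Polynomial.natDegree_le_iff_coeff_eq_zero]
      intro i hi
      rw [al_coeff, Polynomial.coeff_eq_zero_of_natDegree_lt hi, map_zero]⟩
  have hb : ∀ z : lrO F₀ H, H z.1 ∈ BdS κ := fun z => by
    have := z.2.2 1
    rwa [lr_map_one] at this
  obtain ⟨sw, hsw⟩ := exists_swap κ
  let _ := lrAct F₀ H
  let β : (Ps κ)[X] →+* lrO F₀ H := RingHom.codRestrict
    ((map (toF κ[X] F₀ E₀)).comp ((Φ : Ps κ[X] →+* Ps κ[X]).comp (al κ))) _ hβ
  let s : lrO F₀ H →+* Ls (Ps κ) := sw.comp ((H.comp (lrO F₀ H).subtype).codRestrict _ hb)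
  have hsc : ∀ z j n, coeff n ((s z).coeff j) = (coeff n (H z.1)).coeff j := fun z j n => hsw _ j n
  have hsβ : ∀ p, s (β p) = tL _ p := by
    intro p
    ext j n
    rw [hsc]
    change (coeff n (H (map (toF κ[X] F₀ E₀) (Φ (al κ p))))).coeff j = _
    rw [hK, coeff_map]
    rcases lt_or_ge 0 j with hj | hj
    · rw [tL_coeff_pos _ _ hj, tL_coeff_pos _ _ hj, map_zero]
    · obtain ⟨i, rfl⟩ : ∃ i : ℕ, j = -(i : ℤ) := ⟨(-j).toNat, by omega⟩
      rw [tL_coeff, tL_coeff, al_coeff]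
  have hinv : ∀ z : lrO F₀ H, (∀ g : E₀ ≃ₐ[F₀] E₀, g • z = z) ↔ z ∈ β.range := by
    intro z
    constructor
    · intro h
      choose p hp using fun n => invariant_int (F := F₀) _ (z.2.1 n) fun g => by
        have := congrArg (fun x : lrO F₀ H => coeff n x.1) (h g)
        exact this
      have e : map (toF κ[X] F₀ E₀) (Φ (Φ.symm (mk p))) = z.1 := by
        ext n
        rw [Φ.apply_symm_apply, coeff_map, coeff_mk, hp]
      obtain ⟨m, hm⟩ := hb z
      obtain ⟨q, hq⟩ := al_range (Φ.symm (mk p)) m fun n => by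
        have := hm n
        rwa [← e, hK, coeff_map, pole_tL] at this
      refine ⟨q, Subtype.ext ?_⟩
      rw [← e, ← hq]
      rfl
    · rintro ⟨p, rfl⟩ g
      exact Subtype.ext (lr_map_fix g _)
  have hdet : ∀ z : (E₀ ≃ₐ[F₀] E₀) → lrO F₀ H,
      ((Matrix.of fun g i : E₀ ≃ₐ[F₀] E₀ => g • z i).det).1 =
        (Matrix.of fun g i : E₀ ≃ₐ[F₀] E₀ => map (g : E₀ →+* E₀) (z i).1).det := fun z =>
    (lrO F₀ H).subtype.map_det _
  refine ⟨lrO F₀ H, inferInstance, inferInstance, ⟨⟨β, (lrO F₀ H).subtype, s,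
    Subtype.val_injective, fun a b h => ?_, fun g z => rfl, hsβ, ?_, fun p => ?_, hinv, ?_, ?_⟩⟩⟩
  · refine Subtype.ext (hH ?_)
    ext n j
    rw [← hsc, ← hsc, h]
  · change map (toF κ[X] F₀ E₀) (Φ (al κ (Polynomial.C X))) = X
    rw [al, Polynomial.coe_eval₂RingHom, Polynomial.eval₂_C, map_X, hΦX, map_X]
  · change constantCoeff (map (toF κ[X] F₀ E₀) (Φ (al κ p))) = _
    rw [← coeff_zero_eq_constantCoeff_apply, coeff_map, coeff_zero_eq_constantCoeff_apply, hc,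
      al_constantCoeff]
  · obtain ⟨e, he, hes, hed⟩ := exists_int_basis (κ := κ) (F := F₀) (E := E₀)
    obtain ⟨d, N, hd, hdv⟩ := disc_dvd hu e he hes hed
    choose z hz using fun i => lr_lift hX h0 hι (e i) (he i)
    obtain ⟨u, hu', hu2⟩ := lr_disc e hes (fun i => (z i).1) (fun i => (z i).2.1) hz
    obtain ⟨Δ, hΔ⟩ := (hinv _).1 (lr_det_sq z)
    refine ⟨z, Δ, N, hΔ, ?_⟩
    have h3 : Φ (al κ Δ) = C d * u ^ 2 := by
      apply map_injective _ hφ
      have := congrArg Subtype.val hΔ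
      refine this.trans ?_
      rw [SubmonoidClass.coe_pow, hdet, hu2, mul_pow, ← map_pow, ← hd, map_mul, map_C, map_pow]
    rw [← map_dvd_iff Φ, h3, map_pow, hΦT, mul_pow, (hu'.pow 2).mul_right_dvd, ← map_pow]
    exact (map_dvd C hdv).mul_right _
  · obtain ⟨m₀, hm₀⟩ := split_inf (F := F₀) ι₀ hι
    choose z₀ hz₀ hp₀ using fun i : E₀ ≃ₐ[F₀] E₀ => hm₀ fun g =>
      if g = i then HahnSeries.single (-((m₀ + 1 : ℕ) : ℤ)) 1 else 0
    have hco : ∀ (i g : E₀ ≃ₐ[F₀] E₀) (j : ℤ), j < -(m₀ : ℤ) → (ι₀ (g (z₀ i))).coeff j =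
        if g = i ∧ j = -((m₀ + 1 : ℕ) : ℤ) then 1 else 0 := by
      intro i g j hj
      have := hp₀ i g j hj
      rw [HahnSeries.coeff_sub, sub_eq_zero] at this
      rw [← this]
      by_cases hg : g = i
      · simp only [hg, if_true, true_and, HahnSeries.coeff_single]
        congr 1
      · simp [hg]
    choose z h1 h2 h3 using fun i => lift_int (F := F₀) ι₀ H hX h0 (m₀ + 1)
      (fun v => by
        obtain ⟨z, hz, hp⟩ := hm₀ v
        exact ⟨z, hz, fun g => (hp g).mono (Nat.le_succ _)⟩) (z₀ i) (hz₀ i) fun g j hj => by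
      rw [hco i g j (by push_cast at hj; omega), if_neg fun h => hj.ne h.2]
    let y : (E₀ ≃ₐ[F₀] E₀) → lrO F₀ H := fun i => ⟨z i, h2 i, fun g => ⟨_, h3 i g⟩⟩
    obtain ⟨Δ, hΔ⟩ := (hinv _).1 (lr_det_sq y)
    refine ⟨y, Δ, hΔ, lr_lead (m₀ + 1) (fun g i => s (g • y i)) (fun g i j hj => ?_)
      (fun g i => ?_) Δ ?_⟩
    · ext n
      rw [hsc, map_zero]
      exact h3 i g n j hj
    · rw [← coeff_zero_eq_constantCoeff_apply, hsc, coeff_zero_eq_constantCoeff_apply,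
        ps_constantCoeff H hX, h0]
      change (ι₀ (constantCoeff (map (g : E₀ →+* E₀) (z i)))).coeff _ = _
      rw [← coeff_zero_eq_constantCoeff_apply, coeff_map, coeff_zero_eq_constantCoeff_apply, h1,
        RingHom.coe_coe, hco i g _ (by push_cast; omega)]
      simp
    · rw [← hsβ, hΔ, map_pow, RingHom.map_det]
      rfl

end

end Pool.Agent.ZCy
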