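import Pool.Agent.Lib.MP_751085_ag.ZC.Z.Split
import Pool.Agent.Lib.MP_751085_ag.ZC.Z.Cst

/-! Block Z: the Zariski-Lefschetz theorem. -/

namespace Pool.Agent.ZCy

open scoped Classical WithZero Polynomial
open MvPolynomial

set_option linter.unusedSectionVars false

theorem flpHom_map {R S ι E : Type} [CommRing R] [CommRing S] [Field E] (f : R →+* S)
    (φ : MP (Option ι) S →+* E) : flpHom (φ.comp (map f)) = (flpHom φ).comp (map f) := by
  refine ringHom_ext (fun a => ?_) fun i => ?_
  · simp [flpHom]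
  · cases i <;> simp [flpHom]

theorem zm_map_hyp {R S ι : Type} [CommRing R] [CommRing S] (f : R →+* S)
    (p : MP (Option (Option ι)) R) : hyp (map f p) = map f (hyp p) := by
  have : (hyp : MP (Option (Option ι)) S →+* _).comp (map f) = (map f).comp hyp := by
    refine ringHom_ext (fun a => ?_) fun i => ?_
    · simp [hyp]
    · rcases i with _ | _ | i <;> simp [hyp]
  exact RingHom.congr_fun this p

theorem zm_const_hyp {R ι : Type} [CommRing R] (p : MP (Option (Option ι)) R) :
    constantCoeff (hyp p) = constantCoeff p := by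
  have : constantCoeff.comp (hyp : MP (Option (Option ι)) R →+* _) = constantCoeff := by
    refine ringHom_ext (fun a => ?_) fun i => ?_
    · simp [hyp]
    · rcases i with _ | _ | i <;> simp [hyp]
  exact RingHom.congr_fun this p

theorem LefData.unr_th0 {k σ L E : Type} [Field k] [Fintype σ] [Field L] [Field E] [Algebra L E]
    (Λ : LefData k σ) {φ : MP (Option σ) k →+* E} {ψ : (RF σ k)[X] →+* E} (h : IsPol φ ψ)
    (hφ : Function.Injective φ) (hu : UnrOff L φ (hyp Λ.Θ)) : UnrOff L ψ Λ.th0 := by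
  have hh : (hyp (X none) : MP (Option σ) k) = X none := by simp [hyp]
  have e := flp_eval (φ.comp hyp) (by
    rw [RingHom.comp_apply, hh]
    exact (map_ne_zero_iff _ hφ).2 (X_ne_zero _)) Λ.Θ
  rw [flpHom_hyp, RingHom.comp_apply, RingHom.comp_apply, RingHom.comp_apply, hh, ← h] at e
  refine unrOff_pol h hφ hu e ?_
  obtain ⟨q, hq⟩ := X_dvd_flp Λ.Θ
  rw [LefData.th0, hq, map_mul, hh, tp, map_mul, optionEquivLeft_X_none, Polynomial.map_mul,
    Polynomial.map_X]
  exact dvd_mul_right _ _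

/-- the expansion of the coordinates along the generic line through the origin -/
theorem zm_dir {k σ F : Type} [Field k] [Fintype σ] [Field F] {φ : MP (Option σ) k →+* F}
    {ψ : (RF σ k)[X] →+* F} (h : IsPol φ ψ) (hφ : Function.Injective φ) (l : F →+* Ls (RF σ k))
    (hl : ∀ p, l (ψ p) = tL _ p) :
    (∀ a, l (φ (C a)) = HahnSeries.C (algebraMap (MP σ k) (RF σ k) (C a))) ∧
      l (φ (X none)) = HahnSeries.single 1 1 ∧
      ∀ j, l (φ (X (some j))) = HahnSeries.single 1 (algebraMap (MP σ k) (RF σ k) (X j)) := by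
  have hC : ∀ a, tL (RF σ k) (Polynomial.C a) = HahnSeries.C a := fun a => by simp [tM]
  have h0 : φ (X none) ≠ 0 := (map_ne_zero_iff _ hφ).2 (X_ne_zero _)
  have h1 : l (φ (X none)) = HahnSeries.single 1 1 := by
    have e := hl Polynomial.X
    rw [h.X, map_inv₀] at e
    rw [← inv_inv (l _), e]
    refine inv_eq_of_mul_eq_one_right ?_
    simp [tM, HahnSeries.single_mul_single]
  refine ⟨fun a => ?_, h1, fun j => ?_⟩
  · rw [← hC, ← hl, h.C]
    simp [flpHom]
  · have e : φ (X (some j)) = ψ (Polynomial.C (algebraMap (MP σ k) (RF σ k) (X j))) * φ (X none) := by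
      rw [h.C]
      simp [flpHom, h0]
    rw [e, map_mul, hl, hC, h1, HahnSeries.C_apply, HahnSeries.single_mul_single, zero_add, mul_one]

/-- after a finite extension of the constants the origin splits -/
theorem zm_split (hP : ZNP) {k σ EH : Type} [Field k] [CharZero k] [Fintype σ] (Λ : LefData k σ)
    [Field EH] [Algebra (RF (Option σ) k) EH] [FiniteDimensional (RF (Option σ) k) EH]
    [IsGalois (RF (Option σ) k) EH]
    (hu : UnrOff (RF (Option σ) k) (toE (MP (Option σ) k) EH) (hyp Λ.Θ)) :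
    ∃ (k₁ : Type) (_ : Field k₁) (_ : Algebra k k₁) (_ : FiniteDimensional k k₁)
      (Λ₁ : LefData k₁ σ) (E₁ : Type) (_ : Field E₁) (_ : Algebra (RF (Option σ) k₁) E₁)
      (_ : FiniteDimensional (RF (Option σ) k₁) E₁) (_ : IsGalois (RF (Option σ) k₁) E₁)
      (ψ : (RF σ k₁)[X] →+* E₁) (J : E₁ →+* Ls (RF σ k₁)) (j : EH →+* E₁),
      Λ₁.Θ = map (algebraMap k k₁) Λ.Θ ∧ IsPol (toE (MP (Option σ) k₁) E₁) ψ ∧
      UnrOff (RF (Option σ) k₁) ψ Λ₁.th0 ∧ (∀ p, J (ψ p) = tL _ p) ∧
      ∀ p, j (toE (MP (Option σ) k) EH p) = toE (MP (Option σ) k₁) E₁ (map (algebraMap k k₁) p) := by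
  obtain ⟨k₁, _, _, _, _, J₀, hJ₀⟩ := hP k (Option σ) EH _ hu k 0 (by
    rw [aeval_zero, zm_const_hyp, Λ.one, map_one]
    exact one_ne_zero)
  obtain ⟨ω, hω, hωC, hω0, hω1⟩ := exists_dir k₁ σ
  obtain ⟨f, hf⟩ := exists_rfMap (Option σ) (algebraMap k k₁)
  obtain ⟨fκ, hfκ⟩ := exists_rfMap σ (algebraMap k k₁)
  obtain ⟨_, _, h0⟩ := exists_polAlg k σ
  obtain ⟨_, _, h1⟩ := exists_polAlg k₁ σ
  obtain ⟨Λ₁, hΛ⟩ := Λ.exists_map (algebraMap k k₁)
  have hl := IsFractionRing.lift_algebraMap (K := RF (Option σ) k₁) (tL_injective (R := RF σ k₁))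
  obtain ⟨lC, l0, l1⟩ := zm_dir h1 (IsFractionRing.injective _ _) _ hl
  have hω' := IsFractionRing.lift_algebraMap (K := Fr (MvPowerSeries (Option σ) k₁)) hω
  obtain ⟨E₁, _, _, _, _, j, J₁, hj, hJ₁, hg⟩ := exists_comp (F₀ := RF (Option σ) k) f
    (IsFractionRing.lift (tL_injective (R := RF σ k₁))) ((IsFractionRing.lift hω).comp J₀) (by
      have : ((IsFractionRing.lift hω).comp J₀).comp (algebraMap (RF (Option σ) k) EH) =
          (IsFractionRing.lift (tL_injective (R := RF σ k₁))).comp f := by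
        refine IsLocalization.ringHom_ext (nonZeroDivisors (MP (Option σ) k)) ?_
        have e : ∀ p, IsFractionRing.lift hω (J₀ (algebraMap (RF (Option σ) k) EH
            (algebraMap (MP (Option σ) k) _ p))) = ω (MvPowerSeries.map (algebraMap k k₁)
              (tay (algebraMap k k) 0 p)) := fun p => (congrArg _ (hJ₀ p)).trans (hω' _)
        refine ringHom_ext (fun a => ?_) fun i => ?_
        · simp only [RingHom.comp_apply, e, hf, map_C, lC]
          simp [tay, hωC]
        · cases i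
          · simp only [RingHom.comp_apply, e, hf, map_X, l0]
            simp [tay, hω0]
          · simp only [RingHom.comp_apply, e, hf, map_X, l1]
            simp [tay, hω1]
      exact RingHom.congr_fun this)
  have hjp : ∀ p, j (toE (MP (Option σ) k) EH p) =
      toE (MP (Option σ) k₁) E₁ (map (algebraMap k k₁) p) := fun p =>
    (hj _).trans (congrArg _ (hf p))
  have hmm : ∀ q : MP (Option σ) k, ((tp q).map (algebraMap (MP σ k) (RF σ k))).map fκ =
      (tp (map (algebraMap k k₁) q)).map (algebraMap (MP σ k₁) (RF σ k₁)) := fun q => by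
    rw [tp_map, Polynomial.map_map, Polynomial.map_map]
    congr 1
    exact RingHom.ext hfκ
  have hψ : j.comp (toF (RF σ k)[X] (RF (Option σ) k) EH) =
      (toF (RF σ k₁)[X] (RF (Option σ) k₁) E₁).comp (Polynomial.mapRingHom fκ) := by
    refine ((h0.comp _).comp j).unique fun q => ?_
    have e : j.comp ((algebraMap (RF (Option σ) k) EH).comp (algebraMap (MP (Option σ) k) _)) =
        (toE (MP (Option σ) k₁) E₁).comp (map (algebraMap k k₁)) := RingHom.ext hjp
    rw [e, flpHom_map, RingHom.comp_apply, Polynomial.coe_mapRingHom, hmm]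
    exact h1.comp _ _
  have hinj : Function.Injective (toE (MP (Option σ) k) EH) :=
    (algebraMap (RF (Option σ) k) EH).injective.comp
      (IsFractionRing.injective (MP (Option σ) k) (RF (Option σ) k))
  have hu0 := Λ.unr_th0 (h0.comp (algebraMap _ EH)) hinj hu
  refine ⟨k₁, inferInstance, inferInstance, inferInstance, Λ₁, E₁, inferInstance, inferInstance,
    inferInstance, inferInstance, _, J₁, j, hΛ, h1.comp _, fun P w hP hd hc => ?_,
    fun p => (hJ₁ _).trans (hl p), hjp⟩
  refine eq_bot_iff.2 fun g hi => hg g (fix_of_ine (K := RF (Option σ) k) j g.toRingEquiv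
    (fun a => ?_) w hi.1 hi.2 (unr_of_le hu0 (fun a => ?_) ?_))
  · rw [hj]
    exact g.commutes _
  · exact (congrArg w (RingHom.congr_fun hψ a)).trans_le (hc.1 _)
  · refine (congrArg w (RingHom.congr_fun hψ _)).trans ?_
    have e : Λ.th0.map fκ = Λ₁.th0 := by
      rw [LefData.th0, LefData.th0, hmm, hΛ, ← map_flp (algebraMap k k₁).injective, zm_map_hyp]
    rw [RingHom.comp_apply, Polynomial.coe_mapRingHom, e]
    exact le_antisymm (hc.1 _) (not_lt.1 fun h => hd ((hc.2 _).1 h))

theorem thmZ_of (hGR : GR0) (hP : ZNP) (hZ : Z1H) : ThmZ := by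
  intro k _ _ σ _ Λ EH _ _ _ _ hu
  obtain ⟨k₁, _, _, _, Λ₁, E₁, _, _, _, _, ψ, J, j, hΛ, hψ, hu₁, hJ, hj⟩ := zm_split hP Λ hu
  have : CharZero k₁ := charZero_of_injective_algebraMap (algebraMap k k₁).injective
  obtain ⟨E', _, _, _, _, w', ρ', hu', hρ', hs, hp⟩ := zsplit hGR hZ Λ₁ ψ hψ hu₁ J hJ
  obtain ⟨f, hf⟩ := exists_rfMap (Option (Option σ)) (algebraMap k k₁)
  let _ : Algebra (RF (Option (Option σ)) k) (RF (Option (Option σ)) k₁) := f.toAlgebra
  have := rf_finite (k := k) (k₁ := k₁) (ι := Option (Option σ)) hf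
  let _ : Algebra (RF (Option (Option σ)) k) E' :=
    ((algebraMap (RF (Option (Option σ)) k₁) E').comp f).toAlgebra
  have : IsScalarTower (RF (Option (Option σ)) k) (RF (Option (Option σ)) k₁) E' :=
    .of_algebraMap_eq fun _ => rfl
  have : FiniteDimensional (RF (Option (Option σ)) k) E' :=
    Module.Finite.trans (RF (Option (Option σ)) k₁) E'
  obtain ⟨N, _, _, _, _, i, hg⟩ := exists_closure (RF (Option (Option σ)) k) E'
  have hi : ∀ p, (i : E' →+* N) (toE (MP (Option (Option σ)) k₁) E' (map (algebraMap k k₁) p)) =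
      toE (MP (Option (Option σ)) k) N p := fun p =>
    (congrArg i (congrArg (algebraMap _ E') (hf p).symm)).trans (i.commutes _)
  let _ : Algebra E' N := (i : E' →+* N).toAlgebra
  have : IsScalarTower (RF (Option (Option σ)) k) E' N :=
    .of_algebraMap_eq fun a => (i.commutes a).symm
  have : FiniteDimensional E' N := Module.Finite.of_restrictScalars_finite
    (RF (Option (Option σ)) k) E' N
  obtain ⟨w, hw⟩ := zv_exists (E := N) w'
  obtain ⟨ρ, hρ, hρρ⟩ := zv_red hw ((algebraMap E₁ (AlgebraicClosure E₁)).comp ρ') fun x => by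
    rw [RingHom.comp_apply, map_eq_zero]
    exact hρ' x
  have key : ∀ (p : MP (Option (Option σ)) k), ∃ h, ρ ⟨toE _ N p, h⟩ =
      ((algebraMap E₁ (AlgebraicClosure E₁)).comp j) (toE (MP (Option σ) k) EH (hyp p)) := by
    intro p
    obtain ⟨h, e⟩ := hp (map (algebraMap k k₁) p)
    have h2 := (hw _).2 h
    have h3 : toE (MP (Option (Option σ)) k) N p ∈ w.integer :=
      (congrArg w (hi p).symm).trans_le h2
    refine ⟨h3, ?_⟩
    rw [RingHom.comp_apply (algebraMap E₁ _), hj, ← zm_map_hyp, ← e]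
    exact (congrArg ρ (Subtype.ext (hi p).symm)).trans (hρρ ⟨_, h⟩ h2)
  refine ⟨N, inferInstance, inferInstance, inferInstance, inferInstance, w, AlgebraicClosure E₁,
    inferInstance, ρ, (algebraMap E₁ _).comp j, unr_closure (i : E' →+* N) hi hg (hΛ ▸ hu'),
    ⟨fun p => (key p).1, fun p => ?_⟩, hρ, ?_, fun p y hy => ?_⟩
  · obtain ⟨h, e⟩ := key p
    refine (hρ ⟨_, h⟩).symm.trans ?_
    have hinj : Function.Injective (toE (MP (Option σ) k) EH) :=
      (algebraMap (RF (Option σ) k) EH).injective.comp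
        (IsFractionRing.injective (MP (Option σ) k) (RF (Option σ) k))
    rw [e, map_eq_zero, map_eq_zero_iff _ hinj, hyp_eq_zero]
  · rintro _ ⟨z, rfl⟩
    obtain ⟨a, ha⟩ := hs (j z)
    exact ⟨⟨_, (hw _).2 a.2⟩, (hρρ a _).trans (congrArg (algebraMap E₁ (AlgebraicClosure E₁)) ha)⟩
  · obtain ⟨h, e⟩ := key p
    exact (congrArg ρ (Subtype.ext hy)).trans e

end Pool.Agent.ZCy
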