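import Pool.Agent.Lib.MP_751085_ag.ZC.Z.NV3

/-! Block Z: what is used from the valuation theory. -/

namespace Pool.Agent.ZCy

open scoped Classical WithZero Polynomial

set_option linter.unusedSectionVars false

section

variable {A K E : Type} [CommRing A] [Field K] [Field E] [Algebra K E]

theorem zw_integral (φ : A →+* E) {x : E}
    (h : ∀ V : ValuationSubring E, (∀ a, φ a ∈ V) → x ∈ V) : φ.IsIntegralElem x := by
  let _ := φ.toAlgebra
  by_contra hn
  obtain ⟨V, h1, h2⟩ := Subring.exists_le_valuationSubring_of_isIntegrallyClosedIn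
    (R := (integralClosure A E).toSubring) (x := x) hn
  exact h2 (h V fun a => h1 (isIntegral_algebraMap (x := a)))

/-- the valuation ring is a localisation of the integral closure -/
theorem zv_loc [IsDomain A] [IsPrincipalIdealRing A] [Algebra A K] [IsFractionRing A K]
    [FiniteDimensional K E] [Algebra.IsSeparable K E] {w : Vl E} {P : A} (hP : Prime P)
    (hc : Cen (toF A K E) w P) (x : E) (hx : w x ≤ 1) :
    ∃ b s, (toF A K E).IsIntegralElem b ∧ (toF A K E).IsIntegralElem s ∧ w s = 1 ∧ x * s = b := by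
  let _ := (toF A K E).toAlgebra
  have : IsScalarTower A K E := .of_algebraMap_eq fun _ => rfl
  obtain ⟨p, h0, hp⟩ : IsAlgebraic A x :=
    (IsFractionRing.isAlgebraic_iff A K E).2 (Algebra.IsAlgebraic.isAlgebraic x)
  obtain ⟨n, q, hq, rfl⟩ := WfDvdMonoid.max_power_factor' h0
    (x := Polynomial.C P) fun h => hP.not_isUnit (Polynomial.isUnit_C.1 h)
  have hP0 : toF A K E P ≠ 0 := (map_ne_zero (algebraMap K E)).2
    ((map_ne_zero_iff _ (IsFractionRing.injective A K)).2 hP.ne_zero)
  rw [map_mul, map_pow, Polynomial.aeval_C] at hp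
  obtain ⟨i, hi⟩ := not_forall.1 (mt (Polynomial.C_dvd_iff_dvd_coeff P q).2 hq)
  obtain ⟨s, hs, hV⟩ := zw_loc (toF A K E) w hc.1 hx q
    ⟨i, (hc.1 _).eq_of_not_lt fun h => hi ((hc.2 _).1 h)⟩
    ((mul_eq_zero.1 hp).resolve_left (pow_ne_zero n hP0))
  exact ⟨_, s, zw_integral _ fun V h => (hV V h).2, zw_integral _ fun V h => (hV V h).1, hs, rfl⟩

/-- the valuative criterion of integrality -/
theorem zv_int [IsDomain A] [IsPrincipalIdealRing A] [Algebra A K] [IsFractionRing A K]
    [FiniteDimensional K E] [Algebra.IsSeparable K E] (x : E)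
    (hx : ∀ (P : A) (w : Vl E), Prime P → Cen (toF A K E) w P → w x ≤ 1) :
    (toF A K E).IsIntegralElem x := by
  let _ := (toF A K E).toAlgebra
  have : IsScalarTower A K E := .of_algebraMap_eq fun _ => rfl
  have := integralClosure.isDedekindDomain A K E
  have := integralClosure.isFractionRing_of_finite_extension (A := A) K E
  have : FaithfulSMul A (integralClosure A E) := (faithfulSMul_iff_algebraMap_injective _ _).2
    fun a b h => IsFractionRing.injective A K ((algebraMap K E).injective (congrArg Subtype.val h))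
  obtain ⟨b, rfl⟩ := IsDedekindDomain.HeightOneSpectrum.mem_integers_of_valuation_le_one
    (R := integralClosure A E) E x fun q => by
      have := q.isPrime
      have h0 : q.asIdeal.under A ≠ ⊥ := Ideal.under_ne_bot A q.ne_bot
      refine hx (Submodule.IsPrincipal.generator (q.asIdeal.under A)) _
        (Submodule.IsPrincipal.prime_generator_of_isPrime _ h0) ⟨fun a => ?_, fun a => ?_⟩
      · exact q.valuation_le_one (algebraMap A (integralClosure A E) a)
      · exact (q.valuation_lt_one_iff_mem (algebraMap A (integralClosure A E) a)).trans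
          (Submodule.IsPrincipal.mem_iff_generator_dvd (q.asIdeal.under A))
  exact b.2

/-- extension of a residue map -/
theorem zv_red [FiniteDimensional K E] {Ω : Type} [Field Ω] [IsAlgClosed Ω] {v : Vl K} {w : Vl E}
    (h : Over (algebraMap K E) v w) (ρ : v.integer →+* Ω) (hρ : IsRed v ρ) :
    ∃ ρ' : w.integer →+* Ω, IsRed w ρ' ∧
      ∀ (a : v.integer) h', ρ' ⟨algebraMap K E a, h'⟩ = ρ a := by
  let I : Ideal v.integer := zwI v fun _ h => h
  let J : Ideal w.integer := zwI w fun _ h => h
  have : I.IsPrime := zwI_prime _ _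
  have : J.IsPrime := zwI_prime _ _
  let f : v.integer →+* w.integer :=
    ((algebraMap K E).comp v.integer.subtype).codRestrict _ fun a => (h _).2 a.2
  have hf : ∀ a, Ideal.Quotient.mk J (f a) = 0 ↔ a ∈ I := fun a =>
    Ideal.Quotient.eq_zero_iff_mem.trans (zw_lt h _)
  let _ : Algebra (v.integer ⧸ I) (w.integer ⧸ J) :=
    (Ideal.Quotient.lift I ((Ideal.Quotient.mk J).comp f) fun a => (hf a).2).toAlgebra
  let _ : Algebra (v.integer ⧸ I) Ω := (Ideal.Quotient.lift I ρ fun a => (hρ a).2).toAlgebra
  have : Module.IsTorsionFree (v.integer ⧸ I) (w.integer ⧸ J) :=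
    Module.isTorsionFree_iff_algebraMap_injective.2 ((injective_iff_map_eq_zero _).2 fun a ha => by
      obtain ⟨a, rfl⟩ := Ideal.Quotient.mk_surjective a
      exact Ideal.Quotient.eq_zero_iff_mem.2 ((hf a).1 ha))
  have : Module.IsTorsionFree (v.integer ⧸ I) Ω :=
    Module.isTorsionFree_iff_algebraMap_injective.2 ((injective_iff_map_eq_zero _).2 fun a ha => by
      obtain ⟨a, rfl⟩ := Ideal.Quotient.mk_surjective a
      exact Ideal.Quotient.eq_zero_iff_mem.2 ((hρ a).1 ha))
  have : Algebra.IsAlgebraic (v.integer ⧸ I) (w.integer ⧸ J) := ⟨fun y => by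
    obtain ⟨y, rfl⟩ := Ideal.Quotient.mk_surjective y
    obtain ⟨p, hp, i, hi⟩ := zw_poly v (y : E)
    refine ⟨p.map (Ideal.Quotient.mk I), fun h0 => ?_, ?_⟩
    · have := congrArg (fun r => r.coeff i) h0
      simp only [Polynomial.coeff_map, Polynomial.coeff_zero] at this
      exact (show v _ < 1 from Ideal.Quotient.eq_zero_iff_mem.1 this).ne hi
    · have h1 : p.eval₂ f y = 0 := Subtype.ext ((Polynomial.hom_eval₂ p f w.integer.subtype y).trans hp)
      rw [Polynomial.aeval_def, Polynomial.eval₂_map]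
      exact (Polynomial.hom_eval₂ p f (Ideal.Quotient.mk J) y).symm.trans (by rw [h1, map_zero])⟩
  let l : (w.integer ⧸ J) →ₐ[v.integer ⧸ I] Ω := IsAlgClosed.lift
  refine ⟨(l : _ →+* Ω).comp (Ideal.Quotient.mk J), fun x => ?_, fun a _ => ?_⟩
  · refine ⟨fun h0 => (show w x ≤ 1 from x.2).lt_of_ne fun h1 => ?_, fun hl =>
      (congrArg l (Ideal.Quotient.eq_zero_iff_mem.2 hl)).trans (map_zero l)⟩
    exact ((Valuation.Integers.isUnit_of_one' (Valuation.integer.integers w) h1).map _).ne_zero h0
  · exact l.commutes (Ideal.Quotient.mk I a)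

end

end Pool.Agent.ZCy
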