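import Pool.Agent.Lib.MP_751085_ag.ZC.Z.ZDefs

/-! Block Z: valuations in algebraic extensions, elementary facts. -/

namespace Pool.Agent.ZCy

open scoped Classical WithZero Polynomial

set_option linter.unusedSectionVars false

section

variable {A K E : Type} [CommRing A] [Field K] [Field E] [Algebra K E]

theorem zv_dec [FiniteDimensional K E] {w : Vl E} {g : E ≃ₐ[K] E}
    (h : ∀ x, w (g x) ≤ 1 ↔ w x ≤ 1) : g ∈ Dec K w := by
  have he : (w.comap (g : E →+* E)).IsEquiv w := Valuation.isEquiv_iff_val_le_one.2 fun {x} => h x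
  have hm : ∀ a b, w a < w b → w (g a) < w (g b) := fun a b hab =>
    not_le.1 fun h' => hab.not_ge ((he b a).1 h')
  have hn : 0 < orderOf g := orderOf_pos g
  intro x
  have e : (g ^ orderOf g) x = (g ^ 0) x := by rw [pow_orderOf_eq_one, pow_zero]
  rcases lt_trichotomy (w (g x)) (w x) with h1 | h1 | h1
  · have : StrictAnti fun n : ℕ => w ((g ^ n) x) := strictAnti_nat_of_succ_lt fun n => by
      induction n with
      | zero => simpa using h1
      | succ n ih => simpa only [pow_succ' g, AlgEquiv.mul_apply] using hm _ _ ih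
    exact absurd (congrArg w e) (this hn).ne
  · exact h1
  · have : StrictMono fun n : ℕ => w ((g ^ n) x) := strictMono_nat_of_lt_succ fun n => by
      induction n with
      | zero => simpa using h1
      | succ n ih => simpa only [pow_succ' g, AlgEquiv.mul_apply] using hm _ _ ih
    exact absurd (congrArg w e) (this hn).ne'

theorem zw_nat {Γ : Type} [LinearOrderedCommGroupWithZero Γ] (w : Valuation E Γ) (n : ℕ) :
    w (n : E) ≤ 1 := by
  induction n with
  | zero => simp
  | succ n ih => exact Nat.cast_succ (R := E) n ▸ w.map_add_le ih w.map_one.le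

theorem zv_unr [FiniteDimensional K E] [IsGalois K E] {w : Vl E}
    (ht : w (Nat.card (E ≃ₐ[K] E) : E) = 1) (he : Ix1 K w) : Ine K w = ⊥ := by
  have h1 : w (Fintype.card (Ine K w) : E) = 1 := by
    obtain ⟨m, hm⟩ := Subgroup.card_subgroup_dvd_card (Ine K w)
    rw [hm, Nat.cast_mul, map_mul, Nat.card_eq_fintype_card] at ht
    exact le_antisymm (zw_nat w _) (ht.ge.trans (mul_le_of_le_one_right' (zw_nat w _)))
  have h2 : ∀ x, x ≠ 0 → ∀ g ∈ Ine K w, w (g x - x) < w x := by
    intro x hx g hg
    obtain ⟨a, ha⟩ := he x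
    have hx' : w x ≠ 0 := (map_ne_zero w).2 hx
    have ha0 : algebraMap K E a ≠ 0 := (map_ne_zero w).1 (ha ▸ hx')
    have := hg.2 (x / algebraMap K E a) (by rw [map_div₀, ← ha, div_self hx'])
    rwa [map_div₀, g.commutes, ← sub_div, map_div₀, ← ha, div_lt_one₀ (zero_lt_iff.2 hx')] at this
  refine eq_bot_iff.2 fun g hg => AlgEquiv.ext fun y => ?_
  by_contra hy
  have hx : g y - y ≠ 0 := sub_ne_zero.2 hy
  have hs : ∑ i : Ine K w, (i.1 (g y - y) - (g y - y)) =
      -((Fintype.card (Ine K w) : E) * (g y - y)) := by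
    have := Fintype.sum_equiv (Equiv.mulRight (⟨g, hg⟩ : Ine K w)) (fun i => i.1 (g y))
      (fun i => i.1 y) fun i => rfl
    simp only [map_sub, Finset.sum_sub_distrib, this, sub_self, Finset.sum_const, Finset.card_univ,
      nsmul_eq_mul]
    ring
  have := w.map_sum_lt ((map_ne_zero w).2 hx) fun (i : Ine K w) (_ : i ∈ Finset.univ) =>
    h2 _ hx i.1 i.2
  rw [hs, Valuation.map_neg, map_mul, h1, one_mul] at this
  exact lt_irrefl _ this

/-- a nontrivial valuation is equivalent to a normalised one -/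
theorem zv_nrm (w : Vl E) (h : ∃ x, x ≠ 0 ∧ w x ≠ 1) : ∃ w' : Vl E, Nrm w' ∧ w.IsEquiv w' := by
  have hl : ∀ x y, x ≠ 0 → y ≠ 0 → WithZero.log (w (x * y)) =
      WithZero.log (w x) + WithZero.log (w y) := fun x y hx hy => by
    rw [map_mul, WithZero.log_mul ((map_ne_zero w).2 hx) ((map_ne_zero w).2 hy)]
  let S : AddSubgroup ℤ :=
    { carrier := {n | ∃ x, x ≠ 0 ∧ WithZero.log (w x) = n}
      zero_mem' := ⟨1, one_ne_zero, by simp⟩
      add_mem' := by
        rintro _ _ ⟨x, hx, rfl⟩ ⟨y, hy, rfl⟩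
        exact ⟨x * y, mul_ne_zero hx hy, hl x y hx hy⟩
      neg_mem' := by
        rintro _ ⟨x, hx, rfl⟩
        exact ⟨x⁻¹, inv_ne_zero hx, by simp⟩ }
  obtain ⟨e₀, he₀⟩ := Int.subgroup_cyclic S
  obtain ⟨e, he, hd, π, hπ, hπe⟩ : ∃ e : ℤ, 0 < e ∧ (∀ x, x ≠ 0 → e ∣ WithZero.log (w x)) ∧
      ∃ x, x ≠ 0 ∧ WithZero.log (w x) = -e := by
    have hd : ∀ x, x ≠ 0 → e₀ ∣ WithZero.log (w x) := fun x hx => by
      have : WithZero.log (w x) ∈ S := ⟨x, hx, rfl⟩
      rw [he₀, AddSubgroup.mem_closure_singleton] at this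
      obtain ⟨n, hn⟩ := this
      exact ⟨n, by rw [← hn, smul_eq_mul, mul_comm]⟩
    have hm : e₀ ∈ S := he₀ ▸ AddSubgroup.subset_closure rfl
    refine ⟨|e₀|, abs_pos.2 ?_, fun x hx => (abs_dvd _ _).2 (hd x hx),
      S.neg_mem (abs_mem_iff.2 hm)⟩
    rintro rfl
    obtain ⟨x, hx, h1⟩ := h
    refine h1 ?_
    rw [← WithZero.exp_log ((map_ne_zero w).2 hx), zero_dvd_iff.1 (hd x hx), WithZero.exp_zero]
  have hle : ∀ x y, x ≠ 0 → y ≠ 0 → (w x ≤ w y ↔
      WithZero.log (w x) / e ≤ WithZero.log (w y) / e) := fun x y hx hy => by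
    rw [← WithZero.log_le_log ((map_ne_zero w).2 hx) ((map_ne_zero w).2 hy)]
    obtain ⟨a, ha⟩ := hd x hx
    obtain ⟨b, hb⟩ := hd y hy
    rw [ha, hb, Int.mul_ediv_cancel_left _ he.ne', Int.mul_ediv_cancel_left _ he.ne',
      mul_le_mul_iff_right₀ he]
  let f : E → ℤᵐ⁰ := fun x => if x = 0 then 0 else WithZero.exp (WithZero.log (w x) / e)
  have hf : ∀ x y, w x ≤ w y ↔ f x ≤ f y := fun x y => by
    by_cases hx : x = 0
    · simp [f, hx]
    by_cases hy : y = 0
    · simp [f, hx, hy]
    simp only [f, hx, hy, if_false, WithZero.exp_le_exp, hle x y hx hy]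
  refine ⟨⟨⟨⟨f, by simp [f]⟩, by simp [f], ?_⟩, ?_⟩, ⟨π, ?_⟩, hf⟩
  · intro x y
    by_cases hx : x = 0
    · simp [f, hx]
    by_cases hy : y = 0
    · simp [f, hy]
    change f (x * y) = f x * f y
    simp only [f, hx, hy, mul_ne_zero hx hy, if_false, hl x y hx hy,
      Int.add_ediv_of_dvd_left (hd x hx), WithZero.exp_add]
  · intro x y
    exact le_max_iff.2 ((le_max_iff.1 (w.map_add x y)).imp (hf _ _).1 (hf _ _).1)
  · change f π = _
    simp only [f, hπ, if_false, hπe]
    rw [Int.neg_ediv_of_dvd dvd_rfl, Int.ediv_self he.ne']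

/-- the valuation of a prime -/
theorem zv_prime [IsDomain A] [UniqueFactorizationMonoid A] [Algebra A K] [IsFractionRing A K]
    {P : A} (hP : Prime P) : ∃ v : Vl K, Cen (algebraMap A K) v P := by
  have hf : ∀ a : A, a ≠ 0 → FiniteMultiplicity P a := fun a => .of_prime_left hP
  let f : A → ℤᵐ⁰ := fun a => if a = 0 then 0 else WithZero.exp (-(multiplicity P a : ℤ))
  let v : Valuation A ℤᵐ⁰ :=
    { toFun := f
      map_zero' := by simp [f]
      map_one' := by simp [f, multiplicity_eq_zero.2 hP.not_dvd_one]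
      map_mul' := fun x y => by
        by_cases hx : x = 0
        · simp [f, hx]
        by_cases hy : y = 0
        · simp [f, hy]
        simp only [f, hx, hy, mul_ne_zero hx hy, if_false,
          multiplicity_mul hP (hf _ (mul_ne_zero hx hy)), ← WithZero.exp_add]
        congr 1
        push_cast
        ring
      map_add_le_max' := fun x y => by
        by_cases hx : x = 0
        · simp [f, hx]
        by_cases hy : y = 0
        · simp [f, hy]
        by_cases hs : x + y = 0
        · simp [f, hs]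
        have : min (multiplicity P x) (multiplicity P y) ≤ multiplicity P (x + y) :=
          (hf _ hs).le_multiplicity_of_pow_dvd (dvd_add
            (pow_dvd_of_le_multiplicity (min_le_left _ _))
            (pow_dvd_of_le_multiplicity (min_le_right _ _)))
        simp only [f, hx, hy, hs, if_false, le_max_iff, WithZero.exp_le_exp]
        omega }
  have hv : ∀ a, v a = f a := fun _ => rfl
  have hS : nonZeroDivisors A ≤ v.supp.primeCompl := fun a ha h0 => by
    have := (v.mem_supp_iff a).1 h0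
    simp [hv, f, nonZeroDivisors.ne_zero ha] at this
  refine ⟨v.extendToLocalization hS K, fun a => ?_, fun a => ?_⟩
  · rw [Valuation.extendToLocalization_apply_map_apply, hv]
    by_cases ha : a = 0
    · simp [f, ha]
    · simp only [f, ha, if_false, ← WithZero.exp_zero, WithZero.exp_le_exp]
      omega
  · rw [Valuation.extendToLocalization_apply_map_apply, hv]
    by_cases ha : a = 0
    · simp [f, ha]
    · simp only [f, ha, if_false, ← WithZero.exp_zero, WithZero.exp_lt_exp]
      rw [← multiplicity_ne_zero]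
      omega

/-- a bounded power of every value comes from the base -/
theorem zw_pow [FiniteDimensional K E] {Γ : Type} [LinearOrderedCommGroupWithZero Γ]
    (w : Valuation E Γ) (x : E) :
    ∃ a : K, w x ^ (Module.finrank K E).factorial = w (algebraMap K E a) := by
  by_cases hx : x = 0
  · exact ⟨0, by simp [hx, Nat.factorial_ne_zero]⟩
  have hi : IsIntegral K x := Algebra.IsIntegral.isIntegral x
  set p := minpoly K x
  have hs : ∑ i ∈ p.support, algebraMap K E (p.coeff i) * x ^ i = 0 := by
    have := minpoly.aeval K x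
    rwa [Polynomial.aeval_def, Polynomial.eval₂_eq_sum, Polynomial.sum_def] at this
  have hne : ∀ i ∈ p.support, algebraMap K E (p.coeff i) ≠ 0 := fun i h =>
    (map_ne_zero _).2 (Polynomial.mem_support_iff.1 h)
  have hd : ∀ i ∈ p.support, i ≤ Module.finrank K E := fun i h =>
    (Polynomial.le_natDegree_of_mem_supp i h).trans (minpoly.natDegree_le x)
  have key : ∀ i ∈ p.support, ∀ j ∈ p.support, i < j → w (algebraMap K E (p.coeff i) * x ^ i) =
      w (algebraMap K E (p.coeff j) * x ^ j) →
      ∃ a : K, w x ^ (Module.finrank K E).factorial = w (algebraMap K E a) := by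
    intro i hi j hj hij e
    obtain ⟨d, rfl⟩ := Nat.exists_eq_add_of_lt hij
    obtain ⟨c, hc⟩ := Nat.dvd_factorial (Nat.succ_pos d) (n := Module.finrank K E) (by
      have := hd _ hj
      omega)
    refine ⟨(p.coeff i / p.coeff (i + d + 1)) ^ c, ?_⟩
    rw [hc, pow_mul, map_pow, map_pow, map_div₀, map_div₀]
    congr 1
    rw [eq_div_iff ((map_ne_zero w).2 (hne _ hj))]
    refine mul_right_cancel₀ ((map_ne_zero w).2 (pow_ne_zero i hx)) ?_
    rw [← map_mul w (algebraMap K E _), e, ← map_pow, ← map_mul, ← map_mul]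
    congr 1
    rw [Nat.succ_eq_add_one]
    ring
  obtain ⟨j, hj, hm⟩ := p.support.exists_max_image
    (fun i => w (algebraMap K E (p.coeff i) * x ^ i))
    (Polynomial.support_nonempty.2 (minpoly.ne_zero hi))
  by_contra hn
  have := w.map_sum_eq_of_lt hj (f := fun i => algebraMap K E (p.coeff i) * x ^ i) fun i h => by
    obtain ⟨h1, h2⟩ := Finset.mem_sdiff.1 h
    refine (hm i h1).lt_of_ne fun e => hn ?_
    rcases lt_or_gt_of_ne (Finset.notMem_singleton.1 h2) with h3 | h3
    · exact key i h1 j hj h3 e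
    · exact key j hj i h1 h3 e.symm
  rw [hs, map_zero] at this
  exact (map_ne_zero w).2 (mul_ne_zero (hne j hj) (pow_ne_zero j hx)) this.symm

end

end Pool.Agent.ZCy
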