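import Pool.Agent.Lib.MP_751085_ag.ZC.Z.NV1

/-! Block Z: existence and conjugacy of extensions of a valuation. -/

namespace Pool.Agent.ZCy

open scoped Classical WithZero Polynomial

set_option linter.unusedSectionVars false

section

variable {A K E : Type} [CommRing A] [Field K] [Field E] [Algebra K E]

theorem zw_lt {v : Vl K} {w : Vl E} {φ : K →+* E} (h : Over φ v w) (a : K) :
    w (φ a) < 1 ↔ v a < 1 :=
  (Valuation.isEquiv_iff_val_lt_one (v := w.comap φ)).1
    (Valuation.isEquiv_iff_val_le_one.2 fun {x} => h x)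

theorem zw_eq {v : Vl K} {w : Vl E} {φ : K →+* E} (h : Over φ v w) (a : K) :
    w (φ a) = 1 ↔ v a = 1 :=
  (Valuation.isEquiv_iff_val_eq_one (v := w.comap φ)).1
    (Valuation.isEquiv_iff_val_le_one.2 fun {x} => h x)

theorem zv_exists [FiniteDimensional K E] (v : Vl K) : ∃ w : Vl E, Over (algebraMap K E) v w := by
  obtain ⟨V, hV, hl⟩ :=
    IsLocalRing.exists_factor_valuationRing ((algebraMap K E).comp v.valuationSubring.subtype)
  have he : (V.valuation.comap (algebraMap K E)).IsEquiv v := by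
    refine Valuation.isEquiv_iff_val_le_one.2 fun {a} => ⟨fun h => ?_, fun h => ?_⟩
    · by_contra hn
      have ha : a ≠ 0 := by
        rintro rfl
        simp at hn
      have h1 : v a⁻¹ < 1 := (v.one_lt_val_iff ha).1 (not_le.1 hn)
      obtain ⟨u, hu⟩ := isUnit_iff_exists_inv.1 (hl.1 ⟨a⁻¹, h1.le⟩ (isUnit_iff_exists_inv.2
        ⟨⟨algebraMap K E a, (V.valuation_le_one_iff _).1 h⟩, Subtype.ext (by simp [ha])⟩))
      have h2 : v a⁻¹ * v u = 1 := by
        rw [← map_mul, ← v.map_one]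
        exact congrArg (fun z : v.valuationSubring => v z) hu
      exact (mul_lt_one_of_lt_of_le h1 u.2).ne h2
    · exact (V.valuation_le_one_iff _).2 (hV ⟨a, h⟩)
  choose c hc using zw_pow (K := K) V.valuation
  have hN : (Module.finrank K E).factorial ≠ 0 := Nat.factorial_ne_zero _
  have hf : ∀ x y, V.valuation x ≤ V.valuation y ↔ v (c x) ≤ v (c y) := fun x y => by
    rw [← he, Valuation.comap_apply, Valuation.comap_apply, ← hc, ← hc,
      pow_le_pow_iff_left₀ zero_le zero_le hN]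
  have hq : ∀ a b, V.valuation (algebraMap K E a) = V.valuation (algebraMap K E b) → v a = v b :=
    fun a b h => he.eq_iff.1 h
  have h1 : v (c 1) = 1 := (hq _ 1 (by simp [← hc])).trans v.map_one
  refine ⟨⟨⟨⟨fun x => v (c x), (hq _ 0 (by simp [← hc, hN])).trans v.map_zero⟩, h1,
    fun x y => ?_⟩, fun x y => ?_⟩, fun a => ?_⟩
  · exact (hq _ (c x * c y) (by simp [← hc, mul_pow])).trans (v.map_mul _ _)
  · exact le_max_iff.2 ((le_max_iff.1 (V.valuation.map_add x y)).imp (hf _ _).1 (hf _ _).1)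
  · change v (c _) ≤ 1 ↔ _
    rw [← h1, ← hf, h1, map_one]
    exact Valuation.isEquiv_iff_val_le_one.1 he

/-- an algebraic equation with integral coefficients, one of which is a unit -/
theorem zw_poly [FiniteDimensional K E] (v : Vl K) (x : E) : ∃ p : v.integer[X],
    p.eval₂ ((algebraMap K E).comp v.integer.subtype) x = 0 ∧ ∃ i, v (p.coeff i) = 1 := by
  have hi : IsIntegral K x := Algebra.IsIntegral.isIntegral x
  set p := minpoly K x
  obtain ⟨j, hj, hm⟩ := p.support.exists_max_image (fun i => v (p.coeff i))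
    (Polynomial.support_nonempty.2 (minpoly.ne_zero hi))
  have h0 : p.coeff j ≠ 0 := Polynomial.mem_support_iff.1 hj
  obtain ⟨q, hq⟩ : Polynomial.C (p.coeff j)⁻¹ * p ∈ Polynomial.lifts v.integer.subtype := by
    refine (Polynomial.lifts_iff_coeff_lifts _).2 fun i =>
      ⟨⟨(Polynomial.C (p.coeff j)⁻¹ * p).coeff i, ?_⟩, rfl⟩
    rw [Valuation.mem_integer_iff, Polynomial.coeff_C_mul, map_mul, map_inv₀,
      inv_mul_le_one₀ (zero_lt_iff.2 ((map_ne_zero v).2 h0))]
    by_cases h : i ∈ p.support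
    · exact hm i h
    · simp [Polynomial.notMem_support_iff.1 h]
  rw [Polynomial.coe_mapRingHom] at hq
  refine ⟨q, ?_, j, ?_⟩
  · rw [← Polynomial.eval₂_map, hq, ← Polynomial.aeval_def, map_mul, minpoly.aeval, mul_zero]
  · have := congrArg (fun r => r.coeff j) hq
    simp only [Polynomial.coeff_map, Polynomial.coeff_C_mul, inv_mul_cancel₀ h0] at this
    rw [show (q.coeff j : K) = 1 from this, map_one]

/-- denominators that lie in every valuation ring -/
theorem zw_loc (φ : A →+* E) (w : Vl E) (hA : ∀ a, w (φ a) ≤ 1) {x : E} (hx : w x ≤ 1) (p : A[X])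
    (hu : ∃ i, w (φ (p.coeff i)) = 1) (hp : p.eval₂ φ x = 0) : ∃ s, w s = 1 ∧
      ∀ V : ValuationSubring E, (∀ a, φ a ∈ V) → s ∈ V ∧ x * s ∈ V := by
  have hc : ∀ k n, (Polynomial.divX^[k] p).coeff n = p.coeff (n + k) := fun k => by
    induction k with
    | zero => exact fun _ => rfl
    | succ k ih =>
      intro n
      rw [Function.iterate_succ_apply', Polynomial.coeff_divX, ih, add_assoc, add_comm 1]
  have hT : ∀ k, (Polynomial.divX^[k] p).eval₂ φ x =
      x * (Polynomial.divX^[k + 1] p).eval₂ φ x + φ (p.coeff k) := fun k => by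
    conv_lhs => rw [← Polynomial.divX_mul_X_add (Polynomial.divX^[k] p)]
    rw [Function.iterate_succ_apply', Polynomial.eval₂_add, Polynomial.eval₂_mul_X,
      Polynomial.eval₂_C, hc, zero_add, mul_comm]
  obtain ⟨j, hj, hm⟩ := (p.support.filter fun i => w (φ (p.coeff i)) = 1).exists_max_image id (by
    obtain ⟨i, hi⟩ := hu
    refine ⟨i, Finset.mem_filter.2 ⟨Polynomial.mem_support_iff.2 fun h => ?_, hi⟩⟩
    simp [h] at hi)
  refine ⟨(Polynomial.divX^[j] p).eval₂ φ x, ?_, fun V hV => ?_⟩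
  · rw [hT, w.map_add_eq_of_lt_right, (Finset.mem_filter.1 hj).2]
    rw [(Finset.mem_filter.1 hj).2, map_mul, Polynomial.eval₂_eq_sum, Polynomial.sum_def]
    refine (mul_le_of_le_one_left' hx).trans_lt (w.map_sum_lt one_ne_zero fun i hi => ?_)
    rw [map_mul, map_pow]
    refine mul_lt_one_of_lt_of_le ((hA _).lt_of_ne fun h => ?_) (pow_le_one₀ zero_le hx)
    rw [Polynomial.mem_support_iff, hc] at hi
    rw [hc] at h
    have := hm _ (Finset.mem_filter.2 ⟨Polynomial.mem_support_iff.2 hi, h⟩)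
    simp only [id] at this
    omega
  by_cases h : x ∈ V
  · have : (Polynomial.divX^[j] p).eval₂ φ x ∈ V := by
      rw [Polynomial.eval₂_eq_sum, Polynomial.sum_def]
      exact sum_mem fun i _ => mul_mem (hV _) (pow_mem h _)
    exact ⟨this, mul_mem h this⟩
  have hi := (V.mem_or_inv_mem x).resolve_left h
  have h0 : x ≠ 0 := fun e => h (e ▸ zero_mem V)
  have h1 : ∀ y, x * y ∈ V → y ∈ V := fun y hy => by
    simpa [h0] using mul_mem hi hy
  have h2 : ∀ k, x * (Polynomial.divX^[k] p).eval₂ φ x ∈ V := fun k => by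
    induction k with
    | zero => simp [hp]
    | succ k ih => exact sub_eq_of_eq_add (hT k) ▸ sub_mem (h1 _ ih) (hV _)
  exact ⟨h1 _ (h2 j), h2 j⟩

/-- the elements that are integral for all the extensions of `v` -/
def zwB (E : Type) [Field E] [Algebra K E] (v : Vl K) : Subring E :=
  ⨅ w : {w : Vl E // Over (algebraMap K E) v w}, w.1.integer

theorem mem_zwB {v : Vl K} {x : E} :
    x ∈ zwB E v ↔ ∀ w : Vl E, Over (algebraMap K E) v w → w x ≤ 1 := by
  simp [zwB, Subring.mem_iInf, Valuation.mem_integer_iff]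

theorem Over.zw_conj {v : Vl K} {w : Vl E} (h : Over (algebraMap K E) v w) (g : E ≃ₐ[K] E) :
    Over (algebraMap K E) v (w.comap (g : E →+* E)) := fun a => by
  rw [← h a, Valuation.comap_apply, RingHom.coe_coe, g.commutes]

theorem zwB_conj {v : Vl K} {x : E} (hx : x ∈ zwB E v) (g : E ≃ₐ[K] E) : g x ∈ zwB E v :=
  mem_zwB.2 fun _ h => mem_zwB.1 hx _ (h.zw_conj g)

/-- the centre determines the extension -/
theorem zw_inc [FiniteDimensional K E] {v : Vl K} {w w' : Vl E} (h : Over (algebraMap K E) v w)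
    (h' : Over (algebraMap K E) v w') (e : ∀ b ∈ zwB E v, w' b < 1 → w b < 1) (x : E) :
    w' x ≤ 1 ↔ w x ≤ 1 := by
  have h1 : ∀ x, w x ≤ 1 → w' x ≤ 1 := fun x hx => by
    obtain ⟨p, hp, i, hi⟩ := zw_poly v x
    obtain ⟨s, hs, hV⟩ := zw_loc ((algebraMap K E).comp v.integer.subtype) w
      (fun a => (h _).2 a.2) hx p ⟨i, (zw_eq h _).2 hi⟩ hp
    have hB : s ∈ zwB E v := mem_zwB.2 fun u hu => (hV u.valuationSubring fun a => (hu _).2 a.2).1
    have h2 : w' s = 1 := (mem_zwB.1 hB _ h').eq_of_not_lt fun hl => (e s hB hl).ne hs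
    have h3 : w' (x * s) ≤ 1 := (hV w'.valuationSubring fun a => (h' _).2 a.2).2
    rwa [map_mul, h2, mul_one] at h3
  refine ⟨fun hx => ?_, h1 x⟩
  by_contra hn
  rw [not_le] at hn
  obtain ⟨a, ha⟩ := zw_pow (K := K) w x
  have h2 := ha ▸ one_lt_pow₀ hn (Nat.factorial_ne_zero (Module.finrank K E))
  have h0 : w x ≠ 0 := (zero_lt_one.trans hn).ne'
  have h3 := h1 (algebraMap K E a / x ^ (Module.finrank K E).factorial) (by
    rw [map_div₀, map_pow, ← ha, div_self (pow_ne_zero _ h0)])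
  rw [map_div₀, div_le_one₀ (zero_lt_iff.2 ((map_ne_zero w').2 (pow_ne_zero _
    ((map_ne_zero w).1 h0)))), map_pow] at h3
  exact h2.not_ge ((h a).2 ((h' a).1 (h3.trans (pow_le_one₀ zero_le hx))))

/-- the centre of a valuation in a subring -/
def zwI {B : Subring E} (w : Vl E) (h : ∀ b ∈ B, w b ≤ 1) : Ideal B where
  carrier := {b | w b < 1}
  zero_mem' := by simp
  add_mem' := fun ha hb => w.map_add_lt ha hb
  smul_mem' := fun c b hb => (w.map_mul _ _).trans_lt
    ((mul_le_of_le_one_left' (h _ c.2)).trans_lt hb)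

theorem zwI_prime {B : Subring E} (w : Vl E) (h : ∀ b ∈ B, w b ≤ 1) : (zwI w h).IsPrime := by
  refine ⟨(Ideal.ne_top_iff_one _).2 fun h1 => (show w 1 < 1 from h1).ne w.map_one,
    fun {a b} hab => ?_⟩
  by_contra hn
  obtain ⟨ha, hb⟩ := not_or.1 hn
  have h1 : w (a * b) < 1 := hab
  rw [map_mul, (h _ a.2).eq_of_not_lt ha, (h _ b.2).eq_of_not_lt hb, mul_one] at h1
  exact lt_irrefl _ h1

theorem zw_prod {ι : Type} [Fintype ι] (w : Vl E) (f : ι → E) (h : ∀ i, w (f i) ≤ 1) :
    w (∏ i, f i) < 1 ↔ ∃ i, w (f i) < 1 := by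
  rw [map_prod]
  refine ⟨fun h1 => ?_, fun ⟨i, hi⟩ => ?_⟩
  · by_contra hn
    exact h1.ne (Finset.prod_eq_one fun i _ => (h i).eq_of_not_lt fun hl => hn ⟨i, hl⟩)
  · rw [← Finset.mul_prod_erase _ _ (Finset.mem_univ i)]
    exact mul_lt_one_of_lt_of_le hi (Finset.prod_le_one' fun j _ => h j)

theorem zv_conj [FiniteDimensional K E] [IsGalois K E] {v : Vl K} {w w' : Vl E}
    (h : Over (algebraMap K E) v w) (h' : Over (algebraMap K E) v w') :
    ∃ g : E ≃ₐ[K] E, ∀ x, w' x ≤ 1 ↔ w (g x) ≤ 1 := by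
  have hB : ∀ {u : Vl E}, Over (algebraMap K E) v u → ∀ b ∈ zwB E v, u b ≤ 1 :=
    fun hu b hb => mem_zwB.1 hb _ hu
  obtain ⟨g, -, hg⟩ := (Ideal.subset_union_prime (s := Finset.univ) (I := zwI w' (hB h'))
    (f := fun g : E ≃ₐ[K] E => zwI (w.comap (g : E →+* E)) (hB (h.zw_conj g))) 1 1
    fun g _ _ _ => zwI_prime _ _).1 fun b hb => by
      have h1 := (zw_prod w' (fun g : E ≃ₐ[K] E => g b) fun g => hB h' _ (zwB_conj b.2 g)).2
        ⟨1, hb⟩
      rw [← Algebra.norm_eq_prod_automorphisms, zw_lt h', ← zw_lt h,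
        Algebra.norm_eq_prod_automorphisms] at h1
      obtain ⟨g, hg⟩ := (zw_prod w _ fun g => hB h _ (zwB_conj b.2 g)).1 h1
      exact Set.mem_biUnion (Finset.mem_coe.2 (Finset.mem_univ g)) hg
  exact ⟨g, zw_inc (h.zw_conj g) h' fun b hb hl => hg (show (⟨b, hb⟩ : zwB E v) ∈ _ from hl)⟩

end

end Pool.Agent.ZCy
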