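import Pool.Agent.Lib.MP_751085_ag.ZC.Z.NV2

/-! Block Z: the inertia field has index one. -/

namespace Pool.Agent.ZCy

open scoped Classical WithZero Polynomial

set_option linter.unusedSectionVars false

section

variable {K E : Type} [Field K] [Field E] [Algebra K E] [FiniteDimensional K E]

theorem zw_zdec [IsGalois K E] (w : Vl E) (u : E) (hu : ∀ g ∈ Dec K w, g u = u) :
    ∃ a : K, w u = w (algebraMap K E a) := by
  by_cases h0 : u = 0
  · exact ⟨0, by simp [h0]⟩
  have h : Over (algebraMap K E) (w.comap (algebraMap K E)) w := fun _ => Iff.rfl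
  set v := w.comap (algebraMap K E)
  have hz : ∀ g : E ≃ₐ[K] E, ∃ z ∈ zwB E v, w z = 1 ∧ (g ∉ Dec K w → w (g z) * w (g u) < w u) := by
    intro g
    by_cases hg : g ∈ Dec K w
    · exact ⟨1, one_mem _, w.map_one, fun h => absurd hg h⟩
    obtain ⟨z, hz, h1, h2⟩ : ∃ z ∈ zwB E v, w (g z) < 1 ∧ ¬w z < 1 := by
      by_contra hn
      refine hg (zv_dec (zw_inc h (h.zw_conj g) fun b hb hl => ?_))
      by_contra h3
      exact hn ⟨b, hb, hl, h3⟩
    have hgu : w (g u) ≠ 0 := by simpa using h0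
    obtain ⟨n, hn⟩ := exists_pow_lt₀ h1 (Units.mk0 (w u / w (g u))
      (div_ne_zero ((map_ne_zero w).2 h0) hgu))
    refine ⟨z ^ n, pow_mem hz n, ?_, fun _ => ?_⟩
    · rw [map_pow, (mem_zwB.1 hz w h).eq_of_not_lt h2, one_pow]
    · rw [map_pow, map_pow]
      exact (lt_div_iff₀ (zero_lt_iff.2 hgu)).1 hn
  choose z hB h1 h2 using hz
  let t := u * ∏ p : Dec K w × (E ≃ₐ[K] E), p.1.1 (z p.2)
  have ht : w t = w u := by
    rw [map_mul, map_prod, Finset.prod_eq_one fun p _ => (p.1.2 _).trans (h1 _), mul_one]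
  have hd : ∀ g ∈ Dec K w, g t = t := fun g hg => by
    rw [map_mul, hu g hg, map_prod]
    congr 1
    exact Fintype.prod_equiv ((Equiv.mulLeft (⟨g, hg⟩ : Dec K w)).prodCongr (Equiv.refl _)) _ _
      fun p => rfl
  have hn : ∀ g, g ∉ Dec K w → w (g t) < w t := fun g hg => by
    rw [ht, map_mul, map_mul, mul_comm]
    refine lt_of_le_of_lt (mul_le_mul_left ?_ _) (h2 g hg)
    rw [map_prod, map_prod, ← Finset.mul_prod_erase _ _ (Finset.mem_univ (1, g))]
    exact mul_le_of_le_one_right' (Finset.prod_le_one' fun p _ =>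
      mem_zwB.1 (zwB_conj (zwB_conj (hB _) _) _) w h)
  let O := Finset.univ.image fun g : E ≃ₐ[K] E => g t
  have hO : ∀ (g : E ≃ₐ[K] E), ∀ y ∈ O, g y ∈ O := fun g y hy => by
    obtain ⟨k, -, rfl⟩ := Finset.mem_image.1 hy
    exact Finset.mem_image.2 ⟨g * k, Finset.mem_univ _, rfl⟩
  obtain ⟨a, ha⟩ := (IsGalois.mem_range_algebraMap_iff_fixed (F := K) (∑ y ∈ O, y)).2 fun g => by
    rw [map_sum]
    exact Finset.sum_nbij' g g.symm (hO g) (hO g.symm) (by simp) (by simp) fun _ _ => rfl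
  refine ⟨a, ?_⟩
  rw [ha, ← ht]
  refine (w.map_sum_eq_of_lt (f := fun y => y) (j := t)
    (Finset.mem_image.2 ⟨1, Finset.mem_univ _, rfl⟩) fun y hy => ?_).symm
  obtain ⟨h3, h4⟩ := Finset.mem_sdiff.1 hy
  obtain ⟨g, -, rfl⟩ := Finset.mem_image.1 h3
  exact hn g fun hg => h4 (Finset.mem_singleton.2 (hd g hg))

theorem zw_ine (w : Vl E) {d : E ≃ₐ[K] E} (hd : d ∈ Dec K w)
    (h : ∀ y, w y ≤ 1 → (∀ i ∈ Ine K w, i y = y) → w (d y - y) < 1) : d ∈ Ine K w := by
  refine ⟨hd, fun y hy => ?_⟩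
  have hi : ∀ i : Ine K w, w (i.1 y) ≤ 1 := fun i => (i.2.1 y).trans_le hy
  set P : E[X] := ∏ i : Ine K w, (Polynomial.X - Polynomial.C (i.1 y)) with hP
  have h1 : ∀ k, w (P.coeff k) ≤ 1 := fun k => by
    have : P = (∏ i : Ine K w, (Polynomial.X - Polynomial.C (⟨i.1 y, hi i⟩ : w.integer))).map
        w.integer.subtype := by
      simp [hP, Polynomial.map_prod]
    rw [this, Polynomial.coeff_map]
    exact Subtype.property (p := fun z => z ∈ w.integer) _
  have h2 : ∀ k, ∀ j ∈ Ine K w, j (P.coeff k) = P.coeff k := fun k j hj => by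
    have : P.map (j : E →+* E) = P := by
      rw [hP, Polynomial.map_prod]
      exact Fintype.prod_equiv (Equiv.mulLeft (⟨j, hj⟩ : Ine K w)) _ _ fun i => by simp
    conv_rhs => rw [← this, Polynomial.coeff_map, RingHom.coe_coe]
  have h3 : P.eval y = 0 := by
    rw [hP, Polynomial.eval_prod]
    exact Finset.prod_eq_zero (Finset.mem_univ 1) (by simp)
  have h4 : w (d (P.eval y) - P.eval (d y)) < 1 := by
    rw [Polynomial.eval_eq_sum_range, Polynomial.eval_eq_sum_range, map_sum,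
      ← Finset.sum_sub_distrib]
    refine w.map_sum_lt one_ne_zero fun k _ => ?_
    rw [map_mul, map_pow, ← sub_mul, map_mul, map_pow]
    exact mul_lt_one_of_lt_of_le (h _ (h1 k) (h2 k)) (pow_le_one₀ zero_le ((hd y).trans_le hy))
  rw [h3, map_zero, zero_sub, Valuation.map_neg, hP, Polynomial.eval_prod] at h4
  obtain ⟨i, hl⟩ := (zw_prod w _ fun i => by
    simpa using w.map_sub_le ((hd y).trans_le hy) (hi i)).1 h4
  have := w.map_add_lt hl (i.2.2 y hy)
  simpa using this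

/-- the inertia field has index one -/
theorem zv_inv [IsGalois K E] (w : Vl E) (x : E) (hx : ∀ g ∈ Ine K w, g x = x) :
    ∃ a : K, w x = w (algebraMap K E a) := by
  by_cases h0 : x = 0
  · exact ⟨0, by simp [h0]⟩
  have hw : w x ≠ 0 := (map_ne_zero w).2 h0
  let M : Submonoid E :=
    { carrier := {y | w y ≤ 1 ∧ ∀ i ∈ Ine K w, i y = y}
      one_mem' := ⟨w.map_one.le, fun i _ => map_one i⟩
      mul_mem' := fun {a b} ha hb => ⟨(w.map_mul _ _).trans_le (mul_le_one' ha.1 hb.1),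
        fun i hi => by rw [map_mul, ha.2 i hi, hb.2 i hi]⟩ }
  let I : Ideal w.integer := zwI w fun _ h => h
  have : I.IsPrime := zwI_prime _ _
  let χ : Dec K w → M →* w.integer ⧸ I := fun d =>
    { toFun := fun y => Ideal.Quotient.mk I ⟨d.1 y, (d.2 _).trans_le y.2.1⟩
      map_one' := congrArg (Ideal.Quotient.mk I) (Subtype.ext (map_one d.1))
      map_mul' := fun a b => (congrArg (Ideal.Quotient.mk I)
        (Subtype.ext (map_mul d.1 _ _))).trans (map_mul _ _ _) }
  let Q := Dec K w ⧸ (Ine K w).subgroupOf (Dec K w)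
  have hinj : Function.Injective fun q : Q => χ q.out := fun q r e => by
    rw [← QuotientGroup.out_eq' q, ← QuotientGroup.out_eq' r, QuotientGroup.eq]
    refine zw_ine w (q.out⁻¹ * r.out).2 fun y h1 h2 => ?_
    have h3 : w (r.out.1 y - q.out.1 y) < 1 :=
      Ideal.Quotient.eq.1 (DFunLike.congr_fun e.symm (⟨y, h1, h2⟩ : M))
    rw [← q.out.2, map_sub]
    simpa using h3
  have hc : ∀ q : Q, w (q.out.1 x / x) = 1 := fun q => by rw [map_div₀, q.out.2, div_self hw]
  obtain ⟨y, hy⟩ : ∃ y : M,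
      ∑ q : Q, Ideal.Quotient.mk I ⟨q.out.1 x / x, (hc q).le⟩ * χ q.out y ≠ 0 := by
    by_contra hn
    have hl := (linearIndependent_monoidHom M (w.integer ⧸ I)).comp _ hinj
    have := Fintype.linearIndependent_iff.1 hl
      (fun q => Ideal.Quotient.mk I ⟨q.out.1 x / x, (hc q).le⟩) (funext fun y => by
        rw [Finset.sum_apply]
        exact not_not.1 fun h => hn ⟨y, h⟩) ((1 : Dec K w) : Q)
    exact (show w _ < 1 from Ideal.Quotient.eq_zero_iff_mem.1 this).ne (hc _)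
  obtain ⟨a, ha⟩ := zw_zdec (K := K) w (∑ q : Q, q.out.1 (x * y)) fun g hg => by
    rw [map_sum]
    refine Fintype.sum_equiv (MulAction.toPerm (⟨g, hg⟩ : Dec K w)) _ _ fun q => ?_
    obtain ⟨i, hi⟩ := QuotientGroup.mk_out_eq_mul ((Ine K w).subgroupOf (Dec K w))
      ((⟨g, hg⟩ : Dec K w) • q.out)
    rw [MulAction.Quotient.mk_smul_out] at hi
    rw [MulAction.toPerm_apply, hi]
    change _ = g (q.out.1 (i.1.1 (x * y)))
    rw [map_mul i.1.1, hx i.1.1 i.2, y.2.2 i.1.1 i.2]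
  refine ⟨a, Eq.trans ?_ ha⟩
  let s : w.integer := ∑ q : Q, ⟨q.out.1 x / x, (hc q).le⟩ * ⟨q.out.1 y, (q.out.2 _).trans_le y.2.1⟩
  have hs : w s = 1 := (show w s ≤ 1 from s.2).eq_of_not_lt fun hl => hy (by
    have := Ideal.Quotient.eq_zero_iff_mem.2 (show s ∈ I from hl)
    rwa [map_sum] at this)
  have e : ∑ q : Q, q.out.1 (x * y) = x * s := by
    simp only [s, AddSubmonoidClass.coe_finsetSum, Subring.coe_mul, Finset.mul_sum, map_mul]
    exact Finset.sum_congr rfl fun q _ => by field_simp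
  rw [e, map_mul, hs, mul_one]

end

end Pool.Agent.ZCy
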