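import Pool.Agent.Lib.MP_751085_ag.ZC.Z.Pol1

/-! Block Z: homogeneous polynomials, horizontal primes. -/

namespace Pool.Agent.ZCy

open scoped Classical WithZero Polynomial

set_option linter.unusedSectionVars false

open MvPolynomial

/-- scaling of the variables -/
theorem pol_scale {R σ S : Type} [CommRing R] [CommRing S] (f : R →+* S) (x : σ → S) (u : S)
    {H : MP σ R} {d : ℕ} (hH : H.IsHomogeneous d) :
    eval₂Hom f (fun i => x i * u) H = eval₂Hom f x H * u ^ d := by
  simp only [coe_eval₂Hom, eval₂_eq, Finset.sum_mul]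
  refine Finset.sum_congr rfl fun m hm => ?_
  rw [hH.degree_eq_sum_deg_support hm, ← Finset.prod_pow_eq_pow_sum, mul_assoc,
    ← Finset.prod_mul_distrib]
  simp only [mul_pow]

theorem pol_hom_eq {R σ S : Type} [CommRing R] [CommRing S] (φ : MP σ R →+* S) :
    eval₂Hom (φ.comp C) (fun i => φ (X i)) = φ := by
  ext <;> simp

/-- the substitution `ξ ↦ ξ U` -/
noncomputable def polSc {R σ : Type} [CommRing R] : MP σ R →+* (MP σ R)[X] :=
  eval₂Hom (Polynomial.C.comp C) fun i => Polynomial.C (X i) * Polynomial.X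

theorem pol_sc {R σ : Type} [CommRing R] {H : MP σ R} {d : ℕ} (hH : H.IsHomogeneous d) :
    polSc H = Polynomial.C H * Polynomial.X ^ d := by
  rw [polSc, pol_scale _ _ _ hH, pol_hom_eq]

theorem pol_coeff {R σ : Type} [CommRing R] (p : MP σ R) (n : ℕ) :
    (polSc p).coeff n = homogeneousComponent n p := by
  conv_lhs => rw [← p.sum_homogeneousComponent, map_sum, Polynomial.finsetSum_coeff]
  simp only [pol_sc (homogeneousComponent_isHomogeneous _ _), Polynomial.coeff_C_mul_X_pow]
  rw [Finset.sum_eq_single n (fun i _ h => if_neg h.symm) fun h => ?_, if_pos rfl]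
  rw [if_pos rfl, homogeneousComponent_eq_zero]
  simpa using h

section

variable {k ι E : Type} [Field k] [Fintype ι] [Field E] {φ : MP (Option ι) k →+* E}
  {ψ : (RF ι k)[X] →+* E}

theorem pol_tau (hφ : Function.Injective φ) : φ (X none) ≠ 0 :=
  (map_ne_zero_iff φ hφ).2 (X_ne_zero _)

theorem pol_up (hφ : Function.Injective φ) (p : MP ι k) : ∃ (d : ℕ) (H : MP (Option ι) k),
    H.IsHomogeneous d ∧ flpHom φ (up p) * φ (X none) ^ d = φ H := by
  induction p using MvPolynomial.induction_on with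
  | C a => exact ⟨0, C a, isHomogeneous_C _ _, by simp [flpHom]⟩
  | add p q hp hq =>
    obtain ⟨d, H, h1, h2⟩ := hp
    obtain ⟨e, G, h3, h4⟩ := hq
    refine ⟨d + e, H * X none ^ e + X none ^ d * G, (h1.mul (isHomogeneous_X_pow _ _)).add
      ((isHomogeneous_X_pow _ _).mul h3), ?_⟩
    simp only [map_add, map_mul, map_pow, ← h2, ← h4]
    ring
  | mul_X p i hp =>
    obtain ⟨d, H, h1, h2⟩ := hp
    refine ⟨d + 1, H * X (some i), h1.mul (isHomogeneous_X _ _), ?_⟩
    have h3 : flpHom φ (X (some i)) * φ (X none) = φ (X (some i)) := by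
      simp [flpHom, pol_tau hφ]
    simp only [map_mul, rename_X, ← h2]
    linear_combination flpHom φ (up p) * φ (X none) ^ d * h3

theorem pol_flp (hφ : Function.Injective φ) (p : MP (Option ι) k) :
    flpHom φ p * φ (X none) ^ (p.totalDegree + 1) = φ (flp p) := by
  have h1 : flpHom φ (X none) = (φ (X none))⁻¹ := by simp [flpHom]
  have h2 := flp_eval (flpHom φ) (h1 ▸ inv_ne_zero (pol_tau hφ)) p
  rw [flpHom_flpHom φ (pol_tau hφ), h1] at h2
  rw [← h2, mul_assoc, ← mul_pow, inv_mul_cancel₀ (pol_tau hφ), one_pow, mul_one]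

/-- dehomogenisation -/
theorem IsPol.dehom (h : IsPol φ ψ) (hφ : Function.Injective φ) {H : MP (Option ι) k} {d : ℕ}
    (hH : H.IsHomogeneous d) : ∃ a, φ H = ψ (Polynomial.C a) * φ (MvPolynomial.X none) ^ d := by
  refine ⟨algebraMap (MP ι k) _
    (eval₂Hom MvPolynomial.C (fun i => i.elim 1 MvPolynomial.X) H), ?_⟩
  have e : ((flpHom φ).comp (rename some : MP ι k →ₐ[k] _).toRingHom).comp
      (eval₂Hom MvPolynomial.C fun i : Option ι => i.elim 1 MvPolynomial.X) =
      eval₂Hom (φ.comp MvPolynomial.C) fun i =>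
        φ (MvPolynomial.X i) * (φ (MvPolynomial.X none))⁻¹ := by
    ext : 1
    · ext : 1; simp [flpHom]
    · rename_i i
      cases i <;> simp [flpHom, pol_tau hφ, div_eq_mul_inv]
  have e2 := DFunLike.congr_fun e H
  rw [pol_scale _ _ _ hH, pol_hom_eq] at e2
  rw [h.C]
  refine Eq.trans ?_ (congrArg (· * _) e2.symm)
  rw [mul_assoc, ← mul_pow, inv_mul_cancel₀ (pol_tau hφ), one_pow, mul_one]

/-- homogenisation -/
theorem IsPol.hom (h : IsPol φ ψ) (hφ : Function.Injective φ) (a : RF ι k) :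
    ∃ (d : ℕ) (H S : MP (Option ι) k), H.IsHomogeneous d ∧ S.IsHomogeneous d ∧ S ≠ 0 ∧
      ψ (Polynomial.C a) * φ S = φ H := by
  obtain ⟨p, q, hq, rfl⟩ := IsFractionRing.div_surjective (A := MP ι k) a
  obtain ⟨d, H, h1, h2⟩ := pol_up hφ p
  obtain ⟨e, G, h3, h4⟩ := pol_up hφ q
  rw [← h.C] at h2 h4
  have h5 : (ψ.comp Polynomial.C) (algebraMap (MP ι k) (RF ι k) q) ≠ 0 :=
    (_root_.map_ne_zero _).2 (IsFractionRing.to_map_ne_zero_of_mem_nonZeroDivisors hq)
  have h6 := map_div₀ (ψ.comp Polynomial.C) (algebraMap (MP ι k) (RF ι k) p)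
    (algebraMap (MP ι k) (RF ι k) q)
  simp only [RingHom.comp_apply] at h5 h6
  refine ⟨d + e, H * MvPolynomial.X none ^ e, MvPolynomial.X none ^ d * G,
    h1.mul (isHomogeneous_X_pow _ _), (isHomogeneous_X_pow _ _).mul h3,
    mul_ne_zero (pow_ne_zero _ (X_ne_zero _)) ?_, ?_⟩
  · rintro rfl
    exact mul_ne_zero h5 (pow_ne_zero _ (pol_tau hφ)) (h4.trans (map_zero _))
  · simp only [map_mul, map_pow, h6, ← h2, ← h4]
    field_simp

theorem homog_of_dvd {G H : MP (Option ι) k} {d : ℕ} (hH : H.IsHomogeneous d) (h0 : H ≠ 0)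
    (h : G ∣ H) : ∃ e, G.IsHomogeneous e := by
  obtain ⟨K, rfl⟩ := h
  have e := pol_sc hH
  rw [map_mul, Polynomial.C_mul_X_pow_eq_monomial] at e
  have n0 : polSc G * polSc K ≠ 0 := by
    rw [e]
    simpa using h0
  have e1 := Polynomial.natDegree_mul (left_ne_zero_of_mul n0) (right_ne_zero_of_mul n0)
  have e2 := Polynomial.natTrailingDegree_mul (left_ne_zero_of_mul n0) (right_ne_zero_of_mul n0)
  rw [e, Polynomial.natDegree_monomial_eq _ h0] at e1
  rw [e, Polynomial.natTrailingDegree_monomial h0] at e2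
  have e3 := (polSc G).natTrailingDegree_le_natDegree
  have e4 := (polSc K).natTrailingDegree_le_natDegree
  refine ⟨(polSc G).natDegree, ?_⟩
  generalize hn : (polSc G).natDegree = n at *
  rw [← G.sum_homogeneousComponent]
  refine IsHomogeneous.sum _ _ _ fun i _ => ?_
  rcases lt_trichotomy i n with hi | rfl | hi
  · rw [← pol_coeff, Polynomial.coeff_eq_zero_of_lt_natTrailingDegree (by omega)]
    exact isHomogeneous_zero _ _ _
  · exact homogeneousComponent_isHomogeneous _ _
  · rw [← pol_coeff, Polynomial.coeff_eq_zero_of_natDegree_lt (by omega)]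
    exact isHomogeneous_zero _ _ _

theorem dvd_comp {G H : MP (Option ι) k} {e : ℕ} (hG : G.IsHomogeneous e) (h : G ∣ H) (d : ℕ) :
    G ∣ homogeneousComponent d H := by
  rw [← pol_coeff]
  refine (Polynomial.C_dvd_iff_dvd_coeff _ _).1 (dvd_trans ?_ (_root_.map_dvd polSc h)) d
  rw [pol_sc hG]
  exact dvd_mul_right _ _

/-- horizontal primes -/
theorem unrOff_pol {L : Type} [Field L] [Algebra L E] (h : IsPol φ ψ) (hφ : Function.Injective φ)
    {Θ : MP (Option ι) k} (hu : UnrOff L φ Θ) {T : (RF ι k)[X]} {r : ℕ}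
    (hT : ψ T * φ (MvPolynomial.X none) ^ r = φ Θ) (hX : Polynomial.X ∣ T) : UnrOff L ψ T := by
  intro Q w hQ hQT hc
  have one : ∀ b, ¬Q ∣ b → w (ψ b) = 1 := fun b hb =>
    le_antisymm (hc.1 b) (not_lt.1 fun h' => hb ((hc.2 b).1 h'))
  have hτ : w (φ (MvPolynomial.X none)) = 1 := by
    have := one Polynomial.X fun h' => hQT (((hQ.dvd_prime_iff_associated
      Polynomial.prime_X).1 h').dvd.trans hX)
    rwa [h.X, map_inv₀, inv_eq_one] at this
  have h3 : ∀ a, φ a = ψ ((tp (flp a)).map (algebraMap (MP ι k) (RF ι k))) *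
      φ (MvPolynomial.X none) ^ (a.totalDegree + 1) := fun a => by
    rw [h, flp_eval φ (pol_tau hφ)]
  obtain ⟨P, hP, hcP⟩ := cen_loc hφ (h.injective hφ) hQ hc
    (fun a => by rw [h3, map_mul, map_pow, hτ, one_pow, mul_one]; exact hc.1 _)
    (fun b => by
      obtain ⟨c, c0, hb⟩ := IsLocalization.integerNormalization_spec (nonZeroDivisors (MP ι k)) b
      obtain ⟨p, hp⟩ := (optionEquivLeft k ι).surjective
        (IsLocalization.integerNormalization (nonZeroDivisors (MP ι k)) b)
      have e1 := pol_flp hφ p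
      have e2 := pol_flp hφ (up c)
      rw [← h, tp, hp, hb, Algebra.smul_def, map_mul, Polynomial.algebraMap_apply] at e1
      rw [← h.C] at e2
      refine ⟨flp p * MvPolynomial.X none ^ ((up c).totalDegree + 1),
        flp (up c) * MvPolynomial.X none ^ (p.totalDegree + 1), ?_, ?_⟩
      · simp only [map_mul, map_pow, ← e2, hτ, one_pow, mul_one]
        exact one _ fun h' => hQ.not_isUnit (isUnit_of_dvd_unit h' (Polynomial.isUnit_C.2
          (IsFractionRing.to_map_ne_zero_of_mem_nonZeroDivisors c0).isUnit))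
      · simp only [map_mul, map_pow, ← e1, ← e2]
        ring)
    fun a => ⟨(tp (flp a)).map (algebraMap (MP ι k) (RF ι k)), Polynomial.X ^ (a.totalDegree + 1),
      by rw [map_pow, map_pow, h.X, map_inv₀, hτ, inv_one, one_pow], by
        rw [h3 a, map_pow, h.X, mul_assoc, ← mul_pow, mul_inv_cancel₀ (pol_tau hφ), one_pow,
          mul_one]⟩
  refine hu P w hP (fun h' => ?_) hcP
  have := (hcP.2 Θ).2 h'
  rw [← hT, map_mul, map_pow, hτ, one_pow, mul_one, one T hQT] at this
  exact lt_irrefl _ this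

end

end Pool.Agent.ZCy
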