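import Pool.Agent.Lib.MP_751085_ag.ZC.Z.Flp

/-! Block Z: the function field as a field of rational functions in one variable. -/

namespace Pool.Agent.ZCy

open scoped Classical WithZero Polynomial

set_option linter.unusedSectionVars false

open MvPolynomial

/-- `ψ` sends `t` to `1 / τ` and `x_i` to `ξ_i / τ` -/
def IsPol {k ι E : Type} [Field k] [Field E] (φ : MP (Option ι) k →+* E)
    (ψ : (RF ι k)[X] →+* E) : Prop :=
  ∀ p : MP (Option ι) k, ψ ((tp p).map (algebraMap (MP ι k) (RF ι k))) = flpHom φ p

theorem isFrac_of {A F : Type} [CommRing A] [Field F] [Algebra A F]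
    (h : Function.Injective (algebraMap A F))
    (hF : ∀ z : F, ∃ a b, z = algebraMap A F a / algebraMap A F b) : IsFractionRing A F := by
  have := (faithfulSMul_iff_algebraMap_injective A F).2 h
  exact IsFractionRing.of_field A F hF

section

variable {k ι E : Type} [Field k] [Fintype ι] [Field E] {φ : MP (Option ι) k →+* E}
  {ψ : (RF ι k)[X] →+* E}

theorem exists_pol (hφ : Function.Injective φ) : ∃ ψ, IsPol φ ψ := by
  obtain ⟨χ, hχ⟩ : ∃ χ : MP ι k →+* E, ∀ a, χ a = flpHom φ (up a) :=
    ⟨(flpHom φ).comp (rename some : MP ι k →ₐ[k] MP (Option ι) k).toRingHom, fun _ => rfl⟩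
  have hi : Function.Injective χ := fun a b hab => by
    rw [hχ, hχ] at hab
    exact rename_injective _ (Option.some_injective ι) (flpHom_injective hφ hab)
  obtain ⟨l, hl⟩ : ∃ l : RF ι k →+* E, ∀ a, l (algebraMap (MP ι k) (RF ι k) a) = χ a :=
    ⟨IsFractionRing.lift hi, IsFractionRing.lift_algebraMap hi⟩
  refine ⟨Polynomial.eval₂RingHom l (φ (X none))⁻¹, fun p => ?_⟩
  have e : l.comp (algebraMap (MP ι k) (RF ι k)) = χ := RingHom.ext hl
  rw [Polynomial.coe_eval₂RingHom, Polynomial.eval₂_map, e]
  have e2 : (Polynomial.eval₂RingHom χ (φ (X none))⁻¹).comp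
      (optionEquivLeft k ι : MP (Option ι) k →+* (MP ι k)[X]) = flpHom φ := by
    refine MvPolynomial.ringHom_ext (fun a => ?_) fun i => ?_
    · simp [hχ]
    · cases i <;> simp [hχ, flpHom]
  exact RingHom.congr_fun e2 p

theorem IsPol.comp {E' : Type} [Field E'] (h : IsPol φ ψ) (f : E →+* E') :
    IsPol (f.comp φ) (f.comp ψ) := fun p => by
  rw [flpHom_comp, RingHom.comp_apply, RingHom.comp_apply, h p]

theorem IsPol.unique {ψ' : (RF ι k)[X] →+* E} (h : IsPol φ ψ) (h' : IsPol φ ψ') : ψ = ψ' := by
  have e : ψ.comp Polynomial.C = ψ'.comp Polynomial.C := by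
    refine IsLocalization.ringHom_ext (nonZeroDivisors (MP ι k)) (RingHom.ext fun a => ?_)
    have := (h (up a)).trans (h' (up a)).symm
    rw [tp_up, Polynomial.map_C] at this
    exact this
  refine Polynomial.ringHom_ext (fun a => RingHom.congr_fun e a) ?_
  have := (h (MvPolynomial.X none)).trans (h' (MvPolynomial.X none)).symm
  rwa [tp, optionEquivLeft_X_none, Polynomial.map_X] at this

theorem IsPol.X (h : IsPol φ ψ) : ψ Polynomial.X = (φ (X none))⁻¹ := by
  have := h (MvPolynomial.X none)
  rw [tp, optionEquivLeft_X_none, Polynomial.map_X] at this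
  rw [this]
  simp [flpHom]

theorem IsPol.C (h : IsPol φ ψ) (a : MP ι k) :
    ψ (Polynomial.C (algebraMap _ _ a)) = flpHom φ (up a) := by
  have := h (up a)
  rwa [tp_up, Polynomial.map_C] at this

theorem IsPol.injective (h : IsPol φ ψ) (hφ : Function.Injective φ) : Function.Injective ψ := by
  refine (injective_iff_map_eq_zero ψ).2 fun q hq => ?_
  obtain ⟨b, hb, e⟩ := IsLocalization.integerNormalization_spec (nonZeroDivisors (MP ι k)) q
  set r := IsLocalization.integerNormalization (nonZeroDivisors (MP ι k)) q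
  have h1 := h ((optionEquivLeft k ι).symm r)
  rw [tp, AlgEquiv.apply_symm_apply, e, Algebra.smul_def, map_mul, hq, mul_zero] at h1
  have h2 : (optionEquivLeft k ι).symm r = 0 :=
    flpHom_injective hφ (by rw [← h1, map_zero])
  have h3 : r = 0 := by simpa using h2
  rw [h3, Polynomial.map_zero, ← algebraMap_smul (RF ι k)] at e
  exact (smul_eq_zero.1 e.symm).resolve_left
    (IsFractionRing.to_map_ne_zero_of_mem_nonZeroDivisors hb)

theorem IsPol.frac (h : IsPol φ ψ) (hφ : Function.Injective φ) (hF : ∀ z : E, ∃ a b, z = φ a / φ b)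
    (z : E) : ∃ a b, z = ψ a / ψ b := by
  obtain ⟨a, b, e⟩ := flpHom_frac hφ hF z
  rw [← h a, ← h b] at e
  exact ⟨_, _, e⟩

end

/-- the expansion along the hyperplane -/
noncomputable def eta (ι k : Type) [Field k] : MP (Option ι) k →+* Ps (RF ι k) :=
  Polynomial.coeToPowerSeries.ringHom.comp
    ((Polynomial.mapRingHom (algebraMap (MP ι k) (RF ι k))).comp
      (optionEquivLeft k ι).toRingEquiv.toRingHom)

theorem eta_injective (ι k : Type) [Field k] : Function.Injective (eta ι k) :=
  (Polynomial.coe_injective _).comp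
    ((Polynomial.map_injective _ (IsFractionRing.injective (MP ι k) (RF ι k))).comp
      (optionEquivLeft k ι).injective)

theorem eta_constantCoeff {ι k : Type} [Field k] (p : MP (Option ι) k) :
    PowerSeries.constantCoeff (eta ι k p) = algebraMap (MP ι k) (RF ι k) (hyp0 p) := by
  have e : (PowerSeries.constantCoeff : Ps (RF ι k) →+* RF ι k).comp (eta ι k) =
      (algebraMap (MP ι k) (RF ι k)).comp hyp0 := by
    refine MvPolynomial.ringHom_ext (fun a => ?_) fun i => ?_
    · simp [eta, hyp0]
    · cases i <;> simp [eta, hyp0]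
  exact RingHom.congr_fun e p

theorem eta_X (ι k : Type) [Field k] : eta ι k (X none) = PowerSeries.X := by
  simp [eta]

end Pool.Agent.ZCy
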