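import Pool.Agent.Lib.MP_751085_ag.ZC.Z.Pole
import Pool.Agent.Lib.MP_751085_ag.ZC.Z.Cen2

/-! Block Z: the Galois action on coefficients is a section. -/

namespace Pool.Agent.ZCy

open scoped Classical WithZero Polynomial

set_option linter.unusedSectionVars false

/-- An extension `N` of `K(t)` that contains `L` and lies in `L((u))`, `t = u ^ (-M)`. -/
structure SecD (M : ℕ) (K L F N : Type) [Field K] [Field L] [Field F] [Field N] [Algebra K L]
    [Algebra K[X] F] [Algebra F N] where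
  c : L →+* N
  ι : N →+* Ls L
  hc : ∀ a, ι (c a) = HahnSeries.C a
  ht : ∀ p, ι (toF K[X] F N p) = tM M L (p.map (algebraMap K L))

section

variable {M : ℕ} {K L F N : Type} [Field K] [Field L] [Field F] [Field N] [Algebra K L]
  [Algebra K[X] F] [Algebra F N] (d : SecD M K L F N)

/-- the map from `L[t]` -/
noncomputable def SecD.φ : L[X] →+* N :=
  Polynomial.eval₂RingHom d.c (toF K[X] F N Polynomial.X)

theorem SecD.φ_C (a : L) : d.φ (Polynomial.C a) = d.c a := Polynomial.eval₂_C _ _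

theorem sec_tM_C (a : L) : tM M L (Polynomial.C a) = HahnSeries.C a := Polynomial.eval₂_C _ _

theorem SecD.ι_φ (p : L[X]) : d.ι (d.φ p) = tM M L p := by
  refine RingHom.congr_fun (f := d.ι.comp d.φ) (Polynomial.ringHom_ext (fun a => ?_) ?_) p
  · rw [RingHom.comp_apply, d.φ_C, d.hc, sec_tM_C]
  · rw [RingHom.comp_apply, SecD.φ, Polynomial.coe_eval₂RingHom, Polynomial.eval₂_X, d.ht,
      Polynomial.map_X]

theorem SecD.φ_map (p : K[X]) : d.φ (p.map (algebraMap K L)) = toF K[X] F N p := d.ι.injective ((d.ι_φ _).trans (d.ht p).symm)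

/-- the projection to the Galois group of the constants and its section -/
structure SecD.Spl (π : (N ≃ₐ[F] N) →* (L ≃ₐ[K] L)) (σ : (L ≃ₐ[K] L) →* (N ≃ₐ[F] N)) : Prop where
  hπ : ∀ g a, g (d.c a) = d.c (π g a)
  hσ : ∀ γ z, d.ι (σ γ z) = lm (γ : L →+* L) (d.ι z)
  sec : ∀ γ, π (σ γ) = γ

variable [IsFractionRing K[X] F] [FiniteDimensional K L] [IsGalois K L] [FiniteDimensional F N]
  [IsGalois F N]

theorem SecD.exists_spl : ∃ π σ, d.Spl π σ := by
  have h1 : ∀ g : N ≃ₐ[F] N, ∃ g₀ : L ≃ₐ[K] L, ∀ a, d.c (g₀ a) = g (d.c a) := fun g =>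
    exists_restrict d.c (g : N →+* N) fun a => by
      rw [← d.φ_C, ← Polynomial.map_C, d.φ_map]
      exact g.commutes _
  have h2 : ∀ γ : L ≃ₐ[K] L, ∃ g₀ : N ≃ₐ[F] N, ∀ z, d.ι (g₀ z) = lm (γ : L →+* L) (d.ι z) :=
    fun γ => exists_restrict d.ι (lm (γ : L →+* L)) fun a => by
      refine RingHom.congr_fun (f := ((lm (γ : L →+* L)).comp d.ι).comp (algebraMap F N))
        (g := d.ι.comp (algebraMap F N))
        (IsLocalization.ringHom_ext (nonZeroDivisors K[X]) (RingHom.ext fun p => ?_)) a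
      change lm (γ : L →+* L) (d.ι (toF K[X] F N p)) = d.ι (toF K[X] F N p)
      rw [d.ht, lm_tM, Polynomial.map_map]
      congr 2
      exact RingHom.ext γ.commutes
  choose π hπ using h1
  choose σ hσ using h2
  refine ⟨MonoidHom.mk' π fun g g' => AlgEquiv.ext fun a => d.c.injective ?_,
    MonoidHom.mk' σ fun γ γ' => AlgEquiv.ext fun z => d.ι.injective ?_,
    fun g a => (hπ g a).symm, hσ, fun γ => AlgEquiv.ext fun a => d.c.injective ?_⟩
  · rw [AlgEquiv.mul_apply, hπ, hπ, hπ, AlgEquiv.mul_apply]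
  · rw [AlgEquiv.mul_apply, hσ, hσ, hσ]
    ext j
    rfl
  · refine (hπ _ a).trans (d.ι.injective ((hσ γ _).trans ?_))
    rw [d.hc, d.hc, ← sec_tM_C (M := M), ← sec_tM_C (M := M), lm_tM, Polynomial.map_C]
    rfl

end

end Pool.Agent.ZCy
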