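import Pool.Agent.Lib.MP_751085_ag.ZC.Z.Pol
import Pool.Agent.Lib.MP_751085_ag.ZC.Z.Sec1

/-! Block Z: vertical primes. -/

namespace Pool.Agent.ZCy

open scoped Classical WithZero Polynomial

set_option linter.unusedSectionVars false

/-- the rescaled series -/
noncomputable def vert_sc {K : Type} [Field K] (c : K) (x : Ls K) : Ls K where
  coeff j := c ^ j * x.coeff j
  isPWO_support' := x.isPWO_support.mono fun _ hj h => hj (mul_eq_zero_of_right _ h)

theorem vert_sc_coeff {K : Type} [Field K] (c : K) (x : Ls K) (j : ℤ) :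
    (vert_sc c x).coeff j = c ^ j * x.coeff j := rfl

theorem vert_sc_mul {K : Type} [Field K] {c : K} (hc : c ≠ 0) (x y : Ls K) :
    vert_sc c (x * y) = vert_sc c x * vert_sc c y := by
  have hs : ∀ z : Ls K, (vert_sc c z).support = z.support := fun z => by
    ext j
    simp [vert_sc_coeff, zpow_ne_zero j hc]
  ext j
  rw [vert_sc_coeff, HahnSeries.coeff_mul, HahnSeries.coeff_mul, Finset.mul_sum]
  refine Finset.sum_congr ?_ fun ij h => ?_
  · ext ij
    simp only [Finset.mem_antidiagonal, hs]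
  · rw [vert_sc_coeff, vert_sc_coeff, ← (Finset.mem_antidiagonal.1 h).2.2, zpow_add₀ hc]
    ring

/-- rescaling of the variable -/
theorem exists_resc {K : Type} [Field K] {c : K} (hc : c ≠ 0) :
    ∃ r : Ls K →+* Ls K, ∀ x j, (r x).coeff j = c ^ j * x.coeff j := by
  refine ⟨⟨⟨⟨vert_sc c, ?_⟩, vert_sc_mul hc⟩, ?_, fun x y => ?_⟩, fun _ _ => rfl⟩
  · ext j
    by_cases h : j = 0 <;> simp [vert_sc_coeff, HahnSeries.coeff_one, h]
  · ext j
    simp [vert_sc_coeff]
  · ext j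
    simp [vert_sc_coeff, mul_add]

theorem vert_C {K N : Type} [Field K] [Field N] {χ : K[X] →+* N} {A : Vl K} {W : Vl N}
    (hW : ∀ p : K[X], (∀ i, A (p.coeff i) ≤ W (χ p)) ∧ ∃ i, A (p.coeff i) = W (χ p)) (a : K) :
    W (χ (Polynomial.C a)) = A a := by
  obtain ⟨h1, i, h2⟩ := hW (Polynomial.C a)
  refine le_antisymm ?_ (by simpa using h1 0)
  rw [← h2, Polynomial.coeff_C]
  split_ifs <;> simp

theorem vert_aux (hGR : GR0) {K F N : Type} [Field K] [CharZero K] [Field F] [Field N]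
    [Algebra K[X] F] [IsFractionRing K[X] F] [Algebra F N] [FiniteDimensional F N] [IsGalois F N]
    (ι : N →+* Ls K) (hι : ∀ p, ι (toF K[X] F N p) = tL K p) {Th : K[X]} (hm : Th.Monic)
    (hu : UnrOff F (toF K[X] F N) Th) (A : Vl K) (hA : Nrm A) (hn : ∀ n : ℕ, n ≠ 0 → A n = 1)
    (hi : ∀ j, A (Th.coeff j) ≤ 1) :
    ∃ W : Vl N, Ine F W = ⊥ ∧ ∀ p : K[X], (∀ i, A (p.coeff i) ≤ W (toF K[X] F N p)) ∧
      ∃ i, A (p.coeff i) = W (toF K[X] F N p) := by
  obtain ⟨Ψ, h1, -, h2⟩ := Polynomial.lifts_and_natDegree_eq_and_monic (f := A.integer.subtype)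
    ((Polynomial.lifts_iff_coeff_lifts Th).2 fun j => ⟨⟨_, hi j⟩, rfl⟩) hm
  have hc : Nat.card (N ≃ₐ[F] N) ≠ 0 := Nat.card_pos.ne'
  obtain ⟨W, hW1, hW2, -⟩ := hGR K F N 1 ι A Ψ one_pos hA (hn _ hc) (hn _ one_ne_zero) hι
    (by rw [h2.leadingCoeff]; exact isUnit_one) (by rwa [h1])
  have hW := gauss_of_int one_pos (toF K[X] F N) ι hι A W hW2
  refine ⟨W, zv_unr ?_ fun x => ?_, hW⟩
  · rw [← hn _ hc, ← vert_C hW, map_natCast Polynomial.C, map_natCast (toF K[X] F N)]
  · obtain ⟨a, ha⟩ := hW1 x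
    exact ⟨algebraMap K[X] F (Polynomial.C a), ha.trans (vert_C hW a).symm⟩

theorem zvert (hGR : GR0) {K F N : Type} [Field K] [CharZero K] [Field F] [Field N]
    [Algebra K[X] F] [IsFractionRing K[X] F] [Algebra F N] [FiniteDimensional F N] [IsGalois F N]
    (ι : N →+* Ls K) (hι : ∀ p, ι (toF K[X] F N p) = tL K p) {Th : K[X]} (hm : Th.Monic)
    (hu : UnrOff F (toF K[X] F N) Th) (A : Vl K) (hA : Nrm A) (hn : ∀ n : ℕ, n ≠ 0 → A n = 1)
    {c : K} (hc : c ≠ 0) (hi : ∀ j, A ((Th.scaleRoots c).coeff j) ≤ 1) :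
    ∃ W : Vl N, Ine F W = ⊥ ∧ ∀ p : K[X],
      (∀ i, A (p.coeff i) ≤ W (toF K[X] F N (p.comp (Polynomial.C c * Polynomial.X)))) ∧
      ∃ i, A (p.coeff i) = W (toF K[X] F N (p.comp (Polynomial.C c * Polynomial.X))) := by
  obtain ⟨r, hr⟩ := exists_resc hc
  have e1 : ∀ (a b : K) (p : K[X]), a * b = 1 → (p.comp (Polynomial.C a * Polynomial.X)).comp
      (Polynomial.C b * Polynomial.X) = p := fun a b p h => by
    rw [Polynomial.comp_assoc, Polynomial.mul_comp, Polynomial.C_comp, Polynomial.X_comp,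
      ← mul_assoc, ← Polynomial.C_mul, h, Polynomial.C_1, one_mul, Polynomial.comp_X]
  let φ : K[X] →+* F := (algebraMap K[X] F).comp
    (Polynomial.compRingHom (Polynomial.C c * Polynomial.X))
  have hφ : ∀ p, φ p = algebraMap K[X] F (p.comp (Polynomial.C c * Polynomial.X)) := fun _ => rfl
  have hs : ∀ p, φ (p.comp (Polynomial.C c⁻¹ * Polynomial.X)) = algebraMap K[X] F p := fun p => by
    rw [hφ, e1 _ _ _ (inv_mul_cancel₀ hc)]
  have hinj : Function.Injective φ := fun p q h => by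
    rw [hφ, hφ] at h
    rw [← e1 _ _ p (mul_inv_cancel₀ hc), ← e1 _ _ q (mul_inv_cancel₀ hc),
      IsFractionRing.injective K[X] F h]
  have hF : ∀ z : F, ∃ a b, z = φ a / φ b := fun z => by
    obtain ⟨a, b, -, h⟩ := IsFractionRing.div_surjective (A := K[X]) z
    exact ⟨_, _, by rw [← h, ← hs a, ← hs b]⟩
  have hι' : ∀ p, (r.comp ι) (((algebraMap F N).comp φ) p) = tL K p := fun p => by
    have : r.comp ((tL K).comp (Polynomial.compRingHom (Polynomial.C c * Polynomial.X))) =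
        tL K := by
      refine Polynomial.ringHom_ext (fun a => ?_) ?_
      · ext j
        by_cases h : j = 0 <;> simp [hr, tM, h]
      · ext j
        by_cases h : j = -1 <;> simp [hr, tM, h, hc]
    rw [← this]
    exact congrArg r (hι _)
  have hu' : UnrOff F ((algebraMap F N).comp φ) (Th.scaleRoots c) := fun P w _ hP hw => by
    have h1 : ∀ a, w (toF K[X] F N a) ≤ 1 := fun a => by
      have := hw.1 (a.comp (Polynomial.C c⁻¹ * Polynomial.X))
      rwa [RingHom.comp_apply, hs] at this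
    refine unr_of_le hu h1 (le_antisymm (h1 _) ?_)
    have h2 : 1 ≤ w (toF K[X] F N ((Th.scaleRoots c).comp (Polynomial.C c * Polynomial.X))) :=
      not_lt.1 fun h => hP ((hw.2 _).1 h)
    rw [Polynomial.comp, Polynomial.scaleRoots_eval₂_mul, Polynomial.eval₂_C_X, map_mul,
      map_mul] at h2
    exact h2.trans (mul_le_of_le_one_left' (h1 _))
  exact @vert_aux hGR K F N _ _ _ _ φ.toAlgebra (@isFrac_of _ _ _ _ φ.toAlgebra hinj hF) _ _ _
    (r.comp ι) hι' _ ((Polynomial.monic_scaleRoots_iff c).2 hm) hu' A hA hn hi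

/-- the Gauss valuation of a sum of powers of the inverse of the variable -/
theorem vert_sum {K N : Type} [Field K] [Field N] {χ : K[X] →+* N} {A : Vl K} {W : Vl N}
    (hW : ∀ p : K[X], (∀ i, A (p.coeff i) ≤ W (χ p)) ∧ ∃ i, A (p.coeff i) = W (χ p)) {ξ : N}
    (hξ : ξ * χ Polynomial.X = 1) (D : ℕ) (b : ℕ → K) :
    (∀ d ≤ D, A (b d) ≤ W (∑ d ∈ Finset.range (D + 1), χ (Polynomial.C (b d)) * ξ ^ d)) ∧
      (W (∑ d ∈ Finset.range (D + 1), χ (Polynomial.C (b d)) * ξ ^ d) = 0 ∨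
        ∃ d, W (∑ d ∈ Finset.range (D + 1), χ (Polynomial.C (b d)) * ξ ^ d) = A (b d)) := by
  have h1 : W (χ Polynomial.X) = 1 := by
    obtain ⟨h1, i, h2⟩ := hW Polynomial.X
    refine le_antisymm ?_ (by simpa using h1 1)
    rw [← h2, Polynomial.coeff_X]
    split_ifs <;> simp
  let p : K[X] := ∑ i ∈ Finset.range (D + 1), Polynomial.monomial i (b (D - i))
  have hp : ∀ i, p.coeff i = if i ∈ Finset.range (D + 1) then b (D - i) else 0 := fun i => by
    simp only [p, Polynomial.finsetSum_coeff, Polynomial.coeff_monomial, Finset.sum_ite_eq']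
  have h2 : χ p = (∑ d ∈ Finset.range (D + 1), χ (Polynomial.C (b d)) * ξ ^ d) *
      χ Polynomial.X ^ D := by
    rw [← Finset.sum_range_reflect, Finset.sum_mul, map_sum]
    refine Finset.sum_congr rfl fun i hi => ?_
    have hi' : i ≤ D := Nat.lt_succ_iff.1 (Finset.mem_range.1 hi)
    rw [← Polynomial.C_mul_X_pow_eq_monomial, map_mul, map_pow, Nat.add_sub_cancel, mul_assoc]
    congr 1
    conv_rhs => rw [show χ Polynomial.X ^ D = χ Polynomial.X ^ (D - i) * χ Polynomial.X ^ i by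
      rw [← pow_add, Nat.sub_add_cancel hi'], ← mul_assoc, ← mul_pow, hξ, one_pow, one_mul]
  have h3 : W (χ p) = W (∑ d ∈ Finset.range (D + 1), χ (Polynomial.C (b d)) * ξ ^ d) := by
    rw [h2, map_mul, map_pow, h1, one_pow, mul_one]
  obtain ⟨h4, i, h5⟩ := hW p
  rw [← h3]
  refine ⟨fun d hd => ?_, ?_⟩
  · have := h4 (D - d)
    rwa [hp, if_pos (Finset.mem_range.2 (by omega)), Nat.sub_sub_self hd] at this
  · rw [← h5, hp]
    split_ifs
    · exact Or.inr ⟨_, rfl⟩
    · exact Or.inl A.map_zero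

theorem vert_var {k σ : Type} [Field k] {G : MP σ k} (hG : Prime G) {i j : σ}
    (hi : G ∣ MvPolynomial.X i) (hj : G ∣ MvPolynomial.X j) : i = j :=
  MvPolynomial.X_dvd_X.1 (((hG.irreducible.associated_of_dvd
    MvPolynomial.X_prime.irreducible hi).symm.dvd).trans hj)

/-- from the primes of `K[t]` to the primes of `k[ξ]` -/
theorem unr_vert (hGR : GR0) {k σ F N : Type} [Field k] [CharZero k] [Fintype σ] [Nonempty σ]
    [Field F] [Field N] [Algebra (MP (Option σ) k) F] [IsFractionRing (MP (Option σ) k) F]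
    [Algebra (RF σ k)[X] F] [IsFractionRing (RF σ k)[X] F] [Algebra F N] [FiniteDimensional F N]
    [IsGalois F N] (h : IsPol (algebraMap (MP (Option σ) k) F) (algebraMap (RF σ k)[X] F))
    (ι : N →+* Ls (RF σ k)) (hι : ∀ p, ι (toF (RF σ k)[X] F N p) = tL _ p) {Θ : MP (Option σ) k}
    (h1 : MvPolynomial.constantCoeff Θ = 1)
    (hu : UnrOff F (toF (RF σ k)[X] F N) ((tp (flp Θ)).map (algebraMap (MP σ k) (RF σ k)))) :
    UnrOff F (toF (MP (Option σ) k) F N) Θ := by
  intro G w hG hΘ hw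
  have hN : IsPol (toF (MP (Option σ) k) F N) (toF (RF σ k)[X] F N) := h.comp (algebraMap F N)
  have hφ : Function.Injective (toF (MP (Option σ) k) F N) :=
    (algebraMap F N).injective.comp (IsFractionRing.injective _ F)
  set φ := toF (MP (Option σ) k) F N with eφ
  set ψ := toF (RF σ k)[X] F N with eψ
  have hX : ∀ i, φ (MvPolynomial.X i) ≠ 0 := fun i =>
    (map_ne_zero_iff φ hφ).2 (MvPolynomial.X_ne_zero i)
  have hone : ∀ H, ¬G ∣ H → w (φ H) = 1 := fun H hH =>
    le_antisymm (hw.1 H) (not_lt.1 fun h => hH ((hw.2 H).1 h))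
  have hde : ∀ i, ∃ a, a ≠ 0 ∧ φ (MvPolynomial.X i) = ψ (Polynomial.C a) *
      φ (MvPolynomial.X none) := fun i => by
    obtain ⟨a, ha⟩ := hN.dehom hφ (MvPolynomial.isHomogeneous_X k i)
    rw [pow_one] at ha
    exact ⟨a, fun h0 => hX i (by rw [ha, h0, map_zero, map_zero, zero_mul]), ha⟩
  obtain ⟨i₁⟩ := ‹Nonempty σ›
  by_cases ht : ∃ a, a ≠ 0 ∧ w.comap (ψ.comp Polynomial.C) a ≠ 1
  swap
  · have ht' : ∀ a, a ≠ 0 → w (ψ (Polynomial.C a)) = 1 := fun a ha =>
      not_not.1 fun h => ht ⟨a, ha, h⟩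
    have hτ : w (φ (MvPolynomial.X none)) = 1 := hone _ fun hd => by
      obtain ⟨a, ha0, ha⟩ := hde (some i₁)
      have : w (φ (MvPolynomial.X (some i₁))) < 1 := by
        rw [ha, map_mul, ht' a ha0, one_mul]
        exact (hw.2 _).2 hd
      exact Option.some_ne_none _ (vert_var hG ((hw.2 _).1 this) hd)
    refine unr_of_le hu (fun p => ?_) ?_
    · induction p using Polynomial.induction_on' with
      | add p q hp hq => rw [map_add]; exact w.map_add_le hp hq
      | monomial n a =>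
        rw [← Polynomial.C_mul_X_pow_eq_monomial, map_mul, map_pow, hN.X, map_mul, map_pow,
          map_inv₀, hτ, inv_one, one_pow, mul_one]
        rcases eq_or_ne a 0 with rfl | ha
        · simp
        · exact (ht' a ha).le
    · have := congrArg w (flp_eval φ (hX none) Θ)
      rwa [map_mul, map_pow, hτ, one_pow, mul_one, hone Θ hΘ, ← hN] at this
  obtain ⟨A, hA, hE⟩ := zv_nrm _ ht
  obtain ⟨e, he⟩ : ∃ e, G.IsHomogeneous e := by
    obtain ⟨a, ha, ha1⟩ := ht
    obtain ⟨d, H, S, hH, hS, h0, hd⟩ := hN.hom hφ a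
    by_cases h2 : G ∣ S
    · exact homog_of_dvd hS h0 h2
    refine homog_of_dvd hH (fun h3 => ?_) (not_not.1 fun h3 => ha1 ?_)
    · rw [h3, map_zero] at hd
      exact mul_ne_zero ((map_ne_zero (ψ.comp Polynomial.C)).2 ha)
        ((map_ne_zero_iff φ hφ).2 h0) hd
    · have := congrArg w hd
      rwa [map_mul, hone S h2, hone H h3, mul_one] at this
  obtain ⟨i₀, hi₀⟩ : ∃ i, ¬G ∣ MvPolynomial.X i := by
    by_contra h2
    push Not at h2
    exact Option.some_ne_none _ (vert_var hG (h2 (some i₁)) (h2 none))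
  obtain ⟨a, ha, hξ⟩ := hde i₀
  have hτ : φ (MvPolynomial.X none) = ψ (Polynomial.C a⁻¹) * φ (MvPolynomial.X i₀) := by
    rw [hξ, ← mul_assoc, ← map_mul, ← map_mul, inv_mul_cancel₀ ha, map_one, map_one, one_mul]
  have hb : ∀ (b : RF σ k) (H : MP (Option σ) k) (d : ℕ),
      ψ (Polynomial.C b) * φ (MvPolynomial.X none) ^ d = φ H →
      ψ (Polynomial.C (b * a⁻¹ ^ d)) * φ (MvPolynomial.X i₀) ^ d = φ H := fun b H d hd => by
    rw [← hd, hτ, map_mul, map_mul, map_pow, map_pow, mul_pow, mul_assoc]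
  have hv : ∀ (b : RF σ k) (H : MP (Option σ) k) (d : ℕ),
      ψ (Polynomial.C b) * φ (MvPolynomial.X i₀) ^ d = φ H → A b ≤ 1 ∧ (A b < 1 ↔ G ∣ H) :=
    fun b H d hd => by
      have := congrArg w hd
      rw [map_mul, map_pow, hone _ hi₀, one_pow, mul_one] at this
      exact ⟨hE.le_one_iff_le_one.1 (this.trans_le (hw.1 H)),
        hE.lt_one_iff_lt_one.symm.trans ((hw.2 H).symm.trans (by rw [← this]; rfl)).symm⟩
  have hm := flp_monic h1
  obtain ⟨W, hW, hWG⟩ := zvert hGR ι hι (hm.map _) hu A hA (fun n hn => by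
    refine hE.eq_one_iff_eq_one.1 ?_
    rw [Valuation.comap_apply, map_natCast, ← map_natCast φ]
    refine hone _ fun hd => hG.not_isUnit (isUnit_of_dvd_unit hd ?_)
    rw [← map_natCast (MvPolynomial.C : k →+* _)]
    exact (IsUnit.mk0 _ (Nat.cast_ne_zero.2 hn)).map _) (inv_ne_zero ha) fun j => by
      rw [Polynomial.coeff_scaleRoots, hm.natDegree_map, flp_natDegree h1, Polynomial.coeff_map]
      rcases le_or_gt j (Θ.totalDegree + 1) with hj | hj
      · exact (hv _ _ _ (hb _ _ _ (by rw [hN.C]; exact flp_coeff φ (hX none) Θ j hj))).1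
      · rw [Polynomial.coeff_eq_zero_of_natDegree_lt ((flp_natDegree_le Θ).trans_lt hj)]
        simp
  refine unr_of_one hG hw ?_ hW
  have key : ∀ H : MP (Option σ) k, W (φ H) ≤ 1 ∧ (W (φ H) < 1 ↔ G ∣ H) := fun H => by
    choose b hb' using fun d => hN.dehom hφ (MvPolynomial.homogeneousComponent_isHomogeneous d H)
    have h2 := fun d => hb _ _ _ (hb' d).symm
    obtain ⟨h3, h4⟩ := vert_sum (χ := ψ.comp (Polynomial.compRingHom
      (Polynomial.C a⁻¹ * Polynomial.X))) hWG (ξ := φ (MvPolynomial.X i₀)) (by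
        rw [RingHom.comp_apply ψ, Polynomial.coe_compRingHom_apply, Polynomial.X_comp, map_mul,
          hN.X, ← mul_assoc, mul_comm (φ _), ← hτ, mul_inv_cancel₀ (hX none)])
      H.totalDegree fun d => b d * a⁻¹ ^ d
    simp only [RingHom.comp_apply ψ, Polynomial.coe_compRingHom_apply, Polynomial.C_comp, h2,
      ← map_sum φ, MvPolynomial.sum_homogeneousComponent] at h3 h4
    refine ⟨?_, fun h5 => ?_, fun h5 => ?_⟩
    · rcases h4 with h4 | ⟨d, h4⟩ <;> rw [h4]
      · exact zero_le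
      · exact (hv _ _ _ (h2 d)).1
    · rw [← MvPolynomial.sum_homogeneousComponent H]
      exact Finset.dvd_sum fun d hd => (hv _ _ _ (h2 d)).2.1
        ((h3 d (Nat.lt_succ_iff.1 (Finset.mem_range.1 hd))).trans_lt h5)
    · rcases h4 with h4 | ⟨d, h4⟩ <;> rw [h4]
      · exact zero_lt_one
      · exact (hv _ _ _ (h2 d)).2.2 (dvd_comp he h5 d)
  exact ⟨fun H => (key H).1, fun H => (key H).2⟩

end Pool.Agent.ZCy
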