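import Pool.Agent.Lib.MP_751085_ag.ZC.Z.Core
import Pool.Agent.Lib.MP_751085_ag.ZC.Z.Vert
import Pool.Agent.Lib.MP_751085_ag.ZC.Z.Cst1

/-! Block Z: the Lefschetz theorem when the origin splits. -/

namespace Pool.Agent.ZCy

open scoped Classical WithZero Polynomial

set_option linter.unusedSectionVars false

/-- the branch polynomial on the generic line of the hyperplane -/
noncomputable def LefData.th0 {k σ : Type} [Field k] [Fintype σ] (Λ : LefData k σ) : (RF σ k)[X] :=
  (tp (hyp (flp Λ.Θ))).map (algebraMap (MP σ k) (RF σ k))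

theorem exists_polAlg (k ι : Type) [Field k] [Fintype ι] :
    ∃ _ : Algebra (RF ι k)[X] (RF (Option ι) k), IsFractionRing (RF ι k)[X] (RF (Option ι) k) ∧
      IsPol (algebraMap (MP (Option ι) k) (RF (Option ι) k))
        (algebraMap (RF ι k)[X] (RF (Option ι) k)) := by
  have hi := IsFractionRing.injective (MP (Option ι) k) (RF (Option ι) k)
  obtain ⟨ψ, hψ⟩ := exists_pol hi
  let _ := ψ.toAlgebra
  refine ⟨_, isFrac_of (hψ.injective hi) (hψ.frac hi fun z => ?_), hψ⟩
  obtain ⟨a, b, _, h⟩ := IsFractionRing.div_surjective (A := MP (Option ι) k) z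
  exact ⟨a, b, h.symm⟩

/-- residues in the original coordinates -/
theorem res_flp {k σ E EH : Type} [Field k] [Fintype σ] [Field E] [Field EH]
    {φ : MP (Option (Option σ)) k →+* E} {φH : MP (Option σ) k →+* EH}
    (hφ : Function.Injective φ) (hφH : Function.Injective φH) {w : Vl E} {ρ : w.integer →+* EH}
    (hρ : IsRed w ρ) (h : ∀ q, ∃ h, ρ ⟨flpHom φ q, h⟩ = flpHom φH (hyp q))
    (p : MP (Option (Option σ)) k) : ∃ h, ρ ⟨φ p, h⟩ = φH (hyp p) := by
  have h0 : φ (MvPolynomial.X none) ≠ 0 := (map_ne_zero_iff _ hφ).2 (MvPolynomial.X_ne_zero _)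
  have h1 : φH (MvPolynomial.X none) ≠ 0 := (map_ne_zero_iff _ hφH).2 (MvPolynomial.X_ne_zero _)
  have hh : (hyp (MvPolynomial.X none) : MP (Option σ) k) = MvPolynomial.X none := by simp [hyp]
  obtain ⟨ht, et⟩ := h (MvPolynomial.X none)
  have e1 : flpHom φ (MvPolynomial.X none) = (φ (MvPolynomial.X none))⁻¹ := by simp [flpHom]
  have e2 : flpHom φH (MvPolynomial.X none) = (φH (MvPolynomial.X none))⁻¹ := by simp [flpHom]
  rw [hh, e2] at et
  have hw : w (flpHom φ (MvPolynomial.X none)) = 1 :=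
    le_antisymm ht (not_lt.1 fun hl => inv_ne_zero h1 (et ▸ (hρ _).2 hl))
  have hτ : w (φ (MvPolynomial.X none)) ≤ 1 := by
    rw [e1, map_inv₀, inv_eq_one] at hw
    exact hw.le
  have eτ : ρ ⟨φ (MvPolynomial.X none), hτ⟩ = φH (MvPolynomial.X none) := by
    have : (⟨_, ht⟩ * ⟨_, hτ⟩ : w.integer) = 1 := Subtype.ext (by
      change flpHom φ _ * φ _ = 1
      rw [e1, inv_mul_cancel₀ h0])
    have h2 := congrArg ρ this
    rw [map_mul, map_one, et, inv_mul_eq_one₀ h1] at h2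
    exact h2.symm
  obtain ⟨hq, eq⟩ := h (flp p)
  have e3 := flp_eval φ h0 p
  have e4 := flp_eval (φH.comp hyp) (by rwa [RingHom.comp_apply, hh]) p
  rw [flpHom_hyp, RingHom.comp_apply, RingHom.comp_apply, RingHom.comp_apply, hh] at e4
  refine ⟨e3 ▸ (⟨_, hq⟩ * ⟨_, hτ⟩ ^ (p.totalDegree + 1) : w.integer).2, ?_⟩
  have e5 := map_mul ρ ⟨_, hq⟩ (⟨_, hτ⟩ ^ (p.totalDegree + 1))
  rw [map_pow ρ, eq, eτ, e4] at e5
  exact (congrArg ρ (Subtype.ext e3.symm)).trans e5

theorem zsplit (hGR : GR0) (hZ : Z1H) {k σ EH : Type} [Field k] [CharZero k] [Fintype σ]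
    (Λ : LefData k σ) [Field EH] [Algebra (RF (Option σ) k) EH]
    [FiniteDimensional (RF (Option σ) k) EH] [IsGalois (RF (Option σ) k) EH]
    (ψ : (RF σ k)[X] →+* EH) (hψ : IsPol (toE (MP (Option σ) k) EH) ψ)
    (hu : UnrOff (RF (Option σ) k) ψ Λ.th0) (J : EH →+* Ls (RF σ k))
    (hJ : ∀ p, J (ψ p) = tL _ p) :
    ∃ (E : Type) (_ : Field E) (_ : Algebra (RF (Option (Option σ)) k) E)
      (_ : FiniteDimensional (RF (Option (Option σ)) k) E)
      (_ : IsGalois (RF (Option (Option σ)) k) E) (w : Vl E) (ρ : w.integer →+* EH),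
      UnrOff (RF (Option (Option σ)) k) (toE (MP (Option (Option σ)) k) E) Λ.Θ ∧ IsRed w ρ ∧
      Function.Surjective ρ ∧ ∀ p : MP (Option (Option σ)) k,
        ∃ h, ρ ⟨toE _ E p, h⟩ = toE (MP (Option σ) k) EH (hyp p) := by
  obtain ⟨_, _, h0⟩ := exists_polAlg k σ
  obtain ⟨_, _, h1⟩ := exists_polAlg k (Option σ)
  obtain rfl : ψ = toF (RF σ k)[X] (RF (Option σ) k) EH := hψ.unique (h0.comp _)
  have hi : Function.Injective ((algebraMap (Ps (RF σ k)) (Fr (Ps (RF σ k)))).comp (eta σ k)) :=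
    (IsFractionRing.injective _ _).comp (eta_injective σ k)
  have he : PowerSeries.constantCoeff.comp (eta σ k) =
      (algebraMap (MP σ k) (RF σ k)).comp hyp0 := RingHom.ext eta_constantCoeff
  have hm : ∀ q : MP (Option (Option σ)) k, (tp q).map (PowerSeries.constantCoeff.comp (eta σ k)) =
      (tp (hyp q)).map (algebraMap (MP σ k) (RF σ k)) := fun q => by
    rw [he, tp_hyp, Polynomial.map_map]
  have hγ := IsFractionRing.lift_algebraMap (K := RF (Option σ) k) hi
  obtain ⟨E, _, _, _, _, ι', w, ρ, hι', hu', hd, hi', hρ, hres, hn⟩ := zcore hGR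
    (F₀ := RF (Option σ) k) (RF (Option (Option σ)) k) (IsFractionRing.injective _ _) (eta σ k) _
    hγ (scp_eta hZ Λ _ hγ) (by
      rw [eta_constantCoeff]
      exact (map_ne_zero_iff _ (IsFractionRing.injective _ _)).2 Λ.hyp0_ne) (eta_X σ k)
    (tp (flp Λ.Θ)) (flp_monic Λ.one) Λ.bez J hJ (by rwa [hm])
  have hφ : Function.Injective (toE (MP (Option (Option σ)) k) E) :=
    (algebraMap (RF (Option (Option σ)) k) E).injective.comp (IsFractionRing.injective _ _)
  have hφH : Function.Injective (toE (MP (Option σ) k) EH) :=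
    (algebraMap (RF (Option σ) k) EH).injective.comp (IsFractionRing.injective _ _)
  have hp := res_flp hφ hφH hρ fun q => by
    obtain ⟨h, e⟩ := hres (tp q)
    have e1 := (h1.comp (algebraMap _ E)) q
    refine ⟨e1 ▸ h, ?_⟩
    rw [← hψ, ← hm, ← e]
    exact congrArg ρ (Subtype.ext e1.symm)
  refine ⟨E, inferInstance, inferInstance, inferInstance, inferInstance, w, ρ,
    unr_vert hGR h1 ι' hι' Λ.one hu', hρ, red_surjective hd hi' ρ hρ (fun a => ?_) hn, hp⟩
  obtain ⟨a, b, hb, rfl⟩ := IsFractionRing.div_surjective (A := MP (Option σ) k) a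
  obtain ⟨a, rfl⟩ := hyp_surjective a
  obtain ⟨b, rfl⟩ := hyp_surjective b
  obtain ⟨ha, ea⟩ := hp a
  obtain ⟨hb', eb⟩ := hp b
  have b0 : toE (MP (Option σ) k) EH (hyp b) ≠ 0 :=
    (map_ne_zero_iff _ hφH).2 (nonZeroDivisors.ne_zero hb)
  have b1 : w (toE (MP (Option (Option σ)) k) E b) = 1 :=
    le_antisymm hb' (not_lt.1 fun hl => b0 (eb ▸ (hρ _).2 hl))
  have b2 : toE (MP (Option (Option σ)) k) E b ≠ 0 := fun h => by simp [h] at b1
  have b3 : w (algebraMap (RF (Option (Option σ)) k) E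
      (algebraMap (MP (Option (Option σ)) k) _ a / algebraMap (MP (Option (Option σ)) k) _ b)) ≤ 1 := by
    rw [map_div₀, map_div₀]
    exact (congrArg (_ / ·) b1).trans_le (by rw [div_one]; exact ha)
  refine ⟨_, b3, ?_⟩
  refine Eq.trans ?_ (map_div₀ _ _ _).symm
  refine (eq_div_iff b0).2 ?_
  refine (congrArg (_ * ·) eb.symm).trans ((map_mul ρ _ _).symm.trans ((congrArg ρ ?_).trans ea))
  refine Subtype.ext ?_
  change algebraMap (RF (Option (Option σ)) k) E _ * toE _ E b = toE _ E a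
  rw [map_div₀]
  exact div_mul_cancel₀ _ b2

end Pool.Agent.ZCy
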