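import Pool.Agent.Lib.MP_751085_ag.ZC.Z.ZDefs

/-! Block Z: polynomials over power series. -/

namespace Pool.Agent.ZCy

open scoped Classical WithZero Polynomial

set_option linter.unusedSectionVars false

/-- `κ⟦y⟧[t] → κ[t]⟦y⟧` -/
noncomputable def al (κ : Type) [CommRing κ] : (Ps κ)[X] →+* Ps κ[X] :=
  Polynomial.eval₂RingHom (PowerSeries.map Polynomial.C) (PowerSeries.C Polynomial.X)

section

variable {κ : Type} [Field κ]

theorem al_coeff (p : (Ps κ)[X]) (n i : ℕ) :
    (PowerSeries.coeff n (al κ p)).coeff i = PowerSeries.coeff n (p.coeff i) := by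
  induction p using Polynomial.induction_on' with
  | add p q hp hq => simp only [map_add, Polynomial.coeff_add, hp, hq]
  | monomial j a =>
    have e : al κ (Polynomial.monomial j a) =
        PowerSeries.map Polynomial.C a * PowerSeries.C (Polynomial.X ^ j) := by
      simp [al]
    rw [e, PowerSeries.coeff_mul_C, PowerSeries.coeff_map, Polynomial.coeff_C_mul_X_pow,
      Polynomial.coeff_monomial]
    by_cases h : i = j
    · simp [h]
    · rw [if_neg h, if_neg (Ne.symm h), map_zero]

theorem al_injective : Function.Injective (al κ) := fun p q h => by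
  ext i n
  rw [← al_coeff, ← al_coeff, h]

theorem al_constantCoeff (p : (Ps κ)[X]) :
    PowerSeries.constantCoeff (al κ p) = p.map PowerSeries.constantCoeff := by
  ext i
  rw [← PowerSeries.coeff_zero_eq_constantCoeff_apply, al_coeff, Polynomial.coeff_map,
    PowerSeries.coeff_zero_eq_constantCoeff_apply]

theorem al_range (a : Ps κ[X]) (m : ℕ) (h : ∀ n, (PowerSeries.coeff n a).natDegree ≤ m) :
    ∃ p, al κ p = a := by
  refine ⟨∑ j ∈ Finset.range (m + 1),
    Polynomial.monomial j (PowerSeries.mk fun n => (PowerSeries.coeff n a).coeff j), ?_⟩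
  ext n i
  rw [al_coeff, Polynomial.finsetSum_coeff]
  simp only [Polynomial.coeff_monomial]
  rw [Finset.sum_ite_eq']
  split_ifs with hi
  · rw [PowerSeries.coeff_mk]
  · rw [Finset.mem_range] at hi
    rw [map_zero, Polynomial.coeff_eq_zero_of_natDegree_lt ((h n).trans_lt (by omega))]

theorem al_dvd {P Q : (Ps κ)[X]} (hP : P.Monic) (h : al κ P ∣ al κ Q) : P ∣ Q := by
  rw [← Polynomial.modByMonic_eq_zero_iff_dvd hP]
  have h1 : al κ P ∣ al κ (Q %ₘ P) := by
    rw [Polynomial.modByMonic_eq_sub_mul_div, map_sub, map_mul]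
    exact dvd_sub h (dvd_mul_right _ _)
  have h2 := Polynomial.degree_modByMonic_lt Q hP
  generalize Q %ₘ P = r at h1 h2
  obtain ⟨c, hc⟩ := h1
  have hP0 : (P.map (PowerSeries.constantCoeff (R := κ))).Monic := hP.map _
  have h3 : ∀ n, PowerSeries.coeff n c = 0 := by
    intro n
    induction n using Nat.strong_induction_on with
    | _ n ih =>
      have e : PowerSeries.coeff n (al κ r) =
          P.map (PowerSeries.constantCoeff (R := κ)) * PowerSeries.coeff n c := by
        rw [hc, PowerSeries.coeff_mul, Finset.sum_eq_single (0, n),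
          PowerSeries.coeff_zero_eq_constantCoeff_apply, al_constantCoeff]
        · intro b hb hne
          rw [Finset.HasAntidiagonal.mem_antidiagonal] at hb
          have : b.2 < n := by
            by_contra hcon
            exact hne (Prod.ext (by simp only; omega) (by simp only; omega))
          rw [ih _ this, mul_zero]
        · simp
      have hd : (PowerSeries.coeff n (al κ r)).degree <
          (P.map (PowerSeries.constantCoeff (R := κ))).degree := by
        rw [hP.degree_map, Polynomial.degree_eq_natDegree hP.ne_zero,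
          Polynomial.degree_lt_iff_coeff_zero]
        intro i hi
        rw [al_coeff, Polynomial.coeff_eq_zero_of_degree_lt, map_zero]
        rw [Polynomial.degree_eq_natDegree hP.ne_zero] at h2
        exact h2.trans_le (by exact_mod_cast hi)
      have h4 := Polynomial.eq_zero_of_dvd_of_degree_lt ⟨_, e⟩ hd
      rw [e] at h4
      exact (mul_eq_zero.1 h4).resolve_left hP0.ne_zero
  have h5 : c = 0 := PowerSeries.ext fun n => by rw [h3, map_zero]
  apply al_injective
  rw [hc, h5, mul_zero, map_zero]

/-- a prime that divides both discriminants divides the branch polynomial -/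
theorem dvd_of_disc {KK : Type} [Field KK] [Algebra (Ps κ) KK] [IsFractionRing (Ps κ) KK]
    {Th Δ Δ' : (Ps κ)[X]} {N : ℕ} (h : al κ Δ ∣ al κ Th ^ N) (h' : IsUnit Δ'.leadingCoeff)
    {P : KK[X]} (hP : Prime P) (h1 : P ∣ Δ.map (algebraMap _ KK))
    (h2 : P ∣ Δ'.map (algebraMap _ KK)) : P ∣ Th.map (algebraMap _ KK) := by
  have hi := IsFractionRing.injective (Ps κ) KK
  obtain ⟨u, hu⟩ := h'
  have hm : (Polynomial.C ((u⁻¹ : (Ps κ)ˣ) : Ps κ) * Δ').Monic :=
    Polynomial.monic_C_mul_of_mul_leadingCoeff_eq_one (by rw [← hu]; simp)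
  obtain ⟨g, hg⟩ := IsIntegrallyClosed.eq_map_mul_C_of_dvd KK hm (g := P) (by
    rw [Polynomial.map_mul]
    exact h2.mul_left _)
  have hl : P.leadingCoeff ≠ 0 := Polynomial.leadingCoeff_ne_zero.2 hP.ne_zero
  have hg1 : (g.map (algebraMap (Ps κ) KK)).Monic := by
    have e := congrArg Polynomial.leadingCoeff hg
    rw [Polynomial.leadingCoeff_mul, Polynomial.leadingCoeff_C] at e
    exact mul_right_cancel₀ hl (e.trans (one_mul _).symm)
  have hg2 : g.Monic := Polynomial.monic_of_injective hi hg1
  have h3 : g ∣ Δ := (Polynomial.map_dvd_map _ hi hg2).1 ((Dvd.intro _ hg).trans h1)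
  have h4 : g ∣ Th ^ N := al_dvd hg2 (((map_dvd (al κ) h3).trans h).trans (map_pow _ _ _).symm.dvd)
  refine hP.dvd_of_dvd_pow (n := N) ?_
  rw [← hg, ← Polynomial.map_pow]
  exact (IsUnit.mul_right_dvd (Polynomial.isUnit_C.2 hl.isUnit)).2 (Polynomial.map_dvd _ h4)

end

end Pool.Agent.ZCy
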