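import Pool.Agent.Lib.MP_751085_ag.ZC.Z.Hat
import Pool.Agent.Lib.MP_751085_ag.ZC.Z.Str1

/-! Block Z: straightening the branch locus. -/

namespace Pool.Agent.ZCy

open scoped Classical WithZero Polynomial

set_option linter.unusedSectionVars false

section

variable {κ : Type} [Field κ]

theorem str_cc {S : Type} [CommRing S] (f : κ →+* S) (p : (Ps κ)[X]) (a : Ps S) :
    PowerSeries.constantCoeff (p.eval₂ (PowerSeries.map f) a) =
      (p.map PowerSeries.constantCoeff).eval₂ f (PowerSeries.constantCoeff a) := by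
  rw [Polynomial.hom_eval₂, Polynomial.eval₂_map]
  congr 1

/-- a simple root modulo the variable lifts -/
theorem str_root {S : Type} [CommRing S] (f : κ →+* S) (Th : (Ps κ)[X]) (hm : Th.Monic)
    (hs : (Th.map PowerSeries.constantCoeff).Separable) (r : S)
    (hr : (Th.map PowerSeries.constantCoeff).eval₂ f r = 0) :
    ∃ τ : Ps S, Th.eval₂ (PowerSeries.map f) τ = 0 ∧ PowerSeries.constantCoeff τ = r := by
  have hH : HenselianRing (Ps S) (Ideal.span {PowerSeries.X}) := IsAdicComplete.henselianRing _ _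
  obtain ⟨τ, h1, h2⟩ := hH.is_henselian (Th.map (PowerSeries.map f)) (hm.map _) (PowerSeries.C r)
    (by
      rw [Ideal.mem_span_singleton, PowerSeries.X_dvd_iff, Polynomial.eval_map, str_cc,
        PowerSeries.constantCoeff_C, hr])
    (by
      refine IsUnit.map _ (PowerSeries.isUnit_iff_constantCoeff.2 ?_)
      rw [Polynomial.derivative_map, Polynomial.eval_map, str_cc, PowerSeries.constantCoeff_C,
        ← Polynomial.derivative_map]
      obtain ⟨a, b, hab⟩ := hs
      have := congrArg (Polynomial.eval₂ f r) hab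
      rw [Polynomial.eval₂_add, Polynomial.eval₂_mul, Polynomial.eval₂_mul, hr, mul_zero, zero_add,
        Polynomial.eval₂_one] at this
      exact IsUnit.of_mul_eq_one_right _ this)
  refine ⟨τ, ?_, ?_⟩
  · rwa [Polynomial.IsRoot.def, Polynomial.eval_map] at h1
  · rw [Ideal.mem_span_singleton, PowerSeries.X_dvd_iff, map_sub, PowerSeries.constantCoeff_C]
      at h2
    exact sub_eq_zero.1 h2

theorem str_lift (Th : (Ps κ)[X]) (hm : Th.Monic)
    (hs : (Th.map PowerSeries.constantCoeff).Separable) :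
    ∃ t ε : Ps κ[X], PowerSeries.constantCoeff t = Polynomial.X ∧ IsUnit ε ∧
      Th.eval₂ (PowerSeries.map Polynomial.C) t =
        PowerSeries.C (Th.map PowerSeries.constantCoeff) * ε := by
  set T := Th.map PowerSeries.constantCoeff with hT
  obtain ⟨τ, h1, h2⟩ := str_root (AdjoinRoot.of T) Th hm hs (AdjoinRoot.root T)
    (AdjoinRoot.eval₂_root T)
  choose l hl using AdjoinRoot.mk_surjective (g := T)
  let t : Ps κ[X] := PowerSeries.mk fun n =>
    if n = 0 then Polynomial.X else l (PowerSeries.coeff n τ)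
  have ht0 : PowerSeries.constantCoeff t = Polynomial.X := by
    rw [← PowerSeries.coeff_zero_eq_constantCoeff_apply]
    simp [t]
  have ht : PowerSeries.map (AdjoinRoot.mk T) t = τ := by
    ext n
    rw [PowerSeries.coeff_map, PowerSeries.coeff_mk]
    split_ifs with hn
    · subst hn
      rw [AdjoinRoot.mk_X, PowerSeries.coeff_zero_eq_constantCoeff_apply, h2]
    · exact hl _
  have h3 : PowerSeries.map (AdjoinRoot.mk T) (Th.eval₂ (PowerSeries.map Polynomial.C) t) = 0 := by
    rw [Polynomial.hom_eval₂, ht, ← PowerSeries.map_comp]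
    exact h1
  have h4 : ∀ n, T ∣ PowerSeries.coeff n (Th.eval₂ (PowerSeries.map Polynomial.C) t) := by
    intro n
    rw [← AdjoinRoot.mk_eq_zero, ← PowerSeries.coeff_map, h3, map_zero]
  choose c hc using h4
  have h5 : Th.eval₂ (PowerSeries.map Polynomial.C) t = PowerSeries.C T * PowerSeries.mk c := by
    ext n : 1
    rw [PowerSeries.coeff_C_mul, PowerSeries.coeff_mk, hc]
  refine ⟨t, PowerSeries.mk c, ht0, PowerSeries.isUnit_iff_constantCoeff.2 ?_, h5⟩
  have h6 := congrArg PowerSeries.constantCoeff h5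
  rw [str_cc, ht0, Polynomial.eval₂_C_X, map_mul, PowerSeries.constantCoeff_C, ← hT] at h6
  have hT0 : T ≠ 0 := (hm.map _).ne_zero
  have h7 : PowerSeries.constantCoeff (PowerSeries.mk c) = 1 :=
    mul_left_cancel₀ hT0 (by rw [← h6, mul_one])
  rw [h7]
  exact isUnit_one

theorem straighten (Th : (Ps κ)[X]) (hm : Th.Monic)
    (hs : (Th.map PowerSeries.constantCoeff).Separable) :
    ∃ (Φ : Ps κ[X] ≃+* Ps κ[X]) (ε : Ps κ[X]), Φ PowerSeries.X = PowerSeries.X ∧
      (∀ p, PowerSeries.constantCoeff (Φ (PowerSeries.C p)) = p) ∧ IsUnit ε ∧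
      Φ (al κ Th) = PowerSeries.C (Th.map PowerSeries.constantCoeff) * ε := by
  obtain ⟨t, ε, ht0, hε, hth⟩ := str_lift Th hm hs
  obtain ⟨H, hX, hC⟩ := exists_hat
    (Polynomial.eval₂RingHom ((PowerSeries.C : κ[X] →+* Ps κ[X]).comp Polynomial.C) t)
  have h0 : ∀ p, PowerSeries.constantCoeff (H (PowerSeries.C p)) = p := by
    intro p
    rw [hC, Polynomial.coe_eval₂RingHom, Polynomial.hom_eval₂, ht0]
    have : (PowerSeries.constantCoeff : Ps κ[X] →+* κ[X]).comp
        ((PowerSeries.C : κ[X] →+* Ps κ[X]).comp Polynomial.C) = Polynomial.C := by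
      ext x : 1
      simp
    rw [this, Polynomial.eval₂_C_X]
  have hb : Function.Bijective H :=
    ⟨ps_injective H hX fun a b hab => by simpa only [h0] using hab,
      ps_surjective H hX fun a => ⟨a, h0 a⟩⟩
  refine ⟨RingEquiv.ofBijective H hb, ε, hX, h0, hε, ?_⟩
  have hm' : H.comp (PowerSeries.map Polynomial.C) = PowerSeries.map Polynomial.C := by
    refine ps_ext (by simp [hX]) (by simp) fun b => ?_
    rw [RingHom.comp_apply, PowerSeries.map_C, hC]
    simp
  rw [RingEquiv.ofBijective_apply, ← hth, al, Polynomial.coe_eval₂RingHom, Polynomial.hom_eval₂,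
    hm', hC]
  simp

end

end Pool.Agent.ZCy
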